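import Pool.Agent.Lib.MP_a17b09_nt.PQ.Stmts79

/-! PQ (MP_a17b09_nt), row N2: the weights are multiplicative up to small sets.  helper12. -/

set_option autoImplicit false

open Filter Topology Finset

namespace Pool.Agent.Lib.MP_a17b09_nt.PQ.N2x12

open CH CH.PE MRSG

theorem winN_mul {q : ℕ} {δ N : ℝ} (hδ : δ < 1 / 2) (hN : 1 ≤ N) {p n : ℕ} (hp : p.Prime)
    (hpy : (p : ℝ) ≤ N ^ (1 / 4 : ℝ)) : WinN q δ N (p * n) ↔ WinN q δ N n := by
  constructor
  · rintro ⟨r, hr, hrq, hrd, h1, h2⟩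
    refine ⟨r, hr, hrq, ?_, h1, h2⟩
    rcases hr.dvd_mul.1 hrd with h | h
    · exfalso
      have h3 : r = p := (Nat.prime_dvd_prime_iff_eq hr hp).1 h
      subst h3
      have h4 : N ^ (1 / 4 : ℝ) ≤ N ^ (1 - δ) :=
        Real.rpow_le_rpow_of_exponent_le hN (by linarith)
      linarith
    · exact h
  · rintro ⟨r, hr, hrq, hrd, h1, h2⟩
    exact ⟨r, hr, hrq, hrd.mul_left p, h1, h2⟩

theorem bN_mul {q : ℕ} {δ N : ℝ} (hδ : δ < 1 / 2) (hN : 1 ≤ N) {p n : ℕ} (hp : p.Prime)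
    (hpy : (p : ℝ) ≤ N ^ (1 / 4 : ℝ)) : bN q δ N (p * n) = bN q δ N n := by
  classical
  unfold bN
  simp only [winN_mul hδ hN hp hpy]

theorem norm_bN (q : ℕ) (δ N : ℝ) (n : ℕ) : ‖bN q δ N n‖ ≤ 1 := by
  classical
  unfold bN
  split_ifs <;> simp

/-- the weight `z ^ Ω b` with the fixed window -/
theorem wy_z {z : ℂ} (hz : ‖z‖ = 1) {q : ℕ} {δ N : ℝ} (hδ : δ < 1 / 2) (hN : 1 ≤ N) :
    Wy z (N ^ (1 / 4 : ℝ)) (fun n => z ^ Omn n * bN q δ N n) where
  le n := by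
    rw [norm_mul, norm_pow, hz, one_pow, one_mul]
    exact norm_bN q δ N n
  mul p n hp hpy hn := by
    rw [bN_mul hδ hN hp hpy]
    unfold Omn
    rw [ArithmeticFunction.cardFactors_mul hp.ne_zero hn.ne',
      ArithmeticFunction.cardFactors_apply_prime hp, pow_add, pow_one]
    ring

theorem rho_bd (hR : StRho) (d : ℕ) {δ : ℝ} (h0 : 0 < δ) (hδ : δ < 1 / 2) :
    0 ≤ rho (4 * d) δ ∧ rho (4 * d) δ ≤ 1 := by
  rcases Nat.eq_zero_or_pos d with h | h
  · subst h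
    unfold rho
    simp
  · have := hR (4 * d) (by omega) δ h0 hδ
    exact ⟨this.1.le, this.2⟩

/-- the weight `b - ρ` with the fixed window -/
theorem wy_r (hR : StRho) {d : ℕ} {δ N : ℝ} (h0 : 0 < δ) (hδ : δ < 1 / 2) (hN : 1 ≤ N) :
    Wy 1 (N ^ (1 / 4 : ℝ)) (fun n => bN (4 * d) δ N n - (rho (4 * d) δ : ℂ)) where
  le n := by
    classical
    obtain ⟨h1, h2⟩ := rho_bd hR d h0 hδ
    unfold bN
    split_ifs
    · rw [← Complex.ofReal_one, ← Complex.ofReal_sub, Complex.norm_real, Real.norm_eq_abs, abs_le]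
      constructor <;> linarith
    · rw [zero_sub, norm_neg, Complex.norm_real, Real.norm_eq_abs, abs_le]
      constructor <;> linarith
  mul p n hp hpy hn := by
    rw [bN_mul hδ hN hp hpy]
    ring

/-- powers of comparable numbers -/
theorem pow_cmp {r1 r2 N n η : ℝ} (hr1 : 0 < r1) (hr2 : 0 < r2) (hN : 1 ≤ N) (h1 : r1 * N < n)
    (h2 : n ≤ r2 * N) (hη : 0 < η) (hη1 : η < 1) :
    N ^ η / (r2 + 1 / r1 + 1) ≤ n ^ η ∧ n ^ η ≤ (r2 + 1 / r1 + 1) * N ^ η := by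
  have hN0 : 0 < N := by linarith
  have hP : 0 < N ^ η := Real.rpow_pos_of_pos hN0 η
  have hn0 : 0 < n := lt_trans (by positivity) h1
  have hr1' : 0 < 1 / r1 := by positivity
  set C : ℝ := r2 + 1 / r1 + 1 with hC
  have hC1 : 1 ≤ C := by linarith
  have hC0 : 0 < C := by linarith
  constructor
  · have h3 : r1 ^ η * N ^ η ≤ n ^ η := by
      rw [← Real.mul_rpow hr1.le hN0.le]
      exact Real.rpow_le_rpow (by positivity) h1.le hη.le
    have h4 : 1 / C ≤ r1 ^ η := by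
      rcases le_total r1 1 with h | h
      · have h5 : r1 ≤ r1 ^ η := by
          calc r1 = r1 ^ (1 : ℝ) := (Real.rpow_one _).symm
            _ ≤ r1 ^ η := Real.rpow_le_rpow_of_exponent_ge hr1 h hη1.le
        refine le_trans ?_ h5
        rw [div_le_iff₀ hC0]
        have h6 : r1 * (1 / r1) = 1 := by field_simp
        nlinarith
      · have h5 : 1 ≤ r1 ^ η := Real.one_le_rpow h hη.le
        refine le_trans ?_ h5
        rw [div_le_iff₀ hC0]
        linarith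
    calc N ^ η / C = 1 / C * N ^ η := by ring
      _ ≤ r1 ^ η * N ^ η := mul_le_mul_of_nonneg_right h4 hP.le
      _ ≤ n ^ η := h3
  · have h3 : n ^ η ≤ r2 ^ η * N ^ η := by
      rw [← Real.mul_rpow hr2.le hN0.le]
      exact Real.rpow_le_rpow hn0.le h2 hη.le
    have h4 : r2 ^ η ≤ C := by
      rcases le_total r2 1 with h | h
      · exact (Real.rpow_le_one hr2.le h hη.le).trans hC1
      · calc r2 ^ η ≤ r2 ^ (1 : ℝ) := Real.rpow_le_rpow_of_exponent_le h hη1.le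
          _ = r2 := Real.rpow_one _
          _ ≤ C := by linarith
    exact h3.trans (mul_le_mul_of_nonneg_right h4 hP.le)

/-- the two windows differ only near the end points -/
theorem win_ne {q : ℕ} {δ r1 r2 N : ℝ} (h0 : 0 < δ) (hδ : δ < 1 / 2) (hr1 : 0 < r1) (hr2 : 0 < r2)
    (hN : 1 ≤ N) {n : ℕ} (h1 : r1 * N < n) (h2 : (n : ℝ) ≤ r2 * N) (h : bb q δ n ≠ bN q δ N n) :
    ∃ η ∈ ({1 - δ, 1 - δ / 2} : Set ℝ), ∃ p : ℕ, p.Prime ∧ p ≡ 1 [MOD q] ∧ p ∣ n ∧
      N ^ η / (r2 + 1 / r1 + 1) < p ∧ (p : ℝ) ≤ (r2 + 1 / r1 + 1) * N ^ η := by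
  classical
  have hN0 : 0 < N := by linarith
  obtain ⟨a1, a2⟩ := pow_cmp hr1 hr2 hN h1 h2 (show 0 < 1 - δ by linarith) (by linarith)
  obtain ⟨b1, b2⟩ := pow_cmp hr1 hr2 hN h1 h2 (show 0 < 1 - δ / 2 by linarith) (by linarith)
  have hr1' : 0 < 1 / r1 := by positivity
  set C : ℝ := r2 + 1 / r1 + 1 with hC
  have hC1 : 1 ≤ C := by linarith
  have hC0 : 0 < C := by linarith
  have hA : 0 < N ^ (1 - δ) := Real.rpow_pos_of_pos hN0 _
  have hB : 0 < N ^ (1 - δ / 2) := Real.rpow_pos_of_pos hN0 _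
  have hA1 : N ^ (1 - δ) / C ≤ N ^ (1 - δ) := div_le_self hA.le hC1
  have hA2 : N ^ (1 - δ) ≤ C * N ^ (1 - δ) := by nlinarith
  have hB1 : N ^ (1 - δ / 2) / C ≤ N ^ (1 - δ / 2) := div_le_self hB.le hC1
  have hB2 : N ^ (1 - δ / 2) ≤ C * N ^ (1 - δ / 2) := by nlinarith
  have hx : ¬ (Win q δ n ↔ WinN q δ N n) := by
    intro hiff
    apply h
    unfold bb bN
    simp only [hiff]
  by_cases hw : Win q δ n
  · have hw' : ¬ WinN q δ N n := fun h3 => hx ⟨fun _ => h3, fun _ => hw⟩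
    obtain ⟨p, hp, hpq, hpd, k1, k2⟩ := hw
    rcases le_or_gt (p : ℝ) (N ^ (1 - δ)) with h3 | h3
    · exact ⟨1 - δ, by simp, p, hp, hpq, hpd, a1.trans_lt k1, h3.trans hA2⟩
    · have h4 : N ^ (1 - δ / 2) < p := by
        by_contra h5
        exact hw' ⟨p, hp, hpq, hpd, h3, not_lt.1 h5⟩
      exact ⟨1 - δ / 2, by simp, p, hp, hpq, hpd, hB1.trans_lt h4, k2.trans b2⟩
  · have hw' : WinN q δ N n := by
      by_contra h3
      exact hx ⟨fun h4 => absurd h4 hw, fun h4 => absurd h4 h3⟩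
    obtain ⟨p, hp, hpq, hpd, k1, k2⟩ := hw'
    rcases le_or_gt (p : ℝ) ((n : ℝ) ^ (1 - δ)) with h3 | h3
    · exact ⟨1 - δ, by simp, p, hp, hpq, hpd, hA1.trans_lt k1, h3.trans a2⟩
    · have h4 : (n : ℝ) ^ (1 - δ / 2) < p := by
        by_contra h5
        exact hw ⟨p, hp, hpq, hpd, h3, not_lt.1 h5⟩
      exact ⟨1 - δ / 2, by simp, p, hp, hpq, hpd, b1.trans_lt h4, k2.trans hB2⟩

open Classical in
/-- the exceptional vectors of a shell -/
theorem exc (d : ℕ) (hN : StNull d) {δ : ℝ} (h0 : 0 < δ) (hδ : δ < 1 / 2) (r1 r2 : ℝ)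
    (hr1 : 0 < r1) (hr12 : r1 < r2) (ε : ℝ) (hε : 0 < ε) : ∃ N0 : ℝ, 1 ≤ N0 ∧ ∀ N : ℝ, N0 ≤ N →
    ∀ i : Cl d, ((((Shg i (r1 * N) (r2 * N)).filter Prim).filter
      (fun v => bb (4 * d) δ ((rep i).q v).natAbs ≠
        bN (4 * d) δ N ((rep i).q v).natAbs)).card : ℝ) ≤ ε * N := by
  have hr2 : 0 < r2 := hr1.trans hr12
  have hr1' : 0 < 1 / r1 := by positivity
  have hr2' : 0 < 1 / r2 := by positivity
  set C : ℝ := r2 + 1 / r1 + 1 with hC
  have hC1 : 1 ≤ C := by linarith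
  have hC0 : 0 < C := by linarith
  set C' : ℝ := C * (r2 + 1) * (1 + 1 / r2) with hC'
  have hC'1 : 1 < C' := by
    have k1 : 1 < C := by linarith
    have k2 : 1 < r2 + 1 := by linarith
    have k3 : 1 < 1 + 1 / r2 := by linarith
    have k4 : 1 < C * (r2 + 1) := by nlinarith
    rw [hC']
    nlinarith
  set e : ℝ := ε / (2 * (r2 + 1)) with he
  have he0 : 0 < e := by positivity
  choose n1 hn1 using fun i : Cl d => hN (rep i) (rep_pos i) (by rw [rep_D]) (1 - δ) C'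
    (by linarith) (by linarith) hC'1 e he0
  choose n2 hn2 using fun i : Cl d => hN (rep i) (rep_pos i) (by rw [rep_D]) (1 - δ / 2) C'
    (by linarith) (by linarith) hC'1 e he0
  set m : ℕ := ∑ i, (n1 i + n2 i) with hm
  refine ⟨max 1 (m / r2), le_max_left _ _, fun N hNN i => ?_⟩
  have hN1 : 1 ≤ N := (le_max_left _ _).trans hNN
  have hN0 : 0 < N := by linarith
  have hmN : (m : ℝ) ≤ r2 * N := by
    have := (le_max_right _ _).trans hNN
    rw [div_le_iff₀ hr2] at this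
    linarith
  set M : ℕ := ⌈r2 * N⌉₊ with hM
  have hM1 : r2 * N ≤ M := Nat.le_ceil _
  have hM2 : (M : ℝ) ≤ (r2 + 1) * N := by
    have := (Nat.ceil_lt_add_one (show 0 ≤ r2 * N by positivity)).le
    linarith
  have hmM : m ≤ M := by exact_mod_cast hmN.trans hM1
  have hi1 : n1 i ≤ M := by
    have h1 : n1 i + n2 i ≤ m := single_le_sum (f := fun i => n1 i + n2 i)
      (fun _ _ => Nat.zero_le _) (mem_univ i)
    omega
  have hi2 : n2 i ≤ M := by
    have h1 : n1 i + n2 i ≤ m := single_le_sum (f := fun i => n1 i + n2 i)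
      (fun _ _ => Nat.zero_le _) (mem_univ i)
    omega
  have hcmp : ∀ η : ℝ, 0 < η → η < 1 → (M : ℝ) ^ η / C' ≤ N ^ η / C ∧
      C * N ^ η ≤ C' * (M : ℝ) ^ η := by
    intro η hη hη1
    have hM0 : (0 : ℝ) < M := lt_of_lt_of_le (by positivity) hM1
    have k1 : (M : ℝ) ^ η ≤ (r2 + 1) * N ^ η := by
      calc (M : ℝ) ^ η ≤ ((r2 + 1) * N) ^ η := Real.rpow_le_rpow hM0.le hM2 hη.le
        _ = (r2 + 1) ^ η * N ^ η := Real.mul_rpow (by linarith) hN0.le
        _ ≤ (r2 + 1) * N ^ η := by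
            apply mul_le_mul_of_nonneg_right _ (Real.rpow_nonneg hN0.le _)
            calc (r2 + 1) ^ η ≤ (r2 + 1) ^ (1 : ℝ) :=
                  Real.rpow_le_rpow_of_exponent_le (by linarith) hη1.le
              _ = r2 + 1 := Real.rpow_one _
    have k2 : N ^ η ≤ (1 + 1 / r2) * (M : ℝ) ^ η := by
      have k3 : N ≤ (1 + 1 / r2) * M := by
        have : r2 * N * (1 / r2) = N := by field_simp
        have k4 : N ≤ (1 / r2) * M := by nlinarith
        nlinarith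
      calc N ^ η ≤ ((1 + 1 / r2) * M) ^ η := Real.rpow_le_rpow hN0.le k3 hη.le
        _ = (1 + 1 / r2) ^ η * (M : ℝ) ^ η := Real.mul_rpow (by linarith) hM0.le
        _ ≤ (1 + 1 / r2) * (M : ℝ) ^ η := by
            apply mul_le_mul_of_nonneg_right _ (Real.rpow_nonneg hM0.le _)
            calc (1 + 1 / r2) ^ η ≤ (1 + 1 / r2) ^ (1 : ℝ) :=
                  Real.rpow_le_rpow_of_exponent_le (by linarith) hη1.le
              _ = 1 + 1 / r2 := Real.rpow_one _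
    have hNp : 0 < N ^ η := Real.rpow_pos_of_pos hN0 _
    have hMp : 0 < (M : ℝ) ^ η := Real.rpow_pos_of_pos hM0 _
    constructor
    · rw [div_le_div_iff₀ (by linarith) hC0, hC']
      have k5 : (r2 + 1) * N ^ η ≤ (r2 + 1) * N ^ η * (1 + 1 / r2) := by
        have : 0 ≤ (r2 + 1) * N ^ η * (1 / r2) := by positivity
        linarith
      calc (M : ℝ) ^ η * C ≤ (r2 + 1) * N ^ η * (1 + 1 / r2) * C :=
            mul_le_mul_of_nonneg_right (k1.trans k5) hC0.le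
        _ = _ := by ring
    · rw [hC']
      have k5 : (1 + 1 / r2) * (M : ℝ) ^ η ≤ (r2 + 1) * (1 + 1 / r2) * (M : ℝ) ^ η := by
        have : 0 ≤ r2 * ((1 + 1 / r2) * (M : ℝ) ^ η) := by positivity
        linarith
      calc C * N ^ η ≤ C * ((r2 + 1) * (1 + 1 / r2) * (M : ℝ) ^ η) :=
            mul_le_mul_of_nonneg_left (k2.trans k5) hC0.le
        _ = _ := by ring
  have h1 := hn1 i M hi1
  have h2 := hn2 i M hi2
  set S1 := ((rep i).ball M).filter (fun v => v ≠ 0 ∧ ∃ p : ℕ, p.Prime ∧ p ≡ 1 [MOD 4 * d] ∧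
    p ∣ ((rep i).q v).natAbs ∧ (M : ℝ) ^ (1 - δ) / C' < p ∧ (p : ℝ) ≤ C' * (M : ℝ) ^ (1 - δ))
    with hS1
  set S2 := ((rep i).ball M).filter (fun v => v ≠ 0 ∧ ∃ p : ℕ, p.Prime ∧ p ≡ 1 [MOD 4 * d] ∧
    p ∣ ((rep i).q v).natAbs ∧ (M : ℝ) ^ (1 - δ / 2) / C' < p ∧
    (p : ℝ) ≤ C' * (M : ℝ) ^ (1 - δ / 2)) with hS2
  have hsub : ((Shg i (r1 * N) (r2 * N)).filter Prim).filter
      (fun v => bb (4 * d) δ ((rep i).q v).natAbs ≠
        bN (4 * d) δ N ((rep i).q v).natAbs) ⊆ S1 ∪ S2 := by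
    intro v hv
    rw [mem_filter, mem_filter, mem_Shg] at hv
    obtain ⟨⟨⟨hv0, hv1, hv2⟩, -⟩, hv3⟩ := hv
    have hq := (rep_pos i).q_pos hv0
    have hcast : ((((rep i).q v).natAbs : ℕ) : ℝ) = (((rep i).q v : ℤ) : ℝ) := by
      rw [Nat.cast_natAbs, abs_of_pos hq]
    obtain ⟨η, hη, p, hp, hpq, hpd, k1, k2⟩ := win_ne h0 hδ hr1 hr2 hN1
      (by rw [hcast]; exact hv1) (by rw [hcast]; exact hv2) hv3
    have hball : v ∈ (rep i).ball M := by
      rw [Form.mem_ball (rep_pos i)]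
      have : (((rep i).q v : ℤ) : ℝ) ≤ ((M : ℤ) : ℝ) := by
        push_cast
        exact hv2.trans hM1
      exact_mod_cast this
    rw [mem_union]
    rcases hη with h | h
    · left
      subst h
      obtain ⟨c1, c2⟩ := hcmp (1 - δ) (by linarith) (by linarith)
      rw [hS1, mem_filter]
      exact ⟨hball, hv0, p, hp, hpq, hpd, c1.trans_lt k1, k2.trans c2⟩
    · right
      have h' : η = 1 - δ / 2 := h
      subst h'
      obtain ⟨c1, c2⟩ := hcmp (1 - δ / 2) (by linarith) (by linarith)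
      rw [hS2, mem_filter]
      exact ⟨hball, hv0, p, hp, hpq, hpd, c1.trans_lt k1, k2.trans c2⟩
  have h3 := (card_le_card hsub).trans (card_union_le _ _)
  have h4 : ((((Shg i (r1 * N) (r2 * N)).filter Prim).filter
      (fun v => bb (4 * d) δ ((rep i).q v).natAbs ≠
        bN (4 * d) δ N ((rep i).q v).natAbs)).card : ℝ) ≤ (S1.card : ℝ) + S2.card := by
    exact_mod_cast h3
  calc _ ≤ (S1.card : ℝ) + S2.card := h4
    _ ≤ e * M + e * M := add_le_add h1 h2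
    _ = 2 * e * M := by ring
    _ ≤ 2 * e * ((r2 + 1) * N) := mul_le_mul_of_nonneg_left hM2 (by positivity)
    _ = ε * N := by
        rw [he]
        field_simp

end Pool.Agent.Lib.MP_a17b09_nt.PQ.N2x12

namespace Pool.Agent.Lib.MP_a17b09_nt.PQ

open CH CH.PE MRSG N2x12

/-- row N2 -/
theorem stApx_12 (d : ℕ) (hN : StNull d) (hR : StRho) : StApx d := by
  classical
  intro δ h0 hδ
  refine ⟨fun z hz r1 r2 hr1 hr12 ε hε => ?_, fun r1 r2 hr1 hr12 ε hε => ?_⟩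
  · obtain ⟨N0, hN0, H⟩ := exc d hN h0 hδ r1 r2 hr1 hr12 ε hε
    refine ⟨N0, fun N hNN => ⟨_, wy_z (q := 4 * d) hz hδ (hN0.trans hNN), fun i => ?_⟩⟩
    refine le_trans ?_ (H N hNN i)
    have hsub : ((Shg i (r1 * N) (r2 * N)).filter Prim).filter
        (fun v => wz1 z (4 * d) δ ((rep i).q v).natAbs ≠
          z ^ Omn ((rep i).q v).natAbs * bN (4 * d) δ N ((rep i).q v).natAbs) ⊆
        ((Shg i (r1 * N) (r2 * N)).filter Prim).filter
        (fun v => bb (4 * d) δ ((rep i).q v).natAbs ≠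
          bN (4 * d) δ N ((rep i).q v).natAbs) := by
      intro v hv
      rw [mem_filter] at hv ⊢
      refine ⟨hv.1, fun h => hv.2 ?_⟩
      unfold wz1
      rw [h]
    exact_mod_cast card_le_card hsub
  · obtain ⟨N0, hN0, H⟩ := exc d hN h0 hδ r1 r2 hr1 hr12 ε hε
    refine ⟨N0, fun N hNN => ⟨_, wy_r hR (d := d) h0 hδ (hN0.trans hNN), fun i => ?_⟩⟩
    refine le_trans ?_ (H N hNN i)
    have hsub : ((Shg i (r1 * N) (r2 * N)).filter Prim).filter
        (fun v => wr (4 * d) δ ((rep i).q v).natAbs ≠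
          bN (4 * d) δ N ((rep i).q v).natAbs - (rho (4 * d) δ : ℂ)) ⊆
        ((Shg i (r1 * N) (r2 * N)).filter Prim).filter
        (fun v => bb (4 * d) δ ((rep i).q v).natAbs ≠
          bN (4 * d) δ N ((rep i).q v).natAbs) := by
      intro v hv
      rw [mem_filter] at hv ⊢
      refine ⟨hv.1, fun h => hv.2 ?_⟩
      unfold wr
      rw [h]
    exact_mod_cast card_le_card hsub

end Pool.Agent.Lib.MP_a17b09_nt.PQ
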