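import Pool.Agent.Lib.MP_a17b09_nt.PQ.StmtsX79

/-!
Project PX, (X2): the density is positive and at most one (helper11).
-/

set_option autoImplicit false

open Finset

namespace Pool.Agent.Lib.MP_a17b09_nt.PQ

/-- the exponents of a good set of windows -/
theorem GoodX.lt11 {X : Finset (ℝ × ℝ)} (hX : GoodX X) {I : ℝ × ℝ} (hI : I ∈ X) :
    I.2 < 1 ∧ I.2 < 2 * I.1 := by
  have h1 : I.2 ≤ ∑ J ∈ X, J.2 :=
    single_le_sum (f := fun J : ℝ × ℝ => J.2)
      (fun J hJ => ((hX.pos J hJ).1.trans (hX.pos J hJ).2).le) hI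
  have h2 : I.2 - I.1 ≤ ∑ J ∈ X, (J.2 - J.1) :=
    single_le_sum (f := fun J : ℝ × ℝ => J.2 - J.1)
      (fun J hJ => sub_nonneg.2 (hX.pos J hJ).2.le) hI
  rw [sum_sub_distrib] at h2
  have h3 := hX.top
  have h4 := hX.uniq I hI
  exact ⟨by linarith, by linarith⟩

theorem stRhoX_11 : StRhoX := by
  intro q hq X hX
  unfold rhoX
  have hφ : 2 ≤ Nat.totient q := by
    have h1 : Nat.totient q ≠ 1 := by
      intro h
      rcases (Nat.totient_eq_one_iff).1 h with h | h <;> omega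
    have h2 : 0 < Nat.totient q := Nat.totient_pos.2 (by omega)
    omega
  have hφr : (2 : ℝ) ≤ (Nat.totient q : ℝ) := by exact_mod_cast hφ
  have hφ1 : 2 / (Nat.totient q : ℝ) ≤ 1 := by
    rw [div_le_one (by linarith)]; exact hφr
  have hφ0 : 0 < 2 / (Nat.totient q : ℝ) := by positivity
  have key : ∀ I ∈ X, 0 < 2 / (Nat.totient q : ℝ) * Real.log (I.2 / I.1) ∧
      2 / (Nat.totient q : ℝ) * Real.log (I.2 / I.1) ≤ 1 := by
    intro I hI
    obtain ⟨h1, h2⟩ := hX.pos I hI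
    have h3 := (hX.lt11 hI).2
    have h4 : 1 < I.2 / I.1 := by rw [lt_div_iff₀ h1]; linarith
    have h5 : I.2 / I.1 ≤ 2 := by rw [div_le_iff₀ h1]; linarith
    have h6 : 0 < Real.log (I.2 / I.1) := Real.log_pos h4
    have h7 : Real.log (I.2 / I.1) ≤ 1 := by
      have := Real.log_le_sub_one_of_pos (zero_lt_one.trans h4)
      linarith
    exact ⟨by positivity, by nlinarith⟩
  exact ⟨prod_pos fun I hI => (key I hI).1,
    prod_le_one (fun I hI => (key I hI).1.le) fun I hI => (key I hI).2⟩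

end Pool.Agent.Lib.MP_a17b09_nt.PQ
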