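import Pool.Agent.Lib.MP_a17b09_nt.PQ.StmtsX79
import Pool.Agent.Lib.MP_a17b09_nt.PQ.N2_12
import Pool.Agent.Lib.MP_a17b09_nt.PQ.X2_11

/-!
Project PX (MP_a17b09_nt), (X3): the weights are multiplicative up to small sets (helper11, after
helper12's PQ/N2_12).
-/

set_option autoImplicit false

open Filter Topology Finset

namespace Pool.Agent.Lib.MP_a17b09_nt.PQ.X3x11

open CH CH.PE MRSG

theorem winXN_mul {q : ℕ} {X : Finset (ℝ × ℝ)} {c0 N : ℝ} (hc : ∀ I ∈ X, c0 ≤ I.1) (hN : 1 ≤ N)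
    {p n : ℕ} (hp : p.Prime) (hpy : (p : ℝ) ≤ N ^ c0) : WinXN q X N (p * n) ↔ WinXN q X N n := by
  constructor
  · intro h I hI
    obtain ⟨r, hr, hrq, hrd, h1, h2⟩ := h I hI
    refine ⟨r, hr, hrq, ?_, h1, h2⟩
    rcases hr.dvd_mul.1 hrd with h | h
    · exfalso
      have h3 : r = p := (Nat.prime_dvd_prime_iff_eq hr hp).1 h
      subst h3
      have h4 : N ^ c0 ≤ N ^ I.1 := Real.rpow_le_rpow_of_exponent_le hN (hc I hI)
      linarith
    · exact h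
  · intro h I hI
    obtain ⟨r, hr, hrq, hrd, h1, h2⟩ := h I hI
    exact ⟨r, hr, hrq, hrd.mul_left p, h1, h2⟩

theorem bXN_mul {q : ℕ} {X : Finset (ℝ × ℝ)} {c0 N : ℝ} (hc : ∀ I ∈ X, c0 ≤ I.1) (hN : 1 ≤ N)
    {p n : ℕ} (hp : p.Prime) (hpy : (p : ℝ) ≤ N ^ c0) : bXN q X N (p * n) = bXN q X N n := by
  classical
  unfold bXN
  simp only [winXN_mul hc hN hp hpy]

theorem norm_bXN (q : ℕ) (X : Finset (ℝ × ℝ)) (N : ℝ) (n : ℕ) : ‖bXN q X N n‖ ≤ 1 := by
  classical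
  unfold bXN
  split_ifs <;> simp

/-- the weight `z ^ Ω b` with the fixed windows -/
theorem wy_zX {z : ℂ} (hz : ‖z‖ = 1) {q : ℕ} {X : Finset (ℝ × ℝ)} {c0 N : ℝ}
    (hc : ∀ I ∈ X, c0 ≤ I.1) (hN : 1 ≤ N) :
    Wy z (N ^ c0) (fun n => z ^ Omn n * bXN q X N n) where
  le n := by
    rw [norm_mul, norm_pow, hz, one_pow, one_mul]
    exact norm_bXN q X N n
  mul p n hp hpy hn := by
    rw [bXN_mul hc hN hp hpy]
    unfold Omn
    rw [ArithmeticFunction.cardFactors_mul hp.ne_zero hn.ne',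
      ArithmeticFunction.cardFactors_apply_prime hp, pow_add, pow_one]
    ring

theorem rhoX_bd (hR : StRhoX) (d : ℕ) {X : Finset (ℝ × ℝ)} (hX : GoodX X) :
    0 ≤ rhoX (4 * d) X ∧ rhoX (4 * d) X ≤ 1 := by
  rcases Nat.eq_zero_or_pos d with h | h
  · subst h
    unfold rhoX
    refine ⟨prod_nonneg fun I _ => ?_, prod_le_one (fun I _ => ?_) fun I _ => ?_⟩ <;> simp
  · have := hR (4 * d) (by omega) X hX
    exact ⟨this.1.le, this.2⟩

/-- the weight `b - ρ` with the fixed windows -/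
theorem wy_rX (hR : StRhoX) {d : ℕ} {X : Finset (ℝ × ℝ)} (hX : GoodX X) {c0 N : ℝ}
    (hc : ∀ I ∈ X, c0 ≤ I.1) (hN : 1 ≤ N) :
    Wy 1 (N ^ c0) (fun n => bXN (4 * d) X N n - (rhoX (4 * d) X : ℂ)) where
  le n := by
    classical
    obtain ⟨h1, h2⟩ := rhoX_bd hR d hX
    unfold bXN
    split_ifs
    · rw [← Complex.ofReal_one, ← Complex.ofReal_sub, Complex.norm_real, Real.norm_eq_abs, abs_le]
      constructor <;> linarith
    · rw [zero_sub, norm_neg, Complex.norm_real, Real.norm_eq_abs, abs_le]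
      constructor <;> linarith
  mul p n hp hpy hn := by
    rw [bXN_mul hc hN hp hpy]
    ring

/-- the exponents of the windows -/
noncomputable def expo (X : Finset (ℝ × ℝ)) : Finset ℝ := X.image Prod.fst ∪ X.image Prod.snd

theorem expo_mem {X : Finset (ℝ × ℝ)} (hX : GoodX X) {η : ℝ} (h : η ∈ expo X) :
    0 < η ∧ η < 1 := by
  unfold expo at h
  rw [mem_union, mem_image, mem_image] at h
  rcases h with ⟨I, hI, rfl⟩ | ⟨I, hI, rfl⟩
  · exact ⟨(hX.pos I hI).1, (hX.pos I hI).2.trans (hX.lt11 hI).1⟩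
  · exact ⟨(hX.pos I hI).1.trans (hX.pos I hI).2, (hX.lt11 hI).1⟩

theorem fst_mem {X : Finset (ℝ × ℝ)} {I : ℝ × ℝ} (hI : I ∈ X) : I.1 ∈ expo X :=
  mem_union_left _ (mem_image_of_mem _ hI)

theorem snd_mem {X : Finset (ℝ × ℝ)} {I : ℝ × ℝ} (hI : I ∈ X) : I.2 ∈ expo X :=
  mem_union_right _ (mem_image_of_mem _ hI)

/-- `n` has a prime factor `≡ 1 mod q` near one of the powers `N ^ η`, `η ∈ E` -/
def Near (q : ℕ) (E : Finset ℝ) (C N : ℝ) (n : ℕ) : Prop := ∃ η ∈ E, ∃ p : ℕ, p.Prime ∧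
  p ≡ 1 [MOD q] ∧ p ∣ n ∧ N ^ η / C < p ∧ (p : ℝ) ≤ C * N ^ η

/-- the two families of windows differ only near the end points -/
theorem win_neX {q : ℕ} {X : Finset (ℝ × ℝ)} (hX : GoodX X) {r1 r2 N : ℝ} (hr1 : 0 < r1)
    (hr2 : 0 < r2) (hN : 1 ≤ N) {n : ℕ} (h1 : r1 * N < n) (h2 : (n : ℝ) ≤ r2 * N)
    (h : bX q X n ≠ bXN q X N n) : Near q (expo X) (r2 + 1 / r1 + 1) N n := by
  classical
  have hN0 : 0 < N := by linarith
  have hr1' : 0 < 1 / r1 := by positivity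
  have hcmp : ∀ η ∈ expo X, N ^ η / (r2 + 1 / r1 + 1) ≤ (n : ℝ) ^ η ∧
      (n : ℝ) ^ η ≤ (r2 + 1 / r1 + 1) * N ^ η := fun η hη =>
    N2x12.pow_cmp hr1 hr2 hN h1 h2 (expo_mem hX hη).1 (expo_mem hX hη).2
  set C : ℝ := r2 + 1 / r1 + 1 with hC
  have hC1 : 1 ≤ C := by linarith
  have hC0 : 0 < C := by linarith
  have hself : ∀ η : ℝ, N ^ η / C ≤ N ^ η ∧ N ^ η ≤ C * N ^ η := by
    intro η
    have hA : 0 < N ^ η := Real.rpow_pos_of_pos hN0 _
    exact ⟨div_le_self hA.le hC1, by nlinarith⟩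
  have hx : ¬ (WinX q X n ↔ WinXN q X N n) := by
    intro hiff
    apply h
    unfold bX bXN
    simp only [hiff]
  by_cases hw : WinX q X n
  · have hw' : ¬ WinXN q X N n := fun h3 => hx ⟨fun _ => h3, fun _ => hw⟩
    unfold WinXN at hw'
    push Not at hw'
    obtain ⟨I, hI, hno⟩ := hw'
    obtain ⟨p, hp, hpq, hpd, k1, k2⟩ := hw I hI
    rcases le_or_gt (p : ℝ) (N ^ I.1) with h3 | h3
    · exact ⟨I.1, fst_mem hI, p, hp, hpq, hpd, (hcmp _ (fst_mem hI)).1.trans_lt k1,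
        h3.trans (hself _).2⟩
    · exact ⟨I.2, snd_mem hI, p, hp, hpq, hpd, (hself _).1.trans_lt (hno p hp hpq hpd h3),
        k2.trans (hcmp _ (snd_mem hI)).2⟩
  · have hw' : WinXN q X N n := by
      by_contra h3
      exact hx ⟨fun h4 => absurd h4 hw, fun h4 => absurd h4 h3⟩
    unfold WinX at hw
    push Not at hw
    obtain ⟨I, hI, hno⟩ := hw
    obtain ⟨p, hp, hpq, hpd, k1, k2⟩ := hw' I hI
    rcases le_or_gt (p : ℝ) ((n : ℝ) ^ I.1) with h3 | h3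
    · exact ⟨I.1, fst_mem hI, p, hp, hpq, hpd, (hself _).1.trans_lt k1,
        h3.trans (hcmp _ (fst_mem hI)).2⟩
    · exact ⟨I.2, snd_mem hI, p, hp, hpq, hpd,
        (hcmp _ (snd_mem hI)).1.trans_lt (hno p hp hpq hpd h3), k2.trans (hself _).2⟩

/-- a positive number below the windows -/
theorem exists_c0 {X : Finset (ℝ × ℝ)} (hX : GoodX X) : ∃ c0 : ℝ, 0 < c0 ∧ ∀ I ∈ X, c0 ≤ I.1 := by
  classical
  rcases X.eq_empty_or_nonempty with h | h
  · exact ⟨1, one_pos, by simp [h]⟩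
  · obtain ⟨J, hJ, hJm⟩ := X.exists_min_image (fun I => I.1) h
    exact ⟨J.1, (hX.pos J hJ).1, fun I hI => hJm I hI⟩

/-- the scales `M = ⌈r2 N⌉` and `N` -/
theorem scale {r1 r2 N : ℝ} (hr1 : 0 < r1) (hr2 : 0 < r2) (hN1 : 1 ≤ N) {M : ℕ}
    (hM1 : r2 * N ≤ M) (hM2 : (M : ℝ) ≤ (r2 + 1) * N) {η : ℝ} (hη : 0 < η) (hη1 : η < 1) :
    (M : ℝ) ^ η / ((r2 + 1 / r1 + 1) * (r2 + 1) * (1 + 1 / r2)) ≤ N ^ η / (r2 + 1 / r1 + 1) ∧
      (r2 + 1 / r1 + 1) * N ^ η ≤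
        (r2 + 1 / r1 + 1) * (r2 + 1) * (1 + 1 / r2) * (M : ℝ) ^ η := by
  have hN0 : 0 < N := by linarith
  have hr1' : 0 < 1 / r1 := by positivity
  have hr2' : 0 < 1 / r2 := by positivity
  set C : ℝ := r2 + 1 / r1 + 1 with hC
  have hC0 : 0 < C := by linarith
  have hM0 : (0 : ℝ) < M := lt_of_lt_of_le (by positivity) hM1
  have k1 : (M : ℝ) ^ η ≤ (r2 + 1) * N ^ η := by
    calc (M : ℝ) ^ η ≤ ((r2 + 1) * N) ^ η := Real.rpow_le_rpow hM0.le hM2 hη.le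
      _ = (r2 + 1) ^ η * N ^ η := Real.mul_rpow (by linarith) hN0.le
      _ ≤ (r2 + 1) * N ^ η := by
          apply mul_le_mul_of_nonneg_right _ (Real.rpow_nonneg hN0.le _)
          calc (r2 + 1) ^ η ≤ (r2 + 1) ^ (1 : ℝ) :=
                Real.rpow_le_rpow_of_exponent_le (by linarith) hη1.le
            _ = r2 + 1 := Real.rpow_one _
  have k2 : N ^ η ≤ (1 + 1 / r2) * (M : ℝ) ^ η := by
    have k3 : N ≤ (1 + 1 / r2) * M := by
      have : r2 * N * (1 / r2) = N := by field_simp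
      have k4 : N ≤ (1 / r2) * M := by nlinarith
      nlinarith
    calc N ^ η ≤ ((1 + 1 / r2) * M) ^ η := Real.rpow_le_rpow hN0.le k3 hη.le
      _ = (1 + 1 / r2) ^ η * (M : ℝ) ^ η := Real.mul_rpow (by linarith) hM0.le
      _ ≤ (1 + 1 / r2) * (M : ℝ) ^ η := by
          apply mul_le_mul_of_nonneg_right _ (Real.rpow_nonneg hM0.le _)
          calc (1 + 1 / r2) ^ η ≤ (1 + 1 / r2) ^ (1 : ℝ) :=
                Real.rpow_le_rpow_of_exponent_le (by linarith) hη1.le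
            _ = 1 + 1 / r2 := Real.rpow_one _
  have hNp : 0 < N ^ η := Real.rpow_pos_of_pos hN0 _
  have hMp : 0 < (M : ℝ) ^ η := Real.rpow_pos_of_pos hM0 _
  constructor
  · rw [div_le_div_iff₀ (by positivity) hC0]
    have k5 : (r2 + 1) * N ^ η ≤ (r2 + 1) * N ^ η * (1 + 1 / r2) := by
      have : 0 ≤ (r2 + 1) * N ^ η * (1 / r2) := by positivity
      linarith
    calc (M : ℝ) ^ η * C ≤ (r2 + 1) * N ^ η * (1 + 1 / r2) * C :=
          mul_le_mul_of_nonneg_right (k1.trans k5) hC0.le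
      _ = _ := by ring
  · have k5 : (1 + 1 / r2) * (M : ℝ) ^ η ≤ (r2 + 1) * (1 + 1 / r2) * (M : ℝ) ^ η := by
      have : 0 ≤ r2 * ((1 + 1 / r2) * (M : ℝ) ^ η) := by positivity
      linarith
    calc C * N ^ η ≤ C * ((r2 + 1) * (1 + 1 / r2) * (M : ℝ) ^ η) :=
          mul_le_mul_of_nonneg_left (k2.trans k5) hC0.le
      _ = _ := by ring

open Classical in
/-- the exceptional vectors of a shell -/
theorem excX (d : ℕ) (hN : StNull d) (E : Finset ℝ) (hE : ∀ η ∈ E, 0 < η ∧ η < 1) (r1 r2 : ℝ)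
    (hr1 : 0 < r1) (hr12 : r1 < r2) (ε : ℝ) (hε : 0 < ε) : ∃ N0 : ℝ, 1 ≤ N0 ∧ ∀ N : ℝ, N0 ≤ N →
    ∀ i : Cl d, ((((Shg i (r1 * N) (r2 * N)).filter Prim).filter
      (fun v => Near (4 * d) E (r2 + 1 / r1 + 1) N ((rep i).q v).natAbs)).card : ℝ) ≤ ε * N := by
  have hr2 : 0 < r2 := hr1.trans hr12
  have hr1' : 0 < 1 / r1 := by positivity
  have hr2' : 0 < 1 / r2 := by positivity
  set C : ℝ := r2 + 1 / r1 + 1 with hC
  have hC1 : 1 ≤ C := by linarith
  set C' : ℝ := C * (r2 + 1) * (1 + 1 / r2) with hC'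
  have hC'1 : 1 < C' := by
    have k1 : 1 < C := by linarith
    have k2 : 1 < r2 + 1 := by linarith
    have k3 : 1 < 1 + 1 / r2 := by linarith
    have k4 : 1 < C * (r2 + 1) := by nlinarith
    rw [hC']
    nlinarith
  set e : ℝ := ε / ((E.card + 1) * (r2 + 1)) with he
  have he0 : 0 < e := by positivity
  choose n0 hn0 using fun (i : Cl d) (η : E) => hN (rep i) (rep_pos i) (by rw [rep_D]) η.1 C'
    (hE _ η.2).1 (hE _ η.2).2 hC'1 e he0
  set m : ℕ := ∑ i, ∑ η, n0 i η with hm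
  refine ⟨max 1 (m / r2), le_max_left _ _, fun N hNN i => ?_⟩
  have hN1 : 1 ≤ N := (le_max_left _ _).trans hNN
  have hN0 : 0 < N := by linarith
  have hmN : (m : ℝ) ≤ r2 * N := by
    have := (le_max_right _ _).trans hNN
    rw [div_le_iff₀ hr2] at this
    linarith
  set M : ℕ := ⌈r2 * N⌉₊ with hM
  have hM1 : r2 * N ≤ M := Nat.le_ceil _
  have hM2 : (M : ℝ) ≤ (r2 + 1) * N := by
    have := (Nat.ceil_lt_add_one (show 0 ≤ r2 * N by positivity)).le
    linarith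
  have hmM : m ≤ M := by exact_mod_cast hmN.trans hM1
  have hle : ∀ η : E, n0 i η ≤ M := by
    intro η
    have h1 : n0 i η ≤ ∑ η, n0 i η :=
      single_le_sum (f := fun η => n0 i η) (fun _ _ => Nat.zero_le _) (mem_univ η)
    have h2 : ∑ η, n0 i η ≤ m :=
      single_le_sum (f := fun i => ∑ η, n0 i η) (fun _ _ => Nat.zero_le _) (mem_univ i)
    omega
  set S : E → Finset V := fun η => ((rep i).ball M).filter (fun v => v ≠ 0 ∧ ∃ p : ℕ, p.Prime ∧
    p ≡ 1 [MOD 4 * d] ∧ p ∣ ((rep i).q v).natAbs ∧ (M : ℝ) ^ η.1 / C' < p ∧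
    (p : ℝ) ≤ C' * (M : ℝ) ^ η.1) with hS
  have hScard : ∀ η : E, ((S η).card : ℝ) ≤ e * M := fun η => hn0 i η M (hle η)
  have hsub : ((Shg i (r1 * N) (r2 * N)).filter Prim).filter
      (fun v => Near (4 * d) E C N ((rep i).q v).natAbs) ⊆ univ.biUnion S := by
    intro v hv
    rw [mem_filter, mem_filter, mem_Shg] at hv
    obtain ⟨⟨⟨hv0, hv1, hv2⟩, -⟩, η, hη, p, hp, hpq, hpd, k1, k2⟩ := hv
    have hball : v ∈ (rep i).ball M := by
      rw [Form.mem_ball (rep_pos i)]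
      have : (((rep i).q v : ℤ) : ℝ) ≤ ((M : ℤ) : ℝ) := by
        push_cast
        exact hv2.trans hM1
      exact_mod_cast this
    obtain ⟨c1, c2⟩ := scale hr1 hr2 hN1 hM1 hM2 (hE η hη).1 (hE η hη).2
    rw [mem_biUnion]
    refine ⟨⟨η, hη⟩, mem_univ _, ?_⟩
    rw [hS, mem_filter]
    exact ⟨hball, hv0, p, hp, hpq, hpd, c1.trans_lt k1, k2.trans c2⟩
  have h3 : (((((Shg i (r1 * N) (r2 * N)).filter Prim).filter
      (fun v => Near (4 * d) E C N ((rep i).q v).natAbs)).card : ℕ) : ℝ) ≤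
      ∑ η : E, ((S η).card : ℝ) := by
    have := (card_le_card hsub).trans card_biUnion_le
    exact_mod_cast this
  calc _ ≤ ∑ η : E, ((S η).card : ℝ) := h3
    _ ≤ ∑ _η : E, e * M := sum_le_sum fun η _ => hScard η
    _ = E.card * (e * M) := by
        rw [sum_const, nsmul_eq_mul, card_univ, Fintype.card_coe]
    _ ≤ (E.card + 1) * (e * ((r2 + 1) * N)) := by
        refine mul_le_mul (by linarith) (mul_le_mul_of_nonneg_left hM2 he0.le) (by positivity)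
          (by positivity)
    _ = ε * N := by
        rw [he]
        field_simp

end Pool.Agent.Lib.MP_a17b09_nt.PQ.X3x11

namespace Pool.Agent.Lib.MP_a17b09_nt.PQ

open CH CH.PE MRSG X3x11

/-- row X3 -/
theorem stApxX_11 (d : ℕ) (hN : StNull d) (hR : StRhoX) : StApxX d := by
  classical
  intro X hX
  obtain ⟨c0, hc0, hc⟩ := exists_c0 hX
  refine ⟨c0, hc0, fun z hz r1 r2 hr1 hr12 ε hε => ?_, fun r1 r2 hr1 hr12 ε hε => ?_⟩
  · obtain ⟨N0, hN0, H⟩ := excX d hN (expo X) (fun η h => expo_mem hX h) r1 r2 hr1 hr12 ε hε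
    refine ⟨N0, fun N hNN => ⟨_, wy_zX (q := 4 * d) hz hc (hN0.trans hNN), fun i => ?_⟩⟩
    refine le_trans ?_ (H N hNN i)
    have hsub : ((Shg i (r1 * N) (r2 * N)).filter Prim).filter
        (fun v => wzX z (4 * d) X ((rep i).q v).natAbs ≠
          z ^ Omn ((rep i).q v).natAbs * bXN (4 * d) X N ((rep i).q v).natAbs) ⊆
        ((Shg i (r1 * N) (r2 * N)).filter Prim).filter
        (fun v => Near (4 * d) (expo X) (r2 + 1 / r1 + 1) N ((rep i).q v).natAbs) := by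
      intro v hv
      rw [mem_filter] at hv ⊢
      obtain ⟨hv1, hv2⟩ := hv
      refine ⟨hv1, ?_⟩
      rw [mem_filter, mem_Shg] at hv1
      obtain ⟨⟨hv0, ha, hb⟩, -⟩ := hv1
      have hq := (rep_pos i).q_pos hv0
      have hcast : ((((rep i).q v).natAbs : ℕ) : ℝ) = (((rep i).q v : ℤ) : ℝ) := by
        rw [Nat.cast_natAbs, abs_of_pos hq]
      refine win_neX hX hr1 (hr1.trans hr12) (hN0.trans hNN) (by rw [hcast]; exact ha)
        (by rw [hcast]; exact hb) (fun h => hv2 ?_)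
      unfold wzX
      rw [h]
    exact_mod_cast card_le_card hsub
  · obtain ⟨N0, hN0, H⟩ := excX d hN (expo X) (fun η h => expo_mem hX h) r1 r2 hr1 hr12 ε hε
    refine ⟨N0, fun N hNN => ⟨_, wy_rX hR (d := d) hX hc (hN0.trans hNN), fun i => ?_⟩⟩
    refine le_trans ?_ (H N hNN i)
    have hsub : ((Shg i (r1 * N) (r2 * N)).filter Prim).filter
        (fun v => wrX (4 * d) X ((rep i).q v).natAbs ≠
          bXN (4 * d) X N ((rep i).q v).natAbs - (rhoX (4 * d) X : ℂ)) ⊆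
        ((Shg i (r1 * N) (r2 * N)).filter Prim).filter
        (fun v => Near (4 * d) (expo X) (r2 + 1 / r1 + 1) N ((rep i).q v).natAbs) := by
      intro v hv
      rw [mem_filter] at hv ⊢
      obtain ⟨hv1, hv2⟩ := hv
      refine ⟨hv1, ?_⟩
      rw [mem_filter, mem_Shg] at hv1
      obtain ⟨⟨hv0, ha, hb⟩, -⟩ := hv1
      have hq := (rep_pos i).q_pos hv0
      have hcast : ((((rep i).q v).natAbs : ℕ) : ℝ) = (((rep i).q v : ℤ) : ℝ) := by
        rw [Nat.cast_natAbs, abs_of_pos hq]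
      refine win_neX hX hr1 (hr1.trans hr12) (hN0.trans hNN) (by rw [hcast]; exact ha)
        (by rw [hcast]; exact hb) (fun h => hv2 ?_)
      unfold wrX
      rw [h]
    exact_mod_cast card_le_card hsub

end Pool.Agent.Lib.MP_a17b09_nt.PQ
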