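import Pool.Agent.Lib.MP_a17b09_nt.PQ.Stmts79
import Pool.Agent.Lib.MP_a17b09_nt.CH.C0_90

/-!
Project PQ, (N3): the weights are multiplicative outside sets of density zero (helper11).
-/

set_option autoImplicit false

open Filter Topology Finset

namespace Pool.Agent.Lib.MP_a17b09_nt.PQ

open CH CH.PE MRSG MRS

namespace N3

/-- the windows of `m` and `p m` differ only by primes near the two ends -/
theorem win_diff {q : ℕ} {δ : ℝ} (h0 : 0 < δ) (h1 : δ < 1 / 2) {p m : ℕ} (hp : p.Prime)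
    (hm : p ≤ m) (h : ¬ (Win q δ (p * m) ↔ Win q δ m)) :
    ∃ θ : ℝ, (θ = 1 - δ ∨ θ = 1 - δ / 2) ∧ ∃ r : ℕ, r.Prime ∧ r ≡ 1 [MOD q] ∧ r ∣ m ∧
      (m : ℝ) ^ θ < r ∧ (r : ℝ) ≤ ((p : ℝ) * m) ^ θ := by
  have hp1 : (1 : ℝ) ≤ p := by exact_mod_cast hp.one_lt.le
  have hmr : (p : ℝ) ≤ m := by exact_mod_cast hm
  have hm0 : (0 : ℝ) ≤ m := by positivity
  have hle : (m : ℝ) ≤ (p : ℝ) * m := by nlinarith
  by_cases hW : Win q δ m
  · have hW' : ¬ Win q δ (p * m) := fun h2 => h ⟨fun _ => hW, fun _ => h2⟩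
    obtain ⟨r, hr, hr1, hrm, ha, hb⟩ := hW
    refine ⟨1 - δ, Or.inl rfl, r, hr, hr1, hrm, ha, ?_⟩
    by_contra hc
    push Not at hc
    refine hW' ⟨r, hr, hr1, Dvd.dvd.mul_left hrm p, ?_, ?_⟩
    · push_cast; exact hc
    · push_cast
      exact hb.trans (Real.rpow_le_rpow hm0 hle (by linarith))
  · have hW' : Win q δ (p * m) := by
      by_contra h2
      exact h ⟨fun h3 => absurd h3 h2, fun h3 => absurd h3 hW⟩
    obtain ⟨r, hr, hr1, hrm, ha, hb⟩ := hW'
    push_cast at ha hb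
    have hrm' : r ∣ m := by
      rcases (Nat.Prime.dvd_mul hr).1 hrm with h2 | h2
      · exfalso
        have h3 : r = p := (Nat.prime_dvd_prime_iff_eq hr hp).1 h2
        rw [h3] at ha
        have h4 : (p : ℝ) ^ (1 : ℝ) ≤ ((p : ℝ) * m) ^ (1 - δ) := by
          calc (p : ℝ) ^ (1 : ℝ) ≤ (p : ℝ) ^ (2 * (1 - δ)) :=
                Real.rpow_le_rpow_of_exponent_le hp1 (by linarith)
            _ = ((p : ℝ) ^ (2 : ℝ)) ^ (1 - δ) := by rw [Real.rpow_mul (by linarith)]
            _ ≤ ((p : ℝ) * m) ^ (1 - δ) := by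
                refine Real.rpow_le_rpow (by positivity) ?_ (by linarith)
                have : (p : ℝ) ^ (2 : ℝ) = (p : ℝ) * p := by
                  rw [show (2 : ℝ) = ((2 : ℕ) : ℝ) by norm_num, Real.rpow_natCast]; ring
                rw [this]
                nlinarith
        rw [Real.rpow_one] at h4
        linarith
      · exact h2
    refine ⟨1 - δ / 2, Or.inr rfl, r, hr, hr1, hrm', ?_, hb⟩
    by_contra hc
    push Not at hc
    refine hW ⟨r, hr, hr1, hrm', ?_, hc⟩
    exact lt_of_le_of_lt (Real.rpow_le_rpow hm0 hle (by linarith)) ha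

theorem main (hN : ∀ d, StNull d) {ι : Type} [Fintype ι] (S : System ι) {δ : ℝ} (h0 : 0 < δ)
    (h1 : δ < 1 / 2) (z : ℂ) (w : ℕ → ℂ)
    (hw : ∀ p m : ℕ, p.Prime → 0 < m → (Win (4 * S.d) δ (p * m) ↔ Win (4 * S.d) δ m) →
      w (p * m) = z * w m) : DilW S z w := by
  classical
  intro p hp _ ε hε
  have key : ∀ i : ι, ∀ᶠ n : ℕ in atTop,
      ((((S.Q i).pball n).filter (fun v => w (p * ((S.Q i).q v).natAbs) ≠
        z * w ((S.Q i).q v).natAbs)).card : ℝ) ≤ ε * n := by
    intro i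
    have hQ := S.pos i
    obtain ⟨C0, hC0, hC⟩ := pballCard90 (S.Q i) hQ
    have hp1 : (1 : ℝ) ≤ p := by exact_mod_cast hp.one_lt.le
    set η : ℝ := min 1 (ε / (2 * (C0 + 1))) with hη
    have hη0 : 0 < η := lt_min one_pos (by positivity)
    have hη1 : η ≤ 1 := min_le_left _ _
    have hη2 : C0 * η ≤ ε / 2 := by
      have h2 : η ≤ ε / (2 * (C0 + 1)) := min_le_right _ _
      have h3 : C0 * η ≤ (C0 + 1) * (ε / (2 * (C0 + 1))) := by
        refine mul_le_mul (by linarith) h2 hη0.le (by linarith)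
      have h4 : (C0 + 1) * (ε / (2 * (C0 + 1))) = ε / 2 := by
        field_simp
      linarith
    set C : ℝ := 1 / η + p + 1 with hCdef
    have hηi : 0 < 1 / η := by positivity
    have hC1 : 1 < C := by rw [hCdef]; linarith
    have hθ1 : 0 < 1 - δ := by linarith
    obtain ⟨N1, hN1⟩ := hN S.d (S.Q i) hQ (S.disc i) (1 - δ) C hθ1 (by linarith) hC1 (ε / 4)
      (by positivity)
    obtain ⟨N2, hN2⟩ := hN S.d (S.Q i) hQ (S.disc i) (1 - δ / 2) C (by linarith) (by linarith) hC1
      (ε / 4) (by positivity)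
    filter_upwards [eventually_ge_atTop N1, eventually_ge_atTop N2,
      eventually_ge_atTop (⌈(p : ℝ) / η⌉₊ + 1)] with n hn1 hn2 hn3
    have hA1 := hN1 n hn1
    have hA2 := hN2 n hn2
    have hn0 : (0 : ℝ) < n := by
      have : 0 < n := by omega
      exact_mod_cast this
    have hnp : (p : ℝ) ≤ η * n := by
      have h2 : (p : ℝ) / η ≤ n := by
        refine (Nat.le_ceil _).trans ?_
        exact_mod_cast (by omega : ⌈(p : ℝ) / η⌉₊ ≤ n)
      rw [div_le_iff₀ hη0] at h2
      linarith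
    set A1 := ((S.Q i).ball n).filter (fun v => v ≠ 0 ∧ ∃ p : ℕ, p.Prime ∧
      p ≡ 1 [MOD 4 * S.d] ∧ p ∣ ((S.Q i).q v).natAbs ∧ (n : ℝ) ^ (1 - δ) / C < p ∧
      (p : ℝ) ≤ C * (n : ℝ) ^ (1 - δ)) with hA1d
    set A2 := ((S.Q i).ball n).filter (fun v => v ≠ 0 ∧ ∃ p : ℕ, p.Prime ∧
      p ≡ 1 [MOD 4 * S.d] ∧ p ∣ ((S.Q i).q v).natAbs ∧ (n : ℝ) ^ (1 - δ / 2) / C < p ∧
      (p : ℝ) ≤ C * (n : ℝ) ^ (1 - δ / 2)) with hA2d
    have hsub : ((S.Q i).pball n).filter (fun v => w (p * ((S.Q i).q v).natAbs) ≠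
        z * w ((S.Q i).q v).natAbs) ⊆ (S.Q i).pball ⌊η * n⌋₊ ∪ (A1 ∪ A2) := by
      intro v hv
      rw [Finset.mem_filter] at hv
      obtain ⟨hvb, hvw⟩ := hv
      have hvb' := hvb
      unfold Form.pball at hvb'
      rw [Finset.mem_filter] at hvb'
      obtain ⟨hball, hprim⟩ := hvb'
      have hqn := (Form.mem_ball hQ).1 hball
      have hne : v ≠ 0 := by
        rintro rfl
        unfold Prim at hprim
        simp at hprim
      have hqpos := hQ.q_pos hne
      set m : ℕ := ((S.Q i).q v).natAbs with hm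
      have hmq : (m : ℤ) = (S.Q i).q v := by
        rw [hm]; exact Int.natAbs_of_nonneg hqpos.le
      have hm0 : 0 < m := by omega
      have hmn : m ≤ n := by omega
      rw [Finset.mem_union, Finset.mem_union]
      by_cases hsm : (m : ℝ) ≤ η * n
      · left
        unfold Form.pball
        rw [Finset.mem_filter, Form.mem_ball hQ]
        refine ⟨?_, hprim⟩
        have : m ≤ ⌊η * (n : ℝ)⌋₊ := Nat.le_floor hsm
        rw [← hmq]
        exact_mod_cast this
      · right
        push Not at hsm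
        have hpm : p ≤ m := by
          have : (p : ℝ) ≤ m := by linarith
          exact_mod_cast this
        have hiff : ¬ (Win (4 * S.d) δ (p * m) ↔ Win (4 * S.d) δ m) := fun h2 =>
          hvw (hw p m hp hm0 h2)
        obtain ⟨θ, hθ, r, hr, hr1, hrm, ha, hb⟩ := win_diff h0 h1 hp hpm hiff
        have hθ0 : 0 < θ := by rcases hθ with h2 | h2 <;> rw [h2] <;> linarith
        have hθ1 : θ ≤ 1 := by rcases hθ with h2 | h2 <;> rw [h2] <;> linarith
        have hnθ : 0 < (n : ℝ) ^ θ := Real.rpow_pos_of_pos hn0 θ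
        have hlow : (n : ℝ) ^ θ / C < r := by
          have h2 : (η * n) ^ θ ≤ (m : ℝ) ^ θ :=
            Real.rpow_le_rpow (by positivity) hsm.le hθ0.le
          rw [Real.mul_rpow hη0.le hn0.le] at h2
          have h3 : η ≤ η ^ θ := by
            calc η = η ^ (1 : ℝ) := (Real.rpow_one η).symm
              _ ≤ η ^ θ := Real.rpow_le_rpow_of_exponent_ge hη0 hη1 hθ1
          have h4 : 1 / C ≤ η := by
            rw [div_le_iff₀ (by linarith)]
            have h5 : η * (1 / η) = 1 := by field_simp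
            have h6 : 0 ≤ η * (p + 1) := by positivity
            rw [hCdef]
            nlinarith
          calc (n : ℝ) ^ θ / C = (1 / C) * (n : ℝ) ^ θ := by ring
            _ ≤ η ^ θ * (n : ℝ) ^ θ := mul_le_mul_of_nonneg_right (h4.trans h3) hnθ.le
            _ ≤ (m : ℝ) ^ θ := h2
            _ < r := ha
        have hup : (r : ℝ) ≤ C * (n : ℝ) ^ θ := by
          have hmr : (m : ℝ) ≤ n := by exact_mod_cast hmn
          calc (r : ℝ) ≤ ((p : ℝ) * m) ^ θ := hb
            _ ≤ ((p : ℝ) * n) ^ θ := by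
                refine Real.rpow_le_rpow (by positivity) ?_ hθ0.le
                exact mul_le_mul_of_nonneg_left hmr (by positivity)
            _ = (p : ℝ) ^ θ * (n : ℝ) ^ θ := Real.mul_rpow (by positivity) hn0.le
            _ ≤ C * (n : ℝ) ^ θ := by
                refine mul_le_mul_of_nonneg_right ?_ hnθ.le
                have h2 : (p : ℝ) ^ θ ≤ p := by
                  calc (p : ℝ) ^ θ ≤ (p : ℝ) ^ (1 : ℝ) :=
                        Real.rpow_le_rpow_of_exponent_le hp1 hθ1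
                    _ = p := Real.rpow_one _
                rw [hCdef]
                linarith
        rcases hθ with h2 | h2
        · left
          rw [h2] at hlow hup
          rw [hA1d, Finset.mem_filter]
          exact ⟨hball, hne, r, hr, hr1, hrm, hlow, hup⟩
        · right
          rw [h2] at hlow hup
          rw [hA2d, Finset.mem_filter]
          exact ⟨hball, hne, r, hr, hr1, hrm, hlow, hup⟩
    have hA1' : (A1.card : ℝ) ≤ ε / 4 * n := by convert hA1
    have hA2' : (A2.card : ℝ) ≤ ε / 4 * n := by convert hA2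
    have hB : (((S.Q i).pball ⌊η * (n : ℝ)⌋₊).card : ℝ) ≤ ε / 2 * n := by
      refine (hC _).trans ?_
      have h2 : ((⌊η * (n : ℝ)⌋₊ : ℕ) : ℝ) ≤ η * n := Nat.floor_le (by positivity)
      calc C0 * ((⌊η * (n : ℝ)⌋₊ : ℕ) : ℝ) ≤ C0 * (η * n) := mul_le_mul_of_nonneg_left h2 hC0
        _ = C0 * η * n := by ring
        _ ≤ ε / 2 * n := mul_le_mul_of_nonneg_right hη2 hn0.le
    have hcard := Finset.card_le_card hsub
    have hu1 := Finset.card_union_le ((S.Q i).pball ⌊η * (n : ℝ)⌋₊) (A1 ∪ A2)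
    have hu2 := Finset.card_union_le A1 A2
    have hfin : ((((S.Q i).pball n).filter (fun v => w (p * ((S.Q i).q v).natAbs) ≠
        z * w ((S.Q i).q v).natAbs)).card : ℝ) ≤
        (((S.Q i).pball ⌊η * (n : ℝ)⌋₊).card : ℝ) + ((A1.card : ℝ) + A2.card) := by
      exact_mod_cast hcard.trans (hu1.trans (by omega))
    linarith
  obtain ⟨n0, hn0⟩ := Filter.eventually_atTop.1 (Filter.eventually_all.2 key)
  refine ⟨n0, fun n hn i => ?_⟩
  convert hn0 n hn i

theorem bb_eq {q : ℕ} {δ : ℝ} {a b : ℕ} (h : Win q δ a ↔ Win q δ b) : bb q δ a = bb q δ b := by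
  unfold bb
  by_cases h1 : Win q δ b
  · rw [if_pos h1, if_pos (h.2 h1)]
  · rw [if_neg h1, if_neg (fun h2 => h1 (h.1 h2))]

end N3

theorem stDilN_11 (hN : ∀ d, StNull d) : StDilN := by
  intro ι _ S δ h0 h1
  refine ⟨fun z _ => ?_, ?_, ?_⟩
  · refine N3.main hN S h0 h1 z _ fun p m hp hm h => ?_
    unfold wz1 Omn
    rw [N3.bb_eq h, ArithmeticFunction.cardFactors_mul hp.ne_zero hm.ne',
      ArithmeticFunction.cardFactors_apply_prime hp]
    ring
  · refine N3.main hN S h0 h1 1 _ fun p m hp hm h => ?_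
    unfold wr
    rw [N3.bb_eq h, one_mul]
  · exact N3.main hN S h0 h1 1 _ fun p m hp hm h => by simp

end Pool.Agent.Lib.MP_a17b09_nt.PQ
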