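import Pool.Agent.Lib.MP_a17b09_nt.PQ.StmtsX79
import Pool.Agent.Lib.MP_a17b09_nt.PQ.N3_11

/-!
Project PX, (X4): the weights with arbitrary windows are multiplicative outside sets of density zero
(helper7, fork of N3_11).
-/

set_option autoImplicit false

open Filter Topology Finset

namespace Pool.Agent.Lib.MP_a17b09_nt.PQ

open CH CH.PE MRSG MRS

namespace X4x7

/-- one window -/
def WinI (q : ℕ) (I : ℝ × ℝ) (n : ℕ) : Prop := ∃ p : ℕ, p.Prime ∧ p ≡ 1 [MOD q] ∧ p ∣ n ∧
  (n : ℝ) ^ I.1 < p ∧ (p : ℝ) ≤ (n : ℝ) ^ I.2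

/-- the windows of `m` and `p m` differ only by primes near the two ends -/
theorem win_diff {q : ℕ} {I : ℝ × ℝ} (h0 : 0 < I.1) (h1 : I.1 < I.2) {p m : ℕ}
    (hp : p.Prime) (hm : (p : ℝ) ≤ (m : ℝ) ^ I.1) (h : ¬ (WinI q I (p * m) ↔ WinI q I m)) :
    ∃ θ : ℝ, (θ = I.1 ∨ θ = I.2) ∧ ∃ r : ℕ, r.Prime ∧ r ≡ 1 [MOD q] ∧ r ∣ m ∧
      (m : ℝ) ^ θ < r ∧ (r : ℝ) ≤ ((p : ℝ) * m) ^ θ := by
  have hp1 : (1 : ℝ) ≤ p := by exact_mod_cast hp.one_lt.le
  have hm0 : (0 : ℝ) ≤ m := by positivity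
  have hle : (m : ℝ) ≤ (p : ℝ) * m := by nlinarith
  have h2' : 0 < I.2 := h0.trans h1
  by_cases hW : WinI q I m
  · have hW' : ¬ WinI q I (p * m) := fun h2 => h ⟨fun _ => hW, fun _ => h2⟩
    obtain ⟨r, hr, hr1, hrm, ha, hb⟩ := hW
    refine ⟨I.1, Or.inl rfl, r, hr, hr1, hrm, ha, ?_⟩
    by_contra hc
    push Not at hc
    refine hW' ⟨r, hr, hr1, Dvd.dvd.mul_left hrm p, ?_, ?_⟩
    · push_cast; exact hc
    · push_cast
      exact hb.trans (Real.rpow_le_rpow hm0 hle h2'.le)
  · have hW' : WinI q I (p * m) := by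
      by_contra h2
      exact h ⟨fun h3 => absurd h3 h2, fun h3 => absurd h3 hW⟩
    obtain ⟨r, hr, hr1, hrm, ha, hb⟩ := hW'
    push_cast at ha hb
    have hrm' : r ∣ m := by
      rcases (Nat.Prime.dvd_mul hr).1 hrm with h2 | h2
      · exfalso
        have h3 : r = p := (Nat.prime_dvd_prime_iff_eq hr hp).1 h2
        rw [h3] at ha
        have h4 : (p : ℝ) ≤ ((p : ℝ) * m) ^ I.1 :=
          hm.trans (Real.rpow_le_rpow hm0 hle h0.le)
        linarith
      · exact h2
    refine ⟨I.2, Or.inr rfl, r, hr, hr1, hrm', ?_, hb⟩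
    by_contra hc
    push Not at hc
    refine hW ⟨r, hr, hr1, hrm', ?_, hc⟩
    exact lt_of_le_of_lt (Real.rpow_le_rpow hm0 hle h0.le) ha

theorem top_lt {X : Finset (ℝ × ℝ)} (hX : GoodX X) {I : ℝ × ℝ} (hI : I ∈ X) : I.2 < 1 := by
  have h1 : I.2 ≤ ∑ J ∈ X, J.2 := Finset.single_le_sum (f := fun J : ℝ × ℝ => J.2)
    (fun J hJ => ((hX.pos J hJ).1.trans (hX.pos J hJ).2).le) hI
  exact h1.trans_lt hX.top

theorem main (hN : ∀ d, StNull d) {ι : Type} [Fintype ι] (S : System ι) {X : Finset (ℝ × ℝ)}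
    (hX : GoodX X) (z : ℂ) (w : ℕ → ℂ)
    (hw : ∀ p m : ℕ, p.Prime → 0 < m → (WinX (4 * S.d) X (p * m) ↔ WinX (4 * S.d) X m) →
      w (p * m) = z * w m) : DilW S z w := by
  classical
  intro p hp _ ε hε
  have key : ∀ i : ι, ∀ᶠ n : ℕ in atTop,
      ((((S.Q i).pball n).filter (fun v => w (p * ((S.Q i).q v).natAbs) ≠
        z * w ((S.Q i).q v).natAbs)).card : ℝ) ≤ ε * n := by
    intro i
    have hQ := S.pos i
    obtain ⟨C0, hC0, hC⟩ := pballCard90 (S.Q i) hQ
    have hp1 : (1 : ℝ) ≤ p := by exact_mod_cast hp.one_lt.le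
    set η : ℝ := min 1 (ε / (2 * (C0 + 1))) with hη
    have hη0 : 0 < η := lt_min one_pos (by positivity)
    have hη1 : η ≤ 1 := min_le_left _ _
    have hη2 : C0 * η ≤ ε / 2 := by
      have h2 : η ≤ ε / (2 * (C0 + 1)) := min_le_right _ _
      have h3 : C0 * η ≤ (C0 + 1) * (ε / (2 * (C0 + 1))) := by
        refine mul_le_mul (by linarith) h2 hη0.le (by linarith)
      have h4 : (C0 + 1) * (ε / (2 * (C0 + 1))) = ε / 2 := by
        field_simp
      linarith
    set C : ℝ := 1 / η + p + 1 with hCdef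
    have hηi : 0 < 1 / η := by positivity
    have hC1 : 1 < C := by rw [hCdef]; linarith
    set e : ℝ := ε / (4 * (X.card + 1)) with he
    have he0 : 0 < e := by positivity
    set A : ℝ → ℕ → Finset V := fun θ n => ((S.Q i).ball n).filter (fun v => v ≠ 0 ∧ ∃ p : ℕ,
      p.Prime ∧ p ≡ 1 [MOD 4 * S.d] ∧ p ∣ ((S.Q i).q v).natAbs ∧ (n : ℝ) ^ θ / C < p ∧
      (p : ℝ) ≤ C * (n : ℝ) ^ θ) with hA
    have hAn : ∀ θ : ℝ, 0 < θ → θ < 1 → ∀ᶠ n : ℕ in atTop, ((A θ n).card : ℝ) ≤ e * n := by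
      intro θ h1 h2
      obtain ⟨N1, hN1⟩ := hN S.d (S.Q i) hQ (S.disc i) θ C h1 h2 hC1 e he0
      filter_upwards [eventually_ge_atTop N1] with n hn
      convert hN1 n hn
    have hA1 : ∀ᶠ n : ℕ in atTop, ∀ I ∈ X, ((A I.1 n).card : ℝ) ≤ e * n := by
      rw [Filter.eventually_all_finset]
      exact fun I hI => hAn _ (hX.pos I hI).1 ((hX.pos I hI).2.trans (top_lt hX hI))
    have hA2 : ∀ᶠ n : ℕ in atTop, ∀ I ∈ X, ((A I.2 n).card : ℝ) ≤ e * n := by
      rw [Filter.eventually_all_finset]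
      exact fun I hI => hAn _ ((hX.pos I hI).1.trans (hX.pos I hI).2) (top_lt hX hI)
    have hA3 : ∀ᶠ n : ℕ in atTop, ∀ I ∈ X, (p : ℝ) ≤ (η * (n : ℝ)) ^ I.1 := by
      rw [Filter.eventually_all_finset]
      intro I hI
      have h1 : Tendsto (fun n : ℕ => (η * (n : ℝ)) ^ I.1) atTop atTop :=
        (tendsto_rpow_atTop (hX.pos I hI).1).comp
          (tendsto_natCast_atTop_atTop.const_mul_atTop hη0)
      exact h1.eventually_ge_atTop _
    filter_upwards [hA1, hA2, hA3, eventually_ge_atTop 1] with n hA1 hA2 hA3 hn1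
    have hn0 : (0 : ℝ) < n := by
      have : 0 < n := by omega
      exact_mod_cast this
    have hsub : ((S.Q i).pball n).filter (fun v => w (p * ((S.Q i).q v).natAbs) ≠
        z * w ((S.Q i).q v).natAbs) ⊆ (S.Q i).pball ⌊η * n⌋₊ ∪
          X.biUnion (fun I => A I.1 n ∪ A I.2 n) := by
      intro v hv
      rw [Finset.mem_filter] at hv
      obtain ⟨hvb, hvw⟩ := hv
      have hvb' := hvb
      unfold Form.pball at hvb'
      rw [Finset.mem_filter] at hvb'
      obtain ⟨hball, hprim⟩ := hvb'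
      have hqn := (Form.mem_ball hQ).1 hball
      have hne : v ≠ 0 := by
        rintro rfl
        unfold Prim at hprim
        simp at hprim
      have hqpos := hQ.q_pos hne
      set m : ℕ := ((S.Q i).q v).natAbs with hm
      have hmq : (m : ℤ) = (S.Q i).q v := by
        rw [hm]; exact Int.natAbs_of_nonneg hqpos.le
      have hm0 : 0 < m := by omega
      have hmn : m ≤ n := by omega
      rw [Finset.mem_union]
      by_cases hsm : (m : ℝ) ≤ η * n
      · left
        unfold Form.pball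
        rw [Finset.mem_filter, Form.mem_ball hQ]
        refine ⟨?_, hprim⟩
        have : m ≤ ⌊η * (n : ℝ)⌋₊ := Nat.le_floor hsm
        rw [← hmq]
        exact_mod_cast this
      · right
        push Not at hsm
        have hiff : ¬ (WinX (4 * S.d) X (p * m) ↔ WinX (4 * S.d) X m) := fun h2 =>
          hvw (hw p m hp hm0 h2)
        have hI : ∃ I ∈ X, ¬ (WinI (4 * S.d) I (p * m) ↔ WinI (4 * S.d) I m) := by
          by_contra hc
          push Not at hc
          apply hiff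
          constructor
          · exact fun h I hI => (hc I hI).1 (h I hI)
          · exact fun h I hI => (hc I hI).2 (h I hI)
        obtain ⟨I, hIX, hI⟩ := hI
        obtain ⟨hI0, hI1⟩ := hX.pos I hIX
        have hI2 := top_lt hX hIX
        have hpm : (p : ℝ) ≤ (m : ℝ) ^ I.1 :=
          (hA3 I hIX).trans (Real.rpow_le_rpow (by positivity) hsm.le hI0.le)
        obtain ⟨θ, hθ, r, hr, hr1, hrm, ha, hb⟩ := win_diff hI0 hI1 hp hpm hI
        have hθ0 : 0 < θ := by rcases hθ with h2 | h2 <;> rw [h2] <;> linarith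
        have hθ1 : θ ≤ 1 := by rcases hθ with h2 | h2 <;> rw [h2] <;> linarith
        have hnθ : 0 < (n : ℝ) ^ θ := Real.rpow_pos_of_pos hn0 θ
        have hlow : (n : ℝ) ^ θ / C < r := by
          have h2 : (η * n) ^ θ ≤ (m : ℝ) ^ θ :=
            Real.rpow_le_rpow (by positivity) hsm.le hθ0.le
          rw [Real.mul_rpow hη0.le hn0.le] at h2
          have h3 : η ≤ η ^ θ := by
            calc η = η ^ (1 : ℝ) := (Real.rpow_one η).symm
              _ ≤ η ^ θ := Real.rpow_le_rpow_of_exponent_ge hη0 hη1 hθ1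
          have h4 : 1 / C ≤ η := by
            rw [div_le_iff₀ (by linarith)]
            have h5 : η * (1 / η) = 1 := by field_simp
            have h6 : 0 ≤ η * (p + 1) := by positivity
            rw [hCdef]
            nlinarith
          calc (n : ℝ) ^ θ / C = (1 / C) * (n : ℝ) ^ θ := by ring
            _ ≤ η ^ θ * (n : ℝ) ^ θ := mul_le_mul_of_nonneg_right (h4.trans h3) hnθ.le
            _ ≤ (m : ℝ) ^ θ := h2
            _ < r := ha
        have hup : (r : ℝ) ≤ C * (n : ℝ) ^ θ := by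
          have hmr : (m : ℝ) ≤ n := by exact_mod_cast hmn
          calc (r : ℝ) ≤ ((p : ℝ) * m) ^ θ := hb
            _ ≤ ((p : ℝ) * n) ^ θ := by
                refine Real.rpow_le_rpow (by positivity) ?_ hθ0.le
                exact mul_le_mul_of_nonneg_left hmr (by positivity)
            _ = (p : ℝ) ^ θ * (n : ℝ) ^ θ := Real.mul_rpow (by positivity) hn0.le
            _ ≤ C * (n : ℝ) ^ θ := by
                refine mul_le_mul_of_nonneg_right ?_ hnθ.le
                have h2 : (p : ℝ) ^ θ ≤ p := by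
                  calc (p : ℝ) ^ θ ≤ (p : ℝ) ^ (1 : ℝ) :=
                        Real.rpow_le_rpow_of_exponent_le hp1 hθ1
                    _ = p := Real.rpow_one _
                rw [hCdef]
                linarith
        rw [Finset.mem_biUnion]
        refine ⟨I, hIX, ?_⟩
        rw [Finset.mem_union]
        rcases hθ with h2 | h2
        · left
          rw [h2] at hlow hup
          rw [hA, Finset.mem_filter]
          exact ⟨hball, hne, r, hr, hr1, hrm, hlow, hup⟩
        · right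
          rw [h2] at hlow hup
          rw [hA, Finset.mem_filter]
          exact ⟨hball, hne, r, hr, hr1, hrm, hlow, hup⟩
    have hB : (((S.Q i).pball ⌊η * (n : ℝ)⌋₊).card : ℝ) ≤ ε / 2 * n := by
      refine (hC _).trans ?_
      have h2 : ((⌊η * (n : ℝ)⌋₊ : ℕ) : ℝ) ≤ η * n := Nat.floor_le (by positivity)
      calc C0 * ((⌊η * (n : ℝ)⌋₊ : ℕ) : ℝ) ≤ C0 * (η * n) := mul_le_mul_of_nonneg_left h2 hC0
        _ = C0 * η * n := by ring
        _ ≤ ε / 2 * n := mul_le_mul_of_nonneg_right hη2 hn0.le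
    have hU : ((X.biUnion (fun I => A I.1 n ∪ A I.2 n)).card : ℝ) ≤ ε / 2 * n := by
      have h1 : ((X.biUnion (fun I => A I.1 n ∪ A I.2 n)).card : ℝ) ≤
          ∑ I ∈ X, ((A I.1 n ∪ A I.2 n).card : ℝ) := by
        exact_mod_cast Finset.card_biUnion_le
      have h2 : ∀ I ∈ X, ((A I.1 n ∪ A I.2 n).card : ℝ) ≤ 2 * e * n := by
        intro I hI
        have h3 : ((A I.1 n ∪ A I.2 n).card : ℝ) ≤ (A I.1 n).card + (A I.2 n).card := by
          exact_mod_cast Finset.card_union_le _ _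
        have h4 := hA1 I hI
        have h5 := hA2 I hI
        linarith
      have h3 := Finset.sum_le_card_nsmul X _ _ h2
      rw [nsmul_eq_mul] at h3
      have h4 : (X.card : ℝ) * (2 * e * n) ≤ ε / 2 * n := by
        have h5 : (X.card : ℝ) * (2 * e) ≤ ε / 2 := by
          have h6 : ((X.card : ℝ) + 1) * (2 * e) = ε / 2 := by
            rw [he]; field_simp; ring
          nlinarith
        calc (X.card : ℝ) * (2 * e * n) = (X.card : ℝ) * (2 * e) * n := by ring
          _ ≤ ε / 2 * n := mul_le_mul_of_nonneg_right h5 hn0.le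
      linarith
    have hcard := Finset.card_le_card hsub
    have hu1 := Finset.card_union_le ((S.Q i).pball ⌊η * (n : ℝ)⌋₊)
      (X.biUnion (fun I => A I.1 n ∪ A I.2 n))
    have hfin : ((((S.Q i).pball n).filter (fun v => w (p * ((S.Q i).q v).natAbs) ≠
        z * w ((S.Q i).q v).natAbs)).card : ℝ) ≤
        (((S.Q i).pball ⌊η * (n : ℝ)⌋₊).card : ℝ) +
          (X.biUnion (fun I => A I.1 n ∪ A I.2 n)).card := by
      exact_mod_cast hcard.trans hu1
    linarith
  obtain ⟨n0, hn0⟩ := Filter.eventually_atTop.1 (Filter.eventually_all.2 key)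
  refine ⟨n0, fun n hn i => ?_⟩
  convert hn0 n hn i

theorem bX_eq {q : ℕ} {X : Finset (ℝ × ℝ)} {a b : ℕ} (h : WinX q X a ↔ WinX q X b) :
    bX q X a = bX q X b := by
  unfold bX
  by_cases h1 : WinX q X b
  · rw [if_pos h1, if_pos (h.2 h1)]
  · rw [if_neg h1, if_neg (fun h2 => h1 (h.1 h2))]

end X4x7

/-- row X4 -/
theorem stDilNX_7 (hN : ∀ d, StNull d) : StDilNX := by
  intro ι _ S X hX
  refine ⟨fun z _ => ?_, ?_⟩
  · refine X4x7.main hN S hX z _ fun p m hp hm h => ?_
    unfold wzX Omn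
    rw [X4x7.bX_eq h, ArithmeticFunction.cardFactors_mul hp.ne_zero hm.ne',
      ArithmeticFunction.cardFactors_apply_prime hp]
    ring
  · refine X4x7.main hN S hX 1 _ fun p m hp hm h => ?_
    unfold wrX
    rw [X4x7.bX_eq h, one_mul]

end Pool.Agent.Lib.MP_a17b09_nt.PQ
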