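import Pool.Agent.Lib.MP_a17b09_nt.PQ.StmtsX79
import Pool.Agent.Lib.MP_a17b09_nt.UW.FinJ64

/-!
Project PX: the text of the hand-in NearDivisors (helper64), from the conclusions `PairsX` and
`ArgsX` for one polynomial (any sign of the discriminant).
-/

set_option autoImplicit false

open Filter Topology

namespace Pool.Agent.Lib.MP_a17b09_nt.PQ

open Pool.Agent.Lib.MP_a17b09_nt.CH (LogNull pairCount fv Omn)

/-- the condition of the pairs -/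
def SelX (a b c : ℤ) (q : ℕ) (X Y : Finset (ℝ × ℝ)) (k r s t d : ℕ) : Prop :=
  WinX q X d ∧ WinX q Y (a.natAbs * ((a * (t : ℤ) ^ 2 + b * t + c).natAbs / d)) ∧
  ArithmeticFunction.cardFactors d ≡ r [MOD k] ∧
  ArithmeticFunction.cardFactors ((a * (t : ℤ) ^ 2 + b * t + c).natAbs / d) ≡ s [MOD k]

namespace FX64

/-- the pairs in plain terms -/
theorem pairs (a b c : ℤ) (ha : 0 < a) (hD : ¬ IsSquare (b ^ 2 - 4 * a * c)) (q h t₀ : ℕ)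
    (α β : ℝ) (hα : 0 < α) (hαβ : α < β) (hA : PairsX a b c q h t₀ α β) :
    ∃ κ : ℝ, 0 < κ ∧
      Tendsto (fun N : ℕ => (pairCount a b c h t₀ α β (fun _ _ => True) N : ℝ) / N) atTop
        (𝓝 κ) ∧
      ∀ X Y : Finset (ℝ × ℝ), GoodX X → GoodX Y → ∀ k : ℕ, 0 < k → ∀ r s : ℕ,
        (∀ ε : ℝ, 0 < ε → LogNull {N : ℕ | ε * N <
          |(pairCount a b c h t₀ α β (SelX a b c q X Y k r s) N : ℝ) -
            rhoX q X * rhoX q Y * κ / k ^ 2 * N|}) ∧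
        (∃ c' : ℝ, 0 < c' ∧ ∀ᶠ N : ℕ in atTop, c' * N ≤
          (pairCount a b c h t₀ α β (SelX a b c q X Y k r s) N : ℝ)) ∧
        ∀ ε : ℝ, 0 < ε → ∀ᶠ N : ℕ in atTop, (N : ℝ) / Real.log N ^ (Real.log 2 + ε) ≤
          (Set.ncard {t : ℕ | 1 ≤ t ∧ t ≤ N ∧ t ≡ t₀ [MOD h] ∧ ∃ d : ℕ,
            (d : ℤ) ∣ a * (t : ℤ) ^ 2 + b * t + c ∧ α * t ≤ d ∧ d ≤ β * t ∧
            SelX a b c q X Y k r s t d} : ℝ) := by
  classical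
  obtain ⟨κ, hκ, h1, hJ⟩ := hA
  have key : ∀ (F : ℕ → ℕ) (x ε : ℝ), F 0 = 0 →
      LogNull {N : ℕ | ε < |(F N : ℝ) / N - x|} →
      LogNull {N : ℕ | ε * N < |(F N : ℝ) - x * N|} := by
    intro F x ε h0 hF
    refine Lib.MP_a17b09_nt.CH.EndS.LogNull.mono hF fun N hN => ?_
    simp only [Set.mem_ofPred_eq] at hN ⊢
    rcases Nat.eq_zero_or_pos N with hN0 | hN0
    · subst hN0
      simp [h0] at hN
    · have hNp : (0 : ℝ) < N := by exact_mod_cast hN0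
      have e3 : (F N : ℝ) / N - x = ((F N : ℝ) - x * N) / N := by
        field_simp
      rw [e3, abs_div, Nat.abs_cast, lt_div_iff₀ hNp]
      exact hN
  have z0 : ∀ P : ℕ → ℕ → Prop, pairCount a b c h t₀ α β P 0 = 0 := by
    intro P
    unfold pairCount
    simp
  refine ⟨κ, hκ, h1, fun X Y hX hY k hk r s => ?_⟩
  obtain ⟨hr1, η, hη, hr2⟩ := hJ X Y hX hY k hk r s
  refine ⟨fun ε hε => key (fun N => pairCount a b c h t₀ α β (SelX a b c q X Y k r s) N) _ ε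
    (z0 _) (hr1 ε hε), ⟨η, hη, hr2⟩, fun ε hε => ?_⟩
  filter_upwards [UW.U64.unwD a b c ha hD h t₀ α β hα hαβ _ hη hr2 hε] with N hN
  refine hN.trans (le_of_eq ?_)
  rw [← Set.ncard_coe_finset]
  congr 2
  ext t
  simp only [Finset.coe_filter, Finset.mem_Icc, Set.mem_ofPred_eq, and_assoc]
  rfl

/-- a filtered interval as a set -/
theorem card_eq (P : ℕ → Prop) [DecidablePred P] (h t₀ N : ℕ) :
    (((Finset.Icc 1 N).filter (fun t : ℕ => t ≡ t₀ [MOD h] ∧ P t)).card : ℝ) =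
      (Set.ncard {t : ℕ | 1 ≤ t ∧ t ≤ N ∧ t ≡ t₀ [MOD h] ∧ P t} : ℝ) := by
  rw [← Set.ncard_coe_finset]
  congr 2
  ext t
  simp only [Finset.coe_filter, Finset.mem_Icc, Set.mem_ofPred_eq]
  exact ⟨fun h => ⟨h.1.1, h.1.2, h.2.1, h.2.2⟩, fun h => ⟨⟨h.1, h.2.1⟩, h.2.2.1, h.2.2.2⟩⟩

/-- the arguments in plain terms -/
theorem args (a b c : ℤ) (h t₀ : ℕ) (hB : ArgsX a b c h t₀) :
    ∀ (m l : ℕ) (x : Fin m → ℝ) (y : Fin l → ℝ), (∀ i, 0 < x i) → (∀ j, 0 < y j) →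
      ∑ i, x i = 1 → ∑ j, y j = 1 → ∀ δ : ℝ, 0 < δ → ∀ k : ℕ, 0 < k → ∀ r : ℕ, ∀ ε : ℝ, 0 < ε →
      ∀ᶠ N : ℕ in atTop, (N : ℝ) / Real.log N ^ (Real.log 2 + ε) ≤
        (Set.ncard {t : ℕ | 1 ≤ t ∧ t ≤ N ∧ t ≡ t₀ [MOD h] ∧
          ∃ (e : ℕ) (p : Fin m → ℕ) (p' : Fin l → ℕ), (∀ i, (p i).Prime) ∧
          (∀ j, (p' j).Prime) ∧
          (∀ i, (t : ℝ) ^ (x i - δ) < p i ∧ (p i : ℝ) < (t : ℝ) ^ (x i + δ)) ∧
          (∀ j, (t : ℝ) ^ (y j - δ) < p' j ∧ (p' j : ℝ) < (t : ℝ) ^ (y j + δ)) ∧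
          (e : ℝ) ≤ (t : ℝ) ^ δ ∧
          a * (t : ℤ) ^ 2 + b * t + c = e * (∏ i, p i) * (∏ j, p' j) ∧
          ArithmeticFunction.cardFactors (e * (∏ i, p i) * (∏ j, p' j)) ≡ r [MOD k]} : ℝ) := by
  classical
  intro m l x y hx hy hx1 hy1 δ hδ k hk r ε hε
  filter_upwards [hB m l x y hx hy hx1 hy1 δ hδ k hk r ε hε] with N hN
  exact hN.trans (le_of_eq (card_eq (Pat a b c x y δ k r) h t₀ N))

end FX64

/-- The text of the hand-in NearDivisors. -/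
theorem finPX (a b c : ℤ) (ha : 0 < a) (hD : ¬ IsSquare (b ^ 2 - 4 * a * c)) (q h t₀ : ℕ)
    (hA : ∀ α β : ℝ, 0 < α → α < β → PairsX a b c q h t₀ α β) (hB : ArgsX a b c h t₀) :
    (∀ α β : ℝ, 0 < α → α < β → ∃ κ : ℝ, 0 < κ ∧
      Tendsto (fun N : ℕ => (pairCount a b c h t₀ α β (fun _ _ => True) N : ℝ) / N) atTop
        (𝓝 κ) ∧
      ∀ X Y : Finset (ℝ × ℝ), GoodX X → GoodX Y → ∀ k : ℕ, 0 < k → ∀ r s : ℕ,
        (∀ ε : ℝ, 0 < ε → LogNull {N : ℕ | ε * N <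
          |(pairCount a b c h t₀ α β (SelX a b c q X Y k r s) N : ℝ) -
            rhoX q X * rhoX q Y * κ / k ^ 2 * N|}) ∧
        (∃ c' : ℝ, 0 < c' ∧ ∀ᶠ N : ℕ in atTop, c' * N ≤
          (pairCount a b c h t₀ α β (SelX a b c q X Y k r s) N : ℝ)) ∧
        ∀ ε : ℝ, 0 < ε → ∀ᶠ N : ℕ in atTop, (N : ℝ) / Real.log N ^ (Real.log 2 + ε) ≤
          (Set.ncard {t : ℕ | 1 ≤ t ∧ t ≤ N ∧ t ≡ t₀ [MOD h] ∧ ∃ d : ℕ,
            (d : ℤ) ∣ a * (t : ℤ) ^ 2 + b * t + c ∧ α * t ≤ d ∧ d ≤ β * t ∧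
            SelX a b c q X Y k r s t d} : ℝ)) ∧
    ∀ (m l : ℕ) (x : Fin m → ℝ) (y : Fin l → ℝ), (∀ i, 0 < x i) → (∀ j, 0 < y j) →
      ∑ i, x i = 1 → ∑ j, y j = 1 → ∀ δ : ℝ, 0 < δ → ∀ k : ℕ, 0 < k → ∀ r : ℕ, ∀ ε : ℝ, 0 < ε →
      ∀ᶠ N : ℕ in atTop, (N : ℝ) / Real.log N ^ (Real.log 2 + ε) ≤
        (Set.ncard {t : ℕ | 1 ≤ t ∧ t ≤ N ∧ t ≡ t₀ [MOD h] ∧
          ∃ (e : ℕ) (p : Fin m → ℕ) (p' : Fin l → ℕ), (∀ i, (p i).Prime) ∧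
          (∀ j, (p' j).Prime) ∧
          (∀ i, (t : ℝ) ^ (x i - δ) < p i ∧ (p i : ℝ) < (t : ℝ) ^ (x i + δ)) ∧
          (∀ j, (t : ℝ) ^ (y j - δ) < p' j ∧ (p' j : ℝ) < (t : ℝ) ^ (y j + δ)) ∧
          (e : ℝ) ≤ (t : ℝ) ^ δ ∧
          a * (t : ℤ) ^ 2 + b * t + c = e * (∏ i, p i) * (∏ j, p' j) ∧
          ArithmeticFunction.cardFactors (e * (∏ i, p i) * (∏ j, p' j)) ≡ r [MOD k]} : ℝ) :=
  ⟨fun α β hα hαβ => FX64.pairs a b c ha hD q h t₀ α β hα hαβ (hA α β hα hαβ),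
    FX64.args a b c h t₀ hB⟩

end Pool.Agent.Lib.MP_a17b09_nt.PQ
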