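import Pool.Agent.Lib.MP_325d88_nt.PNTAP
import Pool.Agent.Lib.MP_a17b09_nt.MRSG.MerG7

/-!
PQ: sums of `1/p` over the primes `p = a mod q` of a window, with an error term which tends to `0`
(helper22).
-/

set_option autoImplicit false

open Filter Topology Finset

namespace Pool.Agent.Lib.MP_a17b09_nt.PQ

namespace Win22

open Pool.Agent.MP_325d88_nt (primesAP)

/-- `1 / (n log n)` -/
noncomputable def g (n : ℕ) : ℝ := 1 / (n * Real.log n)

theorem g_nonneg (n : ℕ) : 0 ≤ g n := by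
  unfold g
  have : 0 ≤ Real.log n := Real.log_natCast_nonneg n
  positivity

theorem g_anti {n : ℕ} (hn : 2 ≤ n) : g (n + 1) ≤ g n := by
  unfold g
  have hn' : (2 : ℝ) ≤ n := by exact_mod_cast hn
  have h1 : 0 < Real.log n := Real.log_pos (by linarith)
  have h2 : Real.log n ≤ Real.log ((n + 1 : ℕ) : ℝ) :=
    Real.log_le_log (by linarith) (by push_cast; linarith)
  apply one_div_le_one_div_of_le (by positivity)
  apply mul_le_mul _ h2 h1.le (by positivity)
  push_cast
  linarith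

/-- `1 / (n log n) ≤ log (log n / log (n - 1))` -/
theorem g_le {n : ℕ} (hn : 2 ≤ n) :
    g (n + 1) ≤ Real.log (Real.log (n + 1 : ℕ)) - Real.log (Real.log n) := by
  unfold g
  have hn' : (2 : ℝ) ≤ n := by exact_mod_cast hn
  set m : ℝ := ((n + 1 : ℕ) : ℝ) with hm
  have hmn : m = n + 1 := by rw [hm]; push_cast; ring
  have hn0 : (0 : ℝ) < n := by linarith
  have hm0 : 0 < m := by linarith
  have h1 : 0 < Real.log n := Real.log_pos (by linarith)
  have h2 : 0 < Real.log m := Real.log_pos (by linarith)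
  have h3 : 1 / m ≤ Real.log m - Real.log n := by
    have h4 := Real.one_sub_inv_le_log_of_pos (x := m / n) (by positivity)
    rw [Real.log_div hm0.ne' hn0.ne'] at h4
    have h5 : 1 - (m / n)⁻¹ = 1 / m := by
      rw [inv_div, hmn]
      field_simp
      ring
    linarith
  have h6 := Real.one_sub_inv_le_log_of_pos (x := Real.log m / Real.log n) (by positivity)
  rw [Real.log_div h2.ne' h1.ne'] at h6
  have h7 : 1 - (Real.log m / Real.log n)⁻¹ = (Real.log m - Real.log n) / Real.log m := by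
    rw [inv_div]
    field_simp
  rw [h7] at h6
  refine le_trans ?_ h6
  rw [div_le_div_iff₀ (by positivity) h2]
  calc 1 * Real.log m = (1 / m) * (m * Real.log m) := by field_simp
    _ ≤ (Real.log m - Real.log n) * (m * Real.log m) :=
        mul_le_mul_of_nonneg_right h3 (by positivity)

theorem sum_g {A B : ℕ} (hA : 2 ≤ A) (hAB : A ≤ B) :
    ∑ n ∈ Ioc A B, g n ≤ Real.log (Real.log B) - Real.log (Real.log A) := by
  induction B, hAB using Nat.le_induction with
  | base => simp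
  | succ B hAB ih =>
    rw [← Finset.insert_Ioc_right_eq_Ioc_add_one hAB, Finset.sum_insert (by simp)]
    have := g_le (n := B) (by omega)
    linarith

/-- summation by parts -/
theorem parts (D : ℕ → ℝ) {A B : ℕ} (hAB : A ≤ B) :
    ∑ n ∈ Ioc A B, (D n - D (n - 1)) * g n =
      D B * g (B + 1) - D A * g (A + 1) + ∑ n ∈ Ioc A B, D n * (g n - g (n + 1)) := by
  induction B, hAB using Nat.le_induction with
  | base => simp
  | succ B hAB ih =>
    rw [← Finset.insert_Ioc_right_eq_Ioc_add_one hAB, Finset.sum_insert (by simp),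
      Finset.sum_insert (by simp), ih, Nat.add_sub_cancel]
    ring

theorem parts_bound (D : ℕ → ℝ) {A B : ℕ} (hA : 2 ≤ A) (hAB : A ≤ B) (ε : ℝ) (hε : 0 ≤ ε)
    (h : ∀ n : ℕ, A ≤ n → |D n| ≤ ε * n) :
    |∑ n ∈ Ioc A B, (D n - D (n - 1)) * g n| ≤
      ε * (2 / Real.log A + (Real.log (Real.log B) - Real.log (Real.log A))) := by
  have hA' : (2 : ℝ) ≤ A := by exact_mod_cast hA
  have hlA : 0 < Real.log A := Real.log_pos (by linarith)
  rw [parts D hAB]
  have h1 := parts (fun n => (n : ℝ)) hAB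
  have h2 : ∑ n ∈ Ioc A B, ((n : ℝ) - ((n - 1 : ℕ) : ℝ)) * g n = ∑ n ∈ Ioc A B, g n := by
    refine Finset.sum_congr rfl fun n hn => ?_
    rw [Finset.mem_Ioc] at hn
    rw [Nat.cast_sub (by omega)]
    push_cast
    ring
  rw [h2] at h1
  have h3 : |∑ n ∈ Ioc A B, D n * (g n - g (n + 1))| ≤
      ε * ∑ n ∈ Ioc A B, (n : ℝ) * (g n - g (n + 1)) := by
    refine (Finset.abs_sum_le_sum_abs _ _).trans ?_
    rw [Finset.mul_sum]
    refine Finset.sum_le_sum fun n hn => ?_
    rw [Finset.mem_Ioc] at hn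
    have h4 : 0 ≤ g n - g (n + 1) := by
      have := g_anti (n := n) (by omega)
      linarith
    rw [abs_mul, abs_of_nonneg h4, ← mul_assoc]
    exact mul_le_mul_of_nonneg_right (h n hn.1.le) h4
  have h5 : |D B * g (B + 1)| ≤ ε * (B * g (B + 1)) := by
    rw [abs_mul, abs_of_nonneg (g_nonneg _), ← mul_assoc]
    exact mul_le_mul_of_nonneg_right (h B hAB) (g_nonneg _)
  have h6 : |D A * g (A + 1)| ≤ ε * (A * g (A + 1)) := by
    rw [abs_mul, abs_of_nonneg (g_nonneg _), ← mul_assoc]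
    exact mul_le_mul_of_nonneg_right (h A le_rfl) (g_nonneg _)
  have h7 := sum_g hA hAB
  have h8 : (A : ℝ) * g (A + 1) ≤ 1 / Real.log A := by
    have := g_anti (n := A) hA
    calc (A : ℝ) * g (A + 1) ≤ A * g A := mul_le_mul_of_nonneg_left this (by positivity)
      _ = 1 / Real.log A := by
        unfold g
        field_simp
  have h9 : |D B * g (B + 1) - D A * g (A + 1) + ∑ n ∈ Ioc A B, D n * (g n - g (n + 1))| ≤
      |D B * g (B + 1)| + |D A * g (A + 1)| + |∑ n ∈ Ioc A B, D n * (g n - g (n + 1))| :=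
    (abs_add_le _ _).trans (add_le_add (abs_sub _ _) le_rfl)
  refine h9.trans ?_
  calc _ ≤ ε * (B * g (B + 1)) + ε * (A * g (A + 1)) +
        ε * ∑ n ∈ Ioc A B, (n : ℝ) * (g n - g (n + 1)) := by linarith
    _ = ε * (2 * (A * g (A + 1)) + ∑ n ∈ Ioc A B, g n) := by rw [h1]; ring
    _ ≤ ε * (2 / Real.log A + (Real.log (Real.log B) - Real.log (Real.log A))) := by
        apply mul_le_mul_of_nonneg_left _ hε
        have : 2 / Real.log A = 2 * (1 / Real.log A) := by ring
        rw [this]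
        linarith

/-- `∑ 1/p` over the primes in `(A, B]` as a sum with `g` -/
theorem sum_inv_eq (q a A B : ℕ) (hA : 2 ≤ A) :
    ∑ p ∈ (Ioc A B).filter (fun p => p.Prime ∧ p ≡ a [MOD q]), (1 : ℝ) / p =
      ∑ n ∈ Ioc A B, (∑ p ∈ primesAP q a n, Real.log p -
        ∑ p ∈ primesAP q a (n - 1), Real.log p) * g n := by
  rw [Finset.sum_filter]
  refine Finset.sum_congr rfl fun n hn => ?_
  rw [Finset.mem_Ioc] at hn
  have hn2 : (2 : ℝ) < n := by
    have : 2 < n := by omega
    exact_mod_cast this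
  have hl : 0 < Real.log n := Real.log_pos (by linarith)
  have h1 : Finset.range (n + 1) = insert n (Finset.range (n - 1 + 1)) := by
    rw [Finset.range_add_one, show n - 1 + 1 = n by omega]
  by_cases h : n.Prime ∧ n ≡ a [MOD q]
  · rw [if_pos h]
    have h2 : primesAP q a n = insert n (primesAP q a (n - 1)) := by
      unfold Pool.Agent.MP_325d88_nt.primesAP
      rw [h1, Finset.filter_insert, if_pos h]
    rw [h2, Finset.sum_insert]
    · unfold g
      field_simp
      ring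
    · unfold Pool.Agent.MP_325d88_nt.primesAP
      rw [Finset.mem_filter, Finset.mem_range]
      omega
  · rw [if_neg h]
    have h2 : primesAP q a n = primesAP q a (n - 1) := by
      unfold Pool.Agent.MP_325d88_nt.primesAP
      rw [h1, Finset.filter_insert, if_neg h]
    rw [h2]
    ring

/-- Mertens' theorem for the primes `a mod q` with a small error: natural end points -/
theorem mer_small_nat (q : ℕ) (hq : 0 < q) (a : ℕ) (ha : Nat.Coprime a q) (ε : ℝ) (hε : 0 < ε) :
    ∃ X : ℕ, 2 ≤ X ∧ ∀ A B : ℕ, X ≤ A → A ≤ B →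
    |∑ p ∈ (Ioc A B).filter (fun p => p.Prime ∧ p ≡ a [MOD q]), (1 : ℝ) / p -
      (1 / (Nat.totient q : ℝ)) * ∑ p ∈ (Ioc A B).filter Nat.Prime, (1 : ℝ) / p| ≤
      ε * (1 + (Real.log (Real.log B) - Real.log (Real.log A))) := by
  have h1 := Pool.Agent.MP_325d88_nt.theta_ap q hq a ha
  have h2 := Pool.Agent.MP_325d88_nt.theta_ap 1 one_pos 0 (by norm_num)
  rw [Nat.totient_one, Nat.cast_one, one_div_one] at h2
  set th : ℕ → ℝ := fun x => ∑ p ∈ primesAP q a x, Real.log p with hth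
  set th1 : ℕ → ℝ := fun x => ∑ p ∈ primesAP 1 0 x, Real.log p with hth1
  set c : ℝ := 1 / (Nat.totient q : ℝ) with hc
  have h3 : Tendsto (fun x : ℕ => (th x - c * th1 x) / x) atTop (𝓝 0) := by
    have h4 := h1.sub (h2.const_mul c)
    rw [mul_one, sub_self] at h4
    refine h4.congr fun x => ?_
    ring
  obtain ⟨X0, hX0⟩ := eventually_atTop.1 ((Metric.tendsto_nhds.1 h3) ε hε)
  obtain ⟨X1, hX1⟩ := exists_nat_ge (Real.exp 2)
  refine ⟨max 2 (max X0 X1), le_max_left _ _, fun A B hA hAB => ?_⟩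
  have hA2 : 2 ≤ A := (le_max_left _ _).trans hA
  have hA0 : X0 ≤ A := (le_max_left _ _).trans ((le_max_right _ _).trans hA)
  have hA1 : X1 ≤ A := (le_max_right _ _).trans ((le_max_right _ _).trans hA)
  have hlA : 2 ≤ Real.log A := by
    rw [Real.le_log_iff_exp_le (by positivity)]
    exact hX1.trans (by exact_mod_cast hA1)
  have h5 := parts_bound (fun n => th n - c * th1 n) hA2 hAB ε hε.le (fun n hn => by
    have h6 := hX0 n (hA0.trans hn)
    rw [Real.dist_eq, sub_zero, abs_div, Nat.abs_cast] at h6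
    have hn0 : (0 : ℝ) < n := by
      have : 0 < n := by omega
      exact_mod_cast this
    rw [div_lt_iff₀ hn0] at h6
    exact h6.le)
  have h6 : ∑ p ∈ (Ioc A B).filter (fun p => p.Prime ∧ p ≡ a [MOD q]), (1 : ℝ) / p -
      c * ∑ p ∈ (Ioc A B).filter Nat.Prime, (1 : ℝ) / p =
      ∑ n ∈ Ioc A B, ((th n - c * th1 n) - (th (n - 1) - c * th1 (n - 1))) * g n := by
    have h7 : (Ioc A B).filter Nat.Prime =
        (Ioc A B).filter (fun p => p.Prime ∧ p ≡ 0 [MOD 1]) := by
      refine Finset.filter_congr fun p _ => ?_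
      simp [Nat.modEq_one]
    rw [h7, sum_inv_eq q a A B hA2, sum_inv_eq 1 0 A B hA2, Finset.mul_sum,
      ← Finset.sum_sub_distrib]
    refine Finset.sum_congr rfl fun n _ => ?_
    rw [hth, hth1]
    ring
  rw [h6]
  refine h5.trans (mul_le_mul_of_nonneg_left ?_ hε.le)
  have h8 : 2 / Real.log A ≤ 1 := by
    rw [div_le_one (by linarith)]
    exact hlA
  linarith

open MRSG (PA7 mem_PA7)

private theorem w5_64 (ε L : ℝ) (hε : 0 < ε) (h : 80 / ε + 2 ≤ L) : 10 ≤ ε / 8 * L := by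
  have h1 : ε * (80 / ε) = 80 := by field_simp
  have h2 := mul_le_mul_of_nonneg_left h hε.le
  rw [mul_add, h1] at h2
  linarith only [h2, hε]

private theorem w6_64 (ε t : ℝ) (hε : 0 < ε) (h : 40 / ε ≤ 2 * t) : 1 ≤ ε / 16 * t := by
  have h1 : ε * (40 / ε) = 40 := by field_simp
  have h2 := mul_le_mul_of_nonneg_left h hε.le
  rw [h1] at h2
  linarith only [h2]

private theorem w7_64 (ε L : ℝ) (hε : 0 < ε) (hL : 0 ≤ L) :
    ε / 4 * (2 + L) + ε / 8 + ε / 16 + ε / 16 ≤ ε * (1 + L) := by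
  have h1 := mul_nonneg hε.le hL
  linarith only [h1, hε]

/-- Mertens' theorem for the primes `a mod q` with a small error -/
theorem mer_small (q : ℕ) (hq : 0 < q) (a : ℕ) (ha : Nat.Coprime a q) (ε : ℝ) (hε : 0 < ε) :
    ∃ X : ℝ, 2 ≤ X ∧ ∀ x y : ℝ, X ≤ x → x ≤ y →
    |∑ p ∈ PA7 q a x y, (1 : ℝ) / p -
      (1 / (Nat.totient q : ℝ)) * Real.log (Real.log y / Real.log x)| ≤
      ε * (1 + Real.log (Real.log y / Real.log x)) := by
  obtain ⟨X0, hX02, hX0⟩ := mer_small_nat q hq a ha (ε / 4) (by positivity)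
  set X : ℝ := max (X0 + 1) (max (40 / ε) (Real.exp (80 / ε + 2))) with hX
  have hX1 : (X0 : ℝ) + 1 ≤ X := le_max_left _ _
  have hX2 : 40 / ε ≤ X := (le_max_left _ _).trans (le_max_right _ _)
  have hX3 : Real.exp (80 / ε + 2) ≤ X := (le_max_right _ _).trans (le_max_right _ _)
  have hX02' : (2 : ℝ) ≤ X0 := by exact_mod_cast hX02
  refine ⟨X, by linarith, fun x y hx hxy => ?_⟩
  have hphi1 : (1 : ℝ) ≤ Nat.totient q := by
    have := Nat.totient_pos.2 hq
    exact_mod_cast this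
  have hx3 : 3 ≤ x := by linarith
  have hy3 : 3 ≤ y := hx3.trans hxy
  set A : ℕ := ⌊x⌋₊ with hA
  set B : ℕ := ⌊y⌋₊ with hB
  have hAx : (A : ℝ) ≤ x := Nat.floor_le (by linarith)
  have hAx' : x < A + 1 := Nat.lt_floor_add_one x
  have hBy : (B : ℝ) ≤ y := Nat.floor_le (by linarith)
  have hBy' : y < B + 1 := Nat.lt_floor_add_one y
  have hA3 : 3 ≤ A := Nat.le_floor (by simpa using hx3)
  have hA3' : (3 : ℝ) ≤ A := by exact_mod_cast hA3
  have hXA : X0 ≤ A := by
    apply Nat.le_floor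
    linarith
  have hAB : A ≤ B := Nat.floor_mono hxy
  have hAB' : (A : ℝ) ≤ B := by exact_mod_cast hAB
  set P : Finset ℕ := (Ioc A B).filter (fun p => p.Prime ∧ p ≡ a [MOD q]) with hP
  have hlx : 80 / ε + 2 ≤ Real.log x := by
    rw [Real.le_log_iff_exp_le (by linarith)]
    linarith
  have h80 : 0 < 80 / ε := by positivity
  have hlx0 : 0 < Real.log x := by linarith
  have hlxy : Real.log x ≤ Real.log y := Real.log_le_log (by linarith) hxy
  have hly0 : 0 < Real.log y := by linarith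
  have hlA0 : 0 < Real.log A := Real.log_pos (by linarith)
  have hlB0 : 0 < Real.log B := Real.log_pos (by linarith)
  have hlAB : Real.log A ≤ Real.log B := Real.log_le_log (by linarith) hAB'
  have hlBy : Real.log B ≤ Real.log y := Real.log_le_log (by linarith) hBy
  have hlAx : Real.log x - 1 ≤ Real.log A := by
    have h1 : Real.log x ≤ Real.log (2 * A) := Real.log_le_log (by linarith) (by linarith)
    rw [Real.log_mul (by norm_num) (by linarith)] at h1
    have h2 : Real.log 2 < 1 := by linarith [Real.log_two_lt_d9]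
    linarith
  have hllB : Real.log (Real.log B) ≤ Real.log (Real.log y) := Real.log_le_log hlB0 hlBy
  have hllA : Real.log (Real.log x) - 1 ≤ Real.log (Real.log A) := by
    have h1 : Real.log x ≤ 2 * Real.log A := by linarith
    have h2 : Real.log (Real.log x) ≤ Real.log (2 * Real.log A) := Real.log_le_log hlx0 h1
    rw [Real.log_mul (by norm_num) (by linarith)] at h2
    have h3 : Real.log 2 < 1 := by linarith [Real.log_two_lt_d9]
    linarith
  have hdiv : Real.log (Real.log y / Real.log x) = Real.log (Real.log y) - Real.log (Real.log x) :=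
    Real.log_div hly0.ne' hlx0.ne'
  have hL0 : 0 ≤ Real.log (Real.log y / Real.log x) := by
    rw [hdiv]
    have := Real.log_le_log hlx0 hlxy
    linarith
  have h1 := hX0 A B hXA hAB
  have h2 := MP_973905_nt.PrimeSum.range_bound x y (by linarith) hxy
  have h5 : 10 / Real.log x ≤ ε / 8 := by
    rw [div_le_iff₀ hlx0]
    exact w5_64 _ _ hε hlx
  have h6 : |(1 / (Nat.totient q : ℝ)) * ∑ p ∈ (Ioc A B).filter Nat.Prime, (1 : ℝ) / p -
      (1 / (Nat.totient q : ℝ)) * Real.log (Real.log y / Real.log x)| ≤ ε / 8 := by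
    rw [← mul_sub, abs_mul, abs_of_nonneg (by positivity : (0 : ℝ) ≤ 1 / (Nat.totient q : ℝ))]
    have h7 : 1 / (Nat.totient q : ℝ) ≤ 1 := by
      rw [div_le_one (by linarith)]
      exact hphi1
    have h8 : |∑ p ∈ (Ioc A B).filter Nat.Prime, (1 : ℝ) / p -
        Real.log (Real.log y / Real.log x)| ≤ ε / 8 := h2.trans h5
    calc _ ≤ 1 * |∑ p ∈ (Ioc A B).filter Nat.Prime, (1 : ℝ) / p -
        Real.log (Real.log y / Real.log x)| := mul_le_mul_of_nonneg_right h7 (abs_nonneg _)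
      _ ≤ ε / 8 := by rw [one_mul]; exact h8
  have hX40 : 40 / ε ≤ x := hX2.trans hx
  have hsmall : ∀ t : ℝ, x ≤ t + 1 → 0 < t → 1 ≤ t → 1 / t ≤ ε / 16 := by
    intro t ht ht0 ht1
    rw [div_le_iff₀ ht0]
    exact w6_64 _ _ hε (by linarith only [hX40, ht, ht1])
  have hPA : ∀ p ∈ PA7 q a x y, x ≤ p ∧ (p : ℝ) < y ∧ p.Prime ∧ p ≡ a [MOD q] := fun p hp => by
    rw [mem_PA7] at hp
    exact ⟨hp.2.2.1, hp.2.2.2, hp.1, hp.2.1⟩
  have h7 : ∑ p ∈ PA7 q a x y, (1 : ℝ) / p ≤ ∑ p ∈ P, (1 : ℝ) / p + ε / 16 := by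
    have h8 : PA7 q a x y ⊆ insert A P := by
      intro p hp
      obtain ⟨e1, e2, e3, e4⟩ := hPA p hp
      rw [Finset.mem_insert, hP, Finset.mem_filter, Finset.mem_Ioc]
      have h9 : A ≤ p := by
        rw [hA]
        exact Nat.floor_le_of_le e1
      have h10 : p ≤ B := Nat.le_floor e2.le
      rcases h9.eq_or_lt with h11 | h11
      · exact Or.inl h11.symm
      · exact Or.inr ⟨⟨h11, h10⟩, e3, e4⟩
    have h9 : A ∉ P := by
      rw [hP, Finset.mem_filter, Finset.mem_Ioc]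
      omega
    calc ∑ p ∈ PA7 q a x y, (1 : ℝ) / p ≤ ∑ p ∈ insert A P, (1 : ℝ) / p :=
          Finset.sum_le_sum_of_subset_of_nonneg h8 fun p _ _ => by positivity
      _ = 1 / (A : ℝ) + ∑ p ∈ P, (1 : ℝ) / p := Finset.sum_insert h9
      _ ≤ _ := by linarith [hsmall A hAx'.le (by linarith) (by linarith)]
  have h8 : ∑ p ∈ P, (1 : ℝ) / p ≤ ∑ p ∈ PA7 q a x y, (1 : ℝ) / p + ε / 16 := by
    have h9 : P ⊆ PA7 q a x y ∪ {B} := by
      intro p hp
      rw [hP, Finset.mem_filter, Finset.mem_Ioc] at hp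
      rw [Finset.mem_union, Finset.mem_singleton, mem_PA7]
      have h10 : x < p := (Nat.floor_lt (by linarith)).1 hp.1.1
      rcases hp.1.2.eq_or_lt with h11 | h11
      · exact Or.inr h11
      · left
        refine ⟨hp.2.1, hp.2.2, h10.le, ?_⟩
        calc (p : ℝ) < B := by exact_mod_cast h11
          _ ≤ y := hBy
    calc ∑ p ∈ P, (1 : ℝ) / p ≤ ∑ p ∈ PA7 q a x y ∪ {B}, (1 : ℝ) / p :=
          Finset.sum_le_sum_of_subset_of_nonneg h9 fun p _ _ => by positivity
      _ ≤ ∑ p ∈ PA7 q a x y, (1 : ℝ) / p + ∑ p ∈ {B}, (1 : ℝ) / p := by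
          rw [← Finset.sum_union_inter]
          have : 0 ≤ ∑ p ∈ PA7 q a x y ∩ {B}, (1 : ℝ) / p :=
            Finset.sum_nonneg fun p _ => by positivity
          linarith
      _ ≤ _ := by
          rw [Finset.sum_singleton]
          linarith [hsmall B (by linarith) (by linarith) (by linarith)]
  have h9 : ε / 4 * (1 + (Real.log (Real.log B) - Real.log (Real.log A))) ≤
      ε / 4 * (2 + Real.log (Real.log y / Real.log x)) := by
    apply mul_le_mul_of_nonneg_left _ (by positivity)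
    rw [hdiv]
    linarith
  have h10 : ε / 4 * (2 + Real.log (Real.log y / Real.log x)) + ε / 8 + ε / 16 + ε / 16 ≤
      ε * (1 + Real.log (Real.log y / Real.log x)) :=
    w7_64 _ _ hε hL0
  rw [abs_le] at h1 h6 ⊢
  constructor <;> linarith [h1.1, h1.2, h6.1, h6.2]

/-- the window `[N^α, N^β)` -/
theorem win (q : ℕ) (hq : 0 < q) (a : ℕ) (ha : Nat.Coprime a q) {α β : ℝ} (hα : 0 < α)
    (hαβ : α ≤ β) :
    Tendsto (fun N : ℝ => ∑ p ∈ PA7 q a (N ^ α) (N ^ β), (1 : ℝ) / p) atTop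
      (𝓝 (1 / (Nat.totient q : ℝ) * Real.log (β / α))) := by
  rw [Metric.tendsto_nhds]
  intro ε hε
  have hβ : 0 < β := hα.trans_le hαβ
  have hL : 0 ≤ Real.log (β / α) := Real.log_nonneg (by rw [le_div_iff₀ hα]; linarith)
  obtain ⟨X, hX2, hX⟩ := mer_small q hq a ha (ε / (2 * (1 + Real.log (β / α)))) (by positivity)
  have h1 : ∀ᶠ N : ℝ in atTop, X ≤ N ^ α := (tendsto_rpow_atTop hα).eventually_ge_atTop X
  filter_upwards [h1, eventually_gt_atTop 1] with N hN hN1
  have hN0 : (0 : ℝ) < N := by linarith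
  have h2 := hX (N ^ α) (N ^ β) hN (Real.rpow_le_rpow_of_exponent_le hN1.le hαβ)
  have hlN : 0 < Real.log N := Real.log_pos hN1
  rw [Real.log_rpow hN0, Real.log_rpow hN0, mul_div_mul_right _ _ hlN.ne'] at h2
  rw [Real.dist_eq]
  refine h2.trans_lt ?_
  have h3 : ε / (2 * (1 + Real.log (β / α))) * (1 + Real.log (β / α)) = ε / 2 := by
    field_simp
  rw [h3]
  linarith

/-- the set of the primes of the window as a filter -/
theorem PA7_eq_filter (q a : ℕ) (x y : ℝ) : PA7 q a x y =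
    (Finset.range ⌈y⌉₊).filter (fun p => p.Prime ∧ p ≡ a [MOD q] ∧ x ≤ p) := rfl

end Win22

end Pool.Agent.Lib.MP_a17b09_nt.PQ
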