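import Pool.Agent.Lib.MP_a17b09_nt.PQ.Freq12

/-!
PQ (MP_a17b09_nt), row F3: frequency `0`, `z = 1`.  helper12.
-/

set_option autoImplicit false

open Filter Topology Finset

namespace Pool.Agent.Lib.MP_a17b09_nt.PQ.Freq12

open CH CH.PE MRSG MRSG.ExpG12 MRSG.ShiftG12

variable {d K : ℕ} [NeZero K]

theorem ch0 (k : Fin (mm d K 0)) (i : Cl d) (v : V) : ch (⟨0, k⟩ : Fq d K) i v =
    (starRingEnd ℂ) ((bv d K 0 k : Hs d K) (i, cl K v)) := by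
  unfold ch
  rw [zpow_zero, mul_one]

/-- the constant of the discriminant -/
noncomputable def kd (d : ℕ) : ℝ := 2 * Real.pi / √(d : ℝ)

theorem kd_eq (i : Cl d) : MRS.LatG84.kap (rep i) = kd d := by
  unfold MRS.LatG84.kap kd
  rw [rep_D]
  norm_num

/-- the sums over the multiples -/
noncomputable def GD (D : ℕ) (k : Fin (mm d K 0)) (r1 r2 Y : ℝ) : ℂ :=
  (1 / (Y : ℂ)) * ∑ i, ∑ u ∈ Shg i (r1 * Y) (r2 * Y), ch (⟨0, k⟩ : Fq d K) i ((D : ℤ) • u)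

/-- the limit -/
noncomputable def lD (D : ℕ) (k : Fin (mm d K 0)) (r1 r2 : ℝ) : ℂ :=
  ((kd d * (r2 - r1) : ℝ) : ℂ) / (K : ℂ) ^ 2 * Sd D k

theorem one_class (r1 r2 : ℝ) (hr1 : 0 ≤ r1) (hr12 : r1 < r2) (i : Cl d) :
    ∃ C : ℝ, 0 ≤ C ∧ ∀ (k : Fin (mm d K 0)) (D : ℕ) (Y : ℝ), 0 < Y →
    ‖∑ u ∈ Shg i (r1 * Y) (r2 * Y), ch (⟨0, k⟩ : Fq d K) i ((D : ℤ) • u) -
      ((kd d * (r2 - r1) * Y : ℝ) : ℂ) / (K : ℂ) ^ 2 * ∑ α : ZMod K × ZMod K,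
        (starRingEnd ℂ) ((bv d K 0 k : Hs d K) (i, sc (D : ZMod K) α))‖ ≤ C * (√Y + 1) := by
  obtain ⟨τ, hτ, H⟩ := per_sum (K := K) (rep_pos i)
  have hr2 : 0 < r2 := lt_of_le_of_lt hr1 hr12
  refine ⟨400 * ((τ + 1) * (√r2 + τ + 1)) + 2 + 42 * (√r2 + 1), by positivity,
    fun k D Y hY => ?_⟩
  have hK : (0 : ℝ) < K := by exact_mod_cast Nat.pos_of_ne_zero (NeZero.ne K)
  set G : ZMod K × ZMod K → ℂ := fun α =>
    (starRingEnd ℂ) ((bv d K 0 k : Hs d K) (i, sc (D : ZMod K) α)) with hG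
  have hG1 : ∀ α, ‖G α‖ ≤ 1 := by
    intro α
    rw [hG]
    simp only
    rw [RCLike.norm_conj]
    exact bv_le (⟨0, k⟩ : Fq d K) _
  have e1 : ∑ u ∈ Shg i (r1 * Y) (r2 * Y), ch (⟨0, k⟩ : Fq d K) i ((D : ℤ) • u) =
      ∑ v ∈ shQ (rep i) (r1 * Y) (r2 * Y), G (cl K v) := by
    rw [Shg_eq]
    refine sum_congr rfl fun u _ => ?_
    rw [ch0, cl_smul', hG]
    push_cast
    rfl
  have ha : 0 ≤ r1 * Y := by positivity
  have hab : r1 * Y ≤ r2 * Y := mul_le_mul_of_nonneg_right hr12.le hY.le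
  have h1 := H (r1 * Y) (r2 * Y) ha hab G hG1
  have h2 := card_shell (rep_pos i) (r1 * Y) (r2 * Y) ha hab
  rw [kd_eq] at h2
  rw [e1]
  set S : ℂ := ∑ v ∈ shQ (rep i) (r1 * Y) (r2 * Y), G (cl K v) with hS
  set c : ℝ := ((shQ (rep i) (r1 * Y) (r2 * Y)).card : ℝ) with hc
  have hsum : ‖∑ α, G α‖ ≤ (K : ℝ) ^ 2 := by
    refine (norm_sum_le _ _).trans ((sum_le_sum fun α _ => hG1 α).trans (le_of_eq ?_))
    rw [sum_const, card_univ, Fintype.card_prod, ZMod.card, nsmul_eq_mul, mul_one]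
    push_cast
    ring
  have h3 : ‖((c : ℂ) - ((kd d * (r2 - r1) * Y : ℝ) : ℂ)) / (K : ℂ) ^ 2 * ∑ α, G α‖ ≤
      42 * (√(r2 * Y) + 1) := by
    rw [norm_mul, norm_div, norm_pow, Complex.norm_natCast, ← Complex.ofReal_sub,
      Complex.norm_real, Real.norm_eq_abs]
    have h4 : |c - kd d * (r2 - r1) * Y| ≤ 42 * (√(r2 * Y) + 1) := by
      have : kd d * (r2 - r1) * Y = kd d * (r2 * Y - r1 * Y) := by ring
      rw [this]
      exact h2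
    calc |c - kd d * (r2 - r1) * Y| / (K : ℝ) ^ 2 * ‖∑ α, G α‖
        ≤ 42 * (√(r2 * Y) + 1) / (K : ℝ) ^ 2 * (K : ℝ) ^ 2 := by gcongr
      _ = 42 * (√(r2 * Y) + 1) := by field_simp
  have e2 : S - ((kd d * (r2 - r1) * Y : ℝ) : ℂ) / (K : ℂ) ^ 2 * ∑ α, G α =
      (S - ((shQ (rep i) (r1 * Y) (r2 * Y)).card : ℂ) / (K : ℂ) ^ 2 * ∑ α, G α) +
      ((c : ℂ) - ((kd d * (r2 - r1) * Y : ℝ) : ℂ)) / (K : ℂ) ^ 2 * ∑ α, G α := by
    rw [hc]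
    push_cast
    ring
  rw [e2]
  refine (norm_add_le _ _).trans ((add_le_add h1 h3).trans ?_)
  rw [Real.sqrt_mul hr2.le]
  have k1 : √r2 * √Y + τ + 1 ≤ (√r2 + τ + 1) * (√Y + 1) := by
    have := Real.sqrt_nonneg r2
    have := Real.sqrt_nonneg Y
    nlinarith [mul_nonneg hτ (Real.sqrt_nonneg Y)]
  have k2 : √r2 * √Y + 1 ≤ (√r2 + 1) * (√Y + 1) := by
    have := Real.sqrt_nonneg r2
    have := Real.sqrt_nonneg Y
    nlinarith
  have k3 : (2 : ℝ) ≤ 2 * (√Y + 1) := by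
    have := Real.sqrt_nonneg Y
    linarith
  calc 400 * ((τ + 1) * (√r2 * √Y + τ + 1)) + 2 + 42 * (√r2 * √Y + 1)
      ≤ 400 * ((τ + 1) * ((√r2 + τ + 1) * (√Y + 1))) + 2 * (√Y + 1) +
        42 * ((√r2 + 1) * (√Y + 1)) := by gcongr
    _ = _ := by ring

theorem approx (r1 r2 : ℝ) (hr1 : 0 ≤ r1) (hr12 : r1 < r2) :
    ∃ C : ℝ, 0 ≤ C ∧ ∀ (k : Fin (mm d K 0)) (D : ℕ) (Y : ℝ), 0 < Y →
    ‖GD D k r1 r2 Y - lD D k r1 r2‖ ≤ C * ((√Y + 1) / Y) := by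
  choose Cf hCf H using fun i : Cl d => one_class (d := d) (K := K) r1 r2 hr1 hr12 i
  refine ⟨∑ i, Cf i, sum_nonneg fun i _ => hCf i, fun k D Y hY => ?_⟩
  have hYC : (Y : ℂ) ≠ 0 := by exact_mod_cast hY.ne'
  have e1 : GD D k r1 r2 Y - lD D k r1 r2 = (1 / (Y : ℂ)) * ∑ i,
      (∑ u ∈ Shg i (r1 * Y) (r2 * Y), ch (⟨0, k⟩ : Fq d K) i ((D : ℤ) • u) -
      ((kd d * (r2 - r1) * Y : ℝ) : ℂ) / (K : ℂ) ^ 2 * ∑ α : ZMod K × ZMod K,
        (starRingEnd ℂ) ((bv d K 0 k : Hs d K) (i, sc (D : ZMod K) α))) := by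
    unfold GD lD Sd
    rw [sum_sub_distrib, mul_sub, ← mul_sum, Fintype.sum_prod_type]
    push_cast
    field_simp
  rw [e1, norm_mul, norm_div, norm_one, Complex.norm_real, Real.norm_of_nonneg hY.le]
  calc 1 / Y * ‖∑ i, (∑ u ∈ Shg i (r1 * Y) (r2 * Y), ch (⟨0, k⟩ : Fq d K) i ((D : ℤ) • u) -
      ((kd d * (r2 - r1) * Y : ℝ) : ℂ) / (K : ℂ) ^ 2 * ∑ α : ZMod K × ZMod K,
        (starRingEnd ℂ) ((bv d K 0 k : Hs d K) (i, sc (D : ZMod K) α)))‖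
      ≤ 1 / Y * ∑ i, Cf i * (√Y + 1) := by
        refine mul_le_mul_of_nonneg_left ?_ (by positivity)
        exact (norm_sum_le _ _).trans (sum_le_sum fun i _ => H i k D Y hY)
    _ = (∑ i, Cf i) * ((√Y + 1) / Y) := by
        rw [← sum_mul]
        ring

theorem GD_le (r1 r2 : ℝ) (hr2 : 0 ≤ r2) (k : Fin (mm d K 0)) (D : ℕ) (Y : ℝ) (hY : 0 < Y) :
    ‖GD D k r1 r2 Y‖ ≤ UpG70.CT d * r2 := by
  unfold GD
  rw [norm_mul, norm_div, norm_one, Complex.norm_real, Real.norm_eq_abs, abs_of_pos hY]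
  have h1 : ‖∑ i, ∑ u ∈ Shg i (r1 * Y) (r2 * Y), ch (⟨0, k⟩ : Fq d K) i ((D : ℤ) • u)‖ ≤
      UpG70.CT d * (r2 * Y) := by
    refine (norm_sum_le _ _).trans ?_
    unfold UpG70.CT
    rw [sum_mul]
    refine sum_le_sum fun i _ => ?_
    refine (norm_sum_le _ _).trans ?_
    refine (sum_le_sum (g := fun _ => (1 : ℝ)) fun v hv => ?_).trans ?_
    · rw [ch0, RCLike.norm_conj]
      exact bv_le (⟨0, k⟩ : Fq d K) _
    · rw [sum_const, nsmul_eq_mul, mul_one]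
      exact UpG70.card_Shg i (by positivity)
  calc 1 / Y * ‖∑ i, ∑ u ∈ Shg i (r1 * Y) (r2 * Y), ch (⟨0, k⟩ : Fq d K) i ((D : ℤ) • u)‖ ≤
        1 / Y * (UpG70.CT d * (r2 * Y)) := mul_le_mul_of_nonneg_left h1 (by positivity)
    _ = UpG70.CT d * r2 := by field_simp

theorem lD_le (r1 r2 : ℝ) (hr12 : r1 < r2) (k : Fin (mm d K 0)) (D : ℕ) :
    ‖lD D k r1 r2‖ ≤ kd d * (r2 - r1) * Fintype.card (Cl d) := by
  have hK : (0 : ℝ) < K := by exact_mod_cast Nat.pos_of_ne_zero (NeZero.ne K)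
  have hkd : 0 ≤ kd d := by unfold kd; positivity
  have h0 : 0 ≤ r2 - r1 := by linarith
  have hS : ‖Sd D k‖ ≤ Fintype.card (Cl d) * (K : ℝ) ^ 2 := by
    unfold Sd
    refine (norm_sum_le _ _).trans ((sum_le_sum (g := fun _ => (1 : ℝ)) fun ia _ => ?_).trans
      (le_of_eq ?_))
    · rw [RCLike.norm_conj]
      exact bv_le (⟨0, k⟩ : Fq d K) _
    · rw [sum_const, card_univ, Fintype.card_prod, Fintype.card_prod, ZMod.card, nsmul_eq_mul,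
        mul_one]
      push_cast
      ring
  unfold lD
  rw [norm_mul, norm_div, norm_pow, Complex.norm_natCast, Complex.norm_real, Real.norm_of_nonneg
    (by positivity)]
  calc kd d * (r2 - r1) / (K : ℝ) ^ 2 * ‖Sd D k‖ ≤
      kd d * (r2 - r1) / (K : ℝ) ^ 2 * (Fintype.card (Cl d) * (K : ℝ) ^ 2) := by gcongr
    _ = kd d * (r2 - r1) * Fintype.card (Cl d) := by field_simp

/-- the limit for the primitive vectors, cut at `E` -/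
noncomputable def LE (k : Fin (mm d K 0)) (r1 r2 : ℝ) (E : ℕ) : ℂ :=
  ∑ D ∈ Finset.Icc 1 E, (ArithmeticFunction.moebius D : ℂ) / (D : ℂ) ^ 2 * lD D k r1 r2

theorem LE_inv (k : Fin (mm d K 0)) (r1 r2 : ℝ) (E : ℕ) {P : ℕ × Bool} (h : Adm d K P) :
    cw P (⟨0, k⟩ : Fq d K) * LE k r1 r2 E = LE k r1 r2 E := by
  unfold LE
  rw [mul_sum]
  refine sum_congr rfl fun D _ => ?_
  unfold lD
  conv_rhs => rw [← Sd_inv D k h]
  ring

theorem prim_approx (r1 r2 : ℝ) (hr1 : 0 ≤ r1) (hr12 : r1 < r2) (k : Fin (mm d K 0)) (ε : ℝ)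
    (hε : 0 < ε) : ∃ N0 : ℝ, 0 < N0 ∧ ∀ N : ℝ, N0 ≤ N → ∀ E : ℕ, r2 * N ≤ E →
    ‖Mpa (fun _ _ => 1) r1 r2 N (⟨0, k⟩ : Fq d K) - LE k r1 r2 E‖ ≤ ε := by
  have hr2 : 0 < r2 := lt_of_le_of_lt hr1 hr12
  obtain ⟨C, hC, H⟩ := approx (d := d) (K := K) r1 r2 hr1 hr12
  set T : ℝ := UpG70.CT d * r2 + kd d * (r2 - r1) * Fintype.card (Cl d) with hT
  have hkd : 0 ≤ kd d := by unfold kd; positivity
  have hT0 : 0 ≤ T := by
    have h1 := UpG70.CT_nonneg d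
    have h2 : 0 ≤ r2 - r1 := by linarith
    positivity
  set A : ℝ → ℝ := fun Y => min T |C * ((√Y + 1) / Y)| with hA
  have hA0 : ∀ N, 0 ≤ A N := fun N => le_min hT0 (abs_nonneg _)
  have hAT : ∀ N, 0 < N → A N ≤ T := fun N _ => min_le_left _ _
  have hlim : Tendsto (fun Y : ℝ => |C * ((√Y + 1) / Y)|) atTop (𝓝 0) := by
    have h1 : Tendsto (fun Y : ℝ => (√Y)⁻¹ + Y⁻¹) atTop (𝓝 0) := by
      have h2 := (tendsto_inv_atTop_zero.comp Real.tendsto_sqrt_atTop).add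
        (tendsto_inv_atTop_zero (𝕜 := ℝ))
      rw [add_zero] at h2
      exact h2
    have h3 : Tendsto (fun Y : ℝ => C * ((√Y + 1) / Y)) atTop (𝓝 0) := by
      have h4 := h1.const_mul C
      rw [mul_zero] at h4
      refine h4.congr' ?_
      filter_upwards [eventually_gt_atTop 0] with Y hY
      have h5 : 0 < √Y := Real.sqrt_pos.2 hY
      have h6 : Y = √Y * √Y := (Real.mul_self_sqrt hY.le).symm
      have h7 : (√Y)⁻¹ + Y⁻¹ = (√Y + 1) / Y := by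
        rw [add_div]
        congr 1
        · rw [eq_div_iff hY.ne']
          nth_rewrite 2 [h6]
          field_simp
        · rw [one_div]
      rw [h7]
    have h8 := h3.abs
    rwa [abs_zero] at h8
  have hA1 : Tendsto A atTop (𝓝 0) := by
    have h1 : Tendsto A atTop (𝓝 (min T 0)) := tendsto_const_nhds.min hlim
    rwa [min_eq_right hT0] at h1
  obtain ⟨N0, hN0, hc⟩ := Pw0G29.conv A T hA0 hAT hA1 ε hε
  refine ⟨N0, hN0, fun N hN E hE => ?_⟩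
  have hNp : 0 < N := lt_of_lt_of_le hN0 hN
  have hNC : (N : ℂ) ≠ 0 := by exact_mod_cast hNp.ne'
  have e1 : Mpa (fun _ _ => 1) r1 r2 N (⟨0, k⟩ : Fq d K) =
      ∑ D ∈ Finset.Icc 1 E, (ArithmeticFunction.moebius D : ℂ) / (D : ℂ) ^ 2 *
        GD D k r1 r2 (N / (D : ℝ) ^ 2) := by
    unfold Mpa GD
    have e2 : ∀ i : Cl d, ∑ v ∈ (Shg i (r1 * N) (r2 * N)).filter Prim,
        (1 : ℂ) * ch (⟨0, k⟩ : Fq d K) i v = ∑ D ∈ Finset.Icc 1 E,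
        (ArithmeticFunction.moebius D : ℂ) * ∑ u ∈ Shg i (r1 * (N / (D : ℝ) ^ 2))
          (r2 * (N / (D : ℝ) ^ 2)), ch (⟨0, k⟩ : Fq d K) i ((D : ℤ) • u) := by
      intro i
      have h1 := UpG70.prim_sum i (r1 * N) (r2 * N) E hE (fun v => ch (⟨0, k⟩ : Fq d K) i v)
      simp only [one_mul]
      rw [h1]
      refine sum_congr rfl fun D _ => ?_
      rw [mul_div_assoc, mul_div_assoc]
    rw [sum_congr rfl fun i _ => e2 i, sum_comm, mul_sum]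
    refine sum_congr rfl fun D hD => ?_
    have hD1 : 0 < D := (Finset.mem_Icc.1 hD).1
    have hD0 : (D : ℂ) ≠ 0 := by exact_mod_cast hD1.ne'
    rw [← mul_sum]
    push_cast
    field_simp
  rw [e1]
  unfold LE
  rw [← sum_sub_distrib]
  refine (norm_sum_le _ _).trans (le_trans (sum_le_sum fun D hD => ?_) (hc N hN E))
  have hD1 : 0 < D := (Finset.mem_Icc.1 hD).1
  have hD0 : (0 : ℝ) < D := by exact_mod_cast hD1
  have hY : 0 < N / (D : ℝ) ^ 2 := by positivity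
  rw [← mul_sub, norm_mul, norm_div, norm_pow, Complex.norm_natCast]
  have hmu : ‖(ArithmeticFunction.moebius D : ℂ)‖ ≤ 1 := by
    rw [Complex.norm_intCast]
    exact_mod_cast ArithmeticFunction.abs_moebius_le_one
  have h2 : ‖GD D k r1 r2 (N / (D : ℝ) ^ 2) - lD D k r1 r2‖ ≤ A (N / (D : ℝ) ^ 2) := by
    refine le_min ?_ ((H k D _ hY).trans (le_abs_self _))
    calc _ ≤ ‖GD D k r1 r2 (N / (D : ℝ) ^ 2)‖ + ‖lD D k r1 r2‖ := norm_sub_le _ _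
      _ ≤ T := add_le_add (GD_le r1 r2 hr2.le k D _ hY) (lD_le r1 r2 hr12 k D)
  calc ‖(ArithmeticFunction.moebius D : ℂ)‖ / (D : ℝ) ^ 2 *
      ‖GD D k r1 r2 (N / (D : ℝ) ^ 2) - lD D k r1 r2‖
      ≤ 1 / (D : ℝ) ^ 2 * A (N / (D : ℝ) ^ 2) := by gcongr
    _ = _ := rfl

open Classical in
/-- **frequency `0`, `z = 1`** -/
theorem freq_one (r1 r2 : ℝ) (hr1 : 0 ≤ r1) (hr12 : r1 < r2) (w : Fq d K) (hw : w.1 = 0) (ε : ℝ)
    (hε : 0 < ε) : ∃ X0 : ℝ, 1 ≤ X0 ∧ ∀ N : ℝ, ∀ W : Finset ℕ, (∀ p ∈ W, Spl d K p) →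
    (∀ p ∈ W, X0 * p ≤ N) → (∀ p ∈ W, ∀ p' ∈ W, r2 * N < (p : ℝ) * p') →
    ‖Mpa (fun i v => (if ∃ p ∈ W, (p : ℤ) ∣ (rep i).q v then (1 : ℂ) else 0) -
      ((∑ p ∈ W, 2 / (p : ℝ) : ℝ) : ℂ)) r1 r2 N w‖ ≤ ε * ∑ p ∈ W, 2 / (p : ℝ) := by
  have hr2 : 0 < r2 := lt_of_le_of_lt hr1 hr12
  obtain ⟨j, k⟩ := w
  have hj : j = 0 := hw
  subst hj
  obtain ⟨N0, hN0, H⟩ := prim_approx (d := d) (K := K) r1 r2 hr1 hr12 k (ε / 2) (by positivity)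
  refine ⟨max N0 1, le_max_right _ _, fun N W hW hX hb => ?_⟩
  set M1 : ℝ → ℂ := fun N => Mpa (fun _ _ => (1 : ℂ)) r1 r2 N (⟨0, k⟩ : Fq d K) with hM1
  have e1 : Mpa (fun i v => (if ∃ p ∈ W, (p : ℤ) ∣ (rep i).q v then (1 : ℂ) else 0) -
      ((∑ p ∈ W, 2 / (p : ℝ) : ℝ) : ℂ)) r1 r2 N (⟨0, k⟩ : Fq d K) =
      Mpa (fun i v => if ∃ p ∈ W, (p : ℤ) ∣ (rep i).q v then (1 : ℂ) else 0) r1 r2 N
        (⟨0, k⟩ : Fq d K) - ((∑ p ∈ W, 2 / (p : ℝ) : ℝ) : ℂ) * M1 N := by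
    rw [hM1]
    unfold Mpa
    rw [← mul_assoc, mul_comm (((∑ p ∈ W, 2 / (p : ℝ) : ℝ) : ℂ)) (1 / (N : ℂ)), mul_assoc,
      ← mul_sub]
    congr 1
    rw [mul_sum, ← sum_sub_distrib]
    refine sum_congr rfl fun i _ => ?_
    rw [mul_sum, ← sum_sub_distrib]
    refine sum_congr rfl fun v _ => ?_
    ring
  rw [e1, win_id hW r1 r2 N hb (⟨0, k⟩ : Fq d K) 1 (fun _ _ => 1) (fun _ _ => 1)
    (fun P hP i u hu => by simp), sum_product, mul_sum]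
  push_cast
  rw [sum_mul, ← sum_sub_distrib]
  refine (norm_sum_le _ _).trans (sum_le_sum fun p hp => ?_)
  have hp1 : 1 ≤ (p : ℝ) := by exact_mod_cast (hW p hp).1.one_lt.le
  have hp0 : (0 : ℝ) < p := by linarith
  have hpC : (p : ℂ) ≠ 0 := by exact_mod_cast hp0.ne'
  have hXp := hX p hp
  have hm1 : 1 ≤ max N0 1 := le_max_right _ _
  have hN1 : max N0 1 ≤ N := by nlinarith
  have hN2 : max N0 1 ≤ N / p := by rwa [le_div_iff₀ hp0]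
  have hNpos : 0 < N := by linarith
  set E : ℕ := ⌈r2 * N⌉₊ with hE
  have hE1 : r2 * N ≤ E := Nat.le_ceil _
  have hE2 : r2 * (N / p) ≤ E := by
    refine le_trans ?_ hE1
    apply mul_le_mul_of_nonneg_left _ hr2.le
    exact div_le_self hNpos.le hp1
  have h1 := H N ((le_max_left _ _).trans hN1) E hE1
  have h2 := H (N / p) ((le_max_left _ _).trans hN2) E hE2
  have key : ∀ b : Bool, ‖cw (p, b) (⟨0, k⟩ : Fq d K) * M1 (N / p) - M1 N‖ ≤ ε := by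
    intro b
    have hA : Adm d K (p, b) := hW p hp
    have e2 : cw (p, b) (⟨0, k⟩ : Fq d K) * M1 (N / p) - M1 N =
        cw (p, b) (⟨0, k⟩ : Fq d K) * (M1 (N / p) - LE k r1 r2 E) - (M1 N - LE k r1 r2 E) := by
      rw [mul_sub, LE_inv k r1 r2 E hA]
      ring
    rw [e2]
    refine (norm_sub_le _ _).trans ?_
    rw [norm_mul, norm_cw hA, one_mul]
    linarith
  have e3 : ∑ y : Bool, 1 * cw (p, y) (⟨0, k⟩ : Fq d K) / (p : ℂ) * Mpa (fun _ _ => (1 : ℂ)) r1 r2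
      (N / (p : ℝ)) (⟨0, k⟩ : Fq d K) - 2 / (p : ℂ) * M1 N = 1 / (p : ℂ) *
      ((cw (p, true) (⟨0, k⟩ : Fq d K) * M1 (N / p) - M1 N) +
      (cw (p, false) (⟨0, k⟩ : Fq d K) * M1 (N / p) - M1 N)) := by
    rw [Fintype.sum_bool, hM1]
    simp only
    ring
  rw [e3, norm_mul, norm_div, norm_one, Complex.norm_natCast]
  calc 1 / (p : ℝ) * ‖(cw (p, true) (⟨0, k⟩ : Fq d K) * M1 (N / p) - M1 N) +
      (cw (p, false) (⟨0, k⟩ : Fq d K) * M1 (N / p) - M1 N)‖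
      ≤ 1 / (p : ℝ) * (ε + ε) := by
        refine mul_le_mul_of_nonneg_left ?_ (by positivity)
        exact (norm_add_le _ _).trans (add_le_add (key true) (key false))
    _ = ε * (2 / (p : ℝ)) := by ring

end Pool.Agent.Lib.MP_a17b09_nt.PQ.Freq12
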