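import Pool.Agent.Lib.MP_a17b09_nt.PQ.Stmts79
import Pool.Agent.Lib.MP_a17b09_nt.PQ.Win22
import Pool.Agent.Lib.MP_a17b09_nt.MRS.LatU84
import Pool.Agent.Lib.MP_a17b09_nt.MRSG.StructC17

/-!
PQ, row N1 (helper22): few vectors have a prime factor `1 mod 4 d` in a window of bounded ratio.
-/

set_option autoImplicit false

open Filter Topology Finset

namespace Pool.Agent.Lib.MP_a17b09_nt.PQ

open CH CH.PE MRSG MRS

namespace N22

theorem rg_not {d : ℕ} (p : ℕ) (b : Bool) : rg d (p, !b) = -rg d (p, b) := by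
  unfold rg
  cases b <;> simp

/-- vectors of the ball whose norm is divisible by the prime `p`, `1 mod 4 d` -/
theorem one_prime {d : ℕ} (hd : 0 < d) (i : Cl d) {p : ℕ} (hp : p.Prime) (h4 : p ≡ 1 [MOD 4 * d])
    {N : ℕ} (hpN : p ≤ N) : ((((rep i).ball N).filter
      (fun v => p ∣ ((rep i).q v).natAbs)).card : ℝ) ≤ 92 * (N * (1 / (p : ℝ))) := by
  classical
  have h1 : p ≡ 1 [MOD 1] := Nat.modEq_one
  have hA : ∀ b : Bool, Adm d 1 (p, b) := fun b => adm_of_one b hp hd one_pos h4 h1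
  have hQ := rep_pos i
  have hp0 : (0 : ℝ) < p := by exact_mod_cast hp.pos
  have hNp : (1 : ℝ) ≤ (N : ℝ) / p := by
    rw [le_div_iff₀ hp0, one_mul]
    exact_mod_cast hpN
  set S : Bool → Finset V := fun b => ((rep i).ball N).filter (LatU84.Im (Mg d (p, b) i)) with hS
  have hcard : ∀ b : Bool, ((S b).card : ℝ) ≤ 46 * ((N : ℝ) / p) := by
    intro b
    obtain ⟨-, hr⟩ := rel_g (hA b) i
    have h2 := LatU84.sub_bd (rep i) hQ (Mg d (p, b) i) p hp.pos hr.det
      (fun u => ⟨_, hr.sim u⟩) (S b) N (fun v => by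
        rw [hS]
        simp only
        rw [Finset.mem_filter, Form.mem_ball hQ])
    have h3 := (abs_le.1 h2).2
    have h4 := LatU84.kap_le (rep i) hQ
    have h5 : √((N : ℝ) / p) ≤ (N : ℝ) / p := by
      rw [Real.sqrt_le_left (by linarith)]
      nlinarith
    have h6 : LatG84.kap (rep i) * ((N : ℝ) / p) ≤ 4 * ((N : ℝ) / p) :=
      mul_le_mul_of_nonneg_right h4 (by linarith)
    linarith
  have hsub : ((rep i).ball N).filter (fun v => p ∣ ((rep i).q v).natAbs) ⊆
      S true ∪ S false := by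
    intro v hv
    rw [Finset.mem_filter] at hv
    have h2 : (p : ℤ) ∣ (rep i).q v := Int.natCast_dvd.2 hv.2
    rw [Finset.mem_union, hS]
    simp only [Finset.mem_filter]
    rcases (adm_dvd_iff (hA true) i).1 h2 with h3 | h3
    · obtain ⟨w, hw⟩ := (adm_eig_iff (hA true) i).1 h3
      exact Or.inl ⟨hv.1, w, hw.symm⟩
    · have h4 : rg d (p, false) = -rg d (p, true) := rg_not p true
      rw [← h4] at h3
      obtain ⟨w, hw⟩ := (adm_eig_iff (hA false) i).1 h3
      exact Or.inr ⟨hv.1, w, hw.symm⟩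
  calc ((((rep i).ball N).filter (fun v => p ∣ ((rep i).q v).natAbs)).card : ℝ)
      ≤ ((S true ∪ S false).card : ℝ) := by exact_mod_cast Finset.card_le_card hsub
    _ ≤ ((S true).card : ℝ) + ((S false).card : ℝ) := by exact_mod_cast Finset.card_union_le _ _
    _ ≤ 46 * ((N : ℝ) / p) + 46 * ((N : ℝ) / p) := add_le_add (hcard _) (hcard _)
    _ = _ := by ring

/-- the representatives -/
theorem rep_null (d : ℕ) (hd : 0 < d) (i : Cl d) (η C : ℝ) (hη : 0 < η) (hη1 : η < 1)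
    (hC : 1 < C) (ε : ℝ) (hε : 0 < ε) : ∃ N0 : ℕ, ∀ N : ℕ, N0 ≤ N → ∀ S : Finset V,
    (∀ v ∈ S, (rep i).q v ≤ N ∧ ∃ p : ℕ, p.Prime ∧ p ≡ 1 [MOD 4 * d] ∧
      p ∣ ((rep i).q v).natAbs ∧ (N : ℝ) ^ η / C < p ∧ (p : ℝ) ≤ C * (N : ℝ) ^ η) →
    (S.card : ℝ) ≤ ε * N := by
  classical
  have hQ := rep_pos i
  set ε' : ℝ := min 1 (ε / 276) with hε'
  have he0 : 0 < ε' := lt_min one_pos (by positivity)
  have he1 : ε' ≤ 1 := min_le_left _ _
  have he2 : 276 * ε' ≤ ε := by
    have := min_le_right (1 : ℝ) (ε / 276)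
    rw [← hε'] at this
    linarith
  obtain ⟨X, hX2, hX⟩ := Win22.mer_small (4 * d) (by positivity) 1 (Nat.coprime_one_left _)
    ε' he0
  set A : ℝ := Real.log (2 * C) + Real.log C with hA
  have hlC : 0 < Real.log C := Real.log_pos hC
  have hl2C : 0 < Real.log (2 * C) := Real.log_pos (by linarith)
  have hA0 : 0 < A := by positivity
  have ht1 : Tendsto (fun N : ℕ => (N : ℝ) ^ η / C) atTop atTop :=
    ((tendsto_rpow_atTop hη).comp tendsto_natCast_atTop_atTop).atTop_div_const (by linarith)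
  have ht2 : Tendsto (fun N : ℕ => (N : ℝ) ^ (1 - η)) atTop atTop :=
    (tendsto_rpow_atTop (by linarith)).comp tendsto_natCast_atTop_atTop
  have hev := ((ht1.eventually_ge_atTop (max X (Real.exp (A / ε')))).and
    (ht2.eventually_ge_atTop C)).and (eventually_ge_atTop 1)
  obtain ⟨N0, hN0⟩ := eventually_atTop.1 hev
  refine ⟨N0, fun N hN S hS => ?_⟩
  obtain ⟨⟨e1, e2⟩, e3⟩ := hN0 N hN
  have hN1 : (1 : ℝ) ≤ N := by exact_mod_cast e3
  set x : ℝ := (N : ℝ) ^ η / C with hx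
  set y : ℝ := 2 * C * (N : ℝ) ^ η with hy
  have hxX : X ≤ x := (le_max_left _ _).trans e1
  have hxE : Real.exp (A / ε') ≤ x := (le_max_right _ _).trans e1
  have hNη : 0 < (N : ℝ) ^ η := by positivity
  have hx0 : 0 < x := by positivity
  have hxy : x ≤ y := by
    rw [hx, hy]
    have h1 : (N : ℝ) ^ η / C ≤ (N : ℝ) ^ η := div_le_self hNη.le hC.le
    nlinarith
  have hlx : A / ε' ≤ Real.log x := by
    rw [Real.le_log_iff_exp_le hx0]
    exact hxE
  have hlx0 : 0 < Real.log x := lt_of_lt_of_le (by positivity) hlx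
  have hly : Real.log y = Real.log x + A := by
    have h1 : y = 2 * C * (x * C) := by
      rw [hx, hy]
      field_simp
    rw [h1, Real.log_mul (by positivity) (by positivity), Real.log_mul hx0.ne' (by positivity), hA]
    ring
  set L : ℝ := Real.log (Real.log y / Real.log x) with hL
  have hL1 : L ≤ ε' := by
    have h1 : 0 < Real.log y / Real.log x := by
      rw [hly]
      positivity
    have h2 := Real.log_le_sub_one_of_pos h1
    refine h2.trans ?_
    rw [hly, add_div, div_self hlx0.ne', add_sub_cancel_left, div_le_iff₀ hlx0]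
    rw [div_le_iff₀ he0] at hlx
    linarith
  have hL0 : 0 ≤ L := Real.log_nonneg (by rw [hly, le_div_iff₀ hlx0]; linarith)
  have hmer := (abs_le.1 (hX x y hxX hxy)).2
  have hphi : 1 / (Nat.totient (4 * d) : ℝ) ≤ 1 := by
    have h1 : (1 : ℝ) ≤ Nat.totient (4 * d) := by
      have : 0 < Nat.totient (4 * d) := Nat.totient_pos.2 (by positivity)
      exact_mod_cast this
    rw [div_le_one (by linarith)]
    exact h1
  have hsum : ∑ p ∈ PA7 (4 * d) 1 x y, (1 : ℝ) / p ≤ 3 * ε' := by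
    have h1 : 1 / (Nat.totient (4 * d) : ℝ) * L ≤ 1 * L := mul_le_mul_of_nonneg_right hphi hL0
    have h2 : ε' * (1 + L) ≤ ε' * 2 := mul_le_mul_of_nonneg_left (by linarith) he0.le
    linarith
  -- only the primes `p ≤ C N ^ η ≤ N` are needed
  set W : Finset ℕ := (PA7 (4 * d) 1 x y).filter (fun p : ℕ => (p : ℝ) ≤ C * (N : ℝ) ^ η) with hW
  have hsub : S ⊆ W.biUnion (fun p => ((rep i).ball N).filter
      (fun v => p ∣ ((rep i).q v).natAbs)) := by
    intro v hv
    obtain ⟨h1, p, hp, hp4, hpd, hp1, hp2⟩ := hS v hv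
    rw [Finset.mem_biUnion]
    refine ⟨p, ?_, ?_⟩
    · rw [hW, Finset.mem_filter, mem_PA7]
      refine ⟨⟨hp, hp4, hp1.le, ?_⟩, hp2⟩
      rw [hy]
      nlinarith [mul_pos (show (0 : ℝ) < C by linarith) hNη]
    · rw [Finset.mem_filter, Form.mem_ball hQ]
      exact ⟨h1, hpd⟩
  have hCN : C * (N : ℝ) ^ η ≤ N := by
    calc C * (N : ℝ) ^ η ≤ (N : ℝ) ^ (1 - η) * (N : ℝ) ^ η :=
          mul_le_mul_of_nonneg_right e2 hNη.le
      _ = N := by
          rw [← Real.rpow_add (by linarith), sub_add_cancel, Real.rpow_one]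
  have hterm : ∀ p ∈ W, ((((rep i).ball N).filter
      (fun v => p ∣ ((rep i).q v).natAbs)).card : ℝ) ≤ 92 * (N * (1 / (p : ℝ))) := by
    intro p hp
    rw [hW, Finset.mem_filter, mem_PA7] at hp
    refine one_prime hd i hp.1.1 hp.1.2.1 ?_
    exact_mod_cast hp.2.trans hCN
  have hWle : ∑ p ∈ W, (1 : ℝ) / p ≤ ∑ p ∈ PA7 (4 * d) 1 x y, (1 : ℝ) / p :=
    Finset.sum_le_sum_of_subset_of_nonneg (Finset.filter_subset _ _) fun p _ _ => by positivity
  calc (S.card : ℝ) ≤ ((W.biUnion (fun p => ((rep i).ball N).filter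
        (fun v => p ∣ ((rep i).q v).natAbs))).card : ℝ) := by
        exact_mod_cast Finset.card_le_card hsub
    _ ≤ ∑ p ∈ W, ((((rep i).ball N).filter
        (fun v => p ∣ ((rep i).q v).natAbs)).card : ℝ) := by exact_mod_cast Finset.card_biUnion_le
    _ ≤ ∑ p ∈ W, 92 * (N * (1 / (p : ℝ))) := Finset.sum_le_sum hterm
    _ = 92 * N * ∑ p ∈ W, (1 : ℝ) / p := by
        rw [Finset.mul_sum]
        exact Finset.sum_congr rfl fun p _ => by ring
    _ ≤ 92 * N * (3 * ε') := mul_le_mul_of_nonneg_left (hWle.trans hsum) (by positivity)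
    _ = 276 * ε' * N := by ring
    _ ≤ ε * N := mul_le_mul_of_nonneg_right he2 (by linarith)

end N22

open N22 in
/-- **row N1** -/
theorem stNull_22 (d : ℕ) : StNull d := by
  classical
  intro Q hQ hD η C hη hη1 hC ε hε
  have hd : 0 < d := by
    have h1 := hQ.2
    rw [hD] at h1
    exact_mod_cast h1
  obtain ⟨i, hi⟩ := exists_cl hQ hD
  obtain ⟨γ, hγ, hQi⟩ := hi.symm
  obtain ⟨N0, hN0⟩ := rep_null d hd i η C hη hη1 hC ε hε
  refine ⟨N0, fun N hN => ?_⟩
  have hq : ∀ v : V, Q.q v = (rep i).q (γ.app v) := by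
    intro v
    rw [hQi, Form.comp_q]
  have hinj : Function.Injective γ.app := app_inj (by rw [hγ]; exact one_ne_zero)
  rw [← Finset.card_image_of_injective _ hinj]
  refine hN0 N hN _ fun w hw => ?_
  obtain ⟨v, hv, rfl⟩ := Finset.mem_image.1 hw
  rw [Finset.mem_filter, Form.mem_ball hQ] at hv
  obtain ⟨h1, -, p, h2⟩ := hv
  rw [hq v] at h1 h2
  exact ⟨h1, p, h2⟩

end Pool.Agent.Lib.MP_a17b09_nt.PQ
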