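import Pool.Agent.Lib.MP_a17b09_nt.PQ.Stmts79
import Pool.Agent.Lib.MP_a17b09_nt.PQ.FreqOne12
import Pool.Agent.Lib.MP_a17b09_nt.PQ.F1_7
import Pool.Agent.Lib.MP_a17b09_nt.PQ.N1_22

/-!
PQ (MP_a17b09_nt), row F4: the frequencies `0` of the weight `b - ρ` tend to zero.  helper42.

The window of the weight is the one of the value `n = Q v`; it is replaced by the window of `N`
(few vectors have a prime near the ends, `StNull`), for which `Freq12.freq_one` applies.
-/

set_option autoImplicit false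

open Filter Topology Finset

namespace Pool.Agent.Lib.MP_a17b09_nt.PQ

open CH CH.PE MRSG MRS

namespace F42

open Classical in
/-- the primes of the window of `N` -/
noncomputable def WN (q : ℕ) (δ N : ℝ) : Finset ℕ :=
  (Finset.range (⌊N ^ (1 - δ / 2)⌋₊ + 1)).filter
    (fun p => p.Prime ∧ p ≡ 1 [MOD q] ∧ N ^ (1 - δ) < p)

theorem mem_WN {q : ℕ} {δ N : ℝ} (hN : 0 ≤ N) {p : ℕ} : p ∈ WN q δ N ↔
    p.Prime ∧ p ≡ 1 [MOD q] ∧ N ^ (1 - δ) < p ∧ (p : ℝ) ≤ N ^ (1 - δ / 2) := by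
  unfold WN
  rw [Finset.mem_filter, Finset.mem_range, Nat.lt_succ_iff,
    Nat.le_floor_iff (Real.rpow_nonneg hN _)]
  tauto

/-- the comparison of powers -/
theorem pow_cmp {r1 r2 N m θ : ℝ} (hr1 : 0 < r1) (hr12 : r1 < r2) (hN : 0 < N) (h1 : r1 * N < m)
    (h2 : m ≤ r2 * N) (hθ0 : 0 < θ) (hθ1 : θ ≤ 1) :
    N ^ θ / (1 + r2 + 1 / r1) ≤ m ^ θ ∧ m ^ θ ≤ (1 + r2 + 1 / r1) * N ^ θ := by
  have hr2 : 0 < r2 := hr1.trans hr12
  have hi : 0 < 1 / r1 := by positivity
  have hNθ : 0 < N ^ θ := Real.rpow_pos_of_pos hN θ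
  have hm : 0 < m := lt_trans (by positivity) h1
  constructor
  · have h3 : (r1 * N) ^ θ ≤ m ^ θ := Real.rpow_le_rpow (by positivity) h1.le hθ0.le
    rw [Real.mul_rpow hr1.le hN.le] at h3
    have h4 : 1 / (1 + r2 + 1 / r1) ≤ r1 ^ θ := by
      rcases le_total 1 r1 with h | h
      · have h5 : 1 ≤ r1 ^ θ := Real.one_le_rpow h hθ0.le
        have h6 : 1 / (1 + r2 + 1 / r1) ≤ 1 := by
          rw [div_le_one (by positivity)]
          linarith
        linarith
      · have h5 : r1 ≤ r1 ^ θ := by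
          calc r1 = r1 ^ (1 : ℝ) := (Real.rpow_one r1).symm
            _ ≤ r1 ^ θ := Real.rpow_le_rpow_of_exponent_ge hr1 h hθ1
        have h6 : 1 / (1 + r2 + 1 / r1) ≤ r1 := by
          rw [div_le_iff₀ (by positivity)]
          have h7 : r1 * (1 / r1) = 1 := by field_simp
          have h8 : 0 ≤ r1 * (1 + r2) := by positivity
          nlinarith
        linarith
    calc N ^ θ / (1 + r2 + 1 / r1) = 1 / (1 + r2 + 1 / r1) * N ^ θ := by ring
      _ ≤ r1 ^ θ * N ^ θ := mul_le_mul_of_nonneg_right h4 hNθ.le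
      _ ≤ m ^ θ := h3
  · calc m ^ θ ≤ (r2 * N) ^ θ := Real.rpow_le_rpow hm.le h2 hθ0.le
      _ = r2 ^ θ * N ^ θ := Real.mul_rpow hr2.le hN.le
      _ ≤ (1 + r2 + 1 / r1) * N ^ θ := by
          refine mul_le_mul_of_nonneg_right ?_ hNθ.le
          have h3 : r2 ^ θ ≤ (1 + r2) ^ θ := Real.rpow_le_rpow hr2.le (by linarith) hθ0.le
          have h4 : (1 + r2) ^ θ ≤ (1 + r2) ^ (1 : ℝ) :=
            Real.rpow_le_rpow_of_exponent_le (by linarith) hθ1
          rw [Real.rpow_one] at h4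
          linarith

/-- the windows of `m` and of `N` differ only by primes near the two ends -/
theorem win_diffN {q : ℕ} {δ : ℝ} (h0 : 0 < δ) (h1 : δ < 1 / 2) {r1 r2 N : ℝ} (hr1 : 0 < r1)
    (hr12 : r1 < r2) (hN : 0 < N) {m : ℕ} (hm1 : r1 * N < m) (hm2 : (m : ℝ) ≤ r2 * N)
    (h : ¬ (Win q δ m ↔ WinN q δ N m)) :
    ∃ θ : ℝ, (θ = 1 - δ ∨ θ = 1 - δ / 2) ∧ ∃ r : ℕ, r.Prime ∧ r ≡ 1 [MOD q] ∧ r ∣ m ∧
      N ^ θ / (1 + r2 + 1 / r1) < r ∧ (r : ℝ) ≤ (1 + r2 + 1 / r1) * N ^ θ := by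
  have hr2 : 0 < r2 := hr1.trans hr12
  have hi : 0 < 1 / r1 := by positivity
  have key : ∀ θ : ℝ, (θ = 1 - δ ∨ θ = 1 - δ / 2) →
      N ^ θ / (1 + r2 + 1 / r1) ≤ (m : ℝ) ^ θ ∧ (m : ℝ) ^ θ ≤ (1 + r2 + 1 / r1) * N ^ θ ∧
      N ^ θ / (1 + r2 + 1 / r1) ≤ N ^ θ ∧ N ^ θ ≤ (1 + r2 + 1 / r1) * N ^ θ := by
    intro θ hθ
    have hθ0 : 0 < θ := by rcases hθ with h2 | h2 <;> rw [h2] <;> linarith
    have hθ1 : θ ≤ 1 := by rcases hθ with h2 | h2 <;> rw [h2] <;> linarith
    obtain ⟨e1, e2⟩ := pow_cmp hr1 hr12 hN hm1 hm2 hθ0 hθ1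
    have hNθ : 0 < N ^ θ := Real.rpow_pos_of_pos hN θ
    refine ⟨e1, e2, ?_, ?_⟩
    · exact div_le_self hNθ.le (by linarith)
    · nlinarith
  obtain ⟨a1, a2, a3, a4⟩ := key (1 - δ) (Or.inl rfl)
  obtain ⟨b1, b2, b3, b4⟩ := key (1 - δ / 2) (Or.inr rfl)
  by_cases hW : Win q δ m
  · have hW' : ¬ WinN q δ N m := fun h2 => h ⟨fun _ => h2, fun _ => hW⟩
    obtain ⟨r, hr, hr1', hrm, ha, hb⟩ := hW
    by_cases hc : N ^ (1 - δ) < r
    · refine ⟨1 - δ / 2, Or.inr rfl, r, hr, hr1', hrm, ?_, hb.trans b2⟩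
      by_contra hd
      push Not at hd
      exact hW' ⟨r, hr, hr1', hrm, hc, hd.trans b3⟩
    · push Not at hc
      exact ⟨1 - δ, Or.inl rfl, r, hr, hr1', hrm, lt_of_le_of_lt a1 ha, hc.trans a4⟩
  · have hW' : WinN q δ N m := by
      by_contra h2
      exact h ⟨fun h3 => absurd h3 hW, fun h3 => absurd h3 h2⟩
    obtain ⟨r, hr, hr1', hrm, ha, hb⟩ := hW'
    by_cases hc : (m : ℝ) ^ (1 - δ) < r
    · refine ⟨1 - δ / 2, Or.inr rfl, r, hr, hr1', hrm, ?_, hb.trans b4⟩
      by_contra hd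
      push Not at hd
      exact hW ⟨r, hr, hr1', hrm, hc, hd.trans b1⟩
    · push Not at hc
      exact ⟨1 - δ, Or.inl rfl, r, hr, hr1', hrm, lt_of_le_of_lt a3 ha, hc.trans a2⟩

open Classical in
/-- few vectors of a shell see the difference between the windows of `Q v` and of `N` -/
theorem few {d : ℕ} (hNull : StNull d) (i : Cl d) {δ : ℝ} (h0 : 0 < δ) (h1 : δ < 1 / 2)
    {r1 r2 : ℝ} (hr1 : 0 < r1) (hr12 : r1 < r2) (ε : ℝ) (hε : 0 < ε) : ∃ N0 : ℝ, ∀ N : ℝ, N0 ≤ N →
    ((((Shg i (r1 * N) (r2 * N)).filter (fun v => ¬ (Win (4 * d) δ ((rep i).q v).natAbs ↔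
      WinN (4 * d) δ N ((rep i).q v).natAbs))).card : ℝ)) ≤ ε * N := by
  have hr2 : 0 < r2 := hr1.trans hr12
  have hi : 0 < 1 / r1 := by positivity
  set C : ℝ := (1 + r2) * (1 + r2 + 1 / r1) with hC
  have hC1 : 1 < C := by
    rw [hC]
    nlinarith [mul_pos hr2 hi, mul_pos hr2 hr2]
  have hε' : 0 < ε / (2 * (1 + r2)) := by positivity
  obtain ⟨M1, hM1⟩ := hNull (rep i) (rep_pos i) (rep_D i) (1 - δ) C (by linarith) (by linarith) hC1
    (ε / (2 * (1 + r2))) hε'
  obtain ⟨M2, hM2⟩ := hNull (rep i) (rep_pos i) (rep_D i) (1 - δ / 2) C (by linarith)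
    (by linarith) hC1 (ε / (2 * (1 + r2))) hε'
  refine ⟨max (max (M1 : ℝ) M2) (max (1 / r2) 1), fun N hN => ?_⟩
  have hN1 : (M1 : ℝ) ≤ N := (le_max_left _ _).trans ((le_max_left _ _).trans hN)
  have hN2 : (M2 : ℝ) ≤ N := (le_max_right _ _).trans ((le_max_left _ _).trans hN)
  have hN3 : 1 / r2 ≤ N := (le_max_left _ _).trans ((le_max_right _ _).trans hN)
  have hN4 : 1 ≤ N := (le_max_right _ _).trans ((le_max_right _ _).trans hN)
  have hNp : 0 < N := by linarith
  have hN5 : 1 ≤ r2 * N := by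
    rw [div_le_iff₀ hr2] at hN3
    linarith
  set n : ℕ := ⌊(1 + r2) * N⌋₊ with hn
  have hnu : (n : ℝ) ≤ (1 + r2) * N := Nat.floor_le (by positivity)
  have hnl : N ≤ n := by
    have h2 : (1 + r2) * N < n + 1 := Nat.lt_floor_add_one _
    have h3 : (1 + r2) * N = N + r2 * N := by ring
    linarith
  have hnp : (0 : ℝ) < n := lt_of_lt_of_le hNp hnl
  have hA1 := hM1 n (by exact_mod_cast hN1.trans hnl)
  have hA2 := hM2 n (by exact_mod_cast hN2.trans hnl)
  set A1 := ((rep i).ball n).filter (fun v => v ≠ 0 ∧ ∃ p : ℕ, p.Prime ∧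
    p ≡ 1 [MOD 4 * d] ∧ p ∣ ((rep i).q v).natAbs ∧ (n : ℝ) ^ (1 - δ) / C < p ∧
    (p : ℝ) ≤ C * (n : ℝ) ^ (1 - δ)) with hA1d
  set A2 := ((rep i).ball n).filter (fun v => v ≠ 0 ∧ ∃ p : ℕ, p.Prime ∧
    p ≡ 1 [MOD 4 * d] ∧ p ∣ ((rep i).q v).natAbs ∧ (n : ℝ) ^ (1 - δ / 2) / C < p ∧
    (p : ℝ) ≤ C * (n : ℝ) ^ (1 - δ / 2)) with hA2d
  have hsub : (Shg i (r1 * N) (r2 * N)).filter (fun v => ¬ (Win (4 * d) δ ((rep i).q v).natAbs ↔
      WinN (4 * d) δ N ((rep i).q v).natAbs)) ⊆ A1 ∪ A2 := by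
    intro v hv
    rw [Finset.mem_filter, mem_Shg] at hv
    obtain ⟨⟨hne, hv1, hv2⟩, hvw⟩ := hv
    have hqpos := (rep_pos i).q_pos hne
    set m : ℕ := ((rep i).q v).natAbs with hm
    have hmq : (m : ℤ) = (rep i).q v := by
      rw [hm]; exact Int.natAbs_of_nonneg hqpos.le
    have hmr : (m : ℝ) = ((rep i).q v : ℝ) := by
      rw [← hmq]
      push_cast
      rfl
    rw [← hmr] at hv1 hv2
    obtain ⟨θ, hθ, r, hr, hr1', hrm, ha, hb⟩ := win_diffN h0 h1 hr1 hr12 hNp hv1 hv2 hvw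
    have hθ0 : 0 < θ := by rcases hθ with h2 | h2 <;> rw [h2] <;> linarith
    have hθ1 : θ ≤ 1 := by rcases hθ with h2 | h2 <;> rw [h2] <;> linarith
    have hNθ : 0 < N ^ θ := Real.rpow_pos_of_pos hNp θ
    have e1 : N ^ θ ≤ (n : ℝ) ^ θ := Real.rpow_le_rpow hNp.le hnl hθ0.le
    have e2 : (n : ℝ) ^ θ ≤ (1 + r2) * N ^ θ := by
      calc (n : ℝ) ^ θ ≤ ((1 + r2) * N) ^ θ := Real.rpow_le_rpow hnp.le hnu hθ0.le
        _ = (1 + r2) ^ θ * N ^ θ := Real.mul_rpow (by linarith) hNp.le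
        _ ≤ (1 + r2) * N ^ θ := by
            refine mul_le_mul_of_nonneg_right ?_ hNθ.le
            have h4 : (1 + r2) ^ θ ≤ (1 + r2) ^ (1 : ℝ) :=
              Real.rpow_le_rpow_of_exponent_le (by linarith) hθ1
            rwa [Real.rpow_one] at h4
    have hlow : (n : ℝ) ^ θ / C < r := by
      refine lt_of_le_of_lt ?_ ha
      rw [hC, div_le_div_iff₀ (by positivity) (by positivity)]
      have h3 : 0 ≤ 1 + r2 + 1 / r1 := by positivity
      calc (n : ℝ) ^ θ * (1 + r2 + 1 / r1) ≤ (1 + r2) * N ^ θ * (1 + r2 + 1 / r1) :=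
            mul_le_mul_of_nonneg_right e2 h3
        _ = N ^ θ * ((1 + r2) * (1 + r2 + 1 / r1)) := by ring
    have hup : (r : ℝ) ≤ C * (n : ℝ) ^ θ := by
      refine hb.trans ?_
      have h3 : 0 ≤ 1 + r2 + 1 / r1 := by positivity
      have h4 : 1 + r2 + 1 / r1 ≤ C := by
        rw [hC]
        nlinarith [mul_nonneg hr2.le h3]
      calc (1 + r2 + 1 / r1) * N ^ θ ≤ C * N ^ θ := mul_le_mul_of_nonneg_right h4 hNθ.le
        _ ≤ C * (n : ℝ) ^ θ := mul_le_mul_of_nonneg_left e1 (by linarith)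
    have hball : v ∈ (rep i).ball n := by
      rw [Form.mem_ball (rep_pos i), ← hmq]
      have : (m : ℝ) ≤ n := by
        have h3 : r2 * N < n := by
          have h2 : (1 + r2) * N < n + 1 := Nat.lt_floor_add_one _
          have h3 : (1 + r2) * N = N + r2 * N := by ring
          linarith
        linarith
      exact_mod_cast this
    rw [Finset.mem_union]
    rcases hθ with h2 | h2
    · left
      rw [h2] at hlow hup
      rw [hA1d, Finset.mem_filter]
      exact ⟨hball, hne, r, hr, hr1', hrm, hlow, hup⟩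
    · right
      rw [h2] at hlow hup
      rw [hA2d, Finset.mem_filter]
      exact ⟨hball, hne, r, hr, hr1', hrm, hlow, hup⟩
  have hA1' : (A1.card : ℝ) ≤ ε / (2 * (1 + r2)) * n := by convert hA1
  have hA2' : (A2.card : ℝ) ≤ ε / (2 * (1 + r2)) * n := by convert hA2
  have hcard := Finset.card_le_card hsub
  have hu2 := Finset.card_union_le A1 A2
  have hfin : ((((Shg i (r1 * N) (r2 * N)).filter (fun v => ¬ (Win (4 * d) δ
      ((rep i).q v).natAbs ↔ WinN (4 * d) δ N ((rep i).q v).natAbs))).card : ℝ)) ≤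
      (A1.card : ℝ) + A2.card := by
    exact_mod_cast hcard.trans hu2
  calc _ ≤ (A1.card : ℝ) + A2.card := hfin
    _ ≤ ε / (2 * (1 + r2)) * n + ε / (2 * (1 + r2)) * n := add_le_add hA1' hA2'
    _ = ε / (1 + r2) * n := by field_simp; ring
    _ ≤ ε / (1 + r2) * ((1 + r2) * N) := mul_le_mul_of_nonneg_left hnu (by positivity)
    _ = ε * N := by field_simp

/-- the primes of the window are split and prime to `K` -/
theorem spl {d K : ℕ} (hd : 0 < d) (hK : 0 < K) {p : ℕ} (hp : p.Prime) (h4 : p ≡ 1 [MOD 4 * d])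
    (hKp : K < p) : Spl d K p := by
  have h1 : Adm d 1 (p, true) := adm_of_one true hp hd one_pos h4 Nat.modEq_one
  obtain ⟨-, h2, h3⟩ := h1
  refine ⟨hp, fun h => ?_, h3⟩
  rcases (Nat.Prime.dvd_mul hp).1 h with h5 | h5
  · exact h2 (by simpa using h5)
  · exact absurd (Nat.le_of_dvd hK h5) (not_le.2 hKp)

end F42

open F42 in
/-- **(F4)** -/
theorem stFrR_42 (d : ℕ) (hNull : StNull d) : StFrR d := by
  classical
  intro δ h0 h1 K _ r1 r2 hr1 hr12 e
  rcases Nat.eq_zero_or_pos d with hd | hd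
  · have hem : IsEmpty (Cl d) := by
      refine ⟨fun i => ?_⟩
      have h2 := (rep_pos i).2
      rw [rep_D i, hd] at h2
      simp at h2
    have h3 : (fun N : ℝ => Mpw (wr (4 * d) δ) r1 r2 N (⟨0, e⟩ : Fq d K)) = fun _ => 0 := by
      funext N
      unfold Mpw
      simp
    rw [h3]
    exact tendsto_const_nhds
  have hK : 0 < K := Nat.pos_of_ne_zero (NeZero.ne K)
  have hr2 : 0 < r2 := hr1.trans hr12
  set q : ℕ := 4 * d with hq
  set f : Fq d K := ⟨0, e⟩ with hf
  have hWin := stWinS_7 q (by omega) δ h0 h1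
  set Rt : ℝ → ℝ := fun N => ∑ p ∈ WN q δ N, 2 / (p : ℝ) with hRt
  have hRtl : Tendsto Rt atTop (𝓝 (rho q δ)) := by
    have h2 := hWin.const_mul 2
    have h3 : rho q δ = 2 * (1 / (Nat.totient q : ℝ) * Real.log ((1 - δ / 2) / (1 - δ))) := by
      unfold rho
      ring
    rw [h3]
    refine h2.congr fun N => ?_
    rw [hRt, Finset.mul_sum]
    simp only
    unfold WN
    have h4 : ∀ p : ℕ, (2 : ℝ) * (1 / (p : ℝ)) = 2 / (p : ℝ) := fun p => by ring
    simp only [h4]
  rw [Metric.tendsto_atTop]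
  intro ε hε
  set T : ℝ := UpG70.CT d * r2 with hT
  have hT0 : 0 ≤ T := mul_nonneg (UpG70.CT_nonneg d) hr2.le
  set c : ℝ := (Fintype.card (Cl d) : ℝ) with hc
  have hc0 : 0 ≤ c := by rw [hc]; positivity
  obtain ⟨X0, hX0, hfreq⟩ := Freq12.freq_one (d := d) (K := K) r1 r2 hr1.le hr12 f rfl
    (ε / (4 * (|rho q δ| + 1))) (by positivity)
  choose N1 hN1 using fun i : Cl d => few hNull i h0 h1 hr1 hr12 (ε / (4 * (c + 1)))
    (by positivity)
  have ev1 : ∀ᶠ N : ℝ in atTop, ∀ i : Cl d, N1 i ≤ N :=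
    Filter.eventually_all.2 fun i => eventually_ge_atTop (N1 i)
  have ev2 : ∀ᶠ N : ℝ in atTop, |Rt N - rho q δ| < min 1 (ε / (4 * (T + 1))) := by
    have := (Metric.tendsto_nhds.1 hRtl) (min 1 (ε / (4 * (T + 1)))) (by positivity)
    filter_upwards [this] with N hN
    rwa [Real.dist_eq] at hN
  have ev3 : ∀ᶠ N : ℝ in atTop, X0 ≤ N ^ (δ / 2) :=
    (tendsto_rpow_atTop (by linarith)).eventually (eventually_ge_atTop X0)
  have ev4 : ∀ᶠ N : ℝ in atTop, r2 ≤ N ^ (1 - 2 * δ) :=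
    (tendsto_rpow_atTop (by linarith)).eventually (eventually_ge_atTop r2)
  have ev5 : ∀ᶠ N : ℝ in atTop, (K : ℝ) ≤ N ^ (1 - δ) :=
    (tendsto_rpow_atTop (by linarith)).eventually (eventually_ge_atTop (K : ℝ))
  have evAll : ∀ᶠ N : ℝ in atTop, dist (Mpw (wr q δ) r1 r2 N f) 0 < ε := by
    filter_upwards [ev1, ev2, ev3, ev4, ev5, eventually_ge_atTop 1] with N e1 e2 e3 e4 e5 e6
    have hNp : 0 < N := by linarith
    have hNC : (N : ℂ) ≠ 0 := by exact_mod_cast hNp.ne'
    have hF := hfreq N (WN q δ N) (fun p hp => by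
        rw [mem_WN hNp.le] at hp
        exact spl hd hK hp.1 hp.2.1 (by exact_mod_cast lt_of_le_of_lt e5 hp.2.2.1))
      (fun p hp => by
        rw [mem_WN hNp.le] at hp
        calc X0 * (p : ℝ) ≤ N ^ (δ / 2) * N ^ (1 - δ / 2) :=
              mul_le_mul e3 hp.2.2.2 (by positivity) (by positivity)
          _ = N := by
              rw [← Real.rpow_add hNp, show δ / 2 + (1 - δ / 2) = 1 by ring, Real.rpow_one])
      (fun p hp p' hp' => by
        rw [mem_WN hNp.le] at hp hp'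
        have h5 : 0 < N ^ (1 - δ) := Real.rpow_pos_of_pos hNp _
        calc r2 * N ≤ N ^ (1 - 2 * δ) * N := mul_le_mul_of_nonneg_right e4 hNp.le
          _ = N ^ (1 - δ) * N ^ (1 - δ) := by
              rw [← Real.rpow_add hNp]
              nth_rewrite 2 [← Real.rpow_one N]
              rw [← Real.rpow_add hNp]
              congr 1
              ring
          _ < (p : ℝ) * p' := by
              have h6 := hp.2.2.1
              have h7 := hp'.2.2.1
              nlinarith)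
    have hRabs : |Rt N| ≤ |rho q δ| + 1 := by
      have h5 : |Rt N - rho q δ| < 1 := lt_of_lt_of_le e2 (min_le_left _ _)
      have h6 : |Rt N| ≤ |Rt N - rho q δ| + |rho q δ| := by
        have := abs_add_le (Rt N - rho q δ) (rho q δ)
        rwa [sub_add_cancel] at this
      linarith
    have hF' : ‖Freq12.Mpa (fun i v => (if ∃ p ∈ WN q δ N, (p : ℤ) ∣ (rep i).q v then (1 : ℂ)
        else 0) - ((Rt N : ℝ) : ℂ)) r1 r2 N f‖ ≤ ε / 4 := by
      refine (le_trans (le_of_eq ?_) hF).trans ?_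
      · congr!
      · have h5 : ε / (4 * (|rho q δ| + 1)) * Rt N ≤
            ε / (4 * (|rho q δ| + 1)) * (|rho q δ| + 1) :=
          mul_le_mul_of_nonneg_left ((le_abs_self _).trans hRabs) (by positivity)
        refine h5.trans (le_of_eq ?_)
        have : |rho q δ| + 1 ≠ 0 := by positivity
        field_simp
    -- the difference of the two sums
    have hdiff : ‖Mpw (wr q δ) r1 r2 N f - Freq12.Mpa (fun i v => (if ∃ p ∈ WN q δ N,
        (p : ℤ) ∣ (rep i).q v then (1 : ℂ) else 0) - ((Rt N : ℝ) : ℂ)) r1 r2 N f‖ ≤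
        ε / 4 + ε / 4 := by
      unfold Mpw Freq12.Mpa
      rw [← mul_sub, ← Finset.sum_sub_distrib, norm_mul, norm_div, norm_one, Complex.norm_real,
        Real.norm_of_nonneg hNp.le]
      have hterm : ∀ i : Cl d, ‖(∑ v ∈ (Shg i (r1 * N) (r2 * N)).filter Prim,
          gw (wr q δ) (rep i) v * ch f i v) - ∑ v ∈ (Shg i (r1 * N) (r2 * N)).filter Prim,
          ((if ∃ p ∈ WN q δ N, (p : ℤ) ∣ (rep i).q v then (1 : ℂ) else 0) -
            ((Rt N : ℝ) : ℂ)) * ch f i v‖ ≤ ε / (4 * (c + 1)) * N +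
          |Rt N - rho q δ| * (36 * ((rep i).a + (rep i).c) * (r2 * N)) := by
        intro i
        rw [← Finset.sum_sub_distrib]
        set S := Shg i (r1 * N) (r2 * N) with hS
        set B := S.filter (fun v => ¬ (Win q δ ((rep i).q v).natAbs ↔
          WinN q δ N ((rep i).q v).natAbs)) with hB
        have hpt : ∀ v ∈ S.filter Prim, ‖gw (wr q δ) (rep i) v * ch f i v -
            ((if ∃ p ∈ WN q δ N, (p : ℤ) ∣ (rep i).q v then (1 : ℂ) else 0) -
            ((Rt N : ℝ) : ℂ)) * ch f i v‖ ≤ (if v ∈ B then 1 else 0) + |Rt N - rho q δ| := by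
          intro v hv
          rw [Finset.mem_filter] at hv
          have hvS := hv.1
          have hne : v ≠ 0 := (mem_Shg.1 hvS).1
          have hch : ‖ch f i v‖ ≤ 1 := norm_ch_le f i hne
          rw [← sub_mul, norm_mul]
          have hab : ‖gw (wr q δ) (rep i) v - ((if ∃ p ∈ WN q δ N, (p : ℤ) ∣ (rep i).q v then
              (1 : ℂ) else 0) - ((Rt N : ℝ) : ℂ))‖ ≤ (if v ∈ B then 1 else 0) +
              |Rt N - rho q δ| := by
            have hiff : (∃ p ∈ WN q δ N, (p : ℤ) ∣ (rep i).q v) ↔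
                WinN q δ N ((rep i).q v).natAbs := by
              constructor
              · rintro ⟨p, hp, hpd⟩
                rw [mem_WN hNp.le] at hp
                exact ⟨p, hp.1, hp.2.1, Int.natCast_dvd.1 hpd, hp.2.2.1, hp.2.2.2⟩
              · rintro ⟨p, hp1, hp2, hp3, hp4, hp5⟩
                exact ⟨p, (mem_WN hNp.le).2 ⟨hp1, hp2, hp4, hp5⟩, Int.natCast_dvd.2 hp3⟩
            have e7 : gw (wr q δ) (rep i) v - ((if ∃ p ∈ WN q δ N, (p : ℤ) ∣ (rep i).q v then
                (1 : ℂ) else 0) - ((Rt N : ℝ) : ℂ)) =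
                ((if Win q δ ((rep i).q v).natAbs then (1 : ℂ) else 0) -
                  (if WinN q δ N ((rep i).q v).natAbs then (1 : ℂ) else 0)) +
                ((Rt N - rho q δ : ℝ) : ℂ) := by
              unfold gw wr bb
              rw [if_congr hiff rfl rfl]
              push_cast
              ring
            rw [e7]
            refine (norm_add_le _ _).trans (add_le_add ?_ ?_)
            · by_cases hvB : v ∈ B
              · rw [if_pos hvB]
                split_ifs <;> simp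
              · rw [if_neg hvB]
                have h8 : Win q δ ((rep i).q v).natAbs ↔ WinN q δ N ((rep i).q v).natAbs := by
                  by_contra h9
                  exact hvB (by rw [hB, Finset.mem_filter]; exact ⟨hvS, h9⟩)
                rw [if_congr h8 rfl rfl, sub_self, norm_zero]
            · rw [Complex.norm_real, Real.norm_eq_abs]
          calc _ ≤ ((if v ∈ B then 1 else 0) + |Rt N - rho q δ|) * 1 := by
                refine mul_le_mul hab hch (norm_nonneg _) ?_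
                exact (norm_nonneg _).trans hab
            _ = _ := mul_one _
        refine (norm_sum_le _ _).trans ((Finset.sum_le_sum hpt).trans ?_)
        rw [Finset.sum_add_distrib, Finset.sum_const, nsmul_eq_mul]
        have hcS : ((S.filter Prim).card : ℝ) ≤ 36 * ((rep i).a + (rep i).c) * (r2 * N) := by
          refine le_trans ?_ (UpG70.card_Shg i (a := r1 * N) (b := r2 * N) (by positivity))
          exact_mod_cast Finset.card_le_card (Finset.filter_subset _ _)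
        have hcB : ∑ v ∈ S.filter Prim, (if v ∈ B then (1 : ℝ) else 0) ≤
            ε / (4 * (c + 1)) * N := by
          have h8 : ∑ v ∈ S.filter Prim, (if v ∈ B then (1 : ℝ) else 0) =
              (((S.filter Prim).filter (fun v => v ∈ B)).card : ℝ) := by
            rw [Finset.sum_ite, Finset.sum_const_zero, add_zero, Finset.sum_const, nsmul_eq_mul,
              mul_one]
          rw [h8]
          have h9 : ((S.filter Prim).filter (fun v => v ∈ B)) ⊆ B := by
            intro v hv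
            exact (Finset.mem_filter.1 hv).2
          have h10 : (((S.filter Prim).filter (fun v => v ∈ B)).card : ℝ) ≤ B.card := by
            exact_mod_cast Finset.card_le_card h9
          refine h10.trans ?_
          exact hN1 i N (e1 i)
        refine add_le_add hcB ?_
        rw [mul_comm]
        exact mul_le_mul_of_nonneg_left hcS (abs_nonneg _)
      calc 1 / N * ‖∑ i : Cl d, ((∑ v ∈ (Shg i (r1 * N) (r2 * N)).filter Prim,
          gw (wr q δ) (rep i) v * ch f i v) - ∑ v ∈ (Shg i (r1 * N) (r2 * N)).filter Prim,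
          ((if ∃ p ∈ WN q δ N, (p : ℤ) ∣ (rep i).q v then (1 : ℂ) else 0) -
            ((Rt N : ℝ) : ℂ)) * ch f i v)‖
          ≤ 1 / N * ∑ i : Cl d, (ε / (4 * (c + 1)) * N +
            |Rt N - rho q δ| * (36 * ((rep i).a + (rep i).c) * (r2 * N))) := by
            refine mul_le_mul_of_nonneg_left ?_ (by positivity)
            exact (norm_sum_le _ _).trans (Finset.sum_le_sum fun i _ => hterm i)
        _ = c * (ε / (4 * (c + 1))) + |Rt N - rho q δ| * T := by
            rw [Finset.sum_add_distrib, Finset.sum_const, Finset.card_univ, nsmul_eq_mul, ← hc,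
              ← Finset.mul_sum, ← Finset.sum_mul, hT]
            unfold UpG70.CT
            field_simp
        _ ≤ ε / 4 + ε / 4 := by
            refine add_le_add ?_ ?_
            · rw [mul_div_assoc', div_le_div_iff₀ (by positivity) (by norm_num)]
              nlinarith
            · have h5 : |Rt N - rho q δ| ≤ ε / (4 * (T + 1)) := (lt_of_lt_of_le e2
                (min_le_right _ _)).le
              calc |Rt N - rho q δ| * T ≤ ε / (4 * (T + 1)) * T :=
                    mul_le_mul_of_nonneg_right h5 hT0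
                _ ≤ ε / 4 := by
                    rw [div_mul_eq_mul_div, div_le_div_iff₀ (by positivity) (by norm_num)]
                    nlinarith
    rw [dist_zero_right]
    have hfin : ‖Mpw (wr q δ) r1 r2 N f‖ ≤ (ε / 4 + ε / 4) + ε / 4 := by
      have h5 := norm_add_le (Mpw (wr q δ) r1 r2 N f - Freq12.Mpa (fun i v => (if ∃ p ∈ WN q δ N,
        (p : ℤ) ∣ (rep i).q v then (1 : ℂ) else 0) - ((Rt N : ℝ) : ℂ)) r1 r2 N f)
        (Freq12.Mpa (fun i v => (if ∃ p ∈ WN q δ N,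
        (p : ℤ) ∣ (rep i).q v then (1 : ℂ) else 0) - ((Rt N : ℝ) : ℂ)) r1 r2 N f)
      rw [sub_add_cancel] at h5
      exact h5.trans (add_le_add hdiff hF')
    linarith
  exact Filter.eventually_atTop.1 evAll |>.imp fun N0 h N hN => h N hN

/-- **(F4)**, all inputs closed -/
theorem stFrR_all42 (d : ℕ) : StFrR d := stFrR_42 d (stNull_22 d)

end Pool.Agent.Lib.MP_a17b09_nt.PQ
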