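import Pool.Agent.Lib.MP_a17b09_nt.PQ.StmtsX79
import Pool.Agent.Lib.MP_a17b09_nt.PQ.F1_7

/-!
PX, row X1: the sum of `1/p` over a window of exponents (helper7).
-/

set_option autoImplicit false

open Filter Topology Finset

namespace Pool.Agent.Lib.MP_a17b09_nt.PQ

open MRSG (PA7 mem_PA7) in
theorem stWinI_7 : StWinI := by
  intro q hq α β hα0 hαβ'
  have hαβ : α ≤ β := hαβ'.le
  have hcop : Nat.Coprime 1 q := Nat.coprime_one_left q
  have h1 := Win22.win q hq 1 hcop hα0 hαβ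
  have h2 : Tendsto (fun N : ℝ => 1 / N ^ α) atTop (𝓝 0) := by
    have := (tendsto_rpow_atTop hα0).inv_tendsto_atTop
    refine this.congr fun N => ?_
    simp
  have h3 := h1.add h2
  have h4 := h1.sub h2
  rw [add_zero] at h3
  rw [sub_zero] at h4
  refine tendsto_of_tendsto_of_tendsto_of_le_of_le' h4 h3 ?_ ?_
  · filter_upwards [eventually_ge_atTop 1] with N hN
    have hNα : 1 ≤ N ^ α := Real.one_le_rpow hN hα0.le
    have := F7.sum_le_aux (A := (Finset.range (⌊N ^ β⌋₊ + 1)).filter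
      (fun p => p.Prime ∧ p ≡ 1 [MOD q] ∧ N ^ α < p)) (B := PA7 q 1 (N ^ α) (N ^ β))
      (x := N ^ α) (e := 1 / N ^ α) (by positivity) (by
        intro p hp hpn
        rw [mem_PA7] at hp
        obtain ⟨e1, e2, e3, e4⟩ := hp
        have e5 : ¬ N ^ α < p := by
          intro h
          apply hpn
          rw [Finset.mem_filter, Finset.mem_range]
          exact ⟨Nat.lt_succ_of_le (Nat.le_floor e4.le), e1, e2, h⟩
        have e6 : (p : ℝ) = N ^ α := le_antisymm (not_lt.1 e5) e3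
        exact ⟨e6, by rw [e6]⟩)
    linarith
  · filter_upwards [eventually_ge_atTop 1] with N hN
    have hNα : 1 ≤ N ^ α := Real.one_le_rpow hN hα0.le
    have hNβ : N ^ α ≤ N ^ β := Real.rpow_le_rpow_of_exponent_le hN hαβ
    apply F7.sum_le_aux (A := PA7 q 1 (N ^ α) (N ^ β)) (x := N ^ β) (e := 1 / N ^ α) (by positivity)
    intro p hp hpn
    rw [Finset.mem_filter, Finset.mem_range] at hp
    obtain ⟨e0, e1, e2, e3⟩ := hp
    have e4 : (p : ℝ) ≤ N ^ β := by
      have h5 : p ≤ ⌊N ^ β⌋₊ := Nat.lt_succ_iff.1 e0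
      exact (Nat.le_floor_iff (by linarith)).1 h5
    have e5 : ¬ (p : ℝ) < N ^ β := by
      intro h
      apply hpn
      rw [mem_PA7]
      exact ⟨e1, e2, e3.le, h⟩
    have e6 : (p : ℝ) = N ^ β := le_antisymm e4 (not_lt.1 e5)
    refine ⟨e6, ?_⟩
    rw [e6]
    exact one_div_le_one_div_of_le (by linarith) hNβ

end Pool.Agent.Lib.MP_a17b09_nt.PQ
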