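import Pool.Agent.Lib.MP_a17b09_nt.PQ.Stmts79

/-!
Project PX (MP_a17b09_nt, captain helper79): the general form of project PQ: arbitrary finite sets `X`,
`Y` of windows for prime factors of `d` and of `f t / d`.  `X = ∅` is the case without a condition,
`X = {(1 - δ, 1 - δ / 2)}` is project PQ.  All rows M, E, T1 of PQ are used as they are; only the rows
which mention the weights are generalised here.
-/

set_option autoImplicit false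

open Filter Topology Finset

namespace Pool.Agent.Lib.MP_a17b09_nt.PQ

open CH CH.PE MRSG MRS

/-- windows of exponents: positive, pairwise disjoint, the sum of the upper ends less than one, the
sum of the lower ends and one more lower end larger than one -/
structure GoodX (X : Finset (ℝ × ℝ)) : Prop where
  pos : ∀ I ∈ X, 0 < I.1 ∧ I.1 < I.2
  disj : ∀ I ∈ X, ∀ J ∈ X, I ≠ J → I.2 ≤ J.1 ∨ J.2 ≤ I.1
  top : ∑ I ∈ X, I.2 < 1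
  uniq : ∀ J ∈ X, 1 < ∑ I ∈ X, I.1 + J.1

/-- `n` has a prime factor `p ≡ 1 mod q` in each window `(n ^ a, n ^ b]`, `(a, b) ∈ X` -/
def WinX (q : ℕ) (X : Finset (ℝ × ℝ)) (n : ℕ) : Prop := ∀ I ∈ X, ∃ p : ℕ, p.Prime ∧
  p ≡ 1 [MOD q] ∧ p ∣ n ∧ (n : ℝ) ^ I.1 < p ∧ (p : ℝ) ≤ (n : ℝ) ^ I.2

/-- the same with fixed windows -/
def WinXN (q : ℕ) (X : Finset (ℝ × ℝ)) (N : ℝ) (n : ℕ) : Prop := ∀ I ∈ X, ∃ p : ℕ, p.Prime ∧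
  p ≡ 1 [MOD q] ∧ p ∣ n ∧ N ^ I.1 < p ∧ (p : ℝ) ≤ N ^ I.2

/-- the density -/
noncomputable def rhoX (q : ℕ) (X : Finset (ℝ × ℝ)) : ℝ :=
  ∏ I ∈ X, (2 / (Nat.totient q : ℝ) * Real.log (I.2 / I.1))

open Classical in
/-- the indicator -/
noncomputable def bX (q : ℕ) (X : Finset (ℝ × ℝ)) (n : ℕ) : ℂ := if WinX q X n then 1 else 0

open Classical in
/-- the indicator with the fixed windows of `N` -/
noncomputable def bXN (q : ℕ) (X : Finset (ℝ × ℝ)) (N : ℝ) (n : ℕ) : ℂ :=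
  if WinXN q X N n then 1 else 0

/-- the weight `z ^ Ω b` -/
noncomputable def wzX (z : ℂ) (q : ℕ) (X : Finset (ℝ × ℝ)) (n : ℕ) : ℂ := z ^ Omn n * bX q X n

/-- the weight `b - ρ` -/
noncomputable def wrX (q : ℕ) (X : Finset (ℝ × ℝ)) (n : ℕ) : ℂ := bX q X n - (rhoX q X : ℂ)

/-- (X1) the sum over a window -/
def StWinI : Prop := ∀ q : ℕ, 0 < q → ∀ a b : ℝ, 0 < a → a < b →
  Tendsto (fun N : ℝ => ∑ p ∈ (Finset.range (⌊N ^ b⌋₊ + 1)).filter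
    (fun p => p.Prime ∧ p ≡ 1 [MOD q] ∧ N ^ a < p), 1 / (p : ℝ)) atTop
    (𝓝 (1 / (Nat.totient q : ℝ) * Real.log (b / a)))

/-- (X2) the density is positive and at most one -/
def StRhoX : Prop := ∀ q : ℕ, 3 ≤ q → ∀ X : Finset (ℝ × ℝ), GoodX X → 0 < rhoX q X ∧ rhoX q X ≤ 1

/-- (X3) the weights are multiplicative up to small sets (from `StNull`, `StRhoX`) -/
def StApxX (d : ℕ) : Prop := ∀ X : Finset (ℝ × ℝ), GoodX X → ∃ c0 : ℝ, 0 < c0 ∧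
  (∀ z : ℂ, ‖z‖ = 1 → Apx d z c0 (wzX z (4 * d) X)) ∧ Apx d 1 c0 (wrX (4 * d) X)

/-- (X4) the weights satisfy `DilW` (from `StNull`) -/
def StDilNX : Prop := ∀ (ι : Type) [Fintype ι] (S : System ι) (X : Finset (ℝ × ℝ)), GoodX X →
  (∀ z : ℂ, ‖z‖ = 1 → DilW S z (wzX z (4 * S.d) X)) ∧ DilW S 1 (wrX (4 * S.d) X)

/-- (X5) frequency `0` for `b - ρ` -/
def StFrRX (d : ℕ) : Prop := ∀ X : Finset (ℝ × ℝ), GoodX X → Fr0 d (wrX (4 * d) X)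

/-- (X6) frequency `0` for `z ^ Ω b`, `z ≠ 1` -/
def StFrZX (d : ℕ) : Prop := ∀ X : Finset (ℝ × ℝ), GoodX X → ∀ (z : ℂ) (k : ℕ), 0 < k →
  z ^ k = 1 → z ≠ 1 → Fr0 d (wzX z (4 * d) X)

/-- (X7) the twisted sums -/
def StTwBX : Prop := ∀ a b c : ℤ, 0 < a → b ^ 2 - 4 * a * c < 0 → ∀ q : ℕ,
  (q : ℤ) = 4 * (4 * a * c - b ^ 2) → ∀ X Y : Finset (ℝ × ℝ), GoodX X → GoodX Y →
  ∀ (h : ℕ), 0 < h → ∀ (t0 : ℕ) (α β : ℝ), 0 < α → α < β → ∀ M : LMean,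
  (∀ (z1 z2 : ℂ) (k : ℕ), 0 < k → z1 ^ k = 1 → z2 ^ k = 1 → (z1 ≠ 1 ∨ z2 ≠ 1) →
    M.E (fun N : ℕ => ‖TwW a b c α β h t0 (wzX z1 q X) (wzX z2 q Y) N‖ / N) = 0) ∧
  M.E (fun N : ℕ => ‖TwW a b c α β h t0 (bX q X) (bX q Y) N - (rhoX q X * rhoX q Y : ℂ) *
    TwW a b c α β h t0 (fun _ => 1) (fun _ => 1) N‖ / N) = 0

/-- the number of pairs `(t, d)` with `t ≤ N`, the windows `X` for `d` and `Y` for `a |f t| / d`,
`Ω d ≡ r`, `Ω (f t / d) ≡ s mod k` -/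
noncomputable def CWX (a b c : ℤ) (α β : ℝ) (h t0 q : ℕ) (X Y : Finset (ℝ × ℝ)) (k r s : ℕ)
    (N : ℕ) : ℕ := by
  classical
  exact ∑ t ∈ (Finset.Icc 1 N).filter (fun t => t ≡ t0 [MOD h]),
    ((nearG a b c α β t).filter (fun d => WinX q X d ∧
      WinX q Y (a.natAbs * ((fv a b c t).natAbs / d)) ∧ Omn d ≡ r [MOD k] ∧
      Omn ((fv a b c t).natAbs / d) ≡ s [MOD k])).card

/-- (X8) the count (from `StTwBX`, `StMainS`, Fourier inversion) -/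
def StFinX : Prop := ∀ a b c : ℤ, 0 < a → b ^ 2 - 4 * a * c < 0 → ∀ q : ℕ,
  (q : ℤ) = 4 * (4 * a * c - b ^ 2) → ∀ X Y : Finset (ℝ × ℝ), GoodX X → GoodX Y →
  ∀ (h : ℕ), 0 < h → ∀ (t0 : ℕ) (α β : ℝ), 0 < α → α < β → ∀ κ : ℝ, 0 < κ →
  Tendsto (fun N : ℕ => (CST a b c α β h t0 1 0 0 N : ℝ) / N) atTop (𝓝 κ) →
  ∀ k : ℕ, 0 < k → ∀ r s : ℕ, ∀ M : LMean,
  M.E (fun N : ℕ => |(CWX a b c α β h t0 q X Y k r s N : ℝ) / N -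
    rhoX q X * rhoX q Y * κ / k ^ 2|) = 0

/-- the conclusion for the pairs, for one polynomial of any sign of the discriminant, `q = 4 |D|` -/
def PairsX (a b c : ℤ) (q h t₀ : ℕ) (α β : ℝ) : Prop :=
  ∃ κ : ℝ, 0 < κ ∧ Tendsto (fun N : ℕ => (pairCount a b c h t₀ α β (fun _ _ => True) N : ℝ) / N)
    atTop (𝓝 κ) ∧ ∀ X Y : Finset (ℝ × ℝ), GoodX X → GoodX Y → ∀ k : ℕ, 0 < k → ∀ r s : ℕ,
    (∀ ε : ℝ, 0 < ε → LogNull {N | ε < |(pairCount a b c h t₀ α β (fun t d => WinX q X d ∧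
      WinX q Y (a.natAbs * ((fv a b c t).natAbs / d)) ∧ Omn d ≡ r [MOD k] ∧
      Omn ((fv a b c t).natAbs / d) ≡ s [MOD k]) N : ℝ) / N -
        rhoX q X * rhoX q Y * κ / k ^ 2|}) ∧
    ∃ η : ℝ, 0 < η ∧ ∀ᶠ N : ℕ in atTop, η * N ≤ pairCount a b c h t₀ α β (fun t d =>
      WinX q X d ∧ WinX q Y (a.natAbs * ((fv a b c t).natAbs / d)) ∧ Omn d ≡ r [MOD k] ∧
      Omn ((fv a b c t).natAbs / d) ≡ s [MOD k]) N

/-- (X9) the pairs, negative discriminant -/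
def StEndX : Prop := ∀ a b c : ℤ, 0 < a → b ^ 2 - 4 * a * c < 0 → ∀ q : ℕ,
  (q : ℤ) = 4 * (4 * a * c - b ^ 2) → ∀ (h t₀ : ℕ), 0 < h → ∀ (α β : ℝ), 0 < α → α < β →
  PairsX a b c q h t₀ α β

/-- `f t = e ∏ p_i ∏ q_j` with primes `p_i`, `q_j` of the sizes `t ^ (x i)`, `t ^ (y j)` up to
`t ^ δ`, `e ≤ t ^ δ`, and `Ω (f t) ≡ r mod k` -/
def Pat (a b c : ℤ) {m l : ℕ} (x : Fin m → ℝ) (y : Fin l → ℝ) (δ : ℝ) (k r t : ℕ) : Prop :=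
  ∃ (e : ℕ) (p : Fin m → ℕ) (p' : Fin l → ℕ), (∀ i, (p i).Prime) ∧ (∀ j, (p' j).Prime) ∧
  (∀ i, (t : ℝ) ^ (x i - δ) < p i ∧ (p i : ℝ) < (t : ℝ) ^ (x i + δ)) ∧
  (∀ j, (t : ℝ) ^ (y j - δ) < p' j ∧ (p' j : ℝ) < (t : ℝ) ^ (y j + δ)) ∧
  (e : ℝ) ≤ (t : ℝ) ^ δ ∧ a * (t : ℤ) ^ 2 + b * t + c = e * (∏ i, p i) * (∏ j, p' j) ∧
  ArithmeticFunction.cardFactors (e * (∏ i, p i) * (∏ j, p' j)) ≡ r [MOD k]

open Classical in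
/-- the conclusion for the arguments, for one polynomial -/
def ArgsX (a b c : ℤ) (h t₀ : ℕ) : Prop := ∀ (m l : ℕ) (x : Fin m → ℝ) (y : Fin l → ℝ),
  (∀ i, 0 < x i) → (∀ j, 0 < y j) → ∑ i, x i = 1 → ∑ j, y j = 1 → ∀ δ : ℝ, 0 < δ →
  ∀ k : ℕ, 0 < k → ∀ r : ℕ, ∀ ε : ℝ, 0 < ε → ∀ᶠ N : ℕ in atTop,
  (N : ℝ) / Real.log N ^ (Real.log 2 + ε) ≤
    (((Finset.Icc 1 N).filter (fun t : ℕ => t ≡ t₀ [MOD h] ∧ Pat a b c x y δ k r t)).card : ℝ)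

/-- (X10) from the pairs to the arguments, any sign of the discriminant (`q > 0` arbitrary) -/
def StArgX : Prop := ∀ a b c : ℤ, 0 < a → ¬ IsSquare (b ^ 2 - 4 * a * c) → ∀ (q h t₀ : ℕ),
  0 < h → PairsX a b c q h t₀ 1 2 → ArgsX a b c h t₀

end Pool.Agent.Lib.MP_a17b09_nt.PQ
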