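import Pool.Agent.Lib.MP_a17b09_nt.PQ.Stmts79
import Pool.Agent.Lib.MP_a17b09_nt.CH.Dils70
import Pool.Agent.Lib.MP_a17b09_nt.CH.First46
import Pool.Agent.Lib.MP_a17b09_nt.CH.Lat28

/-!
Project PQ, helper28: (E3) dilation for fixed large `n` and two weights (StDilsW), from StLine,
StLat.
-/

set_option autoImplicit false

open Filter Topology Finset

namespace Pool.Agent.Lib.MP_a17b09_nt.PQ

open CH CH.PE

namespace E3_28

open CH.Dil70

/-- the kernel of the images -/
noncomputable def kerP {ι : Type} (S : System ι) (w1 w2 : ℕ → ℂ) (om : ι → V → V → ℂ) (p : ℕ)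
    (j : ι) (v v' : V) : ℂ :=
  om j v v' * gw (fun n => w1 (p * n)) (S.Q j) v * gw (fun n => w2 (p * n)) (S.Q j) v'

theorem gw_app (w : ℕ → ℂ) {Q Q' : Form} {A : Mat} {p : ℕ}
    (h : ∀ u, Q.q (A.app u) = p * Q'.q u) (u : V) :
    gw w Q (A.app u) = gw (fun n => w (p * n)) Q' u := by
  unfold gw
  rw [h, Int.natAbs_mul, Int.natAbs_natCast]

theorem gw_le {w : ℕ → ℂ} (hw : B1 w) (Q : Form) (v : V) : ‖gw w Q v‖ ≤ 1 := hw _

theorem ker_le {o a b : ℂ} {co : ℝ} (ho : ‖o‖ ≤ co) (ha : ‖a‖ ≤ 1) (hb : ‖b‖ ≤ 1) (hco : 0 ≤ co) :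
    ‖o * a * b‖ ≤ co := by
  rw [norm_mul, norm_mul]
  calc ‖o‖ * ‖a‖ * ‖b‖ ≤ co * 1 * 1 :=
        mul_le_mul (mul_le_mul ho ha (norm_nonneg _) hco) hb (norm_nonneg _) (by positivity)
    _ = co := by ring

open Classical in
theorem identW {ι : Type} (S : System ι) (w1 w2 : ℕ → ℂ) {K : ℕ} {om : ι → V → V → ℂ}
    (hom : Wt S K om) (h : ℝ → ℝ → ℝ) {p : ℕ} (hp : p.Prime) (hp1 : p ≡ 1 [MOD 4 * S.d])
    (hp2 : p ≡ 1 [MOD K]) (i : ι) (n : ℕ) :
    (p : ℂ) * Dk (S.Q i) h (res (Im (S.M p i)) (kerW S w1 w2 om i)) (p : ℤ) n =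
      (p / n : ℂ) * (∑ u ∈ (S.Q (S.s p i)).pball (n / p),
        ∑ u' ∈ (S.Q (S.s p i)).pball (n / p),
        if Prim ((S.M p i).app u) ∧ Prim ((S.M p i).app u') then
          W (S.Q (S.s p i)) h (kerP S w1 w2 om p (S.s p i)) ((n : ℝ) / p) u u' else 0) := by
  set A := S.M p i with hAdef
  set j := S.s p i with hj
  have hdet : A.det = p := S.det p hp hp1 i
  have hsim : ∀ u, (S.Q i).q (A.app u) = p * (S.Q j).q u := S.sim p hp hp1 i
  have hp0 : (p : ℤ) ≠ 0 := by exact_mod_cast hp.ne_zero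
  have hppos : (0 : ℤ) < p := by exact_mod_cast hp.pos
  unfold Dk
  rw [Nat.floor_natCast, ← mul_assoc, mul_one_div]
  congr 1
  -- split the restriction
  have e1 : ∀ v v', (if wd v v' = (p : ℤ) ∧ 0 < (S.Q i).B v v' then
      (((h ((S.Q i).nr n v) ((S.Q i).nr n v') : ℝ) : ℂ)) * res (Im A) (kerW S w1 w2 om i) v v'
        else 0) =
      if Im A v then (if Im A v' then (if wd v v' = (p : ℤ) ∧ 0 < (S.Q i).B v v' then
        (((h ((S.Q i).nr n v) ((S.Q i).nr n v') : ℝ) : ℂ)) * kerW S w1 w2 om i v v' else 0) else 0)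
        else 0 := by
    intro v v'
    unfold res
    by_cases h1 : Im A v
    · by_cases h2 : Im A v'
      · simp only [h1, h2, and_self, if_true]
      · simp only [h1, h2, and_false, if_false, mul_zero, ite_self]
    · simp only [h1, false_and, if_false, mul_zero, ite_self]
  have e2 : ∀ v, ∑ v' ∈ (S.Q i).pball n, (if wd v v' = (p : ℤ) ∧ 0 < (S.Q i).B v v' then
      (((h ((S.Q i).nr n v) ((S.Q i).nr n v') : ℝ) : ℂ)) * res (Im A) (kerW S w1 w2 om i) v v'
        else 0) =
      if Im A v then ∑ v' ∈ (S.Q i).pball n,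
        (if Im A v' then (if wd v v' = (p : ℤ) ∧ 0 < (S.Q i).B v v' then
        (((h ((S.Q i).nr n v) ((S.Q i).nr n v') : ℝ) : ℂ)) * kerW S w1 w2 om i v v' else 0) else 0)
        else 0 := by
    intro v
    rw [Finset.sum_congr rfl fun v' _ => e1 v v']
    by_cases h1 : Im A v
    · simp only [h1, if_true]
    · simp only [h1, if_false, Finset.sum_const_zero]
  rw [Finset.sum_congr rfl fun v _ => e2 v,
    sum_im (S.pos i) (S.pos j) hp.pos hdet hsim n]
  refine Finset.sum_congr rfl fun u hu => ?_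
  rw [sum_im (S.pos i) (S.pos j) hp.pos hdet hsim n]
  by_cases h1 : Prim (A.app u)
  · rw [if_pos h1]
    refine Finset.sum_congr rfl fun u' hu' => ?_
    by_cases h2 : Prim (A.app u')
    · have h12 : Prim (A.app u) ∧ Prim (A.app u') := ⟨h1, h2⟩
      rw [if_pos h2, if_pos h12]
      unfold W
      have c1 : (wd (A.app u) (A.app u') = (p : ℤ) ∧ 0 < (S.Q i).B (A.app u) (A.app u')) ↔
          (wd u u' = 1 ∧ 0 < (S.Q j).B u u') := by
        rw [wd_app, B_app hsim, hdet]
        constructor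
        · rintro ⟨x1, x2⟩
          exact ⟨mul_left_cancel₀ hp0 (x1.trans (mul_one _).symm),
            (mul_pos_iff_of_pos_left hppos).1 x2⟩
        · rintro ⟨x1, x2⟩
          exact ⟨by rw [x1, mul_one], mul_pos hppos x2⟩
      by_cases c2 : wd u u' = 1 ∧ 0 < (S.Q j).B u u'
      · rw [if_pos (c1.2 c2), if_pos c2, nr_app hp.pos hsim, nr_app hp.pos hsim]
        unfold kerW kerP
        rw [hom.inv p hp hp1 hp2, gw_app w1 hsim, gw_app w2 hsim]
      · rw [if_neg fun x => c2 (c1.1 x), if_neg c2]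
    · rw [if_neg h2, if_neg fun x => h2 x.2]
  · rw [if_neg h1]
    symm
    refine Finset.sum_eq_zero fun u' _ => ?_
    rw [if_neg fun x => h1 x.1]

end E3_28

open CH.Dil70 E3_28 in
open Classical in
theorem stDilsW_28 (hLine : StLine) (hLat : StLat) : StDilsW := by
  intro ι _ S z1 z2 w1 w2 hz1n hz2n hw1 hw2 hD1 hD2 K hK om hom δ h hδ hh
  obtain ⟨co, hco, hom1⟩ := om_bdd hK hom
  obtain ⟨ch, hch, hh1⟩ := test_bdd hδ hh
  choose Cl hCl using fun i => hLine (S.Q i) (S.pos i) δ hδ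
  choose Ct hCt1 hCt2 using fun i => hLat (S.Q i) (S.pos i)
  set C : ℝ := ∑ i, 4 * (ch * co * Cl i * (2 * |Ct i| + 2)) with hC
  refine ⟨C, fun p hp hp1 hp2 => ?_⟩
  have hp0 : (0 : ℝ) < p := by exact_mod_cast hp.pos
  have hp1' : (1 : ℝ) ≤ p := by exact_mod_cast hp.one_lt.le
  obtain ⟨n1, hn1⟩ := hD1 p hp hp1 (1 / p) (by positivity)
  obtain ⟨n2, hn2⟩ := hD2 p hp hp1 (1 / p) (by positivity)
  refine ⟨max (4 * p ^ 3) (p * (n1 + n2)), fun n hn i => ?_⟩
  have hnA : 4 * p ^ 3 ≤ n := (le_max_left _ _).trans hn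
  have hnB : p * (n1 + n2) ≤ n := (le_max_right _ _).trans hn
  set j := S.s p i with hj
  set A := S.M p i with hAd
  have hdet : A.det = p := S.det p hp hp1 i
  have hker : ∀ v v', ‖kerW S w1 w2 om j v v'‖ ≤ co := fun v v' =>
    ker_le (hom1 j v v') (gw_le hw1 _ _) (gw_le hw2 _ _) hco.le
  have hkerP : ∀ v v', ‖kerP S w1 w2 om p j v v'‖ ≤ co := fun v v' =>
    ker_le (hom1 j v v') (hw1 _) (hw2 _) hco.le
  set F : ℕ → ℂ := fun n => Dk (S.Q i) h (res (Im A) (kerW S w1 w2 om i)) (p : ℤ) n with hF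
  set G : ℕ → ℂ := fun n => Dk (S.Q j) h (kerW S w1 w2 om j) 1 ((n : ℝ) / p) with hG
  have hmain : ‖(p : ℂ) * F n - z1 * z2 * G n‖ ≤ 4 * (ch * co * Cl j * (2 * |Ct j| + 2)) / p := by
    have hn1' : (4 : ℝ) * p ^ 3 ≤ n := by exact_mod_cast hnA
    have hn0 : (0 : ℝ) < n := lt_of_lt_of_le (by positivity) hn1'
    set x : ℝ := (n : ℝ) / p with hx
    have hx1 : 4 * (p : ℝ) ^ 2 ≤ x := by
      rw [hx, le_div_iff₀ hp0]
      calc 4 * (p : ℝ) ^ 2 * p = 4 * (p : ℝ) ^ 3 := by ring
        _ ≤ (n : ℝ) := hn1'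
    have hx0 : 0 < x := lt_of_lt_of_le (by positivity) hx1
    set N : ℕ := n / p with hNdef
    have hfl : ⌊x⌋₊ = N := by
      rw [hx, hNdef]
      exact Nat.floor_div_eq_div n p
    have hN : (N : ℝ) ≤ x := by
      rw [← hfl]
      exact Nat.floor_le hx0.le
    have hNn : n1 + n2 ≤ N := by
      rw [hNdef, Nat.le_div_iff_mul_le hp.pos, mul_comm]
      exact hnB
    have e1 := identW S w1 w2 hom h hp hp1 hp2 i n
    rw [← hAd, ← hj, ← hNdef, ← hx] at e1
    have e2 : G n = (p / n : ℂ) * ∑ u ∈ (S.Q j).pball N, ∑ u' ∈ (S.Q j).pball N,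
        W (S.Q j) h (kerW S w1 w2 om j) x u u' := by
      rw [hG]
      show Dk (S.Q j) h (kerW S w1 w2 om j) 1 x = _
      unfold Dk W
      rw [hfl]
      congr 1
      rw [hx]
      push_cast
      rw [one_div_div]
    have e3 : (p : ℂ) * F n - z1 * z2 * G n = (p / n : ℂ) * (
        ∑ u ∈ (S.Q j).pball N, ∑ u' ∈ (S.Q j).pball N,
        ((if Prim (A.app u) ∧ Prim (A.app u') then W (S.Q j) h (kerP S w1 w2 om p j) x u u' else 0) -
          z1 * z2 * W (S.Q j) h (kerW S w1 w2 om j) x u u')) := by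
      have e4 : ∑ u ∈ (S.Q j).pball N, ∑ u' ∈ (S.Q j).pball N,
        ((if Prim (A.app u) ∧ Prim (A.app u') then W (S.Q j) h (kerP S w1 w2 om p j) x u u' else 0) -
          z1 * z2 * W (S.Q j) h (kerW S w1 w2 om j) x u u') =
        ∑ u ∈ (S.Q j).pball N, ∑ u' ∈ (S.Q j).pball N,
        (if Prim (A.app u) ∧ Prim (A.app u') then W (S.Q j) h (kerP S w1 w2 om p j) x u u' else 0) -
        z1 * z2 * ∑ u ∈ (S.Q j).pball N, ∑ u' ∈ (S.Q j).pball N,
          W (S.Q j) h (kerW S w1 w2 om j) x u u' := by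
        rw [Finset.mul_sum, ← Finset.sum_sub_distrib]
        refine Finset.sum_congr rfl fun u _ => ?_
        rw [Finset.mul_sum, ← Finset.sum_sub_distrib]
      rw [e4, e2]
      show (p : ℂ) * Dk (S.Q i) h (res (Im A) (kerW S w1 w2 om i)) (p : ℤ) n - _ = _
      rw [e1]
      ring
    obtain ⟨L, hL1, hL2⟩ := bad_lat hp hdet
    set P : V → Prop := fun v => Prim (A.app v) ∧
      w1 (p * ((S.Q j).q v).natAbs) = z1 * w1 ((S.Q j).q v).natAbs ∧
      w2 (p * ((S.Q j).q v).natAbs) = z2 * w2 ((S.Q j).q v).natAbs with hPd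
    have hbad0 : ((((S.Q j).pball N).filter (fun v => ¬ Prim (A.app v))).card : ℝ) ≤
        |Ct j| * (2 * x / p) := by
      have b1 := hCt2 j p N hp L hL1
      have b2 : (((S.Q j).pball N).filter (fun v => ¬ Prim (A.app v))).card ≤
          {v : V | v ∈ (S.Q j).ball N ∧ L v}.ncard := by
        rw [← Set.ncard_coe_finset]
        refine Set.ncard_le_ncard ?_ ?_
        · intro v hv
          rw [Finset.mem_coe, Finset.mem_filter] at hv
          have hv1 := hv.1
          unfold Form.pball at hv1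
          rw [Finset.mem_filter] at hv1
          exact ⟨hv1.1, hL2 v hv1.2 hv.2⟩
        · exact ((S.Q j).ball N).finite_toSet.subset fun v hv => hv.1
      have b3 : ((((S.Q j).pball N).filter (fun v => ¬ Prim (A.app v))).card : ℝ) ≤
          Ct j * (N / p + √N + 1) := le_trans (by exact_mod_cast b2) b1
      refine b3.trans ?_
      have b4 : (N : ℝ) / p + √N + 1 ≤ 2 * x / p := by
        have c1 : (N : ℝ) / p ≤ x / p := div_le_div_of_nonneg_right hN hp0.le
        have c2 : √(N : ℝ) ≤ √x := Real.sqrt_le_sqrt hN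
        have c3 : 2 * (p : ℝ) ≤ √x := by
          apply Real.le_sqrt_of_sq_le
          calc (2 * (p : ℝ)) ^ 2 = 4 * p ^ 2 := by ring
            _ ≤ x := hx1
        have c4 : √x * √x = x := Real.mul_self_sqrt hx0.le
        have c5 : √x + 1 ≤ x / p := by
          rw [le_div_iff₀ hp0]
          nlinarith
        calc (N : ℝ) / p + √N + 1 ≤ x / p + (√x + 1) := by linarith
          _ ≤ x / p + x / p := by linarith
          _ = 2 * x / p := by ring
      exact mul_le_mul (le_abs_self _) b4 (by positivity) (abs_nonneg _)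
    have hbad1 : ((((S.Q j).pball N).filter (fun v => w1 (p * ((S.Q j).q v).natAbs) ≠
        z1 * w1 ((S.Q j).q v).natAbs)).card : ℝ) ≤ x / p := by
      refine (hn1 N ((Nat.le_add_right _ _).trans hNn) j).trans ?_
      rw [one_div, inv_mul_eq_div]
      exact div_le_div_of_nonneg_right hN hp0.le
    have hbad2 : ((((S.Q j).pball N).filter (fun v => w2 (p * ((S.Q j).q v).natAbs) ≠
        z2 * w2 ((S.Q j).q v).natAbs)).card : ℝ) ≤ x / p := by
      refine (hn2 N ((Nat.le_add_left _ _).trans hNn) j).trans ?_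
      rw [one_div, inv_mul_eq_div]
      exact div_le_div_of_nonneg_right hN hp0.le
    have hbad : ((((S.Q j).pball N).filter (fun v => ¬ P v)).card : ℝ) ≤
        (2 * |Ct j| + 2) * x / p := by
      have b1 : ((S.Q j).pball N).filter (fun v => ¬ P v) ⊆
          ((S.Q j).pball N).filter (fun v => ¬ Prim (A.app v)) ∪
          (((S.Q j).pball N).filter (fun v => w1 (p * ((S.Q j).q v).natAbs) ≠
            z1 * w1 ((S.Q j).q v).natAbs) ∪
          ((S.Q j).pball N).filter (fun v => w2 (p * ((S.Q j).q v).natAbs) ≠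
            z2 * w2 ((S.Q j).q v).natAbs)) := by
        intro v hv
        rw [Finset.mem_filter] at hv
        obtain ⟨hv1, hv2⟩ := hv
        rw [Finset.mem_union, Finset.mem_union, Finset.mem_filter, Finset.mem_filter,
          Finset.mem_filter]
        by_cases c1 : Prim (A.app v)
        · by_cases c2 : w1 (p * ((S.Q j).q v).natAbs) = z1 * w1 ((S.Q j).q v).natAbs
          · refine Or.inr (Or.inr ⟨hv1, fun c3 => hv2 ⟨c1, c2, c3⟩⟩)
          · exact Or.inr (Or.inl ⟨hv1, c2⟩)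
        · exact Or.inl ⟨hv1, c1⟩
      have b2 : ((((S.Q j).pball N).filter (fun v => ¬ P v)).card : ℝ) ≤
          |Ct j| * (2 * x / p) + (x / p + x / p) := by
        refine le_trans ?_ (add_le_add hbad0 (add_le_add hbad1 hbad2))
        have b3 := (Finset.card_le_card b1).trans ((Finset.card_union_le _ _).trans
          (Nat.add_le_add_left (Finset.card_union_le _ _) _))
        exact_mod_cast b3
      refine b2.trans (le_of_eq ?_)
      ring
    have e5 := bad_pairs (S.pos j) hδ hh hh1 hker hch hco.le (hCl j) hx0 hN P hbad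
    have e5' := bad_pairs (S.pos j) hδ hh hh1 hkerP hch hco.le (hCl j) hx0 hN P hbad
    rw [e3, norm_mul]
    have e6 : ‖∑ u ∈ (S.Q j).pball N, ∑ u' ∈ (S.Q j).pball N,
        ((if Prim (A.app u) ∧ Prim (A.app u') then W (S.Q j) h (kerP S w1 w2 om p j) x u u' else 0) -
          z1 * z2 * W (S.Q j) h (kerW S w1 w2 om j) x u u')‖ ≤
        4 * (ch * co * Cl j * ((2 * |Ct j| + 2) * x / p)) := by
      have e7 : ∀ u u', ‖(if Prim (A.app u) ∧ Prim (A.app u') then
          W (S.Q j) h (kerP S w1 w2 om p j) x u u' else 0) -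
          z1 * z2 * W (S.Q j) h (kerW S w1 w2 om j) x u u'‖ ≤
          (if P u ∧ P u' then 0 else ‖W (S.Q j) h (kerP S w1 w2 om p j) x u u'‖) +
          (if P u ∧ P u' then 0 else ‖W (S.Q j) h (kerW S w1 w2 om j) x u u'‖) := by
        intro u u'
        by_cases c1 : P u ∧ P u'
        · rw [if_pos c1, if_pos c1, if_pos ⟨c1.1.1, c1.2.1⟩]
          have c2 : W (S.Q j) h (kerP S w1 w2 om p j) x u u' =
              z1 * z2 * W (S.Q j) h (kerW S w1 w2 om j) x u u' := by
            unfold W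
            split_ifs
            · unfold kerP kerW gw
              beta_reduce
              rw [c1.1.2.1, c1.2.2.2]
              ring
            · rw [mul_zero]
          rw [c2, sub_self, norm_zero, add_zero]
        · rw [if_neg c1, if_neg c1]
          refine (norm_sub_le _ _).trans (add_le_add ?_ ?_)
          · split_ifs
            · exact le_rfl
            · rw [norm_zero]
              exact norm_nonneg _
          · rw [norm_mul, norm_mul, hz1n, hz2n, one_mul, one_mul]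
      calc ‖∑ u ∈ (S.Q j).pball N, ∑ u' ∈ (S.Q j).pball N,
          ((if Prim (A.app u) ∧ Prim (A.app u') then
            W (S.Q j) h (kerP S w1 w2 om p j) x u u' else 0) -
            z1 * z2 * W (S.Q j) h (kerW S w1 w2 om j) x u u')‖
          ≤ ∑ u ∈ (S.Q j).pball N, ∑ u' ∈ (S.Q j).pball N,
            ((if P u ∧ P u' then 0 else ‖W (S.Q j) h (kerP S w1 w2 om p j) x u u'‖) +
            (if P u ∧ P u' then 0 else ‖W (S.Q j) h (kerW S w1 w2 om j) x u u'‖)) :=
            (norm_sum_le _ _).trans (Finset.sum_le_sum fun u _ =>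
              (norm_sum_le _ _).trans (Finset.sum_le_sum fun u' _ => e7 u u'))
        _ = ∑ u ∈ (S.Q j).pball N, ∑ u' ∈ (S.Q j).pball N,
            (if P u ∧ P u' then 0 else ‖W (S.Q j) h (kerP S w1 w2 om p j) x u u'‖) +
            ∑ u ∈ (S.Q j).pball N, ∑ u' ∈ (S.Q j).pball N,
            (if P u ∧ P u' then 0 else ‖W (S.Q j) h (kerW S w1 w2 om j) x u u'‖) := by
            rw [← Finset.sum_add_distrib]
            exact Finset.sum_congr rfl fun u _ => Finset.sum_add_distrib
        _ ≤ _ := by linarith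
    have e8 : ‖(p / n : ℂ)‖ = 1 / x := by
      rw [norm_div, Complex.norm_natCast, Complex.norm_natCast, hx, one_div_div]
    rw [e8]
    calc 1 / x * ‖∑ u ∈ (S.Q j).pball N, ∑ u' ∈ (S.Q j).pball N,
        ((if Prim (A.app u) ∧ Prim (A.app u') then W (S.Q j) h (kerP S w1 w2 om p j) x u u' else 0) -
          z1 * z2 * W (S.Q j) h (kerW S w1 w2 om j) x u u')‖ ≤
          1 / x * (4 * (ch * co * Cl j * ((2 * |Ct j| + 2) * x / p))) :=
          mul_le_mul_of_nonneg_left e6 (by positivity)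
      _ = 4 * (ch * co * Cl j * (2 * |Ct j| + 2)) / p := by
          field_simp
  refine hmain.trans (div_le_div_of_nonneg_right ?_ hp0.le)
  exact Finset.single_le_sum (f := fun i => 4 * (ch * co * Cl i * (2 * |Ct i| + 2)))
      (fun i _ => by positivity) (Finset.mem_univ j)

/-- the row, closed -/
theorem stDilsW_all28 : StDilsW := stDilsW_28 stLine_46 stLat_28

end Pool.Agent.Lib.MP_a17b09_nt.PQ
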