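import Pool.Agent.Lib.MP_a17b09_nt.PQ.Stmts79
import Pool.Agent.Lib.MP_a17b09_nt.MRSG.MrsG90

/-!
Project PQ, M10: the interface `MrsQw` for every positive form of discriminant `-d`, for weights that
are functions of the value of the form.
-/

set_option autoImplicit false

open Filter Topology Finset

namespace Pool.Agent.Lib.MP_a17b09_nt.PQ

open CH CH.PE MRSG MRS

namespace M10_90

/-- the shell sums of equivalent forms -/
theorem msh_comp {Q : Form} (hQ : Q.Pos) {γ : Mat} (h : γ.det = 1) (w : ℕ → ℂ) (K : ℕ)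
    (α : ZMod K × ZMod K) (r1 r2 : ℝ) (n : ℕ) (j : ℤ) :
    ‖Msh (Q.comp γ) (gcw w (Q.comp γ) K α) r1 r2 n j‖ =
      ‖Msh Q (gcw w Q K (az γ α)) r1 r2 n j‖ := by
  classical
  have hQ' : (Q.comp γ).Pos := Form.comp_Pos hQ (by rw [h]; norm_num)
  obtain ⟨c, hc, htq⟩ := Glue90.tq_comp hQ h
  have hdet : ((γ.det : ℤ) : ZMod K) = 1 := by rw [h]; simp
  have hsum : ∑ v ∈ ((Q.comp γ).ball ⌊r2 * n⌋₊).filter (fun v => r1 * n < (Q.comp γ).q v),
      gcw w (Q.comp γ) K α v * uv (Q.comp γ) v ^ j =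
      ∑ v ∈ (Q.ball ⌊r2 * n⌋₊).filter (fun v => r1 * n < Q.q v),
        c ^ j * (gcw w Q K (az γ α) v * uv Q v ^ j) := by
    apply Finset.sum_nbij' (fun v => γ.app v) (fun v => γ.adj.app v)
    · intro v hv
      rw [Finset.mem_filter, Form.mem_ball hQ', Form.comp_q] at hv
      rw [Finset.mem_filter, Form.mem_ball hQ]
      exact hv
    · intro v hv
      rw [Finset.mem_filter, Form.mem_ball hQ] at hv
      rw [Finset.mem_filter, Form.mem_ball hQ', Form.comp_q, Glue90.app_adj1 h]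
      exact hv
    · intro v _
      exact Glue90.adj_app1 h v
    · intro v _
      exact Glue90.app_adj1 h v
    · intro v _
      rw [Glue90.uv_comp hc htq, mul_zpow]
      have hg : gcw w (Q.comp γ) K α v = gcw w Q K (az γ α) (γ.app v) := by
        have hiff : (Prim (γ.app v) ∧ cl K (γ.app v) = az γ α) ↔ (Prim v ∧ cl K v = α) := by
          rw [Glue90.prim_app_iff h, cl_app]
          refine and_congr_right fun _ => ⟨fun h3 => ?_, fun h3 => by rw [h3]⟩
          rw [← adj_az γ hdet (cl K v), h3, adj_az γ hdet α]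
        unfold gcw gw
        rw [Form.comp_q]
        by_cases h1 : Prim v ∧ cl K v = α
        · rw [if_pos h1, if_pos (hiff.2 h1)]
        · rw [if_neg h1, if_neg (fun h2 => h1 (hiff.1 h2))]
      rw [hg]
      ring
  unfold Msh
  rw [hsum, ← Finset.mul_sum, norm_mul, norm_mul, norm_mul, norm_zpow, hc, one_zpow, one_mul]

/-- the interface is invariant under equivalence of forms -/
theorem mrsQw_eqv {Q Q' : Form} (hQ : Q.Pos) (h : Eqv Q Q') {w : ℕ → ℂ} {K : ℕ}
    (hM : MrsQw Q w K) : MrsQw Q' w K := by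
  obtain ⟨γ, h1, rfl⟩ := h
  intro α r1 r2 h0 h12 A hA ε hε
  obtain ⟨L0, hL0, h2⟩ := hM (az γ α) r1 r2 h0 h12 A hA ε hε
  refine ⟨L0, hL0, fun L hL => ?_⟩
  obtain ⟨n0, hn0⟩ := h2 L hL
  refine ⟨n0, fun n hn => ?_⟩
  have h3 := hn0 n hn
  simp only [msh_comp hQ h1]
  exact h3

/-- the shell sum of a representative is a coordinate of the vector of the shell sums -/
theorem msh_eq {d K : ℕ} [NeZero K] (i : Cl d) (α : ZMod K × ZMod K) (w : ℕ → ℂ) {r1 r2 : ℝ}
    (h1 : 0 < r1) {n : ℕ} (hn : 0 < n) (j : ℤ) :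
    Msh (rep i) (gcw w (rep i) K α) r1 r2 n j = VPw d K w r1 r2 n j (i, α) := by
  classical
  have hn' : (0 : ℝ) < n := by exact_mod_cast hn
  unfold Msh VPw
  rw [vec_apply, Finset.mul_sum]
  have e1 : ∑ v ∈ ((rep i).ball ⌊r2 * n⌋₊).filter (fun v => r1 * n < (rep i).q v),
      1 / (n : ℂ) * (gcw w (rep i) K α v * uv (rep i) v ^ j) =
      ∑ v ∈ (((rep i).ball ⌊r2 * n⌋₊).filter (fun v => r1 * n < (rep i).q v)).filter
        (fun v => Prim v ∧ cl K v = α), 1 / (n : ℂ) * (gw w (rep i) v * uv (rep i) v ^ j) := by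
    rw [Finset.sum_filter (fun v => Prim v ∧ cl K v = α)]
    apply Finset.sum_congr rfl
    intro v _
    unfold gcw
    split_ifs with h
    · rfl
    · rw [zero_mul, mul_zero]
  rw [e1]
  refine Finset.sum_congr ?_ ?_
  · ext v
    simp only [Finset.mem_filter, Shg]
    constructor
    · rintro ⟨⟨a1, a2⟩, a3, a4⟩
      exact ⟨⟨⟨a1, ne_zero_of_prim90 a3, a2⟩, a3⟩, a4⟩
    · rintro ⟨⟨⟨a1, -, a2⟩, a3⟩, a4⟩
      exact ⟨⟨a1, a2⟩, a3, a4⟩
  · intro v hv
    have huv : uv (rep i) v = uu (rep i) v := by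
      rw [Dec21.uu_eq_ud (rep_pos i)]
      rfl
    rw [huv]
    push_cast
    ring

end M10_90

/-- M10: the interface for every positive form of discriminant `-d` -/
theorem stMrsW_90 {d : ℕ} (hSm : StSmall d) (hPar : ∀ (K : ℕ) [NeZero K], StParW d K) :
    StMrsW d := by
  classical
  intro z hz c0 hc0 w hw hA0 hF0 Q hQ hD K hK
  have : NeZero K := ⟨hK.ne'⟩
  obtain ⟨i, hi⟩ := exists_cl hQ hD
  refine M10_90.mrsQw_eqv (rep_pos i) hi.symm ?_
  intro α r1 r2 h1 h12 A hA ε hε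
  obtain ⟨H0, hH0, h2⟩ := hSm z hz c0 hc0 w hw hA0 hF0 K r1 r2 h1 h12 ε hε
  refine ⟨max 1 (A * H0), le_max_left _ _, fun L hL => ?_⟩
  have hL1 : 1 ≤ L := (le_max_left _ _).trans hL
  have hL2 : A * H0 ≤ L := (le_max_right _ _).trans hL
  have hL0 : 0 < L := by linarith
  obtain ⟨N0, hN0⟩ := h2 (L / A) (by rw [le_div_iff₀ hA]; linarith)
  obtain ⟨n0, hn0⟩ := exists_nat_ge N0
  refine ⟨max n0 1, fun n hn => ?_⟩
  have hn1 : (N0 : ℝ) ≤ n := hn0.trans (by exact_mod_cast (le_max_left _ _).trans hn)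
  have hn2 : 1 ≤ n := (le_max_right _ _).trans hn
  have h3 := hN0 n hn1
  have h4 : (n : ℝ) / (L / A) = A * n / L := by field_simp
  rw [h4, sum_SJ] at h3
  refine le_trans (Finset.sum_le_sum fun j _ => ?_) h3
  obtain ⟨-, -, -, h5⟩ := hPar K w r1 r2 n j
  rw [h5, M10_90.msh_eq i α w h1 hn2 j]
  exact Finset.single_le_sum (f := fun ia => ‖VPw d K w r1 r2 n j ia‖ ^ 2)
    (fun ia _ => by positivity) (Finset.mem_univ (i, α))

end Pool.Agent.Lib.MP_a17b09_nt.PQ
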