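import Pool.Agent.Lib.MP_a17b09_nt.PQ.Stmts79
import Pool.Agent.Lib.MP_a17b09_nt.MRSG.StructD29

/-!
PQ, row M1 (helper22): structure statements `StParW`, `StIdW` for arbitrary weights.
-/

set_option autoImplicit false

open Filter Topology Finset

namespace Pool.Agent.Lib.MP_a17b09_nt.PQ

open CH CH.PE MRSG MRS

namespace M22

variable {d K : ℕ}

/-- the function `w (Q v) (direction)^j` -/
noncomputable def wj (w : ℕ → ℂ) (j : ℤ) (Q : Form) (v : V) : ℂ := gw w Q v * uu Q v ^ j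

theorem wj_auto (w : ℕ → ℂ) (j : ℤ) {Q : Form} (hQ : Q.Pos) {γ : Mat} (h1 : γ.det = 1)
    (h : Q.comp γ = Q) {v : V} (hv : v ≠ 0) :
    wj w j Q (γ.app v) = uu Q (γ.app (1, 0)) ^ j * wj w j Q v := by
  unfold wj gw
  have h2 : Q.q (γ.app v) = Q.q v := by rw [← Form.comp_q, h]
  rw [uu_auto hQ h1 h hv, mul_zpow, h2]
  ring

theorem gw_app {P : ℕ × Bool} (h : Adm d K P) (w : ℕ → ℂ) (i : Cl d) (u : V) :
    gw w (rep i) ((Mg d P i).app u) = gw (fun n => w (P.1 * n)) (rep (sg d P i)) u := by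
  obtain ⟨-, R⟩ := rel_g h i
  unfold gw
  rw [R.sim, Int.natAbs_mul, Int.natAbs_natCast]

variable [NeZero K]

theorem VS_mem (w : ℕ → ℂ) (j : ℤ) (a b : ℝ) : VW d K (wj w j) a b ∈ Ej d K j :=
  VW_mem (fun i _ h1 h2 _ hv => wj_auto w j (rep_pos i) h1 h2 hv) a b

open Classical in
theorem VP_mem (w : ℕ → ℂ) (j : ℤ) (a b : ℝ) :
    VW d K (fun Q v => if Prim v then wj w j Q v else 0) a b ∈ Ej d K j := by
  refine VW_mem (fun i γ h1 h2 v hv => ?_) a b
  simp only [prim_auto h1 v]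
  split_ifs
  · exact wj_auto w j (rep_pos i) h1 h2 hv
  · rw [mul_zero]

theorem VAw_eq (w : ℕ → ℂ) (r1 r2 N : ℝ) (j : ℤ) :
    VAw d K w r1 r2 N j = (1 / (N : ℂ)) • VW d K (wj w j) (r1 * N) (r2 * N) := by
  ext ia
  obtain ⟨i, α⟩ := ia
  rw [PiLp.smul_apply]
  unfold VAw
  rw [vec_apply, VW_apply, Shg_eq, smul_eq_mul, Finset.mul_sum]
  refine Finset.sum_congr rfl fun v _ => ?_
  unfold wj
  ring

open Classical in
theorem VPw_eq (w : ℕ → ℂ) (r1 r2 N : ℝ) (j : ℤ) :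
    VPw d K w r1 r2 N j = (1 / (N : ℂ)) •
      VW d K (fun Q v => if Prim v then wj w j Q v else 0) (r1 * N) (r2 * N) := by
  ext ia
  obtain ⟨i, α⟩ := ia
  rw [PiLp.smul_apply]
  unfold VPw
  rw [vec_apply, VW_apply, Shg_eq, smul_eq_mul, Finset.mul_sum, Finset.filter_filter,
    Finset.sum_filter, Finset.sum_filter]
  refine Finset.sum_congr rfl fun v _ => ?_
  unfold wj
  by_cases h1 : Prim v
  · by_cases h2 : cl K v = α
    · simp only [h1, h2, and_self, if_true]; ring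
    · simp only [h1, h2, and_false, if_false]
  · simp [h1]

theorem VAw_mem (w : ℕ → ℂ) (r1 r2 N : ℝ) (j : ℤ) : VAw d K w r1 r2 N j ∈ Ej d K j := by
  rw [VAw_eq]
  exact Submodule.smul_mem _ _ (VS_mem w j _ _)

theorem VPw_mem (w : ℕ → ℂ) (r1 r2 N : ℝ) (j : ℤ) : VPw d K w r1 r2 N j ∈ Ej d K j := by
  rw [VPw_eq]
  exact Submodule.smul_mem _ _ (VP_mem w j _ _)

end M22

section

variable {d K : ℕ} [NeZero K]

/-- **row M1** -/
theorem stParW_22 : StParW d K := by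
  intro w r1 r2 N j
  refine ⟨M22.VAw_mem w r1 r2 N j, M22.VPw_mem w r1 r2 N j, ?_, ?_⟩
  · rw [← co_parseval j (M22.VAw_mem w r1 r2 N j)]
    exact Finset.sum_congr rfl fun k _ => by rw [co_VAw]
  · rw [← co_parseval j (M22.VPw_mem w r1 r2 N j)]
    exact Finset.sum_congr rfl fun k _ => by rw [co_VPw]

/-- **row M1b** -/
theorem stIdW_22 : StIdW d K := by
  classical
  intro w a b P f h
  have h1 : ∀ i : Cl d, ∑ v ∈ (Shg i a b).filter (fun v => Im (Mg d P i) v),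
      gw w (rep i) v * ch f i v = ∑ u ∈ Shg (sg d P i) (a / P.1) (b / P.1),
      gw w (rep i) ((Mg d P i).app u) * ch f i ((Mg d P i).app u) := fun i =>
    sum_im h i a b (fun v => gw w (rep i) v * ch f i v)
  rw [Finset.sum_congr rfl fun i _ => h1 i]
  rw [← Equiv.sum_comp (sg d P) (fun i => ∑ u ∈ Shg i (a / P.1) (b / P.1),
    gw (fun n => w (P.1 * n)) (rep i) u * ch f i u), Finset.mul_sum]
  refine Finset.sum_congr rfl fun i _ => ?_
  rw [Finset.mul_sum]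
  refine Finset.sum_congr rfl fun u hu => ?_
  have hu0 := (mem_Shg.1 hu).1
  rw [M22.gw_app h w i u, ch_M h f i hu0]
  ring

end

end Pool.Agent.Lib.MP_a17b09_nt.PQ
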