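import Pool.Agent.Lib.MP_a17b09_nt.MRSG.StmtsG29
import Pool.Agent.Lib.MP_a17b09_nt.CH.EndS98

/-!
Project PQ (MP_a17b09_nt, captain helper79): pairs `(t, d)` with `d ∣ f t`, `α t ≤ d ≤ β t`, such that
`d` and `f t / d` both have a prime factor larger than the power `1 - δ`, with prescribed numbers of
prime factors modulo `k`; hence `f t = m p q`, `p, q > t ^ (1 - δ)` prime, `Ω (f t)` prescribed.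
Statements.  The weights are functions `w : ℕ → ℂ` of the value `Q v`.
Paper: /team-store/PQ79.md.
-/

set_option autoImplicit false

open Filter Topology Finset

namespace Pool.Agent.Lib.MP_a17b09_nt.PQ

open CH CH.PE MRSG MRS

/-! ### Weights -/

/-- bounded by one -/
def B1 (w : ℕ → ℂ) : Prop := ∀ n, ‖w n‖ ≤ 1

/-- bounded by one, and multiplicative for the primes up to `y`, with value `z` -/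
structure Wy (z : ℂ) (y : ℝ) (w : ℕ → ℂ) : Prop where
  le : ∀ n, ‖w n‖ ≤ 1
  mul : ∀ p n : ℕ, p.Prime → (p : ℝ) ≤ y → 0 < n → w (p * n) = z * w n

/-- the weight on vectors -/
noncomputable def gw (w : ℕ → ℂ) (Q : Form) (v : V) : ℂ := w (Q.q v).natAbs

/-- the weight on the primitive vectors of a class modulo `K` -/
noncomputable def gcw (w : ℕ → ℂ) (Q : Form) (K : ℕ) (α : ZMod K × ZMod K) (v : V) : ℂ :=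
  if Prim v ∧ cl K v = α then gw w Q v else 0

/-- the indicator of the `n` with a prime factor `p ≡ 1 mod q`, `n^(1-δ) < p ≤ n^(1-δ/2)` -/
def Win (q : ℕ) (δ : ℝ) (n : ℕ) : Prop := ∃ p : ℕ, p.Prime ∧ p ≡ 1 [MOD q] ∧ p ∣ n ∧
  (n : ℝ) ^ (1 - δ) < p ∧ (p : ℝ) ≤ (n : ℝ) ^ (1 - δ / 2)

/-- the same with a fixed window -/
def WinN (q : ℕ) (δ N : ℝ) (n : ℕ) : Prop := ∃ p : ℕ, p.Prime ∧ p ≡ 1 [MOD q] ∧ p ∣ n ∧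
  N ^ (1 - δ) < p ∧ (p : ℝ) ≤ N ^ (1 - δ / 2)

open Classical in
/-- the weight `b` -/
noncomputable def bb (q : ℕ) (δ : ℝ) (n : ℕ) : ℂ := if Win q δ n then 1 else 0

open Classical in
/-- the weight `b` with the fixed window of `N` -/
noncomputable def bN (q : ℕ) (δ N : ℝ) (n : ℕ) : ℂ := if WinN q δ N n then 1 else 0

/-- the density of `b` for the norms of discriminant `-d`, `q = 4 d` -/
noncomputable def rho (q : ℕ) (δ : ℝ) : ℝ :=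
  2 / (Nat.totient q : ℝ) * Real.log ((1 - δ / 2) / (1 - δ))

/-- the weight `z ^ Ω b` -/
noncomputable def wz1 (z : ℂ) (q : ℕ) (δ : ℝ) (n : ℕ) : ℂ := z ^ Omn n * bb q δ n

/-- the weight `b - ρ` -/
noncomputable def wr (q : ℕ) (δ : ℝ) (n : ℕ) : ℂ := bb q δ n - (rho q δ : ℂ)

/-! ### Part M: the mean square over the frequencies -/

section defs

variable {d K : ℕ} [NeZero K]

/-- the vector of the shell sums over all vectors -/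
noncomputable def VAw (d K : ℕ) [NeZero K] (w : ℕ → ℂ) (r1 r2 N : ℝ) (j : ℤ) : Hs d K :=
  vec K (fun i => Shg i (r1 * N) (r2 * N)) (fun i v => (1 / (N : ℂ)) * gw w (rep i) v) j

/-- the vector of the shell sums over the primitive vectors -/
noncomputable def VPw (d K : ℕ) [NeZero K] (w : ℕ → ℂ) (r1 r2 N : ℝ) (j : ℤ) : Hs d K :=
  vec K (fun i => (Shg i (r1 * N) (r2 * N)).filter Prim)
    (fun i v => (1 / (N : ℂ)) * gw w (rep i) v) j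

/-- all vectors of the shell -/
noncomputable def Maw (w : ℕ → ℂ) (r1 r2 N : ℝ) (f : Fq d K) : ℂ :=
  (1 / (N : ℂ)) * ∑ i, ∑ v ∈ Shg i (r1 * N) (r2 * N), gw w (rep i) v * ch f i v

/-- primitive vectors of the shell -/
noncomputable def Mpw (w : ℕ → ℂ) (r1 r2 N : ℝ) (f : Fq d K) : ℂ :=
  (1 / (N : ℂ)) * ∑ i, ∑ v ∈ (Shg i (r1 * N) (r2 * N)).filter Prim, gw w (rep i) v * ch f i v

theorem co_VAw (w : ℕ → ℂ) (r1 r2 N : ℝ) (j : ℤ) (k : Fin (mm d K j)) :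
    co d K j k (VAw d K w r1 r2 N j) = Maw w r1 r2 N ⟨j, k⟩ := by
  unfold VAw Maw
  rw [co_vec, Finset.mul_sum]
  refine Finset.sum_congr rfl fun i _ => ?_
  rw [Finset.mul_sum]
  exact Finset.sum_congr rfl fun v _ => by ring

theorem co_VPw (w : ℕ → ℂ) (r1 r2 N : ℝ) (j : ℤ) (k : Fin (mm d K j)) :
    co d K j k (VPw d K w r1 r2 N j) = Mpw w r1 r2 N ⟨j, k⟩ := by
  unfold VPw Mpw
  rw [co_vec, Finset.mul_sum]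
  refine Finset.sum_congr rfl fun i _ => ?_
  rw [Finset.mul_sum]
  exact Finset.sum_congr rfl fun v _ => by ring

end defs

section props

variable (d K : ℕ) [NeZero K]

/-- (M1) STRUCT: the shell vectors are in `E_j`; Parseval; every weight -/
def StParW : Prop := ∀ (w : ℕ → ℂ) (r1 r2 N : ℝ) (j : ℤ),
  VAw d K w r1 r2 N j ∈ Ej d K j ∧ VPw d K w r1 r2 N j ∈ Ej d K j ∧
  ∑ k, ‖Maw w r1 r2 N (⟨j, k⟩ : Fq d K)‖ ^ 2 = ∑ ia, ‖VAw d K w r1 r2 N j ia‖ ^ 2 ∧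
  ∑ k, ‖Mpw w r1 r2 N (⟨j, k⟩ : Fq d K)‖ ^ 2 = ∑ ia, ‖VPw d K w r1 r2 N j ia‖ ^ 2

open Classical in
/-- (M1b) IDENT: the exact identity for the vectors `M_P u`, every weight -/
def StIdW : Prop := ∀ (w : ℕ → ℂ) (a b : ℝ) (P : ℕ × Bool) (f : Fq d K), Adm d K P →
  ∑ i, ∑ v ∈ (Shg i a b).filter (fun v => Im (Mg d P i) v), gw w (rep i) v * ch f i v =
    cw P f * ∑ i, ∑ u ∈ Shg i (a / P.1) (b / P.1), gw (fun n => w (P.1 * n)) (rep i) u * ch f i u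

/-- (M2) DEC -/
def StDecW : Prop := ∀ z : ℂ, ‖z‖ = 1 → ∀ r1 r2 : ℝ, 0 < r1 → r1 < r2 →
  ∃ C N0 : ℝ, 0 < C ∧ 1 ≤ N0 ∧ ∀ (h u0 u1 : ℕ) (N : ℝ), 0 < h → 3 * h ≤ u0 → u0 < u1 →
  N0 ≤ N → (h : ℝ) ≤ N ^ (1 / 8 : ℝ) → Real.exp (u1 / h) ≤ N ^ (1 / 8 : ℝ) →
  1 ≤ LLg d K (Real.exp (u0 / h)) (Real.exp (u1 / h)) → ∀ J : ℕ, (J : ℝ) ≤ N →
  ∀ w : ℕ → ℂ, Wy z (Real.exp (u1 / h)) w →
  ∑ f ∈ SJ d K J, ‖Mpw w r1 r2 N f -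
    (1 / (LLg d K (Real.exp (u0 / h)) (Real.exp (u1 / h)) : ℂ)) *
    ∑ u ∈ Finset.Ico u0 u1, Qsg z h u f * Mpw w r1 r2 (N * Real.exp (-(u / h))) f‖ ^ 2 ≤
  C * (1 / LLg d K (Real.exp (u0 / h)) (Real.exp (u1 / h)) + 1 / h + h / u0)

/-- (M3) MOM; `StMom1G` has no weight and stays -/
def StMomW : Prop := ∀ z : ℂ, ‖z‖ = 1 → ∀ r1 r2 : ℝ, 0 < r1 → r1 < r2 →
  ∃ C : ℝ, 1 ≤ C ∧ ∀ (h u l J : ℕ) (N : ℝ), 0 < h → 3 * h ≤ u → 1 ≤ r1 * N →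
  (J : ℝ) ≤ Real.exp (l * (u / h)) * (r1 * N) → ∀ w : ℕ → ℂ, B1 w →
  ∑ f ∈ SJ d K J, ‖Qsg z h u f ^ l * Mpw w r1 r2 N f‖ ^ 2 ≤ C ^ (l + 1) * (l.factorial : ℝ) ^ 2

end props

/-- (M3b) the schedule below a small power of `N` (from `StSch` at `N ^ (1 / m)`) -/
def StSchW : Prop := ∀ m : ℕ, 0 < m → ∀ C r ε c : ℝ, 1 ≤ C → 0 < r → 0 < ε → 0 < c →
  ∃ H0 : ℝ, 1 ≤ H0 ∧ ∀ H : ℝ, H0 ≤ H → ∃ N0 : ℝ, 1 ≤ N0 ∧ ∀ N : ℝ, N0 ≤ N →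
  ∃ (n : ℕ) (h u0 u1 : ℕ → ℕ) (α : ℕ → ℝ),
    (∀ i, 0 ≤ α i) ∧
    (∀ i ≤ n, 0 < h i ∧ 3 * h i ≤ u0 i ∧ u0 i < u1 i ∧ (h i : ℝ) ≤ N ^ (1 / (8 * m) : ℝ) ∧
      Real.exp (u1 i / h i) ≤ N ^ (1 / (8 * m) : ℝ) ∧ C + 1 ≤ Real.log (u1 i / u0 i)) ∧
    Real.exp (u1 0 / h 0) ≤ r * H ∧
    ∑ i ∈ Finset.range (n + 1), C * (1 / (Real.log (u1 i / u0 i) - C) + 1 / h i + h i / u0 i) ≤ ε ∧
    C * (u1 0 : ℝ) ^ 2 * Real.exp (-(2 * α 0 * (u0 0 / h 0))) ≤ ε ∧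
    (∀ i < n, ∀ u ∈ Finset.Ico (u0 (i + 1)) (u1 (i + 1)), ∀ s ∈ Finset.Ico (u0 i) (u1 i), ∃ l : ℕ,
      (u / h (i + 1) : ℝ) ≤ l * (s / h i) ∧
      (u1 (i + 1) : ℝ) ^ 2 * u1 i * (Real.exp (2 * l * α i * (s / h i) -
        2 * α (i + 1) * (u / h (i + 1))) * (C ^ (l + 1) * (l.factorial : ℝ) ^ 2)) ≤
        ε * (1 / 2) ^ (i + 1)) ∧
    (∀ s ∈ Finset.Ico (u0 n) (u1 n), ∃ l : ℕ, N ≤ Real.exp (l * (s / h n)) ∧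
      (u1 n : ℝ) * (Real.exp (2 * l * α n * (s / h n)) * (C ^ (l + 1) * (l.factorial : ℝ) ^ 2)) ≤
        N ^ c)

section props

variable (d K : ℕ) [NeZero K]

/-- (M4) LEV, uniform in the weight (from `StDecW`, `StMomW`, `StMom1G`, `StMerG`, `StSchW`) -/
def StLevW : Prop := ∀ z : ℂ, ‖z‖ = 1 → ∀ c0 : ℝ, 0 < c0 → ∀ r1 r2 : ℝ, 0 < r1 → r1 < r2 →
  ∀ ε c : ℝ, 0 < ε → 0 < c → ∃ H0 : ℝ, 1 ≤ H0 ∧ ∀ H : ℝ, H0 ≤ H → ∃ N0 : ℝ, ∀ N : ℝ, N0 ≤ N →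
  ∀ w : ℕ → ℂ, Wy z (N ^ c0) w →
  ∃ U ⊆ SJ d K ⌊N / H⌋₊, (U.card : ℝ) ≤ N ^ c ∧
    ∑ f ∈ SJ d K ⌊N / H⌋₊ \ U, ‖Mpw w r1 r2 N f‖ ^ 2 ≤ ε

/-- (M5) TKH, uniform in the weight -/
def StTkhW : Prop := ∀ z : ℂ, ‖z‖ = 1 → ∀ r1 r2 : ℝ, 0 ≤ r1 → r1 < r2 → ∃ c1 : ℝ, 0 < c1 ∧
  c1 ≤ 1 / 8 ∧ ∀ c : ℝ, 0 < c → c ≤ c1 → ∃ C N0 : ℝ, 0 < C ∧ 1 ≤ N0 ∧ ∀ N : ℝ, N0 ≤ N →
  ∀ w : ℕ → ℂ, Wy z (N ^ c) w → ∀ U : Finset (Fq d K),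
  (U.card : ℝ) ≤ N ^ c → (∀ f ∈ U, |(f.1 : ℝ)| ≤ N ^ 2) →
  ∑ f ∈ U, ∑ P ∈ slg d K 3 (N ^ c), (1 / (P.1 : ℝ)) *
    ‖Maw w r1 r2 N f - z * cw P f * Maw w r1 r2 (N / P.1) f‖ ^ 2 ≤ C

/-- (M6) UALL, uniform in the weight (from `StTkhW`, `StDjG`) -/
def StUallW : Prop := ∀ z : ℂ, ‖z‖ = 1 → ∀ c0 : ℝ, 0 < c0 → ∀ r1 r2 : ℝ, 0 ≤ r1 → r1 < r2 →
  ∃ c : ℝ, 0 < c ∧ c ≤ c0 ∧ ∀ ε : ℝ, 0 < ε → ∃ N0 : ℝ, ∀ N : ℝ, N0 ≤ N →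
  ∀ w : ℕ → ℂ, Wy z (N ^ c) w → ∀ U : Finset (Fq d K), (U.card : ℝ) ≤ N ^ c →
  (∀ f ∈ U, f.1 ≠ 0) → (∀ f ∈ U, |(f.1 : ℝ)| ≤ N ^ 2) → ∑ f ∈ U, ‖Maw w r1 r2 N f‖ ^ 2 ≤ ε

/-- (M7) UPRIM, uniform in the weight (from `StUallW`, `StHmuG`, `StParW`; Moebius with the weights
`n ↦ w (D² n)`) -/
def StUpW : Prop := ∀ z : ℂ, ‖z‖ = 1 → ∀ c0 : ℝ, 0 < c0 → ∀ r1 r2 : ℝ, 0 ≤ r1 → r1 < r2 →
  ∃ c : ℝ, 0 < c ∧ c ≤ c0 ∧ ∀ ε : ℝ, 0 < ε → ∃ N0 : ℝ, ∀ N : ℝ, N0 ≤ N →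
  ∀ w : ℕ → ℂ, Wy z (N ^ c) w → ∀ U : Finset (Fq d K), (U.card : ℝ) ≤ N ^ c →
  (∀ f ∈ U, f.1 ≠ 0) → (∀ f ∈ U, |(f.1 : ℝ)| ≤ N) → ∑ f ∈ U, ‖Mpw w r1 r2 N f‖ ^ 2 ≤ ε

/-- (M8) CORE (from `StLevW`, `StUpW`): all frequencies but `0` -/
def StCoreW : Prop := ∀ z : ℂ, ‖z‖ = 1 → ∀ c0 : ℝ, 0 < c0 → ∀ r1 r2 : ℝ, 0 < r1 → r1 < r2 →
  ∀ ε : ℝ, 0 < ε → ∃ H0 : ℝ, 1 ≤ H0 ∧ ∀ H : ℝ, H0 ≤ H → ∃ N0 : ℝ, ∀ N : ℝ, N0 ≤ N →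
  ∀ w : ℕ → ℂ, Wy z (N ^ c0) w →
  ∑ f ∈ SJ d K ⌊N / H⌋₊, ‖Mpw w r1 r2 N f‖ ^ 2 ≤
    ε + ∑ e : Fin (mm d K 0), ‖Mpw w r1 r2 N (⟨0, e⟩ : Fq d K)‖ ^ 2

end props

open Classical in
/-- the weight is equal to a weight multiplicative up to `N ^ c0` outside a small set of primitive
vectors of each shell -/
def Apx (d : ℕ) (z : ℂ) (c0 : ℝ) (w : ℕ → ℂ) : Prop := ∀ r1 r2 : ℝ, 0 < r1 → r1 < r2 →
  ∀ ε : ℝ, 0 < ε → ∃ N0 : ℝ, ∀ N : ℝ, N0 ≤ N → ∃ w' : ℕ → ℂ, Wy z (N ^ c0) w' ∧ ∀ i : Cl d,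
    ((((Shg i (r1 * N) (r2 * N)).filter Prim).filter
      (fun v => w ((rep i).q v).natAbs ≠ w' ((rep i).q v).natAbs)).card : ℝ) ≤ ε * N

/-- the frequencies `0` tend to zero -/
def Fr0 (d : ℕ) (w : ℕ → ℂ) : Prop := ∀ (K : ℕ) [NeZero K] (r1 r2 : ℝ), 0 < r1 → r1 < r2 →
  ∀ e : Fin (mm d K 0), Tendsto (fun N : ℝ => Mpw w r1 r2 N (⟨0, e⟩ : Fq d K)) atTop (𝓝 0)

/-- (M9) the mean square for a weight (from `StCoreW`, `StLspG`) -/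
def StSmall (d : ℕ) : Prop := ∀ (z : ℂ), ‖z‖ = 1 → ∀ (c0 : ℝ), 0 < c0 → ∀ w : ℕ → ℂ, B1 w →
  Apx d z c0 w → Fr0 d w → ∀ (K : ℕ) [NeZero K] (r1 r2 : ℝ), 0 < r1 → r1 < r2 → ∀ ε : ℝ, 0 < ε →
  ∃ H0 : ℝ, 1 ≤ H0 ∧ ∀ H : ℝ, H0 ≤ H → ∃ N0 : ℝ, ∀ N : ℝ, N0 ≤ N →
  ∑ f ∈ SJ d K ⌊N / H⌋₊, ‖Mpw w r1 r2 N f‖ ^ 2 ≤ ε

/-- the interface: mean square of the shell sums over the frequencies `|j| ≤ A n / L` -/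
def MrsQw (Q : Form) (w : ℕ → ℂ) (K : ℕ) : Prop := ∀ α : ZMod K × ZMod K, ∀ r1 r2 : ℝ, 0 < r1 →
  r1 < r2 → ∀ A : ℝ, 0 < A → ∀ ε : ℝ, 0 < ε → ∃ L0 : ℝ, 1 ≤ L0 ∧ ∀ L : ℝ, L0 ≤ L →
  ∃ n0 : ℕ, ∀ n : ℕ, n0 ≤ n →
  ∑ j ∈ Finset.Icc (-(⌊A * n / L⌋₊ : ℤ)) ⌊A * n / L⌋₊,
    ‖Msh Q (gcw w Q K α) r1 r2 n j‖ ^ 2 ≤ ε

/-- (M10) the interface for every positive form of discriminant `-d` (from `StSmall`, `StParW`) -/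
def StMrsW (d : ℕ) : Prop := ∀ (z : ℂ), ‖z‖ = 1 → ∀ (c0 : ℝ), 0 < c0 → ∀ w : ℕ → ℂ, B1 w →
  Apx d z c0 w → Fr0 d w → ∀ Q : Form, Q.Pos → Q.D = d → ∀ K : ℕ, 0 < K → MrsQw Q w K

/-! ### Part N: the weights of the theorem -/

open Classical in
/-- (N1) few vectors have a prime factor `≡ 1 mod 4 d` in a window of bounded ratio -/
def StNull (d : ℕ) : Prop := ∀ Q : Form, Q.Pos → Q.D = d → ∀ η C : ℝ, 0 < η → η < 1 → 1 < C →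
  ∀ ε : ℝ, 0 < ε → ∃ N0 : ℕ, ∀ N : ℕ, N0 ≤ N →
  (((Q.ball N).filter (fun v => v ≠ 0 ∧ ∃ p : ℕ, p.Prime ∧ p ≡ 1 [MOD 4 * d] ∧
    p ∣ (Q.q v).natAbs ∧ (N : ℝ) ^ η / C < p ∧ (p : ℝ) ≤ C * (N : ℝ) ^ η)).card : ℝ) ≤ ε * N

/-- (N2) the weights are multiplicative up to small sets (from `StNull`) -/
def StApx (d : ℕ) : Prop := ∀ δ : ℝ, 0 < δ → δ < 1 / 2 →
  (∀ z : ℂ, ‖z‖ = 1 → Apx d z (1 / 4) (wz1 z (4 * d) δ)) ∧ Apx d 1 (1 / 4) (wr (4 * d) δ)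

/-- (F1) the sum over the window -/
def StWinS : Prop := ∀ q : ℕ, 0 < q → ∀ δ : ℝ, 0 < δ → δ < 1 / 2 →
  Tendsto (fun N : ℝ => ∑ p ∈ (Finset.range (⌊N ^ (1 - δ / 2)⌋₊ + 1)).filter
    (fun p => p.Prime ∧ p ≡ 1 [MOD q] ∧ N ^ (1 - δ) < p), 1 / (p : ℝ)) atTop
    (𝓝 (1 / (Nat.totient q : ℝ) * Real.log ((1 - δ / 2) / (1 - δ))))

open Classical in
/-- (F2) the primitive vectors in the classes modulo `K`: the same constant for all forms of the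
discriminant and all primitive classes -/
def StCla (d : ℕ) : Prop := ∀ K : ℕ, 0 < K → ∃ κ : ℝ, 0 < κ ∧ ∀ (i : Cl d)
  (α : ZMod K × ZMod K), ((∃ v : V, Prim v ∧ cl K v = α) → ∀ r1 r2 : ℝ, 0 ≤ r1 → r1 < r2 →
  Tendsto (fun N : ℝ => ((((Shg i (r1 * N) (r2 * N)).filter
    (fun v => Prim v ∧ cl K v = α)).card : ℝ)) / N) atTop (𝓝 (κ * (r2 - r1))))

/-- (F4) frequency `0` for `b - ρ` (from `StWinS`, `StCla`, `StNull`) -/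
def StFrR (d : ℕ) : Prop := ∀ δ : ℝ, 0 < δ → δ < 1 / 2 → Fr0 d (wr (4 * d) δ)

/-- (F5) frequency `0` for `z ^ Ω b`, `z ≠ 1` (from `StPw0G`, `StWinS`, `StNull`, `StIdG`) -/
def StFrZ (d : ℕ) : Prop := ∀ δ : ℝ, 0 < δ → δ < 1 / 2 → ∀ (z : ℂ) (k : ℕ), 0 < k → z ^ k = 1 →
  z ≠ 1 → Fr0 d (wz1 z (4 * d) δ)

/-- (F6) the density is positive and at most one -/
def StRho : Prop := ∀ q : ℕ, 0 < q → ∀ δ : ℝ, 0 < δ → δ < 1 / 2 → 0 < rho q δ ∧ rho q δ ≤ 1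

/-! ### Part E: decoupling -/

/-- the kernel with two weights -/
noncomputable def kerW {ι : Type} (S : System ι) (w1 w2 : ℕ → ℂ) (om : ι → V → V → ℂ) (i : ι)
    (v v' : V) : ℂ := om i v v' * gw w1 (S.Q i) v * gw w2 (S.Q i) v'

/-- the conclusion of Theorem E for one system and one pair of weights -/
def EsForW {ι : Type} [Fintype ι] (S : System ι) (w1 w2 : ℕ → ℂ) : Prop :=
  ∀ (M : LMean) (K : ℕ), 0 < K → 4 * S.d ∣ K →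
  ∀ om : ι → V → V → ℂ, Wt S K om → ∀ (δ : ℝ) (h : ℝ → ℝ → ℝ), 0 < δ → Test δ h →
  Tendsto (fun e : ℕ => M.E (fun n => ‖∑ i, (1 / (2 : ℂ) ^ e) * ∑ j ∈ NN K e,
    (K : ℂ) * Dk (S.Q i) h (kerW S w1 w2 om i) (j : ℤ) n‖)) atTop (𝓝 0)

/-- the bilinear function of the level for two weights -/
noncomputable def PsW {ι : Type} [Fintype ι] (S : System ι) (w1 w2 : ℕ → ℂ) (K : ℕ) [NeZero K]
    (om : ι → V → V → ℂ) (G1 G2 : ℝ → ℝ → ℝ) (L x : ℝ) : ℂ :=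
  ∑ i, ∑ α : ZMod K × ZMod K, ∑ β : ZMod K × ZMod K, if wz α β = 1 then
    om i (rz α) (rz β) * ((1 / (2 * Real.pi) : ℂ) * ∫ θ in (0 : ℝ)..(2 * Real.pi),
      mm (S.Q i) (gcw w1 (S.Q i) K α) G1 L x θ * mm (S.Q i) (gcw w2 (S.Q i) K β) G2 L x θ) else 0

/-- (E1) the bilinear functions of the level tend to zero in mean (fork of `psi_null90`) -/
def StPsiW : Prop := ∀ (M : LMean) (ι : Type) [Fintype ι] (S : System ι) (w1 w2 : ℕ → ℂ),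
  B1 w1 → B1 w2 → ∀ (K : ℕ) [NeZero K],
  ((∀ i, MrsQw (S.Q i) w1 K) ∨ (∀ i, MrsQw (S.Q i) w2 K)) → ∀ om : ι → V → V → ℂ,
  Wt S K om → ∀ (B : ℝ) (G1 G2 : ℝ → ℝ → ℝ), GT B G1 → GT B G2 →
  Tendsto (fun L : ℝ => M.E (fun n => ‖PsW S w1 w2 K om G1 G2 L n‖)) atTop (𝓝 0)

/-- (E2) Theorem E (from `StPsiW`, `StRedS`, fork of `es_one90`) -/
def StEsW : Prop := ∀ (ι : Type) [Fintype ι] (S : System ι) (w1 w2 : ℕ → ℂ), B1 w1 → B1 w2 →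
  ((∀ i, ∀ K : ℕ, 0 < K → MrsQw (S.Q i) w1 K) ∨ (∀ i, ∀ K : ℕ, 0 < K → MrsQw (S.Q i) w2 K)) →
  EsForW S w1 w2

open Classical in
/-- the weight is multiplicative outside a set of density zero -/
def DilW {ι : Type} [Fintype ι] (S : System ι) (z : ℂ) (w : ℕ → ℂ) : Prop :=
  ∀ p : ℕ, p.Prime → p ≡ 1 [MOD 4 * S.d] → ∀ ε : ℝ, 0 < ε → ∃ n0 : ℕ, ∀ n : ℕ, n0 ≤ n → ∀ i,
  ((((S.Q i).pball n).filter (fun v => w (p * ((S.Q i).q v).natAbs) ≠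
    z * w ((S.Q i).q v).natAbs)).card : ℝ) ≤ ε * n

/-- (N3) the weights satisfy `DilW` (from `StNull`) -/
def StDilN : Prop := ∀ (ι : Type) [Fintype ι] (S : System ι) (δ : ℝ), 0 < δ → δ < 1 / 2 →
  (∀ z : ℂ, ‖z‖ = 1 → DilW S z (wz1 z (4 * S.d) δ)) ∧ DilW S 1 (wr (4 * S.d) δ) ∧
  DilW S 1 (fun _ => 1)

/-- (E3) dilation for fixed large `n` -/
def StDilsW : Prop := ∀ (ι : Type) [Fintype ι] (S : System ι) (z1 z2 : ℂ) (w1 w2 : ℕ → ℂ),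
  ‖z1‖ = 1 → ‖z2‖ = 1 → B1 w1 → B1 w2 → DilW S z1 w1 → DilW S z2 w2 →
  ∀ (K : ℕ), 0 < K → ∀ om : ι → V → V → ℂ, Wt S K om →
  ∀ (δ : ℝ) (h : ℝ → ℝ → ℝ), 0 < δ → Test δ h → ∃ C : ℝ, ∀ p : ℕ, p.Prime →
  p ≡ 1 [MOD 4 * S.d] → p ≡ 1 [MOD K] → ∃ n0 : ℕ, ∀ n : ℕ, n0 ≤ n → ∀ i,
  ‖(p : ℂ) * Dk (S.Q i) h (res (Im (S.M p i)) (kerW S w1 w2 om i)) (p : ℤ) n
    - z1 * z2 * Dk (S.Q (S.s p i)) h (kerW S w1 w2 om (S.s p i)) 1 ((n : ℝ) / p)‖ ≤ C / p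

/-- (E4) Theorem A for two weights with finitely many values (fork of `am_98`) -/
def StAmW : Prop := ∀ (ι : Type) [Fintype ι] (S : System ι) (z1 z2 : ℂ) (w1 w2 : ℕ → ℂ),
  ‖z1‖ = 1 → ‖z2‖ = 1 → B1 w1 → B1 w2 → (Set.range w1).Finite → (Set.range w2).Finite →
  DilW S z1 w1 → DilW S z2 w2 → EsForW S w1 w2 → ∀ (K : ℕ), 0 < K → ∀ om : ι → V → V → ℂ,
  Wt S K om → ∀ M : LMean, NullM M S.Q (kerW S w1 w2 om)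

/-! ### Part T: the polynomial -/

/-- the twisted sum up to `N` with two weights -/
noncomputable def TwW (a b c : ℤ) (α β : ℝ) (h t0 : ℕ) (w1 w2 : ℕ → ℂ) (N : ℕ) : ℂ :=
  ∑ t ∈ (Finset.Icc 1 N).filter (fun t => t ≡ t0 [MOD h]),
    ∑ d ∈ nearG a b c α β t, w1 d * w2 (a.natAbs * ((fv a b c t).natAbs / d))

/-- (T1) the twisted theorem (fork of `main_id1`, `twJ90`) -/
def StTwW : Prop := ∀ a b c : ℤ, 0 < a → b ^ 2 - 4 * a * c < 0 → ∀ w1 w2 : ℕ → ℂ, B1 w1 →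
  B1 w2 → ∀ M : LMean,
  (∀ (ι : Type) [Fintype ι] (S : System ι), (S.d : ℤ) = 4 * a * c - b ^ 2 → ∀ (K : ℕ),
    0 < K → ∀ om : ι → V → V → ℂ, Wt S K om → NullM M S.Q (kerW S w1 w2 om)) →
  ∀ (h : ℕ), 0 < h → ∀ (t0 : ℕ) (α β : ℝ), 0 < α → α < β →
  M.E (fun N : ℕ => ‖TwW a b c α β h t0 w1 w2 N‖ / N) = 0

/-- (T2) the twisted sums of the theorem vanish in mean: `Z` for two roots of unity not both `1`,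
and `b ⊗ b - ρ²` -/
def StTwB : Prop := ∀ a b c : ℤ, 0 < a → b ^ 2 - 4 * a * c < 0 → ∀ q : ℕ,
  (q : ℤ) = 4 * (4 * a * c - b ^ 2) → ∀ δ : ℝ, 0 < δ → δ < 1 / 2 → ∀ (h : ℕ), 0 < h →
  ∀ (t0 : ℕ) (α β : ℝ), 0 < α → α < β → ∀ M : LMean,
  (∀ (z1 z2 : ℂ) (k : ℕ), 0 < k → z1 ^ k = 1 → z2 ^ k = 1 → (z1 ≠ 1 ∨ z2 ≠ 1) →
    M.E (fun N : ℕ => ‖TwW a b c α β h t0 (wz1 z1 q δ) (wz1 z2 q δ) N‖ / N) = 0) ∧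
  M.E (fun N : ℕ => ‖TwW a b c α β h t0 (bb q δ) (bb q δ) N - (rho q δ : ℂ) ^ 2 *
    TwW a b c α β h t0 (fun _ => 1) (fun _ => 1) N‖ / N) = 0

/-- the number of pairs `(t, d)` with `t ≤ N`, both windows, `Ω d ≡ r`, `Ω (f t / d) ≡ s mod k` -/
noncomputable def CW (a b c : ℤ) (α β : ℝ) (h t0 q : ℕ) (δ : ℝ) (k r s : ℕ) (N : ℕ) : ℕ := by
  classical
  exact ∑ t ∈ (Finset.Icc 1 N).filter (fun t => t ≡ t0 [MOD h]),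
    ((nearG a b c α β t).filter (fun d => Win q δ d ∧
      Win q δ (a.natAbs * ((fv a b c t).natAbs / d)) ∧ Omn d ≡ r [MOD k] ∧
      Omn ((fv a b c t).natAbs / d) ≡ s [MOD k])).card

/-- (T3) the count (from `StTwB`, `StMainS`, Fourier inversion) -/
def StFinW : Prop := ∀ a b c : ℤ, 0 < a → b ^ 2 - 4 * a * c < 0 → ∀ q : ℕ,
  (q : ℤ) = 4 * (4 * a * c - b ^ 2) → ∀ δ : ℝ, 0 < δ → δ < 1 / 2 → ∀ (h : ℕ), 0 < h →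
  ∀ (t0 : ℕ) (α β : ℝ), 0 < α → α < β → ∀ κ : ℝ, 0 < κ →
  Tendsto (fun N : ℕ => (CST a b c α β h t0 1 0 0 N : ℝ) / N) atTop (𝓝 κ) →
  ∀ k : ℕ, 0 < k → ∀ r s : ℕ, ∀ M : LMean,
  M.E (fun N : ℕ => |(CW a b c α β h t0 q δ k r s N : ℝ) / N -
    rho q δ ^ 2 * κ / k ^ 2|) = 0

/-- (T4a) the pairs with both windows -/
def StEndA : Prop := ∀ a b c : ℤ, 0 < a → b ^ 2 - 4 * a * c < 0 → ∀ q : ℕ,
  (q : ℤ) = 4 * (4 * a * c - b ^ 2) → ∀ (h t₀ : ℕ), 0 < h → ∀ (α β : ℝ), 0 < α → α < β →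
  ∃ κ : ℝ, 0 < κ ∧ Tendsto (fun N : ℕ => (pairCount a b c h t₀ α β (fun _ _ => True) N : ℝ) / N)
    atTop (𝓝 κ) ∧ ∀ δ : ℝ, 0 < δ → δ < 1 / 2 → ∀ k : ℕ, 0 < k → ∀ r s : ℕ,
    (∀ ε : ℝ, 0 < ε → LogNull {N | ε < |(pairCount a b c h t₀ α β (fun t d => Win q δ d ∧
      Win q δ (a.natAbs * ((fv a b c t).natAbs / d)) ∧ Omn d ≡ r [MOD k] ∧
      Omn ((fv a b c t).natAbs / d) ≡ s [MOD k]) N : ℝ) / N - rho q δ ^ 2 * κ / k ^ 2|}) ∧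
    ∃ η : ℝ, 0 < η ∧ ∀ᶠ N : ℕ in atTop, η * N ≤ pairCount a b c h t₀ α β (fun t d => Win q δ d ∧
      Win q δ (a.natAbs * ((fv a b c t).natAbs / d)) ∧ Omn d ≡ r [MOD k] ∧
      Omn ((fv a b c t).natAbs / d) ≡ s [MOD k]) N

/-- `f t = m p q` with two primes larger than `t ^ (1 - δ)` and a small `m`, `Ω (f t) ≡ r mod k` -/
def MPQ (a b c : ℤ) (δ : ℝ) (k r t : ℕ) : Prop := ∃ m p q : ℕ, p.Prime ∧ q.Prime ∧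
  (t : ℝ) ^ (1 - δ) < p ∧ (t : ℝ) ^ (1 - δ) < q ∧ (m : ℝ) ≤ (t : ℝ) ^ (2 * δ) ∧
  a * (t : ℤ) ^ 2 + b * t + c = m * p * q ∧ ArithmeticFunction.cardFactors (m * p * q) ≡ r [MOD k]

open Classical in
/-- (T4b) the arguments `t` (from `StEndA` and `UW.U64.unwD`) -/
def StEndB : Prop := ∀ a b c : ℤ, 0 < a → b ^ 2 - 4 * a * c < 0 → ∀ (h t₀ : ℕ), 0 < h →
  ∀ δ : ℝ, 0 < δ → ∀ k : ℕ, 0 < k → ∀ r : ℕ, ∀ ε : ℝ, 0 < ε → ∀ᶠ N : ℕ in atTop,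
  (N : ℝ) / Real.log N ^ (Real.log 2 + ε) ≤
    (((Finset.Icc 1 N).filter (fun t : ℕ => t ≡ t₀ [MOD h] ∧ MPQ a b c δ k r t)).card : ℝ)

end Pool.Agent.Lib.MP_a17b09_nt.PQ
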