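import Pool.Agent.Lib.MP_a17b09_nt.MRSG.MomG16
import Pool.Agent.Lib.MP_a17b09_nt.PQ.Stmts79

/-!
PQ (MP_a17b09_nt), row M3: the moments, uniform in the weight.  helper21.
-/

set_option autoImplicit false

open Finset

namespace Pool.Agent.Lib.MP_a17b09_nt.PQ

open CH CH.PE MRSG

/-- (M3) MOM -/
theorem stMomW_21 {d K : ℕ} [NeZero K] (hLS : StLsG d K) : StMomW d K := by
  classical
  obtain ⟨C, hC, hmom⟩ := momG16 hLS
  intro z hz r1 r2 hr1 hr12
  have hr2 : 0 < r2 := hr1.trans hr12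
  set D : ℝ := C * (r2 / r1) ^ 3 * Real.exp (40 + 4 * (∅ : Finset ℕ).card) + Real.exp 3 * 484
    with hD
  have hD1 : 1 ≤ D := by
    have h1 : 0 ≤ C * (r2 / r1) ^ 3 * Real.exp (40 + 4 * (∅ : Finset ℕ).card) := by positivity
    have h2 : (1 : ℝ) ≤ Real.exp 3 := Real.one_le_exp (by norm_num)
    rw [hD]
    linarith
  refine ⟨D * (1 + r1 ^ 2), by nlinarith [sq_nonneg r1], ?_⟩
  intro h u l J N hh hu hY hJ w hw
  have hN0 : 0 < N := by
    by_contra hcon
    push Not at hcon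
    nlinarith
  have hB2 : 1 ≤ r2 / r1 := by rw [le_div_iff₀ hr1]; linarith
  -- the set of pairs
  set S : Finset (Cl d × V) := Finset.univ.biUnion (fun i : Cl d =>
    ((Shg i (r1 * N) (r2 * N)).filter Prim).image (fun v => (i, v))) with hS
  have hmemS : ∀ x, x ∈ S ↔ x.2 ∈ (Shg x.1 (r1 * N) (r2 * N)).filter Prim := by
    intro x
    rw [hS, Finset.mem_biUnion]
    constructor
    · rintro ⟨i, _, hx⟩
      obtain ⟨v, hv, rfl⟩ := Finset.mem_image.1 hx
      exact hv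
    · intro hx
      exact ⟨x.1, Finset.mem_univ _, Finset.mem_image.2 ⟨x.2, hx, rfl⟩⟩
  have hsum : ∀ f : Cl d × V → ℂ, ∑ x ∈ S, f x =
      ∑ i, ∑ v ∈ (Shg i (r1 * N) (r2 * N)).filter Prim, f (i, v) := by
    intro f
    rw [hS, Finset.sum_biUnion]
    · refine Finset.sum_congr rfl fun i _ => ?_
      rw [Finset.sum_image]
      intro v _ v' _ hE
      exact congrArg Prod.snd hE
    · intro i _ i' _ hne
      rw [Function.onFun, Finset.disjoint_left]
      intro x hx hx'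
      obtain ⟨v, _, rfl⟩ := Finset.mem_image.1 hx
      obtain ⟨v', _, hE⟩ := Finset.mem_image.1 hx'
      exact hne (congrArg Prod.fst hE).symm
  have key := hmom z hz h u l J (r1 * N) (r2 / r1) ∅ S (fun x => gw w (rep x.1) x.2) hh hu hY hB2
    (by simp)
    (by
      intro x hx
      rw [hmemS, Finset.mem_filter, mem_Shg] at hx
      obtain ⟨⟨h1, h2, h3⟩, h4⟩ := hx
      refine ⟨h1, ?_, h2.le, ?_⟩
      · intro r hr hrg
        rw [show Int.gcd x.2.1 x.2.2 = 1 from h4] at hrg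
        exact absurd (Nat.dvd_one.1 hrg) hr.one_lt.ne'
      · have : r2 / r1 * (r1 * N) = r2 * N := by field_simp
        rw [this]; exact h3)
    (fun x _ => hw _) hJ
  have hR : ∀ f : Fq d K, Mpw w r1 r2 N f = (r1 : ℂ) *
      ((1 / ((r1 * N : ℝ) : ℂ)) * ∑ x ∈ S, gw w (rep x.1) x.2 * ch f x.1 x.2) := by
    intro f
    rw [hsum (fun x => gw w (rep x.1) x.2 * ch f x.1 x.2)]
    unfold Mpw
    rw [← mul_assoc]
    congr 1
    push_cast
    have h1 : (r1 : ℂ) ≠ 0 := by exact_mod_cast hr1.ne'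
    have h2 : (N : ℂ) ≠ 0 := by exact_mod_cast hN0.ne'
    field_simp
  calc ∑ f ∈ SJ d K J, ‖Qsg z h u f ^ l * Mpw w r1 r2 N f‖ ^ 2
      = r1 ^ 2 * ∑ f ∈ SJ d K J, ‖Qsg z h u f ^ l *
        ((1 / ((r1 * N : ℝ) : ℂ)) * ∑ x ∈ S, gw w (rep x.1) x.2 * ch f x.1 x.2)‖ ^ 2 := by
        rw [Finset.mul_sum]
        refine Finset.sum_congr rfl fun f _ => ?_
        rw [hR f, mul_left_comm, norm_mul (r1 : ℂ), mul_pow, Complex.norm_real,
          Real.norm_of_nonneg hr1.le]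
    _ ≤ r1 ^ 2 * (D ^ (l + 1) * (l.factorial : ℝ) ^ 2) :=
        mul_le_mul_of_nonneg_left key (by positivity)
    _ ≤ (1 + r1 ^ 2) ^ (l + 1) * (D ^ (l + 1) * (l.factorial : ℝ) ^ 2) := by
        apply mul_le_mul_of_nonneg_right _ (by positivity)
        calc r1 ^ 2 ≤ 1 + r1 ^ 2 := by linarith
          _ = (1 + r1 ^ 2) ^ 1 := by ring
          _ ≤ (1 + r1 ^ 2) ^ (l + 1) :=
            pow_le_pow_right₀ (by linarith [sq_nonneg r1]) (by omega)
    _ = (D * (1 + r1 ^ 2)) ^ (l + 1) * (l.factorial : ℝ) ^ 2 := by rw [mul_pow]; ring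

end Pool.Agent.Lib.MP_a17b09_nt.PQ
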