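import Pool.Agent.Lib.MP_a17b09_nt.PQ.Stmts79
import Pool.Agent.Lib.MP_a17b09_nt.MRS.Sch27

/-!
Project PQ, (M3b): the schedule below a small power of `N` (helper11).
-/

set_option autoImplicit false

open Filter Topology Finset

namespace Pool.Agent.Lib.MP_a17b09_nt.PQ

open CH CH.PE MRSG MRS

namespace M3b

/-- multinomial bound -/
theorem fact_le (m l : ℕ) : (m * l).factorial ≤ m ^ (m * l) * l.factorial ^ m := by
  induction l with
  | zero => simp
  | succ l ih =>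
      have h1 : (m * (l + 1)).factorial = (m * l).factorial * (m * l + 1).ascFactorial m := by
        rw [Nat.factorial_mul_ascFactorial]; ring_nf
      have h2 : (m * l + 1).ascFactorial m ≤ (m * l + m) ^ m := Nat.ascFactorial_le_pow_add _ _
      have h3 : (m * l + m) ^ m = m ^ m * (l + 1) ^ m := by
        rw [← mul_pow]; ring_nf
      calc (m * (l + 1)).factorial = (m * l).factorial * (m * l + 1).ascFactorial m := h1
        _ ≤ (m ^ (m * l) * l.factorial ^ m) * (m ^ m * (l + 1) ^ m) := by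
            rw [← h3]; exact Nat.mul_le_mul ih h2
        _ = m ^ (m * (l + 1)) * (l + 1).factorial ^ m := by
            rw [Nat.factorial_succ, mul_pow, Nat.mul_succ, pow_add]; ring

theorem fact_le' {m : ℕ} (hm : 1 ≤ m) (l : ℕ) {C : ℝ} (hC : 1 ≤ C) :
    C ^ (m * l + 1) * ((m * l).factorial : ℝ) ^ 2 ≤
      ((C * (m : ℝ) ^ 2) ^ (l + 1) * (l.factorial : ℝ) ^ 2) ^ m := by
  have hmr : (1 : ℝ) ≤ m := by exact_mod_cast hm
  have h1 : C ^ (m * l + 1) ≤ C ^ ((l + 1) * m) := by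
    refine pow_le_pow_right₀ hC ?_
    nlinarith
  have h2 : ((m * l).factorial : ℝ) ≤ (m : ℝ) ^ (m * l) * (l.factorial : ℝ) ^ m := by
    exact_mod_cast fact_le m l
  have h3 : ((m * l).factorial : ℝ) ^ 2 ≤ ((m : ℝ) ^ (m * l) * (l.factorial : ℝ) ^ m) ^ 2 :=
    pow_le_pow_left₀ (by positivity) h2 2
  have h4 : ((m : ℝ) ^ (m * l)) ^ 2 ≤ (m : ℝ) ^ (2 * ((l + 1) * m)) := by
    rw [← pow_mul]
    refine pow_le_pow_right₀ hmr ?_
    nlinarith
  calc C ^ (m * l + 1) * ((m * l).factorial : ℝ) ^ 2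
      ≤ C ^ ((l + 1) * m) * ((m : ℝ) ^ (m * l) * (l.factorial : ℝ) ^ m) ^ 2 := by
        refine mul_le_mul h1 h3 (by positivity) (by positivity)
    _ = C ^ ((l + 1) * m) * (((m : ℝ) ^ (m * l)) ^ 2 * ((l.factorial : ℝ) ^ m) ^ 2) := by ring
    _ ≤ C ^ ((l + 1) * m) * ((m : ℝ) ^ (2 * ((l + 1) * m)) * ((l.factorial : ℝ) ^ m) ^ 2) := by
        refine mul_le_mul_of_nonneg_left ?_ (by positivity)
        exact mul_le_mul_of_nonneg_right h4 (by positivity)
    _ = ((C * (m : ℝ) ^ 2) ^ (l + 1) * (l.factorial : ℝ) ^ 2) ^ m := by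
        rw [mul_pow, mul_pow, mul_pow, ← pow_mul, ← pow_mul, ← pow_mul, ← pow_mul, ← pow_mul]
        ring_nf

end M3b

theorem stSchW_11 : StSchW := by
  intro m hm C r ε c hC hr hε hc
  have hmr : (1 : ℝ) ≤ m := by exact_mod_cast hm
  have hm0 : (0 : ℝ) < m := by linarith
  have hm2 : (1 : ℝ) ≤ (m : ℝ) ^ 2 := one_le_pow₀ hmr
  have hCC : C ≤ C * (m : ℝ) ^ 2 := le_mul_of_one_le_right (by linarith) hm2
  set C' : ℝ := C * (m : ℝ) ^ 2 with hC'
  obtain ⟨H0, hH0, hH⟩ := stSch_27 C' r ε c (hC.trans hCC) hr hε hc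
  refine ⟨H0, hH0, fun H hHH => ?_⟩
  obtain ⟨N0, hN0, hN⟩ := hH H hHH
  refine ⟨N0 ^ m, one_le_pow₀ hN0, fun N hNN => ?_⟩
  have hN1 : 1 ≤ N := (one_le_pow₀ hN0).trans hNN
  have hN00 : 0 ≤ N := by linarith
  set N' : ℝ := N ^ ((m : ℝ)⁻¹) with hN'
  have hpow : N' ^ m = N := Real.rpow_inv_natCast_pow hN00 (by omega)
  have hN'0 : 0 ≤ N' := Real.rpow_nonneg hN00 _
  have hle : N0 ≤ N' := by
    have h1 : (N0 ^ m) ^ ((m : ℝ)⁻¹) = N0 :=
      Real.pow_rpow_inv_natCast (by linarith) (by omega)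
    rw [← h1]
    exact Real.rpow_le_rpow (by positivity) hNN (by positivity)
  have h8 : N' ^ (1 / 8 : ℝ) = N ^ (1 / (8 * m) : ℝ) := by
    rw [hN', ← Real.rpow_mul hN00]
    congr 1
    field_simp
  have hNc : (N' ^ c) ^ m = N ^ c := by
    rw [← Real.rpow_natCast, ← Real.rpow_mul hN'0, mul_comm, Real.rpow_mul hN'0,
      Real.rpow_natCast, hpow]
  obtain ⟨n, h, u0, u1, α, h1, h2, h3, h4, h5, h6, h7⟩ := hN N' hle
  refine ⟨n, h, u0, u1, α, h1, ?_, h3, ?_, ?_, ?_, ?_⟩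
  · intro i hi
    obtain ⟨a1, a2, a3, a4, a5, a6⟩ := h2 i hi
    rw [h8] at a4 a5
    exact ⟨a1, a2, a3, a4, a5, by linarith⟩
  · refine (Finset.sum_le_sum fun i hi => ?_).trans h4
    obtain ⟨a1, a2, a3, a4, a5, a6⟩ := h2 i (by rw [Finset.mem_range] at hi; omega)
    refine mul_le_mul hCC ?_ (by
      have : 0 < Real.log (u1 i / u0 i) - C := by linarith
      positivity) (by linarith)
    have hb : 1 / (Real.log (u1 i / u0 i) - C) ≤ 1 / (Real.log (u1 i / u0 i) - C') :=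
      one_div_le_one_div_of_le (by linarith) (by linarith)
    linarith
  · refine le_trans ?_ h5
    refine mul_le_mul_of_nonneg_right ?_ (Real.exp_pos _).le
    exact mul_le_mul_of_nonneg_right hCC (by positivity)
  · intro i hi u hu s hs
    obtain ⟨l, hl1, hl2⟩ := h6 i hi u hu s hs
    refine ⟨l, hl1, le_trans ?_ hl2⟩
    refine mul_le_mul_of_nonneg_left ?_ (by positivity)
    refine mul_le_mul_of_nonneg_left ?_ (Real.exp_pos _).le
    refine mul_le_mul_of_nonneg_right ?_ (by positivity)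
    exact pow_le_pow_left₀ (by linarith) hCC _
  · intro s hs
    obtain ⟨l, hl1, hl2⟩ := h7 s hs
    have hu1 : (1 : ℝ) ≤ u1 n := by
      rw [Finset.mem_Ico] at hs
      exact_mod_cast (by omega : 1 ≤ u1 n)
    refine ⟨m * l, ?_, ?_⟩
    · rw [← hpow]
      calc N' ^ m ≤ Real.exp (l * (s / h n)) ^ m := pow_le_pow_left₀ hN'0 hl1 m
        _ = Real.exp (m * (l * (s / h n))) := (Real.exp_nat_mul _ m).symm
        _ = Real.exp (((m * l : ℕ) : ℝ) * (s / h n)) := by push_cast; ring_nf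
    · rw [← hNc]
      refine le_trans ?_ (pow_le_pow_left₀ (by positivity) hl2 m)
      rw [mul_pow, mul_pow]
      have e1 : Real.exp (2 * ((m * l : ℕ) : ℝ) * α n * (s / h n)) =
          Real.exp (2 * l * α n * (s / h n)) ^ m := by
        rw [← Real.exp_nat_mul]; push_cast; ring_nf
      rw [e1]
      refine mul_le_mul (le_self_pow₀ hu1 (by omega)) ?_ (by positivity) (by positivity)
      refine mul_le_mul_of_nonneg_left ?_ (by positivity)
      exact M3b.fact_le' hm l hC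

end Pool.Agent.Lib.MP_a17b09_nt.PQ
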