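import Pool.Agent.Lib.MP_a17b09_nt.MRSG.TkhGa12

/-!
PQ (MP_a17b09_nt), module TKHW, general form: Turan - Kubilius and Halasz - Montgomery together for
arbitrary coefficients `a` with `a i (M_P u) = z a (s_P i) u` for the small primes. helper12.
-/

set_option autoImplicit false

open Finset

namespace Pool.Agent.Lib.MP_a17b09_nt.PQ.TkhGen12

open CH CH.PE MRSG MRSG.ExpG12 MRSG.ShiftG12 MRSG.EigG12 MRSG.TkhG12

section

variable {d K : ℕ} [NeZero K]

/-- shell sum with arbitrary coefficients -/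
noncomputable def Maa (a : Cl d → V → ℂ) (r1 r2 N : ℝ) (w : Fq d K) : ℂ :=
  (1 / (N : ℂ)) * ∑ i, ∑ v ∈ Shg i (r1 * N) (r2 * N), a i v * ch w i v

/-- the basic identity -/
theorem maa_id (z : ℂ) (a : Cl d → V → ℂ) (r1 r2 N : ℝ) (hN : 0 < N) (w : Fq d K) {P : ℕ × Bool}
    (h : Adm d K P) (ha : ∀ i, ∀ u : V, u ≠ 0 → a i ((Mg d P i).app u) = z * a (sg d P i) u) :
    (1 / (P.1 : ℝ)) * ‖Maa a r1 r2 N w - z * cw P w * Maa a r1 r2 (N / P.1) w‖ ^ 2 =
      (1 / N ^ 2) * ‖∑ x ∈ Sx d (r1 * N) (r2 * N),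
        ((1 : ℝ) : ℂ) * a x.1 x.2 * ph (w, P) x‖ ^ 2 := by
  classical
  have hp0 : (0 : ℝ) < P.1 := by exact_mod_cast h.1.pos
  have hpC : (P.1 : ℂ) ≠ 0 := by exact_mod_cast hp0.ne'
  have hNC : (N : ℂ) ≠ 0 := by exact_mod_cast hN.ne'
  have h0 := (stIdG_29 (d := d) (K := K) z (r1 * N) (r2 * N) P w h).1
  set S1 : ℂ := ∑ i, ∑ v ∈ Shg i (r1 * N) (r2 * N), a i v * ch w i v with hS1
  set S2 : ℂ := ∑ i, ∑ u ∈ Shg i (r1 * N / P.1) (r2 * N / P.1), a i u * ch w i u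
    with hS2
  have h1 : ∑ i, ∑ v ∈ (Shg i (r1 * N) (r2 * N)).filter (fun v => Im (Mg d P i) v),
      a i v * ch w i v = z * cw P w * S2 := by
    rw [sum_congr rfl fun i _ => h0 (fun i v => a i v * ch w i v) i, hS2,
      ← Equiv.sum_comp (sg d P) (fun i => ∑ u ∈ Shg i (r1 * N / P.1) (r2 * N / P.1),
      a i u * ch w i u), mul_sum]
    refine sum_congr rfl fun i _ => ?_
    rw [mul_sum]
    refine sum_congr rfl fun u hu => ?_
    have hu0 := (mem_Shg.1 hu).1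
    rw [ha i u hu0, ch_M h w i hu0]
    ring
  have e1 : ∑ x ∈ Sx d (r1 * N) (r2 * N), ((1 : ℝ) : ℂ) * a x.1 x.2 * ph (w, P) x =
      ((√(P.1 : ℝ) : ℝ) : ℂ) * (z * cw P w * S2 - (1 / (P.1 : ℂ)) * S1) := by
    rw [← h1, sum_Sx, hS1, mul_sum (s := univ) (a := (1 / (P.1 : ℂ))), ← sum_sub_distrib, mul_sum]
    refine sum_congr rfl (fun i _ => ?_)
    rw [sum_filter, mul_sum, ← sum_sub_distrib, mul_sum, ← Shg_eq]
    refine sum_congr rfl (fun v _ => ?_)
    unfold ph Dp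
    simp only
    by_cases h2 : Eig P.1 (rg d P) (rep i) v
    · rw [if_pos h2, if_pos ((im_iff h i v).2 h2)]
      push_cast
      ring
    · rw [if_neg h2, if_neg (fun h3 => h2 ((im_iff h i v).1 h3))]
      push_cast
      ring
  have e2 : Maa a r1 r2 N w - z * cw P w * Maa a r1 r2 (N / P.1) w =
      -((P.1 : ℂ) / N) * (z * cw P w * S2 - (1 / (P.1 : ℂ)) * S1) := by
    unfold Maa
    rw [← mul_div_assoc, ← mul_div_assoc, ← hS1, ← hS2]
    push_cast
    field_simp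
    ring
  rw [e1, e2, norm_mul, norm_mul, norm_neg, norm_div, Complex.norm_natCast, Complex.norm_real,
    Complex.norm_real, Real.norm_of_nonneg hN.le, Real.norm_of_nonneg (Real.sqrt_nonneg _),
    mul_pow, mul_pow, Real.sq_sqrt hp0.le]
  field_simp

end

/-- **TKH for arbitrary coefficients** -/
theorem tkh_gen (d K : ℕ) [NeZero K] (r1 r2 : ℝ) (hr1 : 0 ≤ r1) (hr12 : r1 < r2) :
    ∃ c C N0 : ℝ, 0 < c ∧ c ≤ 1 / 8 ∧ 0 < C ∧ 1 ≤ N0 ∧ ∀ N : ℝ, N0 ≤ N → ∀ z : ℂ,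
    ∀ a : Cl d → V → ℂ, (∀ i v, ‖a i v‖ ≤ 1) → ∀ PP ⊆ slg d K 3 (N ^ c),
    (∀ P ∈ PP, ∀ i, ∀ u : V, u ≠ 0 → a i ((Mg d P i).app u) = z * a (sg d P i) u) →
    ∀ U : Finset (Fq d K), (U.card : ℝ) ≤ N ^ c → (∀ w ∈ U, |(w.1 : ℝ)| ≤ N ^ 2) →
    ∑ w ∈ U, ∑ P ∈ PP, (1 / (P.1 : ℝ)) *
      ‖Maa a r1 r2 N w - z * cw P w * Maa a r1 r2 (N / P.1) w‖ ^ 2 ≤ C := by
  classical
  have hr2 : 0 < r2 := lt_of_le_of_lt hr1 hr12
  have hK : 0 < K := Nat.pos_of_ne_zero (NeZero.ne K)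
  have hK1 : (1 : ℝ) ≤ K := by exact_mod_cast hK
  set B : ℝ := K + r2 with hB
  have hB1 : 1 ≤ B := by linarith
  obtain ⟨c0, C0, hc0, hc08, hC0, H⟩ := exp_unif d 3 B (by norm_num) hB1
  set c : ℝ := c0 / 8 with hc
  have hcp : 0 < c := by positivity
  set hcl : ℝ := (Fintype.card (Cl d) : ℝ) with hhcl
  have hhcl0 : 0 ≤ hcl := Nat.cast_nonneg _
  set m : ℝ := ((Fintype.card (Cl d) * (K * K) : ℕ) : ℝ) with hm
  have hm0 : 0 ≤ m := Nat.cast_nonneg _
  set A0 : ℝ := ∑ i : Cl d, (|((rep i).a : ℝ)| + |((rep i).b : ℝ)| + |((rep i).c : ℝ)| + 1)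
    with hA0
  have hA00 : 0 ≤ A0 := sum_nonneg (fun i _ => by positivity)
  set A : ℝ := K * A0 + 1 with hA
  have hA1 : 1 ≤ A := by
    have : 0 ≤ (K : ℝ) * A0 := by positivity
    linarith
  set CG : ℝ := m * (hcl * (76 * r2) + 1608 * (hcl * A * (√r2 + A))) +
    4 * (hcl * ((K : ℝ) ^ 2 * C0)) with hCG
  have hCG0 : 0 ≤ CG := by positivity
  refine ⟨c, hcl * (38 * r2) * CG + 1, max 2 ((1 / r2) ^ 2), hcp, by linarith, by positivity,
    le_trans (by norm_num) (le_max_left _ _), ?_⟩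
  intro N hN z a ha PP hPPs hinv U hU hUj
  have hN2 : 2 ≤ N := (le_max_left _ _).trans hN
  have hNr : (1 / r2) ^ 2 ≤ N := (le_max_right _ _).trans hN
  have hN0 : 0 < N := by linarith
  have hN1 : 1 ≤ N := by linarith
  set s : ℝ := √N with hs
  have hs1 : 1 ≤ s := Real.one_le_sqrt.2 hN1
  have hss : s * s = N := Real.mul_self_sqrt hN0.le
  have hrs : 1 / r2 ≤ s := Real.le_sqrt_of_sq_le hNr
  have hsN : s ≤ r2 * N := by
    have h1 : 1 ≤ r2 * s := by
      rw [div_le_iff₀ hr2] at hrs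
      linarith
    calc s = 1 * s := (one_mul s).symm
      _ ≤ (r2 * s) * s := mul_le_mul_of_nonneg_right h1 (by linarith)
      _ = r2 * N := by rw [mul_assoc, hss]
  set n : ℝ := N ^ c with hn
  have hn1 : 1 ≤ n := Real.one_le_rpow hN1 hcp.le
  have hn0 : 0 < n := by linarith
  have hn5 : n ^ 5 ≤ s := by
    rw [hn, hs, ← Real.rpow_natCast, ← Real.rpow_mul hN0.le, Real.sqrt_eq_rpow]
    apply Real.rpow_le_rpow_of_exponent_le hN1
    push_cast
    linarith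
  have hns : n ≤ s := by
    calc n = n ^ 1 := (pow_one n).symm
      _ ≤ n ^ 5 := pow_le_pow_right₀ hn1 (by norm_num)
      _ ≤ s := hn5
  have hb1 : 1 ≤ r2 * N := hs1.trans hsN
  have ha0 : 0 ≤ r1 * N := by positivity
  have hab : r1 * N ≤ r2 * N := mul_le_mul_of_nonneg_right hr12.le hN0.le
  -- the primes
  have hadm : ∀ P ∈ PP, Adm d K P := fun P hP => (mem_slg.1 (hPPs hP)).1
  have hPn : ∀ P ∈ PP, (P.1 : ℝ) ≤ n := fun P hP => (mem_slg.1 (hPPs hP)).2.2.le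
  have hcard : (PP.card : ℝ) ≤ 4 * n := by
    have h1 : PP.card ≤ ((range ⌈n⌉₊) ×ˢ (univ : Finset Bool)).card := by
      apply card_le_card
      intro P hP
      rw [mem_product, mem_range]
      refine ⟨?_, mem_univ _⟩
      have h2 := (mem_slg.1 (hPPs hP)).2.2
      exact_mod_cast h2.trans_le (Nat.le_ceil n)
    rw [card_product, card_range, card_univ, Fintype.card_bool] at h1
    have h2 : (PP.card : ℝ) ≤ (⌈n⌉₊ : ℝ) * 2 := by exact_mod_cast h1
    have h3 := Nat.ceil_lt_add_one hn0.le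
    linarith
  -- the three bounds
  set τ : ℝ := K * A0 * n ^ 3 with hτ
  have hτ0 : 0 ≤ τ := by positivity
  have hτA : τ + 1 ≤ A * n ^ 3 := by
    have : 1 ≤ n ^ 3 := one_le_pow₀ hn1
    rw [hτ, hA]
    linarith
  set D : ℝ := 400 * ((τ + 1) * (√(r2 * N) + τ + 1)) + 2 with hD
  set E : ℝ := C0 * N ^ (1 - c0) with hE
  have hE0 : 0 ≤ E := by positivity
  have hG0' : 0 ≤ n * (hcl * D) := by positivity
  have hG1' : 0 ≤ hcl * (76 * (r2 * N)) := by positivity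
  have hG2' : 0 ≤ n * (hcl * ((K * n ^ 2) ^ 2 * E)) := by positivity
  have hmain := tkh_sys (d := d) (K := K) (r1 * N) (r2 * N) U PP (n * (hcl * D))
    (hcl * (76 * (r2 * N))) (n * (hcl * ((K * n ^ 2) ^ 2 * E))) hG0' hG1' hG2'
    (fun w _ w' _ hj P hP P' hP' hne => by
      apply entry_off (r1 * N) (r2 * N) ha0 hab w w' hj (hadm P hP) (hadm P' hP') hne n
        (hPn P hP) (hPn P' hP') τ
      intro i
      have h1 : |((rep i).a : ℝ)| + |((rep i).b : ℝ)| + |((rep i).c : ℝ)| + 1 ≤ A0 :=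
        single_le_sum (f := fun i : Cl d => |((rep i).a : ℝ)| + |((rep i).b : ℝ)| +
          |((rep i).c : ℝ)| + 1) (fun i _ => by positivity) (mem_univ i)
      have h2 := hPn P hP
      have h3 := hPn P' hP'
      calc (P.1 : ℝ) * (K * ((|((rep i).a : ℝ)| + |((rep i).b : ℝ)| + |((rep i).c : ℝ)| + 1) *
            (P.1 * P'.1))) ≤ n * (K * (A0 * (n * n))) := by gcongr
        _ = τ := by rw [hτ]; ring)
    (fun w _ w' _ hj P hP => entry_diag (r1 * N) (r2 * N) w w' hj (hadm P hP)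
      ((hPn P hP).trans (hns.trans hsN)))
    (fun w hw w' hw' hj P hP P' hP' => by
      apply entry_freq (r1 * N) (r2 * N) E w w' (hadm P hP) (hadm P' hP') n
        (hPn P hP) (hPn P' hP') _ hE0
      intro i α
      apply H i N hN1 (w.1 - w'.1) (sub_ne_zero.2 (Ne.symm hj))
      · have h1 := hUj w hw
        have h2 := hUj w' hw'
        have h3 : |((w.1 - w'.1 : ℤ) : ℝ)| ≤ 2 * N ^ 2 := by
          push_cast
          refine (abs_sub _ _).trans ?_
          linarith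
        have e1 : N ^ (3 : ℝ) = N ^ 3 := by
          rw [← Real.rpow_natCast]
          norm_num
        rw [e1]
        calc |((w.1 - w'.1 : ℤ) : ℝ)| ≤ 2 * N ^ 2 := h3
          _ ≤ N * N ^ 2 := mul_le_mul_of_nonneg_right hN2 (by positivity)
          _ = N ^ 3 := by ring
      · exact Nat.mul_pos hK (Nat.mul_pos (hadm P hP).1.pos (hadm P' hP').1.pos)
      · push_cast
        have h1 : (P.1 : ℝ) * P'.1 ≤ n * n :=
          mul_le_mul (hPn P hP) (hPn P' hP') (Nat.cast_nonneg _) hn0.le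
        have h2 : n * n ≤ N ^ c0 := by
          rw [hn, ← Real.rpow_add hN0]
          exact Real.rpow_le_rpow_of_exponent_le hN1 (by linarith)
        apply mul_le_mul _ (h1.trans h2) (by positivity) (by linarith)
        linarith
      · rw [hB]
        nlinarith)
    (fun x => a x.1 x.2) (fun x => ha x.1 x.2)
  -- the number of vectors
  have hSx : ((Sx d (r1 * N) (r2 * N)).card : ℝ) ≤ hcl * (38 * (r2 * N)) := by
    unfold Sx
    rw [card_sigma]
    push_cast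
    calc ∑ i : Cl d, ((shQ (rep i) (r1 * N) (r2 * N)).card : ℝ)
        ≤ ∑ _i : Cl d, 38 * (r2 * N) := sum_le_sum (fun i _ =>
          card_sh _ (rep_pos i) _ _ hb1 (fun v hv => ((mem_shQ (rep_pos i)).1 hv).2.2))
      _ = hcl * (38 * (r2 * N)) := by rw [sum_const, card_univ, nsmul_eq_mul]
  -- the terms
  have hterm : ∑ w ∈ U, ∑ P ∈ PP, (1 / (P.1 : ℝ)) *
      ‖Maa a r1 r2 N w - z * cw P w * Maa a r1 r2 (N / P.1) w‖ ^ 2 =
      (1 / N ^ 2) * ∑ w ∈ U, ∑ P ∈ PP, ‖∑ x ∈ Sx d (r1 * N) (r2 * N),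
        ((1 : ℝ) : ℂ) * a x.1 x.2 * ph (w, P) x‖ ^ 2 := by
    rw [mul_sum]
    refine sum_congr rfl (fun w _ => ?_)
    rw [mul_sum]
    exact sum_congr rfl (fun P hP => maa_id z a r1 r2 N hN0 w (hadm P hP) (hinv P hP))
  rw [hterm]
  -- numerical bounds
  have b1 : (PP.card : ℝ) * (n * (hcl * D)) ≤ 1608 * (hcl * A * (√r2 + A)) * N := by
    have h1 := num0 n s (√r2) A hcl τ hn1 hn5 (Real.sqrt_nonneg _) hA1 hhcl0 hτ0 hτA
    rw [hss] at h1
    refine le_trans ?_ h1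
    rw [hD, Real.sqrt_mul hr2.le]
    exact mul_le_mul_of_nonneg_right hcard (by positivity)
  have b2 : (U.card : ℝ) * ((PP.card : ℝ) * (n * (hcl * ((K * n ^ 2) ^ 2 * E)))) ≤
      4 * (hcl * ((K : ℝ) ^ 2 * C0)) * N := by
    calc (U.card : ℝ) * ((PP.card : ℝ) * (n * (hcl * ((K * n ^ 2) ^ 2 * E))))
        ≤ n * ((4 * n) * (n * (hcl * ((K * n ^ 2) ^ 2 * E)))) := by
          apply mul_le_mul hU _ (by positivity) hn0.le
          exact mul_le_mul_of_nonneg_right hcard hG2'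
      _ = 4 * (hcl * ((K : ℝ) ^ 2 * C0)) * (n ^ 7 * N ^ (1 - c0)) := by
          rw [hE]
          ring
      _ ≤ 4 * (hcl * ((K : ℝ) ^ 2 * C0)) * N := by
          apply mul_le_mul_of_nonneg_left _ (by positivity)
          rw [hn, ← Real.rpow_natCast, ← Real.rpow_mul hN0.le, ← Real.rpow_add hN0]
          calc N ^ (c * ((7 : ℕ) : ℝ) + (1 - c0)) ≤ N ^ (1 : ℝ) := by
                apply Real.rpow_le_rpow_of_exponent_le hN1
                push_cast
                linarith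
            _ = N := Real.rpow_one _
  have b3 : m * (hcl * (76 * (r2 * N)) + PP.card * (n * (hcl * D))) +
      U.card * (PP.card * (n * (hcl * ((K * n ^ 2) ^ 2 * E)))) ≤ CG * N := by
    have h1 : m * (hcl * (76 * (r2 * N)) + PP.card * (n * (hcl * D))) ≤
        m * (hcl * (76 * (r2 * N)) + 1608 * (hcl * A * (√r2 + A)) * N) :=
      mul_le_mul_of_nonneg_left (by linarith) hm0
    calc _ ≤ m * (hcl * (76 * (r2 * N)) + 1608 * (hcl * A * (√r2 + A)) * N) +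
          4 * (hcl * ((K : ℝ) ^ 2 * C0)) * N := add_le_add h1 b2
      _ = CG * N := by rw [hCG]; ring
  have b3' : 0 ≤ m * (hcl * (76 * (r2 * N)) + PP.card * (n * (hcl * D))) +
      U.card * (PP.card * (n * (hcl * ((K * n ^ 2) ^ 2 * E)))) := by positivity
  have b4 := hmain.trans (mul_le_mul hSx b3 b3' (by positivity))
  calc (1 / N ^ 2) * ∑ w ∈ U, ∑ P ∈ PP, ‖∑ x ∈ Sx d (r1 * N) (r2 * N),
        ((1 : ℝ) : ℂ) * a x.1 x.2 * ph (w, P) x‖ ^ 2
      ≤ (1 / N ^ 2) * (hcl * (38 * (r2 * N)) * (CG * N)) :=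
        mul_le_mul_of_nonneg_left b4 (by positivity)
    _ = hcl * (38 * r2) * CG := by
        field_simp
    _ ≤ hcl * (38 * r2) * CG + 1 := by linarith

end Pool.Agent.Lib.MP_a17b09_nt.PQ.TkhGen12
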