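import Pool.Agent.Lib.MP_a17b09_nt.PQ.Stmts79

/-!
Project PQ, (M9): the mean square for a weight which is multiplicative outside a small set
(helper79).
-/

set_option autoImplicit false

open Filter Topology Finset

namespace Pool.Agent.Lib.MP_a17b09_nt.PQ

open CH CH.PE MRSG MRS

namespace M9

theorem sq2 (x y : ℂ) : ‖x‖ ^ 2 ≤ 2 * ‖y‖ ^ 2 + 2 * ‖x - y‖ ^ 2 := by
  have h1 : ‖x‖ ≤ ‖y‖ + ‖x - y‖ := by
    calc ‖x‖ = ‖y + (x - y)‖ := by ring_nf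
      _ ≤ _ := norm_add_le _ _
  have h2 := norm_nonneg x
  nlinarith [sq_nonneg (‖y‖ - ‖x - y‖), norm_nonneg y, norm_nonneg (x - y)]

variable {d K : ℕ} [NeZero K]

open Classical in
/-- the exceptional vectors -/
noncomputable def EE (d : ℕ) (w w' : ℕ → ℂ) (r1 r2 N : ℝ) (i : Cl d) : Finset V :=
  ((Shg i (r1 * N) (r2 * N)).filter Prim).filter
      (fun v => w ((rep i).q v).natAbs ≠ w' ((rep i).q v).natAbs)

theorem diff_eq (w w' : ℕ → ℂ) (r1 r2 N : ℝ) (f : Fq d K) :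
    Mpw w r1 r2 N f - Mpw w' r1 r2 N f = (1 / (N : ℂ)) * ∑ i, ∑ v ∈ EE d w w' r1 r2 N i,
      (gw w (rep i) v - gw w' (rep i) v) * ch f i v := by
  classical
  unfold Mpw
  rw [← mul_sub, ← Finset.sum_sub_distrib]
  congr 1
  refine Finset.sum_congr rfl fun i _ => ?_
  rw [← Finset.sum_sub_distrib]
  symm
  unfold EE
  rw [Finset.sum_filter]
  refine Finset.sum_congr rfl fun v _ => ?_
  split_ifs with h
  · ring
  · push Not at h
    unfold gw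
    rw [h]
    ring

theorem diff_sum {C : ℝ} (hC : 0 < C) (hL : ∀ (X : ℝ) (J : ℕ), 1 ≤ X →
    ∀ S : Cl d → Finset V, (∀ i, ∀ v ∈ S i, Prim v ∧ ((rep i).q v : ℝ) ≤ X) →
    ∀ a : Cl d → V → ℂ, ∑ w ∈ SJ d K J, ‖∑ i, ∑ v ∈ S i, a i v * ch w i v‖ ^ 2 ≤
      C * (X + J) * ∑ i, ∑ v ∈ S i, ‖a i v‖ ^ 2) {w w' : ℕ → ℂ} (hw : B1 w) (hw' : B1 w')
    {r1 r2 N ε : ℝ} (hr2 : 0 < r2) (hN : 0 < N) (hN1 : 1 ≤ r2 * N) (J : ℕ) (hJ : (J : ℝ) ≤ N)
    (hE : ∀ i : Cl d, ((EE d w w' r1 r2 N i).card : ℝ) ≤ ε * N) :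
    ∑ f ∈ SJ d K J, ‖Mpw w r1 r2 N f - Mpw w' r1 r2 N f‖ ^ 2 ≤
      4 * C * (r2 + 1) * (Fintype.card (Cl d)) * ε := by
  classical
  have hS : ∀ i : Cl d, ∀ v ∈ EE d w w' r1 r2 N i, Prim v ∧ ((rep i).q v : ℝ) ≤ r2 * N := by
    intro i v hv
    unfold EE at hv
    rw [Finset.mem_filter, Finset.mem_filter, mem_Shg] at hv
    exact ⟨hv.1.2, hv.1.1.2.2⟩
  have h1 := hL (r2 * N) J hN1 (EE d w w' r1 r2 N) hS
    (fun i v => gw w (rep i) v - gw w' (rep i) v)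
  have h2 : ∑ i : Cl d, ∑ v ∈ EE d w w' r1 r2 N i, ‖gw w (rep i) v - gw w' (rep i) v‖ ^ 2 ≤
      4 * (Fintype.card (Cl d)) * (ε * N) := by
    calc ∑ i : Cl d, ∑ v ∈ EE d w w' r1 r2 N i, ‖gw w (rep i) v - gw w' (rep i) v‖ ^ 2
        ≤ ∑ _i : Cl d, 4 * (ε * N) := by
          refine Finset.sum_le_sum fun i _ => ?_
          calc ∑ v ∈ EE d w w' r1 r2 N i, ‖gw w (rep i) v - gw w' (rep i) v‖ ^ 2
              ≤ ∑ v ∈ EE d w w' r1 r2 N i, (4 : ℝ) := by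
                refine Finset.sum_le_sum fun v _ => ?_
                have h3 : ‖gw w (rep i) v - gw w' (rep i) v‖ ≤ 2 := by
                  refine (norm_sub_le _ _).trans ?_
                  have := hw ((rep i).q v).natAbs
                  have := hw' ((rep i).q v).natAbs
                  unfold gw
                  linarith
                nlinarith [norm_nonneg (gw w (rep i) v - gw w' (rep i) v)]
            _ = 4 * ((EE d w w' r1 r2 N i).card : ℝ) := by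
                rw [Finset.sum_const, nsmul_eq_mul]; ring
            _ ≤ 4 * (ε * N) := by
                have := hE i
                linarith
      _ = 4 * (Fintype.card (Cl d)) * (ε * N) := by
          rw [Finset.sum_const, nsmul_eq_mul, Finset.card_univ]; ring
  have h0 : (0 : ℝ) ≤ C * (r2 * N + J) := by positivity
  have h4 : ∑ f ∈ SJ d K J, ‖Mpw w r1 r2 N f - Mpw w' r1 r2 N f‖ ^ 2 =
      (1 / N ^ 2) * ∑ f ∈ SJ d K J, ‖∑ i, ∑ v ∈ EE d w w' r1 r2 N i,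
        (gw w (rep i) v - gw w' (rep i) v) * ch f i v‖ ^ 2 := by
    rw [Finset.mul_sum]
    refine Finset.sum_congr rfl fun f _ => ?_
    rw [diff_eq, norm_mul, mul_pow]
    congr 1
    rw [norm_div, norm_one, Complex.norm_real, Real.norm_of_nonneg hN.le, div_pow, one_pow]
  rw [h4]
  have h5 : C * (r2 * N + J) ≤ C * ((r2 + 1) * N) := by
    apply mul_le_mul_of_nonneg_left _ hC.le
    linarith
  have h6 : 0 ≤ 4 * (Fintype.card (Cl d) : ℝ) * (ε * N) :=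
    le_trans (Finset.sum_nonneg fun i _ => Finset.sum_nonneg fun v _ => by positivity) h2
  calc (1 / N ^ 2) * ∑ f ∈ SJ d K J, ‖∑ i, ∑ v ∈ EE d w w' r1 r2 N i,
        (gw w (rep i) v - gw w' (rep i) v) * ch f i v‖ ^ 2
      ≤ (1 / N ^ 2) * (C * ((r2 + 1) * N) * (4 * (Fintype.card (Cl d)) * (ε * N))) := by
        apply mul_le_mul_of_nonneg_left _ (by positivity)
        refine h1.trans ?_
        calc C * (r2 * N + J) * ∑ i, ∑ v ∈ EE d w w' r1 r2 N i,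
              ‖gw w (rep i) v - gw w' (rep i) v‖ ^ 2
            ≤ C * (r2 * N + J) * (4 * (Fintype.card (Cl d)) * (ε * N)) :=
              mul_le_mul_of_nonneg_left h2 h0
          _ ≤ _ := mul_le_mul_of_nonneg_right h5 h6
    _ = 4 * C * (r2 + 1) * (Fintype.card (Cl d)) * ε := by
        field_simp

end M9

open M9 in
theorem stSmall_79 (d : ℕ) (hCore : ∀ (K : ℕ) [NeZero K], StCoreW d K)
    (hLsp : ∀ (K : ℕ) [NeZero K], StLspG d K) : StSmall d := by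
  classical
  intro z hz c0 hc0 w hw hA hF K _ r1 r2 hr1 hr12 ε hε
  have hr2 : 0 < r2 := hr1.trans hr12
  obtain ⟨C, hC, hL⟩ := hLsp K
  set h : ℝ := (Fintype.card (Cl d) : ℝ) with hh
  have hh0 : 0 ≤ h := Nat.cast_nonneg _
  set ε' : ℝ := ε / (12 * (4 * C * (r2 + 1) * h + 1)) with hε'
  have hε'0 : 0 < ε' := by positivity
  have hη : 4 * C * (r2 + 1) * h * ε' ≤ ε / 12 := by
    rw [hε']
    have h1 : 0 ≤ 4 * C * (r2 + 1) * h := by positivity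
    rw [mul_div_assoc', div_le_div_iff₀ (by positivity) (by norm_num)]
    nlinarith
  obtain ⟨N1, hN1⟩ := hA r1 r2 hr1 hr12 ε' hε'0
  obtain ⟨H0, hH0, hcore⟩ := hCore K z hz c0 hc0 r1 r2 hr1 hr12 (ε / 8) (by positivity)
  have hf : ∀ᶠ N : ℝ in atTop,
      ∑ e : Fin (mm d K 0), ‖Mpw w r1 r2 N (⟨0, e⟩ : Fq d K)‖ ^ 2 < ε / 16 := by
    have h4 : Tendsto (fun N : ℝ => ∑ e : Fin (mm d K 0), ‖Mpw w r1 r2 N (⟨0, e⟩ : Fq d K)‖ ^ 2)
        atTop (𝓝 (∑ e : Fin (mm d K 0), (0 : ℝ))) := by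
      refine tendsto_finsetSum _ fun e _ => ?_
      have h5 := ((hF K r1 r2 hr1 hr12 e).norm).pow 2
      simpa using h5
    rw [Finset.sum_const_zero] at h4
    exact h4.eventually (gt_mem_nhds (by positivity))
  obtain ⟨N2, hN2⟩ := eventually_atTop.1 hf
  refine ⟨H0, hH0, fun H hH => ?_⟩
  obtain ⟨N3, hN3⟩ := hcore H hH
  refine ⟨max (max N1 N2) (max N3 (max 1 (1 / r2))), fun N hN => ?_⟩
  have ha : N1 ≤ N := ((le_max_left _ _).trans (le_max_left _ _)).trans hN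
  have hb : N2 ≤ N := ((le_max_right _ _).trans (le_max_left _ _)).trans hN
  have hc : N3 ≤ N := ((le_max_left _ _).trans (le_max_right _ _)).trans hN
  have hd : 1 ≤ N := ((le_max_left _ _).trans ((le_max_right _ _).trans (le_max_right _ _))).trans hN
  have he : 1 / r2 ≤ N :=
    ((le_max_right _ _).trans ((le_max_right _ _).trans (le_max_right _ _))).trans hN
  have hN0 : 0 < N := by linarith
  have hr2N : 1 ≤ r2 * N := by
    rw [div_le_iff₀ hr2] at he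
    linarith
  obtain ⟨w', hw', hE⟩ := hN1 N ha
  have hH1 : 1 ≤ H := hH0.trans hH
  have hJ : ((⌊N / H⌋₊ : ℕ) : ℝ) ≤ N := by
    refine (Nat.floor_le (by positivity)).trans ?_
    rw [div_le_iff₀ (by positivity)]
    nlinarith
  have hD := diff_sum (K := K) hC hL hw hw'.le hr2 hN0 hr2N ⌊N / H⌋₊ hJ hE
  have hD' : ∑ f ∈ SJ d K ⌊N / H⌋₊, ‖Mpw w r1 r2 N f - Mpw w' r1 r2 N f‖ ^ 2 ≤ ε / 12 :=
    hD.trans hη
  have hco := hN3 N hc w' hw'
  have hz0 := (hN2 N hb).le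
  -- frequency zero for the weight with the fixed window
  have h1 : ∑ e : Fin (mm d K 0), ‖Mpw w' r1 r2 N (⟨0, e⟩ : Fq d K)‖ ^ 2 ≤
      2 * (ε / 16) + 2 * (ε / 12) := by
    have h2 : ∑ e : Fin (mm d K 0), ‖Mpw w r1 r2 N (⟨0, e⟩ : Fq d K) -
        Mpw w' r1 r2 N (⟨0, e⟩ : Fq d K)‖ ^ 2 ≤ ε / 12 := by
      refine le_trans ?_ hD'
      have h3 : ∑ e : Fin (mm d K 0), ‖Mpw w r1 r2 N (⟨0, e⟩ : Fq d K) -
          Mpw w' r1 r2 N (⟨0, e⟩ : Fq d K)‖ ^ 2 =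
          ∑ f ∈ Finset.univ.image (fun e : Fin (mm d K 0) => (⟨0, e⟩ : Fq d K)),
            ‖Mpw w r1 r2 N f - Mpw w' r1 r2 N f‖ ^ 2 := by
        rw [Finset.sum_image]
        intro a _ b _ hab
        simpa using hab
      rw [h3]
      refine Finset.sum_le_sum_of_subset_of_nonneg ?_ fun _ _ _ => by positivity
      intro f hf
      obtain ⟨e, -, rfl⟩ := Finset.mem_image.1 hf
      rw [mem_SJ]
      constructor
      · have : (0 : ℤ) ≤ (⌊N / H⌋₊ : ℤ) := Int.natCast_nonneg _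
        show -((⌊N / H⌋₊ : ℕ) : ℤ) ≤ 0
        linarith
      · exact Int.natCast_nonneg _
    calc ∑ e : Fin (mm d K 0), ‖Mpw w' r1 r2 N (⟨0, e⟩ : Fq d K)‖ ^ 2
        ≤ ∑ e : Fin (mm d K 0), (2 * ‖Mpw w r1 r2 N (⟨0, e⟩ : Fq d K)‖ ^ 2 +
          2 * ‖Mpw w r1 r2 N (⟨0, e⟩ : Fq d K) - Mpw w' r1 r2 N (⟨0, e⟩ : Fq d K)‖ ^ 2) := by
          refine Finset.sum_le_sum fun e _ => ?_
          rw [norm_sub_rev]
          exact sq2 _ _
      _ = 2 * ∑ e : Fin (mm d K 0), ‖Mpw w r1 r2 N (⟨0, e⟩ : Fq d K)‖ ^ 2 +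
          2 * ∑ e : Fin (mm d K 0), ‖Mpw w r1 r2 N (⟨0, e⟩ : Fq d K) -
            Mpw w' r1 r2 N (⟨0, e⟩ : Fq d K)‖ ^ 2 := by
          rw [Finset.sum_add_distrib, ← Finset.mul_sum, ← Finset.mul_sum]
      _ ≤ _ := by linarith
  calc ∑ f ∈ SJ d K ⌊N / H⌋₊, ‖Mpw w r1 r2 N f‖ ^ 2
      ≤ ∑ f ∈ SJ d K ⌊N / H⌋₊, (2 * ‖Mpw w' r1 r2 N f‖ ^ 2 +
        2 * ‖Mpw w r1 r2 N f - Mpw w' r1 r2 N f‖ ^ 2) :=
        Finset.sum_le_sum fun f _ => sq2 _ _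
    _ = 2 * ∑ f ∈ SJ d K ⌊N / H⌋₊, ‖Mpw w' r1 r2 N f‖ ^ 2 +
        2 * ∑ f ∈ SJ d K ⌊N / H⌋₊, ‖Mpw w r1 r2 N f - Mpw w' r1 r2 N f‖ ^ 2 := by
        rw [Finset.sum_add_distrib, ← Finset.mul_sum, ← Finset.mul_sum]
    _ ≤ 2 * (ε / 8 + (2 * (ε / 16) + 2 * (ε / 12))) + 2 * (ε / 12) := by
        linarith
    _ ≤ ε := by linarith

end Pool.Agent.Lib.MP_a17b09_nt.PQ
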