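import Pool.Agent.Lib.MP_a17b09_nt.PQ.FreqOne12

/-!
PX (MP_a17b09_nt), row XF: frequency `0` for the vectors with a value divisible by a prime of each set
of a finite family of disjoint sets of split primes.  helper12.
-/

set_option autoImplicit false

open Filter Topology Finset

namespace Pool.Agent.Lib.MP_a17b09_nt.PQ.FreqX12

open CH CH.PE MRSG MRSG.ExpG12 MRSG.ShiftG12 Freq12

variable {d K : ℕ} [NeZero K] {ι : Type*}

/-- each set of the family contains a divisor -/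
def EvX (W : ι → Finset ℕ) (X : Finset ι) (n : ℤ) : Prop := ∀ j ∈ X, ∃ p ∈ W j, (p : ℤ) ∣ n

/-- the families in use -/
structure FamX (d K : ℕ) (X : Finset ι) (W : ι → Finset ℕ) (A B : ι → ℝ) : Prop where
  spl : ∀ j ∈ X, ∀ p ∈ W j, Spl d K p
  lo : ∀ j ∈ X, 0 < A j ∧ ∀ p ∈ W j, A j ≤ p
  hi : ∀ j ∈ X, 0 ≤ B j ∧ ∀ p ∈ W j, (p : ℝ) ≤ B j
  disj : ∀ i ∈ X, ∀ j ∈ X, i ≠ j → Disjoint (W i) (W j)

omit [NeZero K] in
/-- a number with the event and one more factor is large -/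
theorem big {X : Finset ι} {W : ι → Finset ℕ} {A B : ι → ℝ} (hF : FamX d K X W A B) {n : ℤ}
    (hn : 0 < n) (hE : EvX W X n) {m : ℤ} (hm : 0 < m) (hmn : m ∣ n)
    (hcop : ∀ j ∈ X, ∀ p ∈ W j, IsCoprime (p : ℤ) m) : (∏ j ∈ X, A j) * m ≤ n := by
  classical
  choose! f hf using hE
  have h1 : (∏ j ∈ X, (f j : ℤ)) ∣ n := by
    refine Finset.prod_dvd_of_coprime (fun i hi j hj hij => ?_) fun j hj => (hf j hj).2
    have hi' : i ∈ X := hi
    have hj' : j ∈ X := hj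
    have hne : f i ≠ f j := by
      intro h
      have h2 := hF.disj i hi' j hj' hij
      rw [Finset.disjoint_left] at h2
      exact h2 (hf i hi').1 (h ▸ (hf j hj').1)
    exact Nat.isCoprime_iff_coprime.2 ((Nat.coprime_primes (hF.spl i hi' _ (hf i hi').1).1
      (hF.spl j hj' _ (hf j hj').1).1).2 hne)
  have h2 : IsCoprime (∏ j ∈ X, (f j : ℤ)) m :=
    IsCoprime.prod_left fun j hj => hcop j hj _ (hf j hj).1
  have h3 := Int.le_of_dvd hn (h2.mul_dvd h1 hmn)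
  have h4 : (∏ j ∈ X, A j) ≤ ∏ j ∈ X, (f j : ℝ) :=
    prod_le_prod (fun j hj => (hF.lo j hj).1.le) fun j hj => (hF.lo j hj).2 _ (hf j hj).1
  have h5 : (0 : ℝ) < m := by exact_mod_cast hm
  calc (∏ j ∈ X, A j) * m ≤ (∏ j ∈ X, (f j : ℝ)) * m := mul_le_mul_of_nonneg_right h4 h5.le
    _ ≤ n := by exact_mod_cast h3

omit [NeZero K] in
open Classical in
/-- a vector with exactly one prime of the window, to the first power, is in exactly one image -/
theorem one_img' {W : Finset ℕ} (hW : ∀ p ∈ W, Spl d K p) (i : Cl d) {v : V}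
    (hex : ∃ p ∈ W, (p : ℤ) ∣ (rep i).q v)
    (hu : ∀ p ∈ W, ∀ p' ∈ W, (p : ℤ) ∣ (rep i).q v → (p' : ℤ) ∣ (rep i).q v → p = p')
    (hs : ∀ p ∈ W, ¬ (p : ℤ) * p ∣ (rep i).q v) :
    ∑ P ∈ W ×ˢ (univ : Finset Bool), (if Im (Mg d P i) v then (1 : ℂ) else 0) = 1 := by
  have hdvd : ∀ p ∈ W, ∀ b : Bool, Im (Mg d (p, b) i) v → (p : ℤ) ∣ (rep i).q v := by
    intro p hp b h
    have h1 : Adm d K (p, b) := hW p hp
    rw [im_iff h1 i v] at h
    exact (adm_dvd_iff h1 i).2 (Or.inl h)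
  rw [sum_product]
  obtain ⟨p, hp, hpd⟩ := hex
  have hpp := (hW p hp).1
  have huniq : ∀ p' ∈ W, p' ≠ p → ∑ y : Bool, (if Im (Mg d (p', y) i) v then (1 : ℂ) else 0) = 0 := by
    intro p' hp' hne
    refine sum_eq_zero fun y _ => if_neg fun h => ?_
    exact hne (hu p' hp' p hp (hdvd p' hp' y h) hpd)
  rw [sum_eq_single_of_mem p hp huniq, Fintype.sum_bool]
  have h1 : Adm d K (p, true) := hW p hp
  have h1' : Adm d K (p, false) := hW p hp
  have e1 := im_iff h1 i v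
  have e2 := im_iff h1' i v
  have hr : rg d (p, false) = -rg d (p, true) := rg_neg p true
  rw [hr] at e2
  simp only at e1 e2
  have hor := (adm_dvd_iff h1 i).1 hpd
  simp only at hor
  have hnb : ¬ (Eig (p : ℤ) (rg d (p, true)) (rep i) v ∧
      Eig (p : ℤ) (-rg d (p, true)) (rep i) v) := by
    intro h
    have h2 := (eig_both (Nat.prime_iff_prime_int.1 hpp) (rel_g h1 i).1).1 h
    obtain ⟨⟨x, hx⟩, ⟨y, hy⟩⟩ := h2
    have h3 : v = (p : ℤ) • ((x, y) : V) := by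
      apply Prod.ext
      · simp [hx]
      · simp [hy]
    have h4 : (rep i).q v = (p : ℤ) ^ 2 * (rep i).q (x, y) := by
      rw [h3, Form.q_smul]
    exact hs p hp ⟨(rep i).q (x, y), by rw [h4]; ring⟩
  rcases hor with h | h
  · have h2 : ¬ Im (Mg d (p, false) i) v := fun h3 => hnb ⟨h, e2.1 h3⟩
    rw [if_pos (e1.2 h), if_neg h2]
    norm_num
  · have h2 : ¬ Im (Mg d (p, true) i) v := fun h3 => hnb ⟨e1.1 h3, h⟩
    rw [if_neg h2, if_pos (e2.2 h)]
    norm_num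

/-- **the step identity** -/
theorem step_id {W : Finset ℕ} (hW : ∀ p ∈ W, Spl d K p) (r1 r2 N : ℝ) (w : Fq d K) (z : ℂ)
    (a a' : Cl d → V → ℂ)
    (h0 : ∀ i, ∀ v : V, v ≠ 0 → ((rep i).q v : ℝ) ≤ r2 * N → a i v ≠ 0 →
      (∃ p ∈ W, (p : ℤ) ∣ (rep i).q v) ∧
      (∀ p ∈ W, ∀ p' ∈ W, (p : ℤ) ∣ (rep i).q v → (p' : ℤ) ∣ (rep i).q v → p = p') ∧
      ∀ p ∈ W, ¬ (p : ℤ) * p ∣ (rep i).q v)
    (ha : ∀ P ∈ W ×ˢ (univ : Finset Bool), ∀ i, ∀ u : V, u ≠ 0 →
      a i ((Mg d P i).app u) = z * a' (sg d P i) u)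
    (hd : ∀ p ∈ W, ∀ i, ∀ u : V, u ≠ 0 → ((rep i).q u : ℝ) ≤ r2 * N / p → a' i u ≠ 0 →
      ¬ (p : ℤ) ∣ (rep i).q u) :
    Mpa a r1 r2 N w =
      ∑ P ∈ W ×ˢ (univ : Finset Bool), z * cw P w / (P.1 : ℂ) * Mpa a' r1 r2 (N / P.1) w := by
  classical
  have hadm : ∀ P ∈ W ×ˢ (univ : Finset Bool), Adm d K P := fun P hP =>
    hW P.1 (mem_product.1 hP).1
  have e1 : ∀ i : Cl d, ∑ v ∈ (Shg i (r1 * N) (r2 * N)).filter Prim, a i v * ch w i v =
      ∑ P ∈ W ×ˢ (univ : Finset Bool), ∑ u ∈ (Shg (sg d P i) (r1 * N / P.1) (r2 * N / P.1)).filter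
        Prim, z * cw P w * (a' (sg d P i) u * ch w (sg d P i) u) := by
    intro i
    have e2 : ∀ v ∈ (Shg i (r1 * N) (r2 * N)).filter Prim, a i v * ch w i v =
        ∑ P ∈ W ×ˢ (univ : Finset Bool), if Im (Mg d P i) v then a i v * ch w i v else 0 := by
      intro v hv
      have hv1 := mem_Shg.1 (mem_filter.1 hv).1
      by_cases hav : a i v = 0
      · simp [hav]
      · obtain ⟨k1, k2, k3⟩ := h0 i v hv1.1 hv1.2.2 hav
        have h1 := one_img' hW i k1 k2 k3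
        calc a i v * ch w i v = (∑ P ∈ W ×ˢ (univ : Finset Bool),
              (if Im (Mg d P i) v then (1 : ℂ) else 0)) * (a i v * ch w i v) := by
              rw [h1, one_mul]
          _ = _ := by
              rw [sum_mul]
              refine sum_congr rfl fun P _ => ?_
              split_ifs <;> simp
    rw [sum_congr rfl e2, sum_comm]
    refine sum_congr rfl fun P hP => ?_
    have hA := hadm P hP
    have hp0 : (0 : ℝ) < P.1 := by exact_mod_cast hA.1.pos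
    rw [sum_filter, sum_filter]
    have e3 : ∑ v ∈ Shg i (r1 * N) (r2 * N),
        (if Prim v then if Im (Mg d P i) v then a i v * ch w i v else 0 else 0) =
        ∑ v ∈ (Shg i (r1 * N) (r2 * N)).filter (fun v => Im (Mg d P i) v),
          (if Prim v then a i v * ch w i v else 0) := by
      rw [sum_filter]
      refine sum_congr rfl fun v _ => ?_
      split_ifs <;> simp
    rw [e3, sum_im hA i]
    refine sum_congr rfl fun u hu => ?_
    have hu1 := mem_Shg.1 hu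
    rw [ha P hP i u hu1.1, ch_M hA w i hu1.1]
    by_cases hau : a' (sg d P i) u = 0
    · simp [hau]
    have hnd := hd P.1 (mem_product.1 hP).1 (sg d P i) u hu1.1 hu1.2.2 hau
    have hne : ¬ Eig P.1 (-rg d P) (rep (sg d P i)) u := fun h =>
      hnd ((adm_dvd_iff hA (sg d P i)).2 (Or.inr h))
    have hpr : Prim ((Mg d P i).app u) ↔ Prim u := by
      rw [prim_app_iff hA i]
      exact ⟨fun h => h.1, fun h => ⟨h, hne⟩⟩
    by_cases hpu : Prim u
    · rw [if_pos (hpr.2 hpu), if_pos hpu]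
      ring
    · rw [if_neg (fun h => hpu (hpr.1 h)), if_neg hpu]
  unfold Mpa
  rw [sum_congr rfl fun i _ => e1 i, sum_comm, mul_sum]
  refine sum_congr rfl fun P hP => ?_
  have hA := hadm P hP
  have hp0 : (P.1 : ℂ) ≠ 0 := by exact_mod_cast hA.1.ne_zero
  have e4 : ∑ i, ∑ u ∈ (Shg (sg d P i) (r1 * N / P.1) (r2 * N / P.1)).filter Prim,
      z * cw P w * (a' (sg d P i) u * ch w (sg d P i) u) = z * cw P w *
      ∑ i, ∑ u ∈ (Shg i (r1 * N / P.1) (r2 * N / P.1)).filter Prim, a' i u * ch w i u := by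
    rw [← Equiv.sum_comp (sg d P) (fun i => ∑ u ∈ (Shg i (r1 * N / P.1) (r2 * N / P.1)).filter
      Prim, a' i u * ch w i u), mul_sum]
    refine sum_congr rfl fun i _ => ?_
    rw [mul_sum]
  rw [e4, ← mul_div_assoc, ← mul_div_assoc]
  push_cast
  by_cases hN : (N : ℂ) = 0
  · rw [hN]; simp
  · field_simp

/-- the coefficients -/
noncomputable def aX (z : ℂ) (W : ι → Finset ℕ) (X : Finset ι) (i : Cl d) (v : V) : ℂ := by
  classical
  exact if EvX W X ((rep i).q v) then gz z (rep i) v else 0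

/-- **the step identity for the family** -/
theorem step {X : Finset ι} {j : ι} (hj : j ∉ X) {W : ι → Finset ℕ} {A B : ι → ℝ} [DecidableEq ι]
    (hF : FamX d K (insert j X) W A B) (r1 r2 N : ℝ)
    (hb : ∀ l ∈ insert j X, r2 * N < (∏ i ∈ insert j X, A i) * A l) (w : Fq d K) (z : ℂ) :
    Mpa (aX z W (insert j X)) r1 r2 N w = ∑ P ∈ (W j) ×ˢ (univ : Finset Bool),
      z * cw P w / (P.1 : ℂ) * Mpa (aX z W X) r1 r2 (N / P.1) w := by
  classical
  have hjm : j ∈ insert j X := mem_insert_self _ _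
  have hX : FamX d K X W A B := ⟨fun i hi => hF.spl i (mem_insert_of_mem hi),
    fun i hi => hF.lo i (mem_insert_of_mem hi), fun i hi => hF.hi i (mem_insert_of_mem hi),
    fun i hi l hl => hF.disj i (mem_insert_of_mem hi) l (mem_insert_of_mem hl)⟩
  have hne : ∀ i ∈ X, ∀ p ∈ W i, ∀ p' ∈ W j, p ≠ p' := by
    intro i hi p hp p' hp' h
    have hij : i ≠ j := fun h => hj (h ▸ hi)
    have h1 := hF.disj i (mem_insert_of_mem hi) j hjm hij
    rw [Finset.disjoint_left] at h1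
    exact h1 hp (h ▸ hp')
  have hcp : ∀ i ∈ X, ∀ p ∈ W i, ∀ p' ∈ W j, IsCoprime (p : ℤ) (p' : ℤ) := by
    intro i hi p hp p' hp'
    exact Nat.isCoprime_iff_coprime.2 ((Nat.coprime_primes (hX.spl i hi p hp).1
      (hF.spl j hjm p' hp').1).2 (hne i hi p hp p' hp'))
  have hPA : 0 < ∏ i ∈ X, A i := prod_pos fun i hi => (hX.lo i hi).1
  have hbj := hb j hjm
  rw [prod_insert hj] at hbj
  have hAj := (hF.lo j hjm).1
  have hlt : ∀ p ∈ W j, ∀ p' ∈ W j, r2 * N < (∏ i ∈ X, A i) * ((p : ℝ) * p') := by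
    intro p hp p' hp'
    have h1 := (hF.lo j hjm).2 p hp
    have h2 := (hF.lo j hjm).2 p' hp'
    calc r2 * N < A j * (∏ i ∈ X, A i) * A j := hbj
      _ = (∏ i ∈ X, A i) * (A j * A j) := by ring
      _ ≤ (∏ i ∈ X, A i) * ((p : ℝ) * p') := by gcongr
  have hev : ∀ n : ℤ, EvX W (insert j X) n → EvX W X n := fun n h i hi =>
    h i (mem_insert_of_mem hi)
  have haX : ∀ (Y : Finset ι) (i : Cl d) (v : V), aX z W Y i v ≠ 0 → EvX W Y ((rep i).q v) := by
    intro Y i v h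
    by_contra h1
    unfold aX at h
    rw [if_neg h1] at h
    exact h rfl
  refine step_id (fun p hp => hF.spl j hjm p hp) r1 r2 N w z _ _ ?_ ?_ ?_
  · intro i v hv0 hv hav
    have hE := haX _ i v hav
    have hq := (rep_pos i).q_pos hv0
    refine ⟨hE j hjm, fun p hp p' hp' h1 h2 => ?_, fun p hp h1 => ?_⟩
    · by_contra h3
      have hc : IsCoprime (p : ℤ) (p' : ℤ) :=
        Nat.isCoprime_iff_coprime.2 ((Nat.coprime_primes (hF.spl j hjm p hp).1
          (hF.spl j hjm p' hp').1).2 h3)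
      have hm : (0 : ℤ) < (p : ℤ) * p' := by
        have := (hF.spl j hjm p hp).1.pos
        have := (hF.spl j hjm p' hp').1.pos
        positivity
      have h4 := big hX hq (hev _ hE) hm (hc.mul_dvd h1 h2) (fun l hl q hq' =>
        IsCoprime.mul_right (hcp l hl q hq' p hp) (hcp l hl q hq' p' hp'))
      have h5 := hlt p hp p' hp'
      push_cast at h4
      linarith
    · have hm : (0 : ℤ) < (p : ℤ) * p := by
        have := (hF.spl j hjm p hp).1.pos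
        positivity
      have h4 := big hX hq (hev _ hE) hm h1 (fun l hl q hq' =>
        IsCoprime.mul_right (hcp l hl q hq' p hp) (hcp l hl q hq' p hp))
      have h5 := hlt p hp p hp
      push_cast at h4
      linarith
  · intro P hP i u hu
    have hPj := (mem_product.1 hP).1
    have hA : Adm d K P := hF.spl j hjm P.1 hPj
    have hq : (rep i).q ((Mg d P i).app u) = (P.1 : ℤ) * (rep (sg d P i)).q u := by
      obtain ⟨-, R⟩ := rel_g hA i
      exact R.sim u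
    have hiff : EvX W (insert j X) ((rep i).q ((Mg d P i).app u)) ↔
        EvX W X ((rep (sg d P i)).q u) := by
      rw [hq]
      constructor
      · intro h l hl
        obtain ⟨p, hp, hpd⟩ := h l (mem_insert_of_mem hl)
        exact ⟨p, hp, (hcp l hl p hp P.1 hPj).dvd_of_dvd_mul_left hpd⟩
      · intro h l hl
        rcases mem_insert.1 hl with rfl | hl
        · exact ⟨P.1, hPj, dvd_mul_right _ _⟩
        · obtain ⟨p, hp, hpd⟩ := h l hl
          exact ⟨p, hp, dvd_mul_of_dvd_right hpd _⟩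
    unfold aX
    by_cases h : EvX W X ((rep (sg d P i)).q u)
    · rw [if_pos h, if_pos (hiff.2 h), gz_app hA z i hu]
    · rw [if_neg h, if_neg (fun h1 => h (hiff.1 h1)), mul_zero]
  · intro p hp i u hu hur hau hpd
    have hE := haX _ i u hau
    have hq := (rep_pos i).q_pos hu
    have hp0 : 0 < p := (hF.spl j hjm p hp).1.pos
    have h4 := big hX hq hE (show (0 : ℤ) < p by exact_mod_cast hp0) hpd
      (fun l hl q hq' => hcp l hl q hq' p hp)
    have h5 := hlt p hp p hp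
    have hp0' : (0 : ℝ) < p := by exact_mod_cast hp0
    rw [le_div_iff₀ hp0'] at hur
    push_cast at h4
    nlinarith [mul_le_mul_of_nonneg_right h4 hp0'.le]

omit [NeZero K] in
/-- the conditions pass to the smaller family -/
theorem step_cond {X : Finset ι} {j : ι} (hj : j ∉ X) {W : ι → Finset ℕ} {A B : ι → ℝ}
    [DecidableEq ι] (hF : FamX d K (insert j X) W A B) {r2 N X0 : ℝ} (hX0 : 0 ≤ X0)
    (hb : ∀ l ∈ insert j X, r2 * N < (∏ i ∈ insert j X, A i) * A l)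
    (hX : X0 * ∏ i ∈ insert j X, B i ≤ N) {p : ℕ} (hp : p ∈ W j) :
    FamX d K X W A B ∧ (∀ l ∈ X, r2 * (N / p) < (∏ i ∈ X, A i) * A l) ∧
      X0 * ∏ i ∈ X, B i ≤ N / p := by
  have hjm : j ∈ insert j X := mem_insert_self _ _
  have hp0 : (0 : ℝ) < p := by exact_mod_cast (hF.spl j hjm p hp).1.pos
  have hF' : FamX d K X W A B := ⟨fun i hi => hF.spl i (mem_insert_of_mem hi),
    fun i hi => hF.lo i (mem_insert_of_mem hi), fun i hi => hF.hi i (mem_insert_of_mem hi),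
    fun i hi l hl => hF.disj i (mem_insert_of_mem hi) l (mem_insert_of_mem hl)⟩
  refine ⟨hF', fun l hl => ?_, ?_⟩
  · have h1 := hb l (mem_insert_of_mem hl)
    rw [prod_insert hj] at h1
    have h2 := (hF.lo j hjm).2 p hp
    have h3 : 0 < ∏ i ∈ X, A i := prod_pos fun i hi => (hF'.lo i hi).1
    have h4 := (hF'.lo l hl).1
    rw [mul_div_assoc', div_lt_iff₀ hp0]
    calc r2 * N < A j * (∏ i ∈ X, A i) * A l := h1
      _ ≤ p * (∏ i ∈ X, A i) * A l := by gcongr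
      _ = (∏ i ∈ X, A i) * A l * p := by ring
  · rw [prod_insert hj] at hX
    rw [le_div_iff₀ hp0]
    have h2 := (hF.hi j hjm).2 p hp
    have h3 : 0 ≤ ∏ i ∈ X, B i := prod_nonneg fun i hi => (hF'.hi i hi).1
    calc X0 * (∏ i ∈ X, B i) * p ≤ X0 * (∏ i ∈ X, B i) * B j :=
          mul_le_mul_of_nonneg_left h2 (mul_nonneg hX0 h3)
      _ = X0 * (B j * ∏ i ∈ X, B i) := by ring
      _ ≤ N := hX

open Classical in
/-- **frequency `0`, `z ≠ 1`** -/
theorem freqX_ne (hP : StPw0G d K) (z : ℂ) (k : ℕ) (hk : 0 < k) (hzk : z ^ k = 1) (hz1 : z ≠ 1)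
    (r1 r2 : ℝ) (hr1 : 0 ≤ r1) (hr12 : r1 < r2) (w : Fq d K) (hw : w.1 = 0) (X : Finset ι) (ε : ℝ)
    (hε : 0 < ε) : ∃ X0 : ℝ, 1 ≤ X0 ∧ ∀ (N : ℝ) (W : ι → Finset ℕ) (A B : ι → ℝ),
    FamX d K X W A B → (∀ j ∈ X, r2 * N < (∏ i ∈ X, A i) * A j) → X0 * ∏ i ∈ X, B i ≤ N →
    ‖Mpa (fun i v => if EvX W X ((rep i).q v) then gz z (rep i) v else 0) r1 r2 N w‖ ≤
      ε * ∏ j ∈ X, ∑ p ∈ W j, 2 / (p : ℝ) := by
  have hz : ‖z‖ = 1 := Complex.norm_eq_one_of_pow_eq_one hzk hk.ne'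
  obtain ⟨X0, hX0⟩ := eventually_atTop.1
    ((tendsto_zero_iff_norm_tendsto_zero.1 (hP z k hk hzk hz1 r1 r2 hr1 hr12 w hw)).eventually
      (gt_mem_nhds hε))
  refine ⟨max X0 1, le_max_right _ _, fun N W A B => ?_⟩
  have hX1 : (0 : ℝ) ≤ max X0 1 := zero_le_one.trans (le_max_right _ _)
  have main : ∀ Y : Finset ι, ∀ N : ℝ, FamX d K Y W A B →
      (∀ j ∈ Y, r2 * N < (∏ i ∈ Y, A i) * A j) → max X0 1 * ∏ i ∈ Y, B i ≤ N →
      ‖Mpa (aX z W Y) r1 r2 N w‖ ≤ ε * ∏ j ∈ Y, ∑ p ∈ W j, 2 / (p : ℝ) := by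
    intro Y
    induction Y using Finset.induction_on with
    | empty =>
      intro N _ _ h
      rw [prod_empty, mul_one] at h ⊢
      have h2 := (hX0 N ((le_max_left _ _).trans h)).le
      have h3 : Mpa (aX z W (∅ : Finset ι)) r1 r2 N w = Mpg z r1 r2 N w := by
        have h4 : ∀ (i : Cl d) (v : V), aX z W (∅ : Finset ι) i v = gz z (rep i) v := by
          intro i v
          unfold aX
          rw [if_pos]
          intro j hj
          exact absurd hj (notMem_empty _)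
        unfold Mpa Mpg
        simp only [h4]
      rw [h3]
      exact h2
    | insert j Y hj ih =>
      intro N hF hb hX
      rw [step hj hF r1 r2 N hb w z, prod_insert hj]
      refine (norm_sum_le _ _).trans ?_
      rw [sum_product]
      have hS : 0 ≤ ∏ l ∈ Y, ∑ p ∈ W l, 2 / (p : ℝ) :=
        prod_nonneg fun l _ => sum_nonneg fun p _ => by positivity
      have key : ∀ p ∈ W j, ∀ b : Bool, ‖z * cw (p, b) w / (((p, b) : ℕ × Bool).1 : ℂ) *
          Mpa (aX z W Y) r1 r2 (N / ((p, b) : ℕ × Bool).1) w‖ ≤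
          1 / (p : ℝ) * (ε * ∏ l ∈ Y, ∑ p ∈ W l, 2 / (p : ℝ)) := by
        intro p hp b
        obtain ⟨c1, c2, c3⟩ := step_cond hj hF hX1 hb hX hp
        have h2 := ih (N / p) c1 c2 c3
        have hA : Adm d K (p, b) := hF.spl j (mem_insert_self _ _) p hp
        simp only
        rw [norm_mul, norm_div, norm_mul, hz, norm_cw hA, Complex.norm_natCast, one_mul]
        exact mul_le_mul_of_nonneg_left h2 (by positivity)
      calc ∑ p ∈ W j, ∑ b : Bool, ‖z * cw (p, b) w / (((p, b) : ℕ × Bool).1 : ℂ) *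
            Mpa (aX z W Y) r1 r2 (N / ((p, b) : ℕ × Bool).1) w‖
          ≤ ∑ p ∈ W j, 2 / (p : ℝ) * (ε * ∏ l ∈ Y, ∑ p ∈ W l, 2 / (p : ℝ)) := by
            refine sum_le_sum fun p hp => ?_
            rw [Fintype.sum_bool]
            calc _ ≤ 1 / (p : ℝ) * (ε * ∏ l ∈ Y, ∑ p ∈ W l, 2 / (p : ℝ)) +
                  1 / (p : ℝ) * (ε * ∏ l ∈ Y, ∑ p ∈ W l, 2 / (p : ℝ)) :=
                  add_le_add (key p hp true) (key p hp false)
              _ = _ := by ring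
        _ = ε * ((∑ p ∈ W j, 2 / (p : ℝ)) * ∏ l ∈ Y, ∑ p ∈ W l, 2 / (p : ℝ)) := by
            rw [← sum_mul]
            ring
  intro hF hb hX
  exact main X N hF hb hX

theorem main_one (r1 r2 : ℝ) (hr1 : 0 ≤ r1) (hr12 : r1 < r2) (k : Fin (mm d K 0)) (ε : ℝ)
    (hε : 0 < ε) : ∃ N0 : ℝ, 1 ≤ N0 ∧ ∀ (W : ι → Finset ℕ) (A B : ι → ℝ) (E : ℕ) (Y : Finset ι)
    (N : ℝ), FamX d K Y W A B → (∀ j ∈ Y, r2 * N < (∏ i ∈ Y, A i) * A j) →
    N0 * ∏ i ∈ Y, B i ≤ N → r2 * N ≤ E →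
    ‖Mpa (aX 1 W Y) r1 r2 N (⟨0, k⟩ : Fq d K) - ((∏ j ∈ Y, ∑ p ∈ W j, 2 / (p : ℝ) : ℝ) : ℂ) *
      LE k r1 r2 E‖ ≤ ε * ∏ j ∈ Y, ∑ p ∈ W j, 2 / (p : ℝ) := by
  classical
  have hr2 : 0 < r2 := lt_of_le_of_lt hr1 hr12
  obtain ⟨N0, hN0, H⟩ := prim_approx (d := d) (K := K) r1 r2 hr1 hr12 k ε hε
  refine ⟨max N0 1, le_max_right _ _, fun W A B E Y => ?_⟩
  have hX1 : (0 : ℝ) ≤ max N0 1 := zero_le_one.trans (le_max_right _ _)
  induction Y using Finset.induction_on with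
  | empty =>
    intro N _ _ h hE
    rw [prod_empty, mul_one] at h ⊢
    have h2 := H N ((le_max_left _ _).trans h) E hE
    have h3 : Mpa (aX 1 W (∅ : Finset ι)) r1 r2 N (⟨0, k⟩ : Fq d K) =
        Mpa (fun _ _ => 1) r1 r2 N (⟨0, k⟩ : Fq d K) := by
      have h4 : ∀ (i : Cl d) (v : V), aX 1 W (∅ : Finset ι) i v = 1 := by
        intro i v
        unfold aX gz
        rw [if_pos, one_pow]
        intro j hj
        exact absurd hj (notMem_empty _)
      unfold Mpa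
      simp only [h4]
    rw [h3, Complex.ofReal_one, one_mul]
    exact h2
  | insert j Y hj ih =>
    intro N hF hb hX hE
    have hS : 0 ≤ ∏ l ∈ Y, ∑ p ∈ W l, 2 / (p : ℝ) :=
      prod_nonneg fun l _ => sum_nonneg fun p _ => by positivity
    set c : ℝ := ∏ l ∈ Y, ∑ p ∈ W l, 2 / (p : ℝ) with hc
    rw [step hj hF r1 r2 N hb _ 1, prod_insert hj, ← hc, sum_product]
    have e1 : (((∑ p ∈ W j, 2 / (p : ℝ)) * c : ℝ) : ℂ) * LE k r1 r2 E =
        ∑ p ∈ W j, 2 / (p : ℂ) * (c * LE k r1 r2 E) := by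
      push_cast
      rw [sum_mul, sum_mul]
      exact sum_congr rfl fun p _ => by ring
    rw [e1, ← sum_sub_distrib]
    refine (norm_sum_le _ _).trans ?_
    have e2 : ε * ((∑ p ∈ W j, 2 / (p : ℝ)) * c) = ∑ p ∈ W j, 1 / (p : ℝ) * (ε * c + ε * c) := by
      rw [sum_mul, mul_sum]
      exact sum_congr rfl fun p _ => by ring
    rw [e2]
    refine sum_le_sum fun p hp => ?_
    obtain ⟨c1, c2, c3⟩ := step_cond hj hF hX1 hb hX hp
    have hp1 : 1 ≤ (p : ℝ) := by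
      exact_mod_cast (hF.spl j (mem_insert_self _ _) p hp).1.one_lt.le
    have hp0 : (0 : ℝ) < p := by linarith
    have hB : 0 ≤ ∏ i ∈ Y, B i := prod_nonneg fun i hi => (c1.hi i hi).1
    have hNp : 0 ≤ N / p := (mul_nonneg hX1 hB).trans c3
    have hN : 0 ≤ N := by
      have := mul_nonneg hNp hp0.le
      rwa [div_mul_cancel₀ _ hp0.ne'] at this
    have hE2 : r2 * (N / p) ≤ E := (mul_le_mul_of_nonneg_left (div_le_self hN hp1) hr2.le).trans hE
    have h2 := ih (N / p) c1 c2 c3 hE2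
    have key : ∀ b : Bool, ‖cw (p, b) (⟨0, k⟩ : Fq d K) * Mpa (aX 1 W Y) r1 r2 (N / p)
        (⟨0, k⟩ : Fq d K) - c * LE k r1 r2 E‖ ≤ ε * c := by
      intro b
      have hA : Adm d K (p, b) := hF.spl j (mem_insert_self _ _) p hp
      have e3 : cw (p, b) (⟨0, k⟩ : Fq d K) * Mpa (aX 1 W Y) r1 r2 (N / p) (⟨0, k⟩ : Fq d K) -
          c * LE k r1 r2 E = cw (p, b) (⟨0, k⟩ : Fq d K) * (Mpa (aX 1 W Y) r1 r2 (N / p)
          (⟨0, k⟩ : Fq d K) - c * LE k r1 r2 E) := by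
        conv_lhs => rw [← LE_inv k r1 r2 E hA]
        ring
      rw [e3, norm_mul, norm_cw hA, one_mul]
      exact h2
    have e4 : ∑ y : Bool, 1 * cw (p, y) (⟨0, k⟩ : Fq d K) / (((p, y) : ℕ × Bool).1 : ℂ) *
        Mpa (aX 1 W Y) r1 r2 (N / (((p, y) : ℕ × Bool).1 : ℝ)) (⟨0, k⟩ : Fq d K) -
        2 / (p : ℂ) * (c * LE k r1 r2 E) = 1 / (p : ℂ) *
        ((cw (p, true) (⟨0, k⟩ : Fq d K) * Mpa (aX 1 W Y) r1 r2 (N / p) (⟨0, k⟩ : Fq d K) -
          c * LE k r1 r2 E) + (cw (p, false) (⟨0, k⟩ : Fq d K) * Mpa (aX 1 W Y) r1 r2 (N / p)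
          (⟨0, k⟩ : Fq d K) - c * LE k r1 r2 E)) := by
      rw [Fintype.sum_bool]
      simp only
      ring
    rw [e4, norm_mul, norm_div, norm_one, Complex.norm_natCast]
    exact mul_le_mul_of_nonneg_left ((norm_add_le _ _).trans (add_le_add (key true) (key false)))
      (by positivity)

open Classical in
/-- **frequency `0`, `z = 1`** -/
theorem freqX_one (r1 r2 : ℝ) (hr1 : 0 ≤ r1) (hr12 : r1 < r2) (w : Fq d K) (hw : w.1 = 0)
    (X : Finset ι) (ε : ℝ) (hε : 0 < ε) : ∃ X0 : ℝ, 1 ≤ X0 ∧ ∀ (N : ℝ) (W : ι → Finset ℕ)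
    (A B : ι → ℝ), FamX d K X W A B → (∀ j ∈ X, r2 * N < (∏ i ∈ X, A i) * A j) →
    X0 * ∏ i ∈ X, B i ≤ N → X0 ≤ N →
    ‖Mpa (fun i v => (if EvX W X ((rep i).q v) then (1 : ℂ) else 0) -
      ((∏ j ∈ X, ∑ p ∈ W j, 2 / (p : ℝ) : ℝ) : ℂ)) r1 r2 N w‖ ≤
      ε * ∏ j ∈ X, ∑ p ∈ W j, 2 / (p : ℝ) := by
  obtain ⟨j, k⟩ := w
  have hj : j = 0 := hw
  subst hj
  obtain ⟨N0, hN0, H⟩ := main_one (ι := ι) (d := d) (K := K) r1 r2 hr1 hr12 k (ε / 2) (by positivity)
  obtain ⟨N1, hN1, H1⟩ := prim_approx (d := d) (K := K) r1 r2 hr1 hr12 k (ε / 2) (by positivity)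
  refine ⟨max N0 N1, hN0.trans (le_max_left _ _), fun N W A B hF hb hX hXN => ?_⟩
  set E : ℕ := ⌈r2 * N⌉₊ with hE
  have hE1 : r2 * N ≤ E := Nat.le_ceil _
  have hB : 0 ≤ ∏ i ∈ X, B i := prod_nonneg fun i hi => (hF.hi i hi).1
  have h1 := H W A B E X N hF hb
    ((mul_le_mul_of_nonneg_right (le_max_left _ _) hB).trans hX) hE1
  have h2 := H1 N ((le_max_right _ _).trans hXN) E hE1
  have hS : 0 ≤ ∏ l ∈ X, ∑ p ∈ W l, 2 / (p : ℝ) :=
    prod_nonneg fun l _ => sum_nonneg fun p _ => by positivity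
  set c : ℝ := ∏ l ∈ X, ∑ p ∈ W l, 2 / (p : ℝ) with hc
  have e1 : Mpa (fun i v => (if EvX W X ((rep i).q v) then (1 : ℂ) else 0) - (c : ℂ)) r1 r2 N
      (⟨0, k⟩ : Fq d K) = (Mpa (aX 1 W X) r1 r2 N (⟨0, k⟩ : Fq d K) - c * LE k r1 r2 E) -
      c * (Mpa (fun _ _ => 1) r1 r2 N (⟨0, k⟩ : Fq d K) - LE k r1 r2 E) := by
    have e2 : Mpa (fun i v => (if EvX W X ((rep i).q v) then (1 : ℂ) else 0) - (c : ℂ)) r1 r2 N
        (⟨0, k⟩ : Fq d K) = Mpa (aX 1 W X) r1 r2 N (⟨0, k⟩ : Fq d K) -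
        c * Mpa (fun _ _ => 1) r1 r2 N (⟨0, k⟩ : Fq d K) := by
      unfold Mpa
      rw [← mul_assoc, mul_comm (c : ℂ) (1 / (N : ℂ)), mul_assoc, ← mul_sub]
      congr 1
      rw [mul_sum, ← sum_sub_distrib]
      refine sum_congr rfl fun i _ => ?_
      rw [mul_sum, ← sum_sub_distrib]
      refine sum_congr rfl fun v _ => ?_
      unfold aX gz
      rw [one_pow]
      ring
    rw [e2]
    ring
  rw [e1]
  refine (norm_sub_le _ _).trans ?_
  rw [norm_mul, Complex.norm_real, Real.norm_of_nonneg hS]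
  have h3 := mul_le_mul_of_nonneg_left h2 hS
  linarith

end Pool.Agent.Lib.MP_a17b09_nt.PQ.FreqX12
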