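import Pool.Agent.Lib.MP_a17b09_nt.PQ.X56_42
import Pool.Agent.Lib.MP_a17b09_nt.PQ.FreqX12
import Pool.Agent.Lib.MP_a17b09_nt.PQ.X1_7

/-!
PX (MP_a17b09_nt), rows X5 and X6, closed with the generic frequency `0` of helper12.  helper42.
-/

set_option autoImplicit false

namespace Pool.Agent.Lib.MP_a17b09_nt.PQ

open CH CH.PE MRSG MRS

theorem fx1_42 (d K : ℕ) [NeZero K] : F42X.FX1 d K := by
  intro r1 r2 hr1 hr12 f hf X ε hε
  obtain ⟨X0, h1, h2⟩ := FreqX12.freqX_one r1 r2 hr1 hr12 f hf X ε hε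
  refine ⟨X0, h1, fun N W A B a1 a2 a3 a4 a5 a6 a7 => ?_⟩
  have h3 := h2 N W A B ⟨a1, a2, a3, a4⟩ a5 a6 a7
  unfold FreqX12.EvX at h3
  convert h3

theorem fxN_42 (d K : ℕ) [NeZero K] (hP : StPw0G d K) : F42X.FXN d K := by
  intro z k hk hzk hz1 r1 r2 hr1 hr12 f hf X ε hε
  obtain ⟨X0, h1, h2⟩ := FreqX12.freqX_ne hP z k hk hzk hz1 r1 r2 hr1 hr12 f hf X ε hε
  refine ⟨X0, h1, fun N W A B a1 a2 a3 a4 a5 a6 _ => ?_⟩
  have h3 := h2 N W A B ⟨a1, a2, a3, a4⟩ a5 a6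
  unfold FreqX12.EvX at h3
  convert h3

/-- **(X5)** -/
theorem stFrRX_42 (d : ℕ) (hNull : StNull d) : StFrRX d :=
  stFrRX_of d hNull stWinI_7 fun K _ => fx1_42 d K

/-- **(X6)** -/
theorem stFrZX_42 (d : ℕ) (hP : ∀ (K : ℕ) [NeZero K], StPw0G d K) (hNull : StNull d) :
    StFrZX d :=
  stFrZX_of d hNull stWinI_7 fun K _ => fxN_42 d K (hP K)

/-- **(X5)**, all inputs closed -/
theorem stFrRX_all42 (d : ℕ) : StFrRX d := stFrRX_42 d (stNull_22 d)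

end Pool.Agent.Lib.MP_a17b09_nt.PQ
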