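import Pool.Agent.Lib.MP_a17b09_nt.PQ.X8_64
import Pool.Agent.Lib.MP_a17b09_nt.HY.EndH20

/-!
Project PX, module X9 (helper64, fork of T4_64): the pairs with the windows `X` and `Y`.
`pairsX_core` is for one polynomial of any sign of the discriminant.
-/

set_option autoImplicit false

open Filter Topology Finset

namespace Pool.Agent.Lib.MP_a17b09_nt.PQ

open CH CH.PE HY

/-- the pairs for one polynomial -/
theorem pairsX_core {a b c : ℤ} (hf : ∀ t : ℕ, fv a b c t ≠ 0) (q h t₀ : ℕ) (α β : ℝ) {κ : ℝ}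
    (hκ : 0 < κ)
    (hlim : Tendsto (fun N : ℕ => (CST a b c α β h t₀ 1 0 0 N : ℝ) / N) atTop (𝓝 κ))
    (hρ : ∀ X : Finset (ℝ × ℝ), GoodX X → 0 < rhoX q X) (hU : StMeanU) (hMean : StMean)
    (hF : ∀ X Y : Finset (ℝ × ℝ), GoodX X → GoodX Y → ∀ k : ℕ, 0 < k → ∀ r s : ℕ, ∀ M : LMean,
      M.E (fun N : ℕ => |(CWX a b c α β h t₀ q X Y k r s N : ℝ) / N -
        rhoX q X * rhoX q Y * κ / k ^ 2|) = 0) : PairsX a b c q h t₀ α β := by
  classical
  have e0 : ∀ N : ℕ, pairCount a b c h t₀ α β (fun _ _ => True) N =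
      CST a b c α β h t₀ 1 0 0 N := by
    intro N
    unfold pairCount CST
    apply Finset.sum_congr rfl
    intro t _
    rw [EndH20.ncard_eq (hf t) α β (fun _ => True)]
    congr 1
    apply Finset.filter_congr
    intro d _
    exact ⟨fun _ => ⟨Nat.modEq_one, Nat.modEq_one⟩, fun _ => trivial⟩
  refine ⟨κ, hκ, by simpa only [e0] using hlim, fun X Y hX hY k hk r s => ?_⟩
  have hρX := hρ X hX
  have hρY := hρ Y hY
  obtain ⟨C, hC0, hC⟩ := T64.lin_of_lim hlim
  have hk' : (0 : ℝ) < k := by exact_mod_cast hk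
  have hfin := EndJ90.final hU hMean a b c h t₀ α β (fun t d => WinX q X d ∧
      WinX q Y (a.natAbs * ((fv a b c t).natAbs / d)) ∧ Omn d ≡ r [MOD k] ∧
      Omn ((fv a b c t).natAbs / d) ≡ s [MOD k]) (CWX a b c α β h t₀ q X Y k r s) (fun N => by
        unfold pairCount CWX
        refine Finset.sum_congr rfl fun t _ => ?_
        exact EndH20.ncard_eq (hf t) α β _)
      (κ := rhoX q X * rhoX q Y * κ / k ^ 2) (by positivity)
      (T64.bdd_of_le hC0 (fun N => Nat.cast_nonneg _) fun N => by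
        refine le_trans ?_ (hC N)
        have h1 : CWX a b c α β h t₀ q X Y k r s N ≤ CST a b c α β h t₀ 1 0 0 N := by
          refine le_trans ?_ (X64.NX_le a b c α β h t₀ q X Y N)
          rw [X64.CWX_eq]
          exact Finset.sum_le_sum fun t _ => Finset.card_filter_le _ _
        exact_mod_cast h1)
      (fun M => hF X Y hX hY k hk r s M)
  exact ⟨hfin.1, hfin.2.1⟩

/-- (X9) the pairs, negative discriminant -/
theorem stEndX_64 (hF : StFinX) (hMain : StMainS) (hU : StMeanU) (hMean : StMean)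
    (hR : StRhoX) : StEndX := by
  intro a b c ha hD q hq h t₀ hh α β hα hαβ
  obtain ⟨κ, hκ, hlim⟩ := hMain a b c ha hD h hh t₀ α β hα hαβ
  have hq3 : 3 ≤ q := by
    have : (3 : ℤ) ≤ q := by rw [hq]; omega
    exact_mod_cast this
  exact pairsX_core (fun t => (EndF64.fv_pos ha hD t).ne') q h t₀ α β hκ hlim
    (fun X hX => (hR q hq3 X hX).1) hU hMean (fun X Y hX hY k hk r s M =>
      hF a b c ha hD q hq X Y hX hY h hh t₀ α β hα hαβ κ hκ hlim k hk r s M)

end Pool.Agent.Lib.MP_a17b09_nt.PQ
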