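import Pool.Agent.Lib.MP_a17b09_nt.PQ.X7_64
import Pool.Agent.Lib.MP_a17b09_nt.PQ.X9_64
import Pool.Agent.Lib.MP_a17b09_nt.PQ.X3_11
import Pool.Agent.Lib.MP_a17b09_nt.PQ.X4_7
import Pool.Agent.Lib.MP_a17b09_nt.PQ.X56c_42
import Pool.Agent.Lib.MP_a17b09_nt.PQ.M1_22
import Pool.Agent.Lib.MP_a17b09_nt.PQ.M2_21
import Pool.Agent.Lib.MP_a17b09_nt.PQ.M3_21
import Pool.Agent.Lib.MP_a17b09_nt.PQ.M3b_11
import Pool.Agent.Lib.MP_a17b09_nt.PQ.M4_38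
import Pool.Agent.Lib.MP_a17b09_nt.PQ.M5_12
import Pool.Agent.Lib.MP_a17b09_nt.PQ.M6_39
import Pool.Agent.Lib.MP_a17b09_nt.PQ.M7_9
import Pool.Agent.Lib.MP_a17b09_nt.PQ.M8_12
import Pool.Agent.Lib.MP_a17b09_nt.PQ.M9_79
import Pool.Agent.Lib.MP_a17b09_nt.PQ.M10_90
import Pool.Agent.Lib.MP_a17b09_nt.PQ.N1_22
import Pool.Agent.Lib.MP_a17b09_nt.PQ.E2_20
import Pool.Agent.Lib.MP_a17b09_nt.PQ.E3_28
import Pool.Agent.Lib.MP_a17b09_nt.PQ.AmW98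
import Pool.Agent.Lib.MP_a17b09_nt.PQ.TwW98
import Pool.Agent.Lib.MP_a17b09_nt.MRSG.TopM90
import Pool.Agent.Lib.MP_a17b09_nt.CH.TopS64
import Pool.Agent.Lib.MP_a17b09_nt.HY.TopH20

/-!
Project PX: the pairs with the windows `X`, `Y`, negative discriminant, without hypotheses.
-/

set_option autoImplicit false

open Filter Topology

namespace Pool.Agent.Lib.MP_a17b09_nt.PQ

open CH CH.PE MRSG

theorem stLevW_all79 {d : ℕ} (hd : 0 < d) (K : ℕ) [NeZero K] : StLevW d K :=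
  stLevW_38 stSchW_11 Dec21.stDecW_21 (stMomW_21 (stLsG_29 d K)) (stMom1G_16 (stLsG_29 d K))
    (stMerG_7 d K hd)

theorem stUpW_all79 (d K : ℕ) [NeZero K] : StUpW d K :=
  stUpW_9 d K (stUallW_39 d K (stTkhW_12 d K) (stDjG_40 d K)) (stHmuG_96 d K) stParW_22

theorem stMrsW_all79 {d : ℕ} (hd : 0 < d) : StMrsW d :=
  stMrsW_90 (stSmall_79 d (fun K _ => stCoreW_12 d K (stLevW_all79 hd K) (stUpW_all79 d K))
    (fun K _ => stLspG_29 d K)) (fun _ _ => stParW_22)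

theorem stTwBX_all79 : StTwBX :=
  stTwBX_64 (fun _ hd => stMrsW_all79 hd) (fun d _ => stApxX_11 d (stNull_22 d) stRhoX_11)
    (stDilNX_7 fun d => stNull_22 d) (fun d _ => stFrRX_all42 d)
    (fun d _ => stFrZX_42 d (fun K _ => stPw0G_all90 d K) (stNull_22 d)) stEsW_all20
    (stAmW_98 stDilsW_all28) stTwW_98 stRhoX_11 F64.stMainS_all

/-- the pairs with the windows `X`, `Y`, negative discriminant -/
theorem stEndX_all79 : StEndX :=
  stEndX_64 (stFinX_64 stTwBX_all79) F64.stMainS_all stMeanU_70 stMean_70 stRhoX_11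

end Pool.Agent.Lib.MP_a17b09_nt.PQ
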