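import Pool.Agent.Lib.MP_a17b09_nt.PQ.WinChoice96
import Pool.Agent.Lib.MP_a17b09_nt.PQ.T4_64

/-!
Project PX, module X10 (helper96): from the pairs to the arguments `t`, patterns of prime factors.
-/

set_option autoImplicit false

open Filter Topology Finset

namespace Pool.Agent.Lib.MP_a17b09_nt.PQ

open CH CH.PE

namespace X96

/-- different primes which divide `n` -/
theorem prod_dvd {m : ℕ} {n : ℕ} (p : Fin m → ℕ) (hp : ∀ i, (p i).Prime)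
    (hinj : Function.Injective p) (hd : ∀ i, p i ∣ n) : (∏ i, p i) ∣ n := by
  apply Finset.prod_dvd_of_isRelPrime
  · intro i _ j _ hij
    rw [Function.onFun, ← Nat.coprime_iff_isRelPrime]
    exact (Nat.coprime_primes (hp i) (hp j)).2 fun h => hij (hinj h)
  · intro i _
    exact hd i

/-- primes in different windows are different -/
theorem inj_of {m : ℕ} {n : ℝ} (hn : 1 ≤ n) (I : Fin m → ℝ × ℝ) (hI : Function.Injective I)
    (hX : GoodX (Finset.univ.image I)) (p : Fin m → ℕ)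
    (h1 : ∀ i, n ^ (I i).1 < p i) (h2 : ∀ i, (p i : ℝ) ≤ n ^ (I i).2) :
    Function.Injective p := by
  intro i j hij
  by_contra hne
  have hd := hX.disj (I i) (Finset.mem_image_of_mem _ (Finset.mem_univ _)) (I j)
    (Finset.mem_image_of_mem _ (Finset.mem_univ _)) fun h => hne (hI h)
  rcases hd with h | h
  · have h3 := (h2 i).trans (Real.rpow_le_rpow_of_exponent_le hn h)
    have h4 := h1 j
    rw [← hij] at h4
    linarith
  · have h3 := (h2 j).trans (Real.rpow_le_rpow_of_exponent_le hn h)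
    have h4 := h1 i
    rw [hij] at h4
    linarith

/-- the product of the primes is large -/
theorem prod_ge {m : ℕ} {n : ℝ} (hn : 0 < n) (I : Fin m → ℝ × ℝ) (p : Fin m → ℕ)
    (h1 : ∀ i, n ^ (I i).1 < p i) : n ^ (∑ i, (I i).1) ≤ ((∏ i, p i : ℕ) : ℝ) := by
  rw [Real.rpow_sum_of_pos hn]
  push_cast
  exact Finset.prod_le_prod (fun i _ => Real.rpow_nonneg hn.le _) fun i _ => (h1 i).le

private lemma x10_low52 {t a b c bn cn : ℝ} (ht : 4 ≤ t) (ha : 1 ≤ a) (hb : -bn ≤ b)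
    (hc : -cn ≤ c) (hcn : 0 ≤ cn) (h : 2 * (bn + cn) + 4 ≤ t) :
    t ^ 2 / 2 ≤ a * t ^ 2 + b * t + c := by
  have htp : 0 < t := lt_of_lt_of_le (by norm_num) ht
  have ht1 : 1 ≤ t := le_trans (by norm_num) ht
  have h3 : -(bn * t) ≤ b * t := by
    rw [← neg_mul]
    exact mul_le_mul_of_nonneg_right hb htp.le
  have h4 : -(cn * t) ≤ c := le_trans (neg_le_neg (le_mul_of_one_le_right hcn ht1)) hc
  have h5 : 1 * t ^ 2 ≤ a * t ^ 2 := mul_le_mul_of_nonneg_right ha (sq_nonneg t)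
  have h6 : (2 * (bn + cn) + 4) * t ≤ t * t := mul_le_mul_of_nonneg_right h htp.le
  have h7 : t * t = t ^ 2 := (sq t).symm
  have h8 : 0 < 4 * t := mul_pos four_pos htp
  linarith

private lemma x10_up52 {t a b c an bn cn : ℝ} (ht : 1 ≤ t) (ha : a ≤ an) (hb : b ≤ bn)
    (hc : c ≤ cn) (hbn : 0 ≤ bn) (hcn : 0 ≤ cn) :
    a * t ^ 2 + b * t + c ≤ (an + bn + cn) * t ^ 2 := by
  have htp : 0 ≤ t := le_trans zero_le_one ht
  have htt : t ≤ t ^ 2 := le_self_pow₀ ht two_ne_zero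
  have htt1 : 1 ≤ t ^ 2 := one_le_pow₀ ht
  have h3 : b * t ≤ bn * t ^ 2 :=
    (mul_le_mul_of_nonneg_right hb htp).trans (mul_le_mul_of_nonneg_left htt hbn)
  have h4 : c ≤ cn * t ^ 2 := hc.trans (le_mul_of_one_le_right hcn htt1)
  have h5 : a * t ^ 2 ≤ an * t ^ 2 := mul_le_mul_of_nonneg_right ha (sq_nonneg _)
  linarith

private lemma x10_e52 {t d e F B : ℝ} (htp : 0 < t) (he : 0 ≤ e) (hd1 : t ≤ d)
    (hd2 : d ≤ 2 * t) (hF : F = d * e) (hlow : t ^ 2 / 2 ≤ F) (hup : F ≤ B * t ^ 2) :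
    t / 4 ≤ e ∧ e ≤ B * t := by
  constructor
  · have h3 : t ^ 2 / 2 ≤ 2 * t * e :=
      hlow.trans (hF.le.trans (mul_le_mul_of_nonneg_right hd2 he))
    have h4 : t * (t / 4) ≤ t * e := by
      have h5 : t * (t / 4) = t ^ 2 / 2 / 2 := by ring
      rw [h5]
      linarith
    exact le_of_mul_le_mul_left h4 htp
  · have h3 : t * e ≤ t * (B * t) := by
      calc t * e ≤ d * e := mul_le_mul_of_nonneg_right hd1 he
        _ = F := hF.symm
        _ ≤ B * t ^ 2 := hup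
        _ = t * (B * t) := by ring
    exact le_of_mul_le_mul_left h3 htp

private lemma x10_q52 {t : ℝ} (htp : 0 < t) : ∀ s : ℝ, 0 ≤ s → s ≤ 1 → t ^ s / 4 ≤ (t / 4) ^ s := by
  intro s hs0 hs1
  rw [Real.div_rpow htp.le (by norm_num)]
  apply div_le_div_of_nonneg_left (Real.rpow_nonneg htp.le _)
    (Real.rpow_pos_of_pos (by norm_num) _)
  calc (4 : ℝ) ^ s ≤ 4 ^ (1 : ℝ) := Real.rpow_le_rpow_of_exponent_le (by norm_num) hs1
    _ = 4 := Real.rpow_one 4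

private lemma x10_px52 {t d x δ i1 i2 p : ℝ} (htp : 0 < t) (htR : 1 ≤ t) (hd1 : t ≤ d)
    (hd2 : d ≤ 2 * t) (hx1 : x ≤ 1) (h1 : x - δ / 4 < i1) (h2 : i2 < x)
    (hi1 : 0 < i1) (hi12 : i1 < i2) (hp1 : d ^ i1 < p) (hp2 : p ≤ d ^ i2)
    (ht1 : 4 ≤ t ^ (δ / 4)) : t ^ (x - δ) < p ∧ p < t ^ (x + δ) := by
  have hi2p : 0 < i2 := hi1.trans hi12
  have hd0 : 0 ≤ d := le_trans htp.le hd1
  constructor
  · refine lt_of_le_of_lt ?_ hp1
    calc t ^ (x - δ) ≤ t ^ i1 := Real.rpow_le_rpow_of_exponent_le htR (by linarith)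
      _ ≤ d ^ i1 := Real.rpow_le_rpow htp.le hd1 hi1.le
  · have h3 : (2 : ℝ) ^ i2 ≤ 2 := by
      calc (2 : ℝ) ^ i2 ≤ 2 ^ (1 : ℝ) :=
            Real.rpow_le_rpow_of_exponent_le (by norm_num) (h2.le.trans hx1)
        _ = 2 := Real.rpow_one 2
    calc p ≤ d ^ i2 := hp2
      _ ≤ (2 * t : ℝ) ^ i2 := Real.rpow_le_rpow hd0 hd2 hi2p.le
      _ = 2 ^ i2 * t ^ i2 := Real.mul_rpow (by norm_num) htp.le
      _ ≤ 2 * t ^ x := by
          apply mul_le_mul h3 _ (Real.rpow_nonneg htp.le _) (by norm_num)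
          exact Real.rpow_le_rpow_of_exponent_le htR h2.le
      _ < t ^ (δ / 4) * t ^ x := by
          apply mul_lt_mul_of_pos_right _ (Real.rpow_pos_of_pos htp _)
          exact lt_of_lt_of_le (by norm_num) ht1
      _ = t ^ (δ / 4 + x) := (Real.rpow_add htp _ _).symm
      _ ≤ t ^ (x + δ) := Real.rpow_le_rpow_of_exponent_le htR (by linarith)

private lemma x10_py52 {t n K y δ j1 j2 p : ℝ} (htp : 0 < t) (htR : 1 ≤ t) (hn : 0 ≤ n)
    (hn2 : n ≤ K * t) (hK1 : 1 ≤ K) (hy1 : y ≤ 1) (h1 : y - δ / 4 < j1)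
    (h2 : j2 < y) (hj1 : 0 < j1) (hj12 : j1 < j2) (hp1 : t ^ j1 / 4 < p) (hp2 : p ≤ n ^ j2)
    (ht1 : 4 ≤ t ^ (δ / 4)) (ht5 : 2 * K ≤ t ^ (δ / 4)) :
    t ^ (y - δ) < p ∧ p < t ^ (y + δ) := by
  have hj2p : 0 < j2 := hj1.trans hj12
  have hK0 : 0 < K := lt_of_lt_of_le one_pos hK1
  constructor
  · refine lt_of_le_of_lt ?_ hp1
    rw [le_div_iff₀ (by norm_num : (0 : ℝ) < 4)]
    calc t ^ (y - δ) * 4 ≤ t ^ (y - δ) * t ^ (δ / 4) :=
          mul_le_mul_of_nonneg_left ht1 (Real.rpow_nonneg htp.le _)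
      _ = t ^ (y - δ + δ / 4) := (Real.rpow_add htp _ _).symm
      _ ≤ t ^ j1 := Real.rpow_le_rpow_of_exponent_le htR (by linarith)
  · have h3 : K ^ j2 ≤ K := by
      calc K ^ j2 ≤ K ^ (1 : ℝ) :=
            Real.rpow_le_rpow_of_exponent_le hK1 (h2.le.trans hy1)
        _ = K := Real.rpow_one _
    calc p ≤ n ^ j2 := hp2
      _ ≤ (K * t) ^ j2 := Real.rpow_le_rpow hn hn2 hj2p.le
      _ = K ^ j2 * t ^ j2 := Real.mul_rpow hK0.le htp.le
      _ ≤ K * t ^ y := by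
          apply mul_le_mul h3 _ (Real.rpow_nonneg htp.le _) hK0.le
          exact Real.rpow_le_rpow_of_exponent_le htR h2.le
      _ < t ^ (δ / 4) * t ^ y := by
          apply mul_lt_mul_of_pos_right _ (Real.rpow_pos_of_pos htp _)
          linarith
      _ = t ^ (δ / 4 + y) := (Real.rpow_add htp _ _).symm
      _ ≤ t ^ (y + δ) := Real.rpow_le_rpow_of_exponent_le htR (by linarith)

private lemma x10_m52 {t δ T M P P' F B : ℝ} (htp : 0 < t) (htR : 1 ≤ t) (hδ : 0 < δ)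
    (hT : T = t ^ (1 - δ / 4)) (hM : 0 ≤ M) (hF : F = M * P * P')
    (g1 : T ≤ P) (g2 : T / 4 ≤ P') (hup : F ≤ B * t ^ 2) (ht2 : 4 * B ≤ t ^ (δ / 4)) :
    M ≤ t ^ δ := by
  have hT0 : 0 < T := by rw [hT]; exact Real.rpow_pos_of_pos htp _
  have h3 : M * (T * (T / 4)) ≤ B * t ^ 2 := by
    calc _ ≤ M * (P * P') := by
          apply mul_le_mul_of_nonneg_left _ hM
          exact mul_le_mul g1 g2 (div_pos hT0 four_pos).le (hT0.le.trans g1)
      _ = F := by rw [hF]; ring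
      _ ≤ _ := hup
  have h4 : T * T * t ^ (δ / 2) = t ^ 2 := by
    rw [hT, ← Real.rpow_add htp, ← Real.rpow_add htp, ← Real.rpow_natCast]
    congr 1
    push_cast
    ring
  have h5 : M ≤ 4 * B * t ^ (δ / 2) := by
    have h6 : M * (T * T) ≤ (4 * B * t ^ (δ / 2)) * (T * T) := by
      have h7 : (4 * B * t ^ (δ / 2)) * (T * T) = 4 * (B * t ^ 2) := by
        rw [← h4]; ring
      rw [h7]
      linarith
    exact le_of_mul_le_mul_right h6 (mul_pos hT0 hT0)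
  refine h5.trans ?_
  calc 4 * B * t ^ (δ / 2) ≤ t ^ (δ / 4) * t ^ (δ / 2) :=
        mul_le_mul_of_nonneg_right ht2 (Real.rpow_nonneg htp.le _)
    _ = t ^ (δ / 4 + δ / 2) := (Real.rpow_add htp _ _).symm
    _ ≤ t ^ δ := Real.rpow_le_rpow_of_exponent_le htR (by linarith)

/-- a pair with the windows gives the pattern -/
theorem pat_of {a b c : ℤ} (ha : 0 < a) {m l : ℕ} (x : Fin m → ℝ) (y : Fin l → ℝ)
    (hx : ∀ i, 0 < x i) (hy : ∀ j, 0 < y j) (hsx : ∑ i, x i = 1) (hsy : ∑ j, y j = 1) {δ : ℝ}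
    (hδ : 0 < δ) (q k r : ℕ) : ∃ X Y : Finset (ℝ × ℝ), GoodX X ∧ GoodX Y ∧
    ∀ᶠ t : ℕ in atTop, ∀ d : ℕ,
    (d : ℤ) ∣ a * (t : ℤ) ^ 2 + b * t + c → (1 : ℝ) * t ≤ d → (d : ℝ) ≤ 2 * t → WinX q X d →
    WinX q Y (a.natAbs * ((fv a b c t).natAbs / d)) → Omn d ≡ 0 [MOD k] →
    Omn ((fv a b c t).natAbs / d) ≡ r [MOD k] → Pat a b c x y δ k r t := by
  classical
  have hδ4 : 0 < δ / 4 := by linarith
  obtain ⟨I, hI, hX, hI1, hI2⟩ := win96 x hx hsx hδ4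
  obtain ⟨J, hJ, hY, hJ1, hJ2⟩ := win96 y hy hsy hδ4
  refine ⟨Finset.univ.image I, Finset.univ.image J, hX, hY, ?_⟩
  have hIp : ∀ i, 0 < (I i).1 := fun i =>
    (hX.pos (I i) (Finset.mem_image_of_mem _ (Finset.mem_univ _))).1
  have hJp : ∀ j, 0 < (J j).1 := fun j =>
    (hY.pos (J j) (Finset.mem_image_of_mem _ (Finset.mem_univ _))).1
  have hx1 : ∀ i, x i ≤ 1 := fun i => by
    rw [← hsx]
    exact Finset.single_le_sum (f := x) (fun j _ => (hx j).le) (Finset.mem_univ i)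
  have hy1 : ∀ j, y j ≤ 1 := fun j => by
    rw [← hsy]
    exact Finset.single_le_sum (f := y) (fun i _ => (hy i).le) (Finset.mem_univ j)
  set B : ℝ := (a.natAbs : ℝ) + b.natAbs + c.natAbs with hB
  have hB0 : 0 ≤ B := by positivity
  have ha3 : 1 ≤ a.natAbs := by
    have := Int.natAbs_pos.2 ha.ne'
    omega
  have ha3R : (1 : ℝ) ≤ (a.natAbs : ℝ) := by exact_mod_cast ha3
  have hB1 : 1 ≤ B := by
    rw [hB]
    have h1 : (0 : ℝ) ≤ (b.natAbs : ℝ) := Nat.cast_nonneg _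
    have h2 : (0 : ℝ) ≤ (c.natAbs : ℝ) := Nat.cast_nonneg _
    linarith
  have ev6 : ∀ᶠ t : ℕ in atTop, ∀ j : Fin l, 4 * (a.natAbs : ℝ) ≤ (t : ℝ) ^ (J j).1 := by
    rw [eventually_all]
    exact fun j => T64.ev_rpow _ (hJp j)
  filter_upwards [T64.ev_rpow 4 hδ4, T64.ev_rpow (4 * B) hδ4,
    T64.ev_rpow (2 * (a.natAbs * B)) hδ4, ev6,
    eventually_ge_atTop (2 * (b.natAbs + c.natAbs) + 4)] with t ht1 ht2 ht5 ht6 ht4
  intro d hd hd1 hd2 hw1 hw2 hr1 hr2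
  have ht0 : 4 ≤ t := by omega
  have ht4R : (4 : ℝ) ≤ t := by exact_mod_cast ht0
  have htR : (1 : ℝ) ≤ t := le_trans (by norm_num) ht4R
  have htp : (0 : ℝ) < t := lt_of_lt_of_le one_pos htR
  have ha1 : (1 : ℝ) ≤ a := by exact_mod_cast ha
  have habs : ∀ x : ℤ, |(x : ℝ)| = (x.natAbs : ℝ) := by
    intro x
    rw [← Int.cast_abs, Int.abs_eq_natAbs, Int.cast_natCast]
  have hb := abs_le.1 (le_of_eq (habs b))
  have hc := abs_le.1 (le_of_eq (habs c))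
  have ha2 := abs_le.1 (le_of_eq (habs a))
  have ht4' : 2 * ((b.natAbs : ℝ) + c.natAbs) + 4 ≤ t := by exact_mod_cast ht4
  have hbn : (0 : ℝ) ≤ b.natAbs := Nat.cast_nonneg _
  have hcn : (0 : ℝ) ≤ c.natAbs := Nat.cast_nonneg _
  have hlowR : (t : ℝ) ^ 2 / 2 ≤ a * (t : ℝ) ^ 2 + b * t + c :=
    x10_low52 ht4R ha1 hb.1 hc.1 hcn ht4'
  have hfp : 0 < fv a b c t := by
    have h3 : (0 : ℝ) < a * (t : ℝ) ^ 2 + b * t + c := lt_of_lt_of_le (half_pos (pow_pos htp 2)) hlowR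
    unfold fv
    exact_mod_cast h3
  set F : ℕ := (fv a b c t).natAbs with hF
  have hF1 : (F : ℤ) = a * (t : ℤ) ^ 2 + b * t + c := by
    rw [hF, Int.natCast_natAbs, abs_of_pos hfp]
    rfl
  have hF0 : F ≠ 0 := Int.natAbs_ne_zero.2 hfp.ne'
  have hdF : d ∣ F := by
    have h3 : (d : ℤ) ∣ (F : ℤ) := by rw [hF1]; exact hd
    exact_mod_cast h3
  obtain ⟨e, he⟩ := hdF
  have hd0 : d ≠ 0 := by
    rintro rfl
    exact hF0 (by rw [he, zero_mul])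
  have hdp : 0 < d := Nat.pos_of_ne_zero hd0
  have hFe : F / d = e := by
    rw [he]
    exact Nat.mul_div_cancel_left e hdp
  have he0 : e ≠ 0 := by
    rintro rfl
    exact hF0 (by rw [he, mul_zero])
  rw [hFe] at hw2 hr2
  have hFR : (F : ℝ) = d * e := by rw [he]; push_cast; ring
  have hFR2 : (F : ℝ) = a * (t : ℝ) ^ 2 + b * t + c := by
    have h3 : ((F : ℤ) : ℝ) = ((a * (t : ℤ) ^ 2 + b * t + c : ℤ) : ℝ) := by rw [hF1]
    push_cast at h3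
    exact h3
  have hlow : (t : ℝ) ^ 2 / 2 ≤ F := by rw [hFR2]; exact hlowR
  have hup : (F : ℝ) ≤ B * (t : ℝ) ^ 2 := by
    rw [hFR2, hB]
    exact x10_up52 htR ha2.2 hb.2 hc.2 hbn hcn
  have hd1' : (t : ℝ) ≤ d := by rw [← one_mul (t : ℝ)]; exact hd1
  obtain ⟨heR, heB⟩ := x10_e52 htp (Nat.cast_nonneg e) hd1' hd2 hFR hlow hup
  -- the primes
  have hw1' : ∀ i : Fin m, ∃ p : ℕ, p.Prime ∧ p ≡ 1 [MOD q] ∧ p ∣ d ∧
      (d : ℝ) ^ (I i).1 < p ∧ (p : ℝ) ≤ (d : ℝ) ^ (I i).2 := fun i =>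
    hw1 (I i) (Finset.mem_image_of_mem _ (Finset.mem_univ _))
  choose p hp _ hpd hp1 hp2 using hw1'
  have hw2' : ∀ j : Fin l, ∃ p : ℕ, p.Prime ∧ p ≡ 1 [MOD q] ∧ p ∣ a.natAbs * e ∧
      ((a.natAbs * e : ℕ) : ℝ) ^ (J j).1 < p ∧ (p : ℝ) ≤ ((a.natAbs * e : ℕ) : ℝ) ^ (J j).2 :=
    fun j => hw2 (J j) (Finset.mem_image_of_mem _ (Finset.mem_univ _))
  choose p' hp' _ hpd' hp1' hp2' using hw2'
  have hdR : (1 : ℝ) ≤ d := htR.trans hd1'
  have haeR : ((a.natAbs * e : ℕ) : ℝ) = a.natAbs * e := by push_cast; ring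
  have hae1 : (t : ℝ) / 4 ≤ ((a.natAbs * e : ℕ) : ℝ) := by
    rw [haeR]
    calc (t : ℝ) / 4 ≤ 1 * e := by rw [one_mul]; exact heR
      _ ≤ a.natAbs * e := mul_le_mul_of_nonneg_right ha3R (Nat.cast_nonneg _)
  have hae2 : ((a.natAbs * e : ℕ) : ℝ) ≤ a.natAbs * B * t := by
    rw [haeR, mul_assoc]
    exact mul_le_mul_of_nonneg_left heB (Nat.cast_nonneg _)
  have htd4 : (1 : ℝ) ≤ (t : ℝ) / 4 := by
    rw [le_div_iff₀ four_pos, one_mul]
    exact ht4R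
  have hae0 : (1 : ℝ) ≤ ((a.natAbs * e : ℕ) : ℝ) := htd4.trans hae1
  have hpinj := inj_of hdR I hI hX p hp1 hp2
  have hpinj' := inj_of hae0 J hJ hY p' hp1' hp2'
  -- lower bound for the powers of `t / 4`
  have hq4 := x10_q52 htp
  have hJle : ∀ j, (J j).1 ≤ 1 := fun j => by
    have h3 := (hY.pos (J j) (Finset.mem_image_of_mem _ (Finset.mem_univ _))).2
    exact h3.le.trans ((hJ1 j).2.le.trans (hy1 j))
  have hplow' : ∀ j, (t : ℝ) ^ (J j).1 / 4 < p' j := fun j => by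
    refine lt_of_le_of_lt ((hq4 _ (hJp j).le (hJle j)).trans ?_) (hp1' j)
    exact Real.rpow_le_rpow (le_trans zero_le_one htd4) hae1 (hJp j).le
  have hpa : ∀ j, p' j ∣ e := fun j => by
    refine ((hp' j).dvd_mul.1 (hpd' j)).resolve_left fun h3 => ?_
    have h4 := Nat.le_of_dvd (by omega) h3
    have h5 : (p' j : ℝ) ≤ a.natAbs := by exact_mod_cast h4
    have h6 : (a.natAbs : ℝ) ≤ (t : ℝ) ^ (J j).1 / 4 := by
      rw [le_div_iff₀ four_pos, mul_comm]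
      exact ht6 j
    exact absurd (lt_of_le_of_lt (h5.trans h6) (hplow' j)) (lt_irrefl _)
  obtain ⟨m1, hm1⟩ := prod_dvd p hp hpinj hpd
  obtain ⟨m2, hm2⟩ := prod_dvd p' hp' hpinj' hpa
  have hprod : F = m1 * m2 * (∏ i, p i) * ∏ j, p' j := by
    rw [he]
    nth_rewrite 1 [hm1]
    nth_rewrite 1 [hm2]
    ring
  have haB1 : (1 : ℝ) ≤ a.natAbs * B := one_le_mul_of_one_le_of_one_le ha3R hB1
  have hae00 : (0 : ℝ) ≤ ((a.natAbs * e : ℕ) : ℝ) := Nat.cast_nonneg _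
  have hd00 : (0 : ℝ) < d := lt_of_lt_of_le one_pos hdR
  refine ⟨m1 * m2, p, p', hp, hp', ?_, ?_, ?_, ?_, ?_⟩
  · intro i
    exact x10_px52 htp htR hd1' hd2 (hx1 i) (hI1 i).1 (hI1 i).2 (hIp i)
      (hX.pos (I i) (Finset.mem_image_of_mem _ (Finset.mem_univ _))).2 (hp1 i) (hp2 i) ht1
  · intro j
    exact x10_py52 htp htR hae00 hae2 haB1 (hy1 j) (hJ1 j).1 (hJ1 j).2 (hJp j)
      (hY.pos (J j) (Finset.mem_image_of_mem _ (Finset.mem_univ _))).2 (hplow' j) (hp2' j) ht1 ht5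
  · -- the size of the rest
    have hprodR : (F : ℝ) = ((m1 * m2 : ℕ) : ℝ) * ((∏ i, p i : ℕ) : ℝ) *
        ((∏ j, p' j : ℕ) : ℝ) := by
      rw [hprod]
      push_cast
      ring
    have g1 : (t : ℝ) ^ (1 - δ / 4) ≤ ((∏ i, p i : ℕ) : ℝ) := by
      refine le_trans ?_ (prod_ge hd00 I p hp1)
      calc (t : ℝ) ^ (1 - δ / 4) ≤ (t : ℝ) ^ (∑ i, (I i).1) :=
            Real.rpow_le_rpow_of_exponent_le htR hI2.le
        _ ≤ _ := Real.rpow_le_rpow htp.le hd1' (Finset.sum_nonneg fun i _ => (hIp i).le)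
    have hsJ0 : 0 ≤ ∑ j, (J j).1 := Finset.sum_nonneg fun j _ => (hJp j).le
    have hsJ1 : ∑ j, (J j).1 ≤ 1 := by
      rw [← hsy]
      refine Finset.sum_le_sum fun j _ => ?_
      have h3 := (hY.pos (J j) (Finset.mem_image_of_mem _ (Finset.mem_univ _))).2
      exact h3.le.trans (hJ1 j).2.le
    have g2 : (t : ℝ) ^ (1 - δ / 4) / 4 ≤ ((∏ j, p' j : ℕ) : ℝ) := by
      refine le_trans ?_ (prod_ge (lt_of_lt_of_le one_pos hae0) J p' hp1')
      calc (t : ℝ) ^ (1 - δ / 4) / 4 ≤ (t : ℝ) ^ (∑ j, (J j).1) / 4 := by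
            apply div_le_div_of_nonneg_right _ four_pos.le
            exact Real.rpow_le_rpow_of_exponent_le htR hJ2.le
        _ ≤ ((t : ℝ) / 4) ^ (∑ j, (J j).1) := hq4 _ hsJ0 hsJ1
        _ ≤ _ := Real.rpow_le_rpow (le_trans zero_le_one htd4) hae1 hsJ0
    exact x10_m52 htp htR hδ rfl (Nat.cast_nonneg _) hprodR g1 g2 hup ht2
  · rw [← hF1, hprod]
    push_cast
    ring
  · rw [← hprod, he, ArithmeticFunction.cardFactors_mul hd0 he0]
    have h3 : Omn d + Omn e ≡ 0 + r [MOD k] := hr1.add hr2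
    rw [zero_add] at h3
    exact h3

end X96

open Classical in
/-- (X10) from the pairs to the arguments `t` -/
theorem stArgX_96 : StArgX := by
  intro a b c ha hsq q h t₀ hh hP m l x y hx hy hsx hsy δ hδ k hk r ε hε
  obtain ⟨X, Y, hX, hY, hev0⟩ := X96.pat_of (b := b) (c := c) ha x y hx hy hsx hsy hδ q k r
  obtain ⟨κ, -, -, hA⟩ := hP
  obtain ⟨-, η, hη, hev⟩ := hA X Y hX hY k hk 0 r
  have hunw := UW.U64.unwD a b c ha hsq h t₀ 1 2 one_pos (by norm_num) _ hη hev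
    (ε := ε / 2) (by positivity)
  obtain ⟨T0, hT0⟩ := eventually_atTop.1 hev0
  have hlog : Tendsto (fun N : ℕ => Real.log (N : ℝ)) atTop atTop :=
    Real.tendsto_log_atTop.comp tendsto_natCast_atTop_atTop
  have hlo : ∀ᶠ N : ℕ in atTop,
      Real.log (N : ℝ) ^ (Real.log 2 + ε) ≤ (N : ℝ) ^ (1 / 2 : ℝ) := by
    have h3 := (isLittleO_log_rpow_rpow_atTop (Real.log 2 + ε)
      (by norm_num : (0 : ℝ) < 1 / 2)).comp_tendsto tendsto_natCast_atTop_atTop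
    have h4 := h3.bound (by norm_num : (0 : ℝ) < 1)
    filter_upwards [h4, hlog.eventually_ge_atTop 1] with N hN hN1
    simp only [Function.comp] at hN
    rw [Real.norm_of_nonneg (Real.rpow_nonneg (by linarith) _),
      Real.norm_of_nonneg (Real.rpow_nonneg (Nat.cast_nonneg _) _), one_mul] at hN
    exact hN
  have he2 : ∀ᶠ N : ℕ in atTop, 2 ≤ Real.log (N : ℝ) ^ (ε / 2) :=
    ((tendsto_rpow_atTop (by positivity : 0 < ε / 2)).comp hlog).eventually_ge_atTop 2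
  filter_upwards [hunw, hlo, he2, hlog.eventually_ge_atTop 1,
    T64.ev_rpow (T0 : ℝ) (by norm_num : (0 : ℝ) < 1 / 2), eventually_ge_atTop 1]
    with N hN hN2 hN3 hN4 hN5 hN6
  have hNp : (0 : ℝ) < N := by exact_mod_cast hN6
  have hL0 : 0 < Real.log (N : ℝ) := by linarith
  set Z : ℝ := Real.log (N : ℝ) ^ (Real.log 2 + ε) with hZ
  have hZ0 : 0 < Z := Real.rpow_pos_of_pos hL0 _
  -- cardinalities
  have hsub : (Finset.Icc 1 N).filter (fun t : ℕ => t ≡ t₀ [MOD h] ∧ ∃ d : ℕ,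
      (d : ℤ) ∣ a * (t : ℤ) ^ 2 + b * t + c ∧ (1 : ℝ) * t ≤ d ∧ (d : ℝ) ≤ 2 * t ∧
      (WinX q X d ∧ WinX q Y (a.natAbs * ((fv a b c t).natAbs / d)) ∧ Omn d ≡ 0 [MOD k] ∧
      Omn ((fv a b c t).natAbs / d) ≡ r [MOD k])) ⊆
      (Finset.Icc 1 N).filter (fun t : ℕ => t ≡ t₀ [MOD h] ∧ Pat a b c x y δ k r t) ∪
      Finset.range T0 := by
    intro t ht
    rw [Finset.mem_filter] at ht
    obtain ⟨hu1, hu2, d, hd, hd1, hd2, hw1, hw2, hr1, hr2⟩ := ht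
    rw [Finset.mem_union, Finset.mem_filter, Finset.mem_range]
    by_cases hlt : t < T0
    · exact Or.inr hlt
    · exact Or.inl ⟨hu1, hu2, hT0 t (not_lt.1 hlt) d hd hd1 hd2 hw1 hw2 hr1 hr2⟩
  have hcard := (Finset.card_le_card hsub).trans (Finset.card_union_le _ _)
  rw [Finset.card_range] at hcard
  have hcard' : (((Finset.Icc 1 N).filter (fun t : ℕ => t ≡ t₀ [MOD h] ∧ ∃ d : ℕ,
      (d : ℤ) ∣ a * (t : ℤ) ^ 2 + b * t + c ∧ (1 : ℝ) * t ≤ d ∧ (d : ℝ) ≤ 2 * t ∧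
      (WinX q X d ∧ WinX q Y (a.natAbs * ((fv a b c t).natAbs / d)) ∧ Omn d ≡ 0 [MOD k] ∧
      Omn ((fv a b c t).natAbs / d) ≡ r [MOD k]))).card : ℝ) ≤
      (((Finset.Icc 1 N).filter (fun t : ℕ => t ≡ t₀ [MOD h] ∧ Pat a b c x y δ k r t)).card : ℝ) +
      T0 := by
    exact_mod_cast hcard
  have hlow := hN.trans hcard'
  -- the comparison of the logarithms
  have h4 : Z = Real.log (N : ℝ) ^ (Real.log 2 + ε / 2) * Real.log (N : ℝ) ^ (ε / 2) := by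
    rw [hZ, ← Real.rpow_add hL0]
    congr 1
    ring
  have hW0 : 0 < Real.log (N : ℝ) ^ (Real.log 2 + ε / 2) := Real.rpow_pos_of_pos hL0 _
  have h5 : 2 * ((N : ℝ) / Z) ≤ (N : ℝ) / Real.log (N : ℝ) ^ (Real.log 2 + ε / 2) := by
    rw [le_div_iff₀ hW0, h4]
    have h6 : 2 * ((N : ℝ) / (Real.log (N : ℝ) ^ (Real.log 2 + ε / 2) *
        Real.log (N : ℝ) ^ (ε / 2))) * Real.log (N : ℝ) ^ (Real.log 2 + ε / 2) =
        N * (2 / Real.log (N : ℝ) ^ (ε / 2)) := by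
      have h7 : Real.log (N : ℝ) ^ (ε / 2) ≠ 0 := by linarith
      field_simp
    rw [h6]
    have h8 : 2 / Real.log (N : ℝ) ^ (ε / 2) ≤ 1 := by
      rw [div_le_one (by linarith)]
      exact hN3
    calc (N : ℝ) * (2 / Real.log (N : ℝ) ^ (ε / 2)) ≤ N * 1 :=
          mul_le_mul_of_nonneg_left h8 hNp.le
      _ = N := mul_one _
  have h9 : (T0 : ℝ) ≤ (N : ℝ) / Z := by
    rw [le_div_iff₀ hZ0]
    calc (T0 : ℝ) * Z ≤ (N : ℝ) ^ (1 / 2 : ℝ) * (N : ℝ) ^ (1 / 2 : ℝ) :=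
          mul_le_mul hN5 hN2 hZ0.le (Real.rpow_nonneg hNp.le _)
      _ = N := by
          rw [← Real.rpow_add hNp]
          norm_num
  linarith

end Pool.Agent.Lib.MP_a17b09_nt.PQ
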