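import Pool.Agent.Lib.MP_a17b09_nt.PQ.StmtsX79
import Pool.Agent.Lib.MP_a17b09_nt.PQ.F4_42

/-!
PX (MP_a17b09_nt), rows X5 and X6: the frequencies `0` of the weights `b_X - ρ_X` and `z ^ Ω b_X`
tend to zero.  helper42.

The windows of the weights are those of the value `n = Q v`; they are replaced by the windows of
`N` (few vectors have a prime near one of the ends, `StNull`).
-/

set_option autoImplicit false

open Filter Topology Finset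

namespace Pool.Agent.Lib.MP_a17b09_nt.PQ

open CH CH.PE MRSG MRS

namespace F42X

open F42 (pow_cmp)

/-! ### The windows -/

/-- the primes of one window of `N` -/
noncomputable def WI (q : ℕ) (N : ℝ) (J : ℝ × ℝ) : Finset ℕ :=
  (Finset.range (⌊N ^ J.2⌋₊ + 1)).filter (fun p => p.Prime ∧ p ≡ 1 [MOD q] ∧ N ^ J.1 < p)

theorem mem_WI {q : ℕ} {N : ℝ} (hN : 0 ≤ N) {J : ℝ × ℝ} {p : ℕ} : p ∈ WI q N J ↔
    p.Prime ∧ p ≡ 1 [MOD q] ∧ N ^ J.1 < p ∧ (p : ℝ) ≤ N ^ J.2 := by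
  unfold WI
  rw [Finset.mem_filter, Finset.mem_range, Nat.lt_succ_iff,
    Nat.le_floor_iff (Real.rpow_nonneg hN _)]
  tauto

theorem winXN_iff {q : ℕ} {X : Finset (ℝ × ℝ)} {N : ℝ} (hN : 0 ≤ N) {n : ℤ} :
    WinXN q X N n.natAbs ↔ ∀ J ∈ X, ∃ p ∈ WI q N J, (p : ℤ) ∣ n := by
  constructor
  · intro h J hJ
    obtain ⟨p, hp, hq, hd, h1, h2⟩ := h J hJ
    exact ⟨p, (mem_WI hN).2 ⟨hp, hq, h1, h2⟩, Int.natCast_dvd.2 hd⟩
  · intro h J hJ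
    obtain ⟨p, hp, hd⟩ := h J hJ
    obtain ⟨h0, hq, h1, h2⟩ := (mem_WI hN).1 hp
    exact ⟨p, h0, hq, Int.natCast_dvd.1 hd, h1, h2⟩

/-- the two windows `(m ^ a, m ^ b]`, `(N ^ a, N ^ b]` differ only near the ends -/
theorem one_diff {q : ℕ} {a b C : ℝ} {N : ℝ} {m : ℕ}
    (ha : N ^ a / C ≤ (m : ℝ) ^ a ∧ (m : ℝ) ^ a ≤ C * N ^ a)
    (hb : N ^ b / C ≤ (m : ℝ) ^ b ∧ (m : ℝ) ^ b ≤ C * N ^ b) (hC : 1 ≤ C) (hNa : 0 < N ^ a)
    (hNb : 0 < N ^ b)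
    (h : ¬ ((∃ p : ℕ, p.Prime ∧ p ≡ 1 [MOD q] ∧ p ∣ m ∧ (m : ℝ) ^ a < p ∧ (p : ℝ) ≤ (m : ℝ) ^ b) ↔
      (∃ p : ℕ, p.Prime ∧ p ≡ 1 [MOD q] ∧ p ∣ m ∧ N ^ a < p ∧ (p : ℝ) ≤ N ^ b))) :
    ∃ θ : ℝ, (θ = a ∨ θ = b) ∧ ∃ r : ℕ, r.Prime ∧ r ≡ 1 [MOD q] ∧ r ∣ m ∧
      N ^ θ / C < r ∧ (r : ℝ) ≤ C * N ^ θ := by
  obtain ⟨a1, a2⟩ := ha
  obtain ⟨b1, b2⟩ := hb
  have a3 : N ^ a / C ≤ N ^ a := div_le_self hNa.le hC
  have b3 : N ^ b / C ≤ N ^ b := div_le_self hNb.le hC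
  have a4 : N ^ a ≤ C * N ^ a := by nlinarith
  have b4 : N ^ b ≤ C * N ^ b := by nlinarith
  by_cases hW : ∃ p : ℕ, p.Prime ∧ p ≡ 1 [MOD q] ∧ p ∣ m ∧ (m : ℝ) ^ a < p ∧
      (p : ℝ) ≤ (m : ℝ) ^ b
  · have hW' : ¬ ∃ p : ℕ, p.Prime ∧ p ≡ 1 [MOD q] ∧ p ∣ m ∧ N ^ a < p ∧ (p : ℝ) ≤ N ^ b :=
      fun h2 => h ⟨fun _ => h2, fun _ => hW⟩
    obtain ⟨r, hr, hr1', hrm, ha, hb⟩ := hW
    by_cases hc : N ^ a < r
    · refine ⟨b, Or.inr rfl, r, hr, hr1', hrm, ?_, hb.trans b2⟩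
      by_contra hd
      push Not at hd
      exact hW' ⟨r, hr, hr1', hrm, hc, hd.trans b3⟩
    · push Not at hc
      exact ⟨a, Or.inl rfl, r, hr, hr1', hrm, lt_of_le_of_lt a1 ha, hc.trans a4⟩
  · have hW' : ∃ p : ℕ, p.Prime ∧ p ≡ 1 [MOD q] ∧ p ∣ m ∧ N ^ a < p ∧ (p : ℝ) ≤ N ^ b := by
      by_contra h2
      exact h ⟨fun h3 => absurd h3 hW, fun h3 => absurd h3 h2⟩
    obtain ⟨r, hr, hr1', hrm, ha, hb⟩ := hW'
    by_cases hc : (m : ℝ) ^ a < r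
    · refine ⟨b, Or.inr rfl, r, hr, hr1', hrm, ?_, hb.trans b4⟩
      by_contra hd
      push Not at hd
      exact hW ⟨r, hr, hr1', hrm, hc, hd.trans b1⟩
    · push Not at hc
      exact ⟨a, Or.inl rfl, r, hr, hr1', hrm, lt_of_le_of_lt a3 ha, hc.trans a2⟩

/-- the windows of `m` and of `N` differ only by primes near the ends -/
theorem winX_diff {q : ℕ} {X : Finset (ℝ × ℝ)} (hX : ∀ J ∈ X, 0 < J.1 ∧ J.1 < J.2 ∧ J.2 < 1)
    {r1 r2 N : ℝ} (hr1 : 0 < r1) (hr12 : r1 < r2) (hN : 0 < N) {m : ℕ} (hm1 : r1 * N < m)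
    (hm2 : (m : ℝ) ≤ r2 * N) (h : ¬ (WinX q X m ↔ WinXN q X N m)) :
    ∃ J ∈ X, ∃ θ : ℝ, (θ = J.1 ∨ θ = J.2) ∧ ∃ r : ℕ, r.Prime ∧ r ≡ 1 [MOD q] ∧ r ∣ m ∧
      N ^ θ / (1 + r2 + 1 / r1) < r ∧ (r : ℝ) ≤ (1 + r2 + 1 / r1) * N ^ θ := by
  have hr2 : 0 < r2 := hr1.trans hr12
  have hi : 0 < 1 / r1 := by positivity
  have hex : ∃ J ∈ X, ¬ ((∃ p : ℕ, p.Prime ∧ p ≡ 1 [MOD q] ∧ p ∣ m ∧ (m : ℝ) ^ J.1 < p ∧
      (p : ℝ) ≤ (m : ℝ) ^ J.2) ↔
      (∃ p : ℕ, p.Prime ∧ p ≡ 1 [MOD q] ∧ p ∣ m ∧ N ^ J.1 < p ∧ (p : ℝ) ≤ N ^ J.2)) := by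
    by_contra hc
    push Not at hc
    exact h ⟨fun h2 J hJ => (hc J hJ).1 (h2 J hJ), fun h2 J hJ => (hc J hJ).2 (h2 J hJ)⟩
  obtain ⟨J, hJ, hJn⟩ := hex
  obtain ⟨p1, p2, p3⟩ := hX J hJ
  exact ⟨J, hJ, one_diff (pow_cmp hr1 hr12 hN hm1 hm2 p1 (by linarith))
    (pow_cmp hr1 hr12 hN hm1 hm2 (by linarith) p3.le) (by linarith)
    (Real.rpow_pos_of_pos hN _) (Real.rpow_pos_of_pos hN _) hJn⟩

theorem GoodX.lt_one {X : Finset (ℝ × ℝ)} (hX : GoodX X) :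
    ∀ J ∈ X, 0 < J.1 ∧ J.1 < J.2 ∧ J.2 < 1 := by
  intro J hJ
  obtain ⟨h1, h2⟩ := hX.pos J hJ
  refine ⟨h1, h2, lt_of_le_of_lt ?_ hX.top⟩
  exact Finset.single_le_sum (f := fun I : ℝ × ℝ => I.2)
    (fun I hI => ((hX.pos I hI).1.trans (hX.pos I hI).2).le) hJ

/-- the conditions on the windows hold for large `N` -/
theorem cond {X : Finset (ℝ × ℝ)} (hX : GoodX X) (q K : ℕ) (X0 r2 : ℝ) : ∀ᶠ N : ℝ in atTop,
    1 ≤ N ∧ (∀ J ∈ X, ∀ p ∈ WI q N J, p.Prime ∧ p ≡ 1 [MOD q] ∧ K < p ∧ N ^ J.1 ≤ p ∧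
      (p : ℝ) ≤ N ^ J.2) ∧
    (∀ I ∈ X, ∀ J ∈ X, I ≠ J → Disjoint (WI q N I) (WI q N J)) ∧
    (∀ J ∈ X, r2 * N < (∏ I ∈ X, N ^ I.1) * N ^ J.1) ∧ X0 * ∏ I ∈ X, N ^ I.2 ≤ N ∧ X0 ≤ N := by
  have e1 : ∀ᶠ N : ℝ in atTop, ∀ J ∈ X, (K : ℝ) ≤ N ^ J.1 :=
    (Filter.eventually_all_finset X).2 fun J hJ =>
      (tendsto_rpow_atTop (hX.pos J hJ).1).eventually (eventually_ge_atTop _)
  have e2 : ∀ᶠ N : ℝ in atTop, ∀ J ∈ X, |r2| + 1 ≤ N ^ (∑ I ∈ X, I.1 + J.1 - 1) :=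
    (Filter.eventually_all_finset X).2 fun J hJ =>
      (tendsto_rpow_atTop (by linarith [hX.uniq J hJ])).eventually (eventually_ge_atTop _)
  have e3 : ∀ᶠ N : ℝ in atTop, |X0| ≤ N ^ (1 - ∑ I ∈ X, I.2) :=
    (tendsto_rpow_atTop (by linarith [hX.top])).eventually (eventually_ge_atTop _)
  filter_upwards [e1, e2, e3, eventually_ge_atTop (max 1 X0)] with N k1 k2 k3 k4
  have hN1 : 1 ≤ N := (le_max_left _ _).trans k4
  have hN : 0 < N := by linarith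
  refine ⟨hN1, fun J hJ p hp => ?_, fun I hI J hJ hIJ => ?_, fun J hJ => ?_, ?_,
    (le_max_right _ _).trans k4⟩
  · rw [mem_WI hN.le] at hp
    exact ⟨hp.1, hp.2.1, by exact_mod_cast (k1 J hJ).trans_lt hp.2.2.1, hp.2.2.1.le, hp.2.2.2⟩
  · rw [Finset.disjoint_left]
    intro p hp hp'
    rw [mem_WI hN.le] at hp hp'
    rcases hX.disj I hI J hJ hIJ with h | h
    · have h1 : N ^ I.2 ≤ N ^ J.1 := Real.rpow_le_rpow_of_exponent_le hN1 h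
      linarith [hp.2.2.2, hp'.2.2.1]
    · have h1 : N ^ J.2 ≤ N ^ I.1 := Real.rpow_le_rpow_of_exponent_le hN1 h
      linarith [hp.2.2.1, hp'.2.2.2]
  · have h1 : ∏ I ∈ X, N ^ I.1 = N ^ (∑ I ∈ X, I.1) := (Real.rpow_sum_of_pos hN _ _).symm
    have h2 : (∏ I ∈ X, N ^ I.1) * N ^ J.1 = N ^ (∑ I ∈ X, I.1 + J.1 - 1) * N := by
      rw [h1, ← Real.rpow_add hN]
      nth_rewrite 3 [← Real.rpow_one N]
      rw [← Real.rpow_add hN]
      congr 1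
      ring
    rw [h2]
    have h3 := k2 J hJ
    have h4 : r2 < N ^ (∑ I ∈ X, I.1 + J.1 - 1) := by linarith [le_abs_self r2]
    exact mul_lt_mul_of_pos_right h4 hN
  · have h1 : ∏ I ∈ X, N ^ I.2 = N ^ (∑ I ∈ X, I.2) := (Real.rpow_sum_of_pos hN _ _).symm
    rw [h1]
    have h2 : 0 < N ^ (∑ I ∈ X, I.2) := Real.rpow_pos_of_pos hN _
    calc X0 * N ^ (∑ I ∈ X, I.2) ≤ N ^ (1 - ∑ I ∈ X, I.2) * N ^ (∑ I ∈ X, I.2) :=
          mul_le_mul_of_nonneg_right ((le_abs_self _).trans k3) h2.le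
      _ = N := by
          rw [← Real.rpow_add hN]
          ring_nf
          exact Real.rpow_one N

/-- the sums over the windows -/
theorem prod_lim (hW : StWinI) {q : ℕ} (hq : 0 < q) {X : Finset (ℝ × ℝ)} (hX : GoodX X) :
    Tendsto (fun N : ℝ => ∏ J ∈ X, ∑ p ∈ WI q N J, 2 / (p : ℝ)) atTop (𝓝 (rhoX q X)) := by
  unfold rhoX
  refine tendsto_finsetProd X fun J hJ => ?_
  have h1 := (hW q hq J.1 J.2 (hX.pos J hJ).1 (hX.pos J hJ).2).const_mul 2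
  have h3 : 2 / (Nat.totient q : ℝ) * Real.log (J.2 / J.1) =
      2 * (1 / (Nat.totient q : ℝ) * Real.log (J.2 / J.1)) := by ring
  rw [h3]
  refine h1.congr fun N => ?_
  rw [Finset.mul_sum]
  unfold WI
  have h4 : ∀ p : ℕ, (2 : ℝ) * (1 / (p : ℝ)) = 2 / (p : ℝ) := fun p => by ring
  simp only [h4]

/-! ### Few vectors -/

/-- few vectors have a prime near `N ^ θ` -/
theorem fewθ {d : ℕ} (hNull : StNull d) (i : Cl d) {θ : ℝ} (h0 : 0 < θ) (h1 : θ < 1)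
    {r1 r2 : ℝ} (hr1 : 0 < r1) (hr12 : r1 < r2) (ε : ℝ) (hε : 0 < ε) : ∀ᶠ N : ℝ in atTop,
    ∀ B : Finset V, (∀ v ∈ B, v ∈ Shg i (r1 * N) (r2 * N) ∧ ∃ r : ℕ, r.Prime ∧
      r ≡ 1 [MOD 4 * d] ∧ r ∣ ((rep i).q v).natAbs ∧ N ^ θ / (1 + r2 + 1 / r1) < r ∧
      (r : ℝ) ≤ (1 + r2 + 1 / r1) * N ^ θ) → (B.card : ℝ) ≤ ε * N := by
  classical
  have hr2 : 0 < r2 := hr1.trans hr12
  have hi : 0 < 1 / r1 := by positivity
  set C : ℝ := (1 + r2) * (1 + r2 + 1 / r1) with hC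
  have hC1 : 1 < C := by
    rw [hC]
    nlinarith [mul_pos hr2 hi, mul_pos hr2 hr2]
  have hε' : 0 < ε / (1 + r2) := by positivity
  obtain ⟨M1, hM1⟩ := hNull (rep i) (rep_pos i) (rep_D i) θ C h0 h1 hC1 (ε / (1 + r2)) hε'
  filter_upwards [eventually_ge_atTop (M1 : ℝ), eventually_ge_atTop (1 / r2),
    eventually_ge_atTop 1] with N hN1 hN3 hN4 B hB
  have hNp : 0 < N := by linarith
  have hN5 : 1 ≤ r2 * N := by
    rw [div_le_iff₀ hr2] at hN3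
    linarith
  set n : ℕ := ⌊(1 + r2) * N⌋₊ with hn
  have hnu : (n : ℝ) ≤ (1 + r2) * N := Nat.floor_le (by positivity)
  have hnr : r2 * N ≤ n := by
    have h2 : (1 + r2) * N < n + 1 := Nat.lt_floor_add_one _
    have h3 : (1 + r2) * N = N + r2 * N := by ring
    linarith
  have hnl : N ≤ n := by
    have h2 : (1 + r2) * N < n + 1 := Nat.lt_floor_add_one _
    have h3 : (1 + r2) * N = N + r2 * N := by ring
    linarith
  have hnp : (0 : ℝ) < n := lt_of_lt_of_le hNp hnl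
  have hA1 := hM1 n (by exact_mod_cast hN1.trans hnl)
  set A1 := ((rep i).ball n).filter (fun v => v ≠ 0 ∧ ∃ p : ℕ, p.Prime ∧
    p ≡ 1 [MOD 4 * d] ∧ p ∣ ((rep i).q v).natAbs ∧ (n : ℝ) ^ θ / C < p ∧
    (p : ℝ) ≤ C * (n : ℝ) ^ θ) with hA1d
  have hsub : B ⊆ A1 := by
    intro v hv
    obtain ⟨hv0, r, hr, hr1', hrm, ha, hb⟩ := hB v hv
    rw [mem_Shg] at hv0
    obtain ⟨hne, hv1, hv2⟩ := hv0
    have hNθ : 0 < N ^ θ := Real.rpow_pos_of_pos hNp θ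
    have e1 : N ^ θ ≤ (n : ℝ) ^ θ := Real.rpow_le_rpow hNp.le hnl h0.le
    have e2 : (n : ℝ) ^ θ ≤ (1 + r2) * N ^ θ := by
      calc (n : ℝ) ^ θ ≤ ((1 + r2) * N) ^ θ := Real.rpow_le_rpow hnp.le hnu h0.le
        _ = (1 + r2) ^ θ * N ^ θ := Real.mul_rpow (by linarith) hNp.le
        _ ≤ (1 + r2) * N ^ θ := by
            refine mul_le_mul_of_nonneg_right ?_ hNθ.le
            have h4 : (1 + r2) ^ θ ≤ (1 + r2) ^ (1 : ℝ) :=
              Real.rpow_le_rpow_of_exponent_le (by linarith) h1.le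
            rwa [Real.rpow_one] at h4
    have h3 : 0 ≤ 1 + r2 + 1 / r1 := by positivity
    have hlow : (n : ℝ) ^ θ / C < r := by
      refine lt_of_le_of_lt ?_ ha
      rw [hC, div_le_div_iff₀ (by positivity) (by positivity)]
      calc (n : ℝ) ^ θ * (1 + r2 + 1 / r1) ≤ (1 + r2) * N ^ θ * (1 + r2 + 1 / r1) :=
            mul_le_mul_of_nonneg_right e2 h3
        _ = N ^ θ * ((1 + r2) * (1 + r2 + 1 / r1)) := by ring
    have hup : (r : ℝ) ≤ C * (n : ℝ) ^ θ := by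
      refine hb.trans ?_
      have h4 : 1 + r2 + 1 / r1 ≤ C := by
        rw [hC]
        nlinarith [mul_nonneg hr2.le h3]
      calc (1 + r2 + 1 / r1) * N ^ θ ≤ C * N ^ θ := mul_le_mul_of_nonneg_right h4 hNθ.le
        _ ≤ C * (n : ℝ) ^ θ := mul_le_mul_of_nonneg_left e1 (by linarith)
    have hball : v ∈ (rep i).ball n := by
      rw [Form.mem_ball (rep_pos i)]
      exact_mod_cast hv2.trans hnr
    rw [hA1d, Finset.mem_filter]
    exact ⟨hball, hne, r, hr, hr1', hrm, hlow, hup⟩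
  have hA1' : (A1.card : ℝ) ≤ ε / (1 + r2) * n := by convert hA1
  have hcard : (B.card : ℝ) ≤ A1.card := by exact_mod_cast Finset.card_le_card hsub
  calc (B.card : ℝ) ≤ A1.card := hcard
    _ ≤ ε / (1 + r2) * n := hA1'
    _ ≤ ε / (1 + r2) * ((1 + r2) * N) := mul_le_mul_of_nonneg_left hnu (by positivity)
    _ = ε * N := by field_simp

/-- few vectors of a shell see the difference between the windows of `Q v` and of `N` -/
theorem few {d : ℕ} (hNull : StNull d) (i : Cl d) {X : Finset (ℝ × ℝ)}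
    (hX : ∀ J ∈ X, 0 < J.1 ∧ J.1 < J.2 ∧ J.2 < 1) {r1 r2 : ℝ} (hr1 : 0 < r1) (hr12 : r1 < r2)
    (ε : ℝ) (hε : 0 < ε) : ∀ᶠ N : ℝ in atTop,
    ∀ B : Finset V, (∀ v ∈ B, v ∈ Shg i (r1 * N) (r2 * N) ∧
      ¬ (WinX (4 * d) X ((rep i).q v).natAbs ↔ WinXN (4 * d) X N ((rep i).q v).natAbs)) →
    (B.card : ℝ) ≤ ε * N := by
  classical
  set m : ℝ := (X.card : ℝ) with hm
  have hm0 : 0 ≤ m := Nat.cast_nonneg _
  have e1 : ∀ᶠ N : ℝ in atTop, ∀ J ∈ X, ∀ B : Finset V, (∀ v ∈ B, v ∈ Shg i (r1 * N) (r2 * N) ∧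
      ∃ r : ℕ, r.Prime ∧ r ≡ 1 [MOD 4 * d] ∧ r ∣ ((rep i).q v).natAbs ∧
      N ^ J.1 / (1 + r2 + 1 / r1) < r ∧ (r : ℝ) ≤ (1 + r2 + 1 / r1) * N ^ J.1) →
      (B.card : ℝ) ≤ ε / (2 * (m + 1)) * N :=
    (Filter.eventually_all_finset X).2 fun J hJ =>
      fewθ hNull i (hX J hJ).1 (by linarith [(hX J hJ).2.1, (hX J hJ).2.2]) hr1 hr12 _
        (by positivity)
  have e2 : ∀ᶠ N : ℝ in atTop, ∀ J ∈ X, ∀ B : Finset V, (∀ v ∈ B, v ∈ Shg i (r1 * N) (r2 * N) ∧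
      ∃ r : ℕ, r.Prime ∧ r ≡ 1 [MOD 4 * d] ∧ r ∣ ((rep i).q v).natAbs ∧
      N ^ J.2 / (1 + r2 + 1 / r1) < r ∧ (r : ℝ) ≤ (1 + r2 + 1 / r1) * N ^ J.2) →
      (B.card : ℝ) ≤ ε / (2 * (m + 1)) * N :=
    (Filter.eventually_all_finset X).2 fun J hJ =>
      fewθ hNull i (by linarith [(hX J hJ).1, (hX J hJ).2.1]) (hX J hJ).2.2 hr1 hr12 _
        (by positivity)
  filter_upwards [e1, e2, eventually_gt_atTop 0] with N k1 k2 hN B hB
  set P : ℝ → V → Prop := fun θ v => ∃ r : ℕ, r.Prime ∧ r ≡ 1 [MOD 4 * d] ∧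
    r ∣ ((rep i).q v).natAbs ∧ N ^ θ / (1 + r2 + 1 / r1) < r ∧
    (r : ℝ) ≤ (1 + r2 + 1 / r1) * N ^ θ with hP
  have hsub : B ⊆ X.biUnion fun J => B.filter (P J.1) ∪ B.filter (P J.2) := by
    intro v hv
    obtain ⟨hvS, hvw⟩ := hB v hv
    rw [mem_Shg] at hvS
    obtain ⟨hne, hv1, hv2⟩ := hvS
    have hqpos := (rep_pos i).q_pos hne
    set m' : ℕ := ((rep i).q v).natAbs with hm'
    have hmq : (m' : ℤ) = (rep i).q v := by
      rw [hm']; exact Int.natAbs_of_nonneg hqpos.le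
    have hmr : (m' : ℝ) = ((rep i).q v : ℝ) := by
      rw [← hmq]
      push_cast
      rfl
    rw [← hmr] at hv1 hv2
    obtain ⟨J, hJ, θ, hθ, hr⟩ := winX_diff hX hr1 hr12 hN hv1 hv2 hvw
    rw [Finset.mem_biUnion]
    refine ⟨J, hJ, ?_⟩
    rw [Finset.mem_union, Finset.mem_filter, Finset.mem_filter]
    rcases hθ with h | h
    · left
      rw [h] at hr
      exact ⟨hv, hr⟩
    · right
      rw [h] at hr
      exact ⟨hv, hr⟩
  have h1 : (B.card : ℝ) ≤ ∑ J ∈ X, (((B.filter (P J.1)).card : ℝ) + (B.filter (P J.2)).card) := by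
    have h2 := (Finset.card_le_card hsub).trans Finset.card_biUnion_le
    have h3 : ∑ J ∈ X, (B.filter (P J.1) ∪ B.filter (P J.2)).card ≤
        ∑ J ∈ X, ((B.filter (P J.1)).card + (B.filter (P J.2)).card) :=
      Finset.sum_le_sum fun J _ => Finset.card_union_le _ _
    exact_mod_cast h2.trans h3
  have h2 : ∑ J ∈ X, (((B.filter (P J.1)).card : ℝ) + (B.filter (P J.2)).card) ≤
      ∑ _J ∈ X, (ε / (2 * (m + 1)) * N + ε / (2 * (m + 1)) * N) := by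
    refine Finset.sum_le_sum fun J hJ => add_le_add ?_ ?_
    · refine k1 J hJ _ fun v hv => ?_
      rw [Finset.mem_filter] at hv
      exact ⟨(hB v hv.1).1, hv.2⟩
    · refine k2 J hJ _ fun v hv => ?_
      rw [Finset.mem_filter] at hv
      exact ⟨(hB v hv.1).1, hv.2⟩
  rw [Finset.sum_const, nsmul_eq_mul, ← hm] at h2
  refine (h1.trans h2).trans ?_
  have h3 : m * (ε / (2 * (m + 1)) * N + ε / (2 * (m + 1)) * N) = m / (m + 1) * (ε * N) := by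
    field_simp
    ring
  rw [h3]
  have h4 : m / (m + 1) ≤ 1 := by
    rw [div_le_one (by positivity)]
    linarith
  have h5 : 0 ≤ ε * N := by positivity
  nlinarith

/-- changing the weight on the exceptional vectors -/
theorem diff {d K : ℕ} [NeZero K] {q : ℕ} {X : Finset (ℝ × ℝ)} {N r1 r2 e : ℝ} (hN : 0 < N)
    {w w' : ℕ → ℂ} (h1 : ∀ n, (WinX q X n ↔ WinXN q X N n) → w n = w' n)
    (h2 : ∀ n, ‖w n - w' n‖ ≤ 2)
    (hE : ∀ i : Cl d, ∀ B : Finset V, (∀ v ∈ B, v ∈ Shg i (r1 * N) (r2 * N) ∧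
      ¬ (WinX q X ((rep i).q v).natAbs ↔ WinXN q X N ((rep i).q v).natAbs)) →
      (B.card : ℝ) ≤ e * N)
    (f : Fq d K) : ‖Mpw w r1 r2 N f - Mpw w' r1 r2 N f‖ ≤ 2 * Fintype.card (Cl d) * e := by
  classical
  unfold Mpw
  rw [← mul_sub, ← sum_sub_distrib, norm_mul, norm_div, norm_one, Complex.norm_real,
    Real.norm_of_nonneg hN.le]
  have h3 : ∀ i : Cl d, ‖∑ v ∈ (Shg i (r1 * N) (r2 * N)).filter Prim, gw w (rep i) v * ch f i v -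
      ∑ v ∈ (Shg i (r1 * N) (r2 * N)).filter Prim, gw w' (rep i) v * ch f i v‖ ≤ 2 * (e * N) := by
    intro i
    rw [← sum_sub_distrib]
    refine (norm_sum_le _ _).trans ?_
    have h4 : ∀ v ∈ (Shg i (r1 * N) (r2 * N)).filter Prim,
        ‖gw w (rep i) v * ch f i v - gw w' (rep i) v * ch f i v‖ ≤
        if ¬ (WinX q X ((rep i).q v).natAbs ↔ WinXN q X N ((rep i).q v).natAbs) then 2 else 0 := by
      intro v hv
      have hv0 : v ≠ 0 := (mem_Shg.1 (mem_filter.1 hv).1).1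
      unfold gw
      split_ifs with h
      · rw [h1 _ h, sub_self, norm_zero]
      · rw [← sub_mul, norm_mul]
        calc _ ≤ (2 : ℝ) * 1 := mul_le_mul (h2 _) (norm_ch_le f i hv0) (norm_nonneg _)
              (by norm_num)
          _ = 2 := by norm_num
    refine (sum_le_sum h4).trans ?_
    rw [← sum_filter, sum_const, nsmul_eq_mul, mul_comm]
    refine mul_le_mul_of_nonneg_left (hE i _ fun v hv => ?_) (by norm_num)
    rw [mem_filter, mem_filter] at hv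
    exact ⟨hv.1.1, hv.2⟩
  calc 1 / N * ‖∑ i, (∑ v ∈ (Shg i (r1 * N) (r2 * N)).filter Prim, gw w (rep i) v * ch f i v -
      ∑ v ∈ (Shg i (r1 * N) (r2 * N)).filter Prim, gw w' (rep i) v * ch f i v)‖
      ≤ 1 / N * ∑ _i : Cl d, 2 * (e * N) := by
        refine mul_le_mul_of_nonneg_left ?_ (by positivity)
        exact (norm_sum_le _ _).trans (sum_le_sum fun i _ => h3 i)
    _ = 2 * Fintype.card (Cl d) * e := by
        rw [sum_const, card_univ, nsmul_eq_mul]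
        field_simp

/-- the reduction to the fixed windows -/
theorem reduce {d : ℕ} (hNull : StNull d) {X : Finset (ℝ × ℝ)} (hX : GoodX X) {K : ℕ} [NeZero K]
    {r1 r2 : ℝ} (hr1 : 0 < r1) (hr12 : r1 < r2) (w : ℕ → ℂ) (w' : ℝ → ℕ → ℂ)
    (h1 : ∀ N n, (WinX (4 * d) X n ↔ WinXN (4 * d) X N n) → w n = w' N n)
    (h2 : ∀ N n, ‖w n - w' N n‖ ≤ 2) (f : Fq d K)
    (h3 : Tendsto (fun N : ℝ => Mpw (w' N) r1 r2 N f) atTop (𝓝 0)) :
    Tendsto (fun N : ℝ => Mpw w r1 r2 N f) atTop (𝓝 0) := by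
  have h4 : Tendsto (fun N : ℝ => Mpw w r1 r2 N f - Mpw (w' N) r1 r2 N f) atTop (𝓝 0) := by
    rw [Metric.tendsto_nhds]
    intro ε hε
    have h5 : ∀ᶠ N : ℝ in atTop, ∀ i : Cl d, ∀ B : Finset V,
        (∀ v ∈ B, v ∈ Shg i (r1 * N) (r2 * N) ∧ ¬ (WinX (4 * d) X ((rep i).q v).natAbs ↔
          WinXN (4 * d) X N ((rep i).q v).natAbs)) →
        (B.card : ℝ) ≤ ε / (4 * (Fintype.card (Cl d) + 1)) * N :=
      Filter.eventually_all.2 fun i => few hNull i (GoodX.lt_one hX) hr1 hr12 _ (by positivity)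
    filter_upwards [h5, eventually_gt_atTop 0] with N k1 hN
    rw [dist_zero_right]
    refine lt_of_le_of_lt (diff hN (h1 N) (h2 N) k1 f) ?_
    have h6 : (0 : ℝ) ≤ Fintype.card (Cl d) := Nat.cast_nonneg _
    rw [mul_div_assoc', div_lt_iff₀ (by positivity)]
    nlinarith
  have h5 := h4.add h3
  simpa using h5

open Classical in
/-- the generic frequency `0` (helper12), `z = 1`, as an interface -/
def FX1 (d K : ℕ) [NeZero K] : Prop := ∀ r1 r2 : ℝ, 0 ≤ r1 → r1 < r2 → ∀ f : Fq d K, f.1 = 0 →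
  ∀ (X : Finset (ℝ × ℝ)) (ε : ℝ), 0 < ε → ∃ X0 : ℝ, 1 ≤ X0 ∧ ∀ (N : ℝ)
  (W : ℝ × ℝ → Finset ℕ) (A B : ℝ × ℝ → ℝ), (∀ J ∈ X, ∀ p ∈ W J, Spl d K p) →
  (∀ J ∈ X, 0 < A J ∧ ∀ p ∈ W J, A J ≤ p) → (∀ J ∈ X, 0 ≤ B J ∧ ∀ p ∈ W J, (p : ℝ) ≤ B J) →
  (∀ I ∈ X, ∀ J ∈ X, I ≠ J → Disjoint (W I) (W J)) →
  (∀ J ∈ X, r2 * N < (∏ I ∈ X, A I) * A J) → X0 * ∏ I ∈ X, B I ≤ N → X0 ≤ N →
  ‖Freq12.Mpa (fun i v => (if ∀ J ∈ X, ∃ p ∈ W J, (p : ℤ) ∣ (rep i).q v then (1 : ℂ) else 0) -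
    ((∏ J ∈ X, ∑ p ∈ W J, 2 / (p : ℝ) : ℝ) : ℂ)) r1 r2 N f‖ ≤
    ε * ∏ J ∈ X, ∑ p ∈ W J, 2 / (p : ℝ)

open Classical in
/-- the generic frequency `0` (helper12), `z ≠ 1`, as an interface -/
def FXN (d K : ℕ) [NeZero K] : Prop := ∀ (z : ℂ) (k : ℕ), 0 < k → z ^ k = 1 → z ≠ 1 →
  ∀ r1 r2 : ℝ, 0 ≤ r1 → r1 < r2 → ∀ f : Fq d K, f.1 = 0 →
  ∀ (X : Finset (ℝ × ℝ)) (ε : ℝ), 0 < ε → ∃ X0 : ℝ, 1 ≤ X0 ∧ ∀ (N : ℝ)
  (W : ℝ × ℝ → Finset ℕ) (A B : ℝ × ℝ → ℝ), (∀ J ∈ X, ∀ p ∈ W J, Spl d K p) →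
  (∀ J ∈ X, 0 < A J ∧ ∀ p ∈ W J, A J ≤ p) → (∀ J ∈ X, 0 ≤ B J ∧ ∀ p ∈ W J, (p : ℝ) ≤ B J) →
  (∀ I ∈ X, ∀ J ∈ X, I ≠ J → Disjoint (W I) (W J)) →
  (∀ J ∈ X, r2 * N < (∏ I ∈ X, A I) * A J) → X0 * ∏ I ∈ X, B I ≤ N → X0 ≤ N →
  ‖Freq12.Mpa (fun i v => if ∀ J ∈ X, ∃ p ∈ W J, (p : ℤ) ∣ (rep i).q v then gz z (rep i) v
    else 0) r1 r2 N f‖ ≤ ε * ∏ J ∈ X, ∑ p ∈ W J, 2 / (p : ℝ)

/-- there are classes of forms, so `d > 0` -/
theorem d_pos {d K : ℕ} [NeZero K] (e : Fin (mm d K 0)) : 0 < d := by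
  have h1 : mm d K 0 ≠ 0 := fun h => (h ▸ e).elim0
  have h2 := mm_le (d := d) (K := K) 0
  have h3 : 0 < Fintype.card (Cl d) := by
    by_contra h4
    have h5 : Fintype.card (Cl d) = 0 := by omega
    rw [h5] at h2
    omega
  obtain ⟨i⟩ := Fintype.card_pos_iff.1 h3
  have h4 := (rep_pos i).2
  rw [rep_D] at h4
  exact_mod_cast h4

end F42X

open F42X in
/-- **(X5)** -/
theorem stFrRX_of (d : ℕ) (hNull : StNull d) (hW : StWinI)
    (hF : ∀ (K : ℕ) [NeZero K], FX1 d K) : StFrRX d := by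
  classical
  intro X hX K _ r1 r2 hr1 hr12 e
  have hd : 0 < d := d_pos e
  have hK : 0 < K := Nat.pos_of_ne_zero (NeZero.ne K)
  have hr2 : 0 < r2 := hr1.trans hr12
  set q : ℕ := 4 * d with hq
  set f : Fq d K := ⟨0, e⟩ with hf
  refine reduce hNull hX hr1 hr12 _ (fun N n => bXN q X N n - (rhoX q X : ℂ)) (fun N n h => ?_)
    (fun N n => ?_) f ?_
  · unfold wrX bX bXN
    rw [if_congr h rfl rfl]
  · unfold wrX bX bXN
    rw [sub_sub_sub_cancel_right]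
    split_ifs <;> norm_num
  set R : ℝ → ℝ := fun N => ∏ J ∈ X, ∑ p ∈ WI q N J, 2 / (p : ℝ) with hR
  have hRl : Tendsto R atTop (𝓝 (rhoX q X)) := prod_lim hW (by omega) hX
  set T : ℝ := UpG70.CT d * r2 with hT
  have hT0 : 0 ≤ T := mul_nonneg (UpG70.CT_nonneg d) hr2.le
  set M : ℝ → ℂ := fun N => Freq12.Mpa (fun i v => (if ∀ J ∈ X, ∃ p ∈ WI q N J,
    (p : ℤ) ∣ (rep i).q v then (1 : ℂ) else 0) - ((R N : ℝ) : ℂ)) r1 r2 N f with hM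
  -- the main part
  have hMl : Tendsto M atTop (𝓝 0) := by
    rw [Metric.tendsto_nhds]
    intro ε hε
    obtain ⟨X0, hX0, H⟩ := hF K r1 r2 hr1.le hr12 f rfl X (ε / (2 * (|rhoX q X| + 1)))
      (by positivity)
    have h1 : ∀ᶠ N : ℝ in atTop, R N < |rhoX q X| + 1 :=
      hRl.eventually (gt_mem_nhds (by linarith [le_abs_self (rhoX q X)]))
    filter_upwards [cond hX q K X0 r2, h1] with N hc hRN
    obtain ⟨hN1, c1, c2, c3, c4, c5⟩ := hc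
    have hN : 0 < N := by linarith
    have h2 := H N (WI q N) (fun J => N ^ J.1) (fun J => N ^ J.2)
      (fun J hJ p hp => by
        obtain ⟨k1, k2, k3, -⟩ := c1 J hJ p hp
        exact F42.spl hd hK k1 k2 k3)
      (fun J hJ => ⟨Real.rpow_pos_of_pos hN _, fun p hp => (c1 J hJ p hp).2.2.2.1⟩)
      (fun J hJ => ⟨(Real.rpow_pos_of_pos hN _).le, fun p hp => (c1 J hJ p hp).2.2.2.2⟩)
      c2 c3 c4 c5
    rw [dist_zero_right]
    have h3 : ‖M N‖ ≤ ε / (2 * (|rhoX q X| + 1)) * R N := by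
      refine le_trans (le_of_eq ?_) h2
      rw [hM]
    have h4 : ε / (2 * (|rhoX q X| + 1)) * R N ≤ ε / (2 * (|rhoX q X| + 1)) * (|rhoX q X| + 1) :=
      mul_le_mul_of_nonneg_left hRN.le (by positivity)
    have h5 : ε / (2 * (|rhoX q X| + 1)) * (|rhoX q X| + 1) = ε / 2 := by
      have : |rhoX q X| + 1 ≠ 0 := by positivity
      field_simp
    linarith
  -- the difference
  have hD : ∀ N : ℝ, 0 < N → ‖Mpw (fun n => bXN q X N n - (rhoX q X : ℂ)) r1 r2 N f - M N‖ ≤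
      |R N - rhoX q X| * T := by
    intro N hN
    rw [hM]
    unfold Mpw Freq12.Mpa
    rw [← mul_sub, ← sum_sub_distrib, norm_mul, norm_div, norm_one, Complex.norm_real,
      Real.norm_of_nonneg hN.le]
    have hterm : ∀ i : Cl d, ‖(∑ v ∈ (Shg i (r1 * N) (r2 * N)).filter Prim,
        gw (fun n => bXN q X N n - (rhoX q X : ℂ)) (rep i) v * ch f i v) -
        ∑ v ∈ (Shg i (r1 * N) (r2 * N)).filter Prim,
        ((if ∀ J ∈ X, ∃ p ∈ WI q N J, (p : ℤ) ∣ (rep i).q v then (1 : ℂ) else 0) -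
          ((R N : ℝ) : ℂ)) * ch f i v‖ ≤
        |R N - rhoX q X| * (36 * ((rep i).a + (rep i).c) * (r2 * N)) := by
      intro i
      rw [← sum_sub_distrib]
      have hpt : ∀ v ∈ (Shg i (r1 * N) (r2 * N)).filter Prim,
          ‖gw (fun n => bXN q X N n - (rhoX q X : ℂ)) (rep i) v * ch f i v -
          ((if ∀ J ∈ X, ∃ p ∈ WI q N J, (p : ℤ) ∣ (rep i).q v then (1 : ℂ) else 0) -
          ((R N : ℝ) : ℂ)) * ch f i v‖ ≤ |R N - rhoX q X| := by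
        intro v hv
        have hne : v ≠ 0 := (mem_Shg.1 (mem_filter.1 hv).1).1
        have hch : ‖ch f i v‖ ≤ 1 := norm_ch_le f i hne
        have e7 : gw (fun n => bXN q X N n - (rhoX q X : ℂ)) (rep i) v -
            ((if ∀ J ∈ X, ∃ p ∈ WI q N J, (p : ℤ) ∣ (rep i).q v then (1 : ℂ) else 0) -
            ((R N : ℝ) : ℂ)) = ((R N - rhoX q X : ℝ) : ℂ) := by
          unfold gw bXN
          dsimp only
          rw [if_congr (winXN_iff hN.le) rfl rfl]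
          push_cast
          ring
        rw [← sub_mul, e7, norm_mul, Complex.norm_real, Real.norm_eq_abs]
        calc |R N - rhoX q X| * ‖ch f i v‖ ≤ |R N - rhoX q X| * 1 :=
              mul_le_mul_of_nonneg_left hch (abs_nonneg _)
          _ = _ := mul_one _
      refine (norm_sum_le _ _).trans ((sum_le_sum hpt).trans ?_)
      rw [sum_const, nsmul_eq_mul, mul_comm]
      refine mul_le_mul_of_nonneg_left ?_ (abs_nonneg _)
      refine le_trans ?_ (UpG70.card_Shg i (a := r1 * N) (b := r2 * N) (by positivity))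
      exact_mod_cast card_le_card (filter_subset _ _)
    calc 1 / N * ‖∑ i : Cl d, ((∑ v ∈ (Shg i (r1 * N) (r2 * N)).filter Prim,
        gw (fun n => bXN q X N n - (rhoX q X : ℂ)) (rep i) v * ch f i v) -
        ∑ v ∈ (Shg i (r1 * N) (r2 * N)).filter Prim,
        ((if ∀ J ∈ X, ∃ p ∈ WI q N J, (p : ℤ) ∣ (rep i).q v then (1 : ℂ) else 0) -
          ((R N : ℝ) : ℂ)) * ch f i v)‖
        ≤ 1 / N * ∑ i : Cl d, |R N - rhoX q X| * (36 * ((rep i).a + (rep i).c) * (r2 * N)) := by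
          refine mul_le_mul_of_nonneg_left ?_ (by positivity)
          exact (norm_sum_le _ _).trans (sum_le_sum fun i _ => hterm i)
      _ = |R N - rhoX q X| * T := by
          rw [← mul_sum, ← sum_mul, hT]
          unfold UpG70.CT
          field_simp
  have hDl : Tendsto (fun N : ℝ => Mpw (fun n => bXN q X N n - (rhoX q X : ℂ)) r1 r2 N f - M N)
      atTop (𝓝 0) := by
    have h1 : Tendsto (fun N : ℝ => |R N - rhoX q X| * T) atTop (𝓝 0) := by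
      have h2 := (hRl.sub_const (rhoX q X)).abs.mul_const T
      simpa using h2
    refine squeeze_zero_norm' ?_ h1
    filter_upwards [eventually_gt_atTop 0] with N hN
    exact hD N hN
  have h5 := hDl.add hMl
  simpa using h5

open F42X in
/-- **(X6)** -/
theorem stFrZX_of (d : ℕ) (hNull : StNull d) (hW : StWinI)
    (hF : ∀ (K : ℕ) [NeZero K], FXN d K) : StFrZX d := by
  classical
  intro X hX z k hk hzk hz1 K _ r1 r2 hr1 hr12 e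
  have hz : ‖z‖ = 1 := Complex.norm_eq_one_of_pow_eq_one hzk hk.ne'
  have hd : 0 < d := d_pos e
  have hK : 0 < K := Nat.pos_of_ne_zero (NeZero.ne K)
  set q : ℕ := 4 * d with hq
  set f : Fq d K := ⟨0, e⟩ with hf
  refine reduce hNull hX hr1 hr12 _ (fun N n => z ^ Omn n * bXN q X N n) (fun N n h => ?_)
    (fun N n => ?_) f ?_
  · unfold wzX bX bXN
    rw [if_congr h rfl rfl]
  · unfold wzX bX bXN
    rw [← mul_sub, norm_mul, norm_pow, hz, one_pow, one_mul]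
    split_ifs <;> norm_num
  set R : ℝ → ℝ := fun N => ∏ J ∈ X, ∑ p ∈ WI q N J, 2 / (p : ℝ) with hR
  have hRl : Tendsto R atTop (𝓝 (rhoX q X)) := prod_lim hW (by omega) hX
  rw [Metric.tendsto_nhds]
  intro ε hε
  obtain ⟨X0, hX0, H⟩ := hF K z k hk hzk hz1 r1 r2 hr1.le hr12 f rfl X
    (ε / (2 * (|rhoX q X| + 1))) (by positivity)
  have h1 : ∀ᶠ N : ℝ in atTop, R N < |rhoX q X| + 1 :=
    hRl.eventually (gt_mem_nhds (by linarith [le_abs_self (rhoX q X)]))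
  filter_upwards [cond hX q K X0 r2, h1] with N hc hRN
  obtain ⟨hN1, c1, c2, c3, c4, c5⟩ := hc
  have hN : 0 < N := by linarith
  have h2 := H N (WI q N) (fun J => N ^ J.1) (fun J => N ^ J.2)
    (fun J hJ p hp => by
      obtain ⟨k1, k2, k3, -⟩ := c1 J hJ p hp
      exact F42.spl hd hK k1 k2 k3)
    (fun J hJ => ⟨Real.rpow_pos_of_pos hN _, fun p hp => (c1 J hJ p hp).2.2.2.1⟩)
    (fun J hJ => ⟨(Real.rpow_pos_of_pos hN _).le, fun p hp => (c1 J hJ p hp).2.2.2.2⟩)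
    c2 c3 c4 c5
  rw [dist_zero_right]
  have h3 : ‖Mpw (fun n => z ^ Omn n * bXN q X N n) r1 r2 N f‖ ≤
      ε / (2 * (|rhoX q X| + 1)) * R N := by
    refine le_trans (le_of_eq ?_) h2
    unfold Mpw Freq12.Mpa
    congr 2
    refine sum_congr rfl fun i _ => sum_congr rfl fun v _ => ?_
    congr 1
    unfold gw gz bXN
    dsimp only
    rw [if_congr (winXN_iff hN.le) rfl rfl]
    split_ifs <;> simp [Omn]
  have h4 : ε / (2 * (|rhoX q X| + 1)) * R N ≤ ε / (2 * (|rhoX q X| + 1)) * (|rhoX q X| + 1) :=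
    mul_le_mul_of_nonneg_left hRN.le (by positivity)
  have h5 : ε / (2 * (|rhoX q X| + 1)) * (|rhoX q X| + 1) = ε / 2 := by
    have : |rhoX q X| + 1 ≠ 0 := by positivity
    field_simp
  linarith

end Pool.Agent.Lib.MP_a17b09_nt.PQ
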