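import Pool.Agent.Lib.MP_a17b09_nt.PQ.Stmts79
import Pool.Agent.Lib.MP_a17b09_nt.MRS.EndJ90

/-!
Project PQ, module T3 (helper64): the count of the pairs with both windows and prescribed classes,
from the twisted sums (Fourier inversion).
-/

set_option autoImplicit false

open Filter Topology Finset

namespace Pool.Agent.Lib.MP_a17b09_nt.PQ

open CH CH.PE

namespace T64

/-- equal shares, the total known in mean -/
theorem shareM (M : LMean) {ι : Type} (P : Finset ι) (C : ι → ℕ → ℝ)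
    (hb : ∀ i ∈ P, Bdd (fun N => C i N / N))
    (hinv : ∀ i ∈ P, ∀ j ∈ P, M.E (fun N => |C i N - C j N| / N) = 0) {κ : ℝ}
    (hT0 : M.E (fun N : ℕ => |(∑ j ∈ P, C j N) / N - κ|) = 0) (i : ι) (hi : i ∈ P) :
    M.E (fun N => |C i N / N - κ / P.card|) = 0 := by
  have hP0 : 0 < P.card := Finset.card_pos.2 ⟨i, hi⟩
  have hP0' : (0 : ℝ) < P.card := by exact_mod_cast hP0
  have e0 : ∀ (x y : ℝ) (N : ℕ), |x / N - y / N| = |x - y| / N := by
    intro x y N
    rw [← sub_div, abs_div, Nat.abs_cast]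
  have hbd : ∀ j ∈ P, Bdd (fun N => |C i N - C j N| / (N : ℝ)) := by
    intro j hj
    have := ((hb i hi).sub (hb j hj)).abs
    simpa only [e0] using this
  have hTb : Bdd (fun N : ℕ => (∑ j ∈ P, C j N) / (N : ℝ)) := by
    have h1 : (fun N : ℕ => (∑ j ∈ P, C j N) / (N : ℝ)) = fun N => ∑ j ∈ P, C j N / N := by
      funext N
      rw [Finset.sum_div]
    rw [h1]
    exact Bdd.sum _ _ hb
  have hsumb : Bdd (fun N : ℕ => ∑ j ∈ P, |C i N - C j N| / (N : ℝ)) := Bdd.sum _ _ hbd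
  have hfin : M.E (fun N => |C i N / N - κ / P.card|) ≤ M.E (fun N : ℕ => (1 / (P.card : ℝ)) *
      (∑ j ∈ P, |C i N - C j N| / N + |(∑ j ∈ P, C j N) / N - κ|)) := by
    refine M.mono ((hb i hi).sub (Bdd.const _)).abs
      ((hsumb.add (hTb.sub (Bdd.const κ)).abs).smul _) fun N => ?_
    have e1 : C i N / N - κ / P.card = (1 / (P.card : ℝ)) * ((∑ j ∈ P, (C i N - C j N) / N) +
        ((∑ j ∈ P, C j N) / N - κ)) := by
      rw [← Finset.sum_div, Finset.sum_sub_distrib, Finset.sum_const, nsmul_eq_mul]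
      field_simp
      ring
    rw [e1, abs_mul, abs_of_pos (by positivity : (0 : ℝ) < 1 / P.card)]
    refine mul_le_mul_of_nonneg_left ((abs_add_le _ _).trans (add_le_add ?_ le_rfl))
      (by positivity)
    refine (Finset.abs_sum_le_sum_abs _ _).trans (Finset.sum_le_sum fun j _ => ?_)
    rw [abs_div, Nat.abs_cast]
  rw [M.smul _ _ (hsumb.add (hTb.sub (Bdd.const κ)).abs),
    M.add _ _ hsumb (hTb.sub (Bdd.const κ)).abs, hT0, M.sum _ _ hbd] at hfin
  rw [Finset.sum_congr rfl fun j hj => hinv i hi j hj] at hfin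
  simp only [Finset.sum_const_zero, add_zero, mul_zero] at hfin
  exact le_antisymm hfin (M.nonneg _ ((hb i hi).sub (Bdd.const _)).abs fun N => abs_nonneg _)

open Classical in
/-- the near divisors with both windows -/
noncomputable def NW (a b c : ℤ) (α β : ℝ) (q : ℕ) (δ : ℝ) (t : ℕ) : Finset ℕ :=
  (nearG a b c α β t).filter (fun d => Win q δ d ∧
    Win q δ (a.natAbs * ((fv a b c t).natAbs / d)))

theorem CW_eq (a b c : ℤ) (α β : ℝ) (h t0 q : ℕ) (δ : ℝ) (k r s N : ℕ) :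
    CW a b c α β h t0 q δ k r s N = ∑ t ∈ (Finset.Icc 1 N).filter (fun t => t ≡ t0 [MOD h]),
      ((NW a b c α β q δ t).filter (fun d => Omn d ≡ r [MOD k] ∧
        Omn ((fv a b c t).natAbs / d) ≡ s [MOD k])).card := by
  classical
  unfold CW NW
  refine Finset.sum_congr rfl fun t _ => ?_
  rw [Finset.filter_filter]
  congr 1
  ext d
  simp only [Finset.mem_filter]
  tauto

/-- the classes together are all pairs -/
theorem NW_sum (a b c : ℤ) (α β : ℝ) (h t0 q : ℕ) (δ : ℝ) {k : ℕ} (hk : 0 < k) (N : ℕ) :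
    ∑ p ∈ range k ×ˢ range k, CW a b c α β h t0 q δ k p.1 p.2 N =
      ∑ t ∈ (Finset.Icc 1 N).filter (fun t => t ≡ t0 [MOD h]), (NW a b c α β q δ t).card := by
  rw [Finset.sum_congr rfl fun p _ => CW_eq a b c α β h t0 q δ k p.1 p.2 N, Finset.sum_comm]
  apply Finset.sum_congr rfl
  intro t _
  have h2 := Finset.card_eq_sum_card_fiberwise (s := NW a b c α β q δ t)
    (t := range k ×ˢ range k)
    (f := fun d => (Omn d % k, Omn ((fv a b c t).natAbs / d) % k)) (by
      intro d _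
      simp only [Finset.coe_product, Set.mem_prod, Finset.mem_coe, Finset.mem_range]
      exact ⟨Nat.mod_lt _ hk, Nat.mod_lt _ hk⟩)
  rw [h2]
  apply Finset.sum_congr rfl
  rintro ⟨r, s⟩ hp
  rw [Finset.mem_product, Finset.mem_range, Finset.mem_range] at hp
  congr 1
  apply Finset.filter_congr
  intro d _
  simp only [Prod.mk.injEq]
  unfold Nat.ModEq
  rw [Nat.mod_eq_of_lt hp.1, Nat.mod_eq_of_lt hp.2]

/-- the twisted sum with the two windows -/
theorem TwW_eq {a b c : ℤ} (ha : 0 < a) (α β : ℝ) (h t0 q : ℕ) (δ : ℝ) (z1 z2 : ℂ) (N : ℕ) :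
    TwW a b c α β h t0 (wz1 z1 q δ) (wz1 z2 q δ) N = z2 ^ Omn a.natAbs *
      ∑ t ∈ (Finset.Icc 1 N).filter (fun t => t ≡ t0 [MOD h]),
        ∑ d ∈ NW a b c α β q δ t, z1 ^ Omn d * z2 ^ Omn ((fv a b c t).natAbs / d) := by
  classical
  unfold TwW NW
  rw [Finset.mul_sum]
  refine Finset.sum_congr rfl fun t _ => ?_
  rw [Finset.sum_filter, Finset.mul_sum]
  refine Finset.sum_congr rfl fun d hd => ?_
  unfold nearG at hd
  obtain ⟨hd1, -⟩ := Finset.mem_filter.1 hd
  rw [Nat.mem_divisors] at hd1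
  obtain ⟨hd2, hd3⟩ := hd1
  have hq0 : (fv a b c t).natAbs / d ≠ 0 := by
    intro h0
    have := Nat.mul_div_cancel' hd2
    rw [h0, mul_zero] at this
    exact hd3 this.symm
  have ha0 : a.natAbs ≠ 0 := Int.natAbs_ne_zero.2 ha.ne'
  have hO : Omn (a.natAbs * ((fv a b c t).natAbs / d)) =
      Omn a.natAbs + Omn ((fv a b c t).natAbs / d) :=
    ArithmeticFunction.cardFactors_mul ha0 hq0
  unfold wz1 bb
  rw [hO]
  by_cases h1 : Win q δ d
  · by_cases h2 : Win q δ (a.natAbs * ((fv a b c t).natAbs / d))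
    · rw [if_pos h1, if_pos h2, if_pos ⟨h1, h2⟩, pow_add]
      ring
    · simp [h2]
  · simp [h1]

theorem TwW_bb (a b c : ℤ) (α β : ℝ) (h t0 q : ℕ) (δ : ℝ) (N : ℕ) :
    TwW a b c α β h t0 (bb q δ) (bb q δ) N =
      (((∑ t ∈ (Finset.Icc 1 N).filter (fun t => t ≡ t0 [MOD h]),
        (NW a b c α β q δ t).card : ℕ) : ℝ) : ℂ) := by
  classical
  unfold TwW NW
  push_cast
  refine Finset.sum_congr rfl fun t _ => ?_
  rw [Finset.card_filter]
  push_cast
  refine Finset.sum_congr rfl fun d _ => ?_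
  unfold bb
  by_cases h1 : Win q δ d
  · by_cases h2 : Win q δ (a.natAbs * ((fv a b c t).natAbs / d))
    · rw [if_pos h1, if_pos h2, if_pos ⟨h1, h2⟩, mul_one]
    · simp [h2]
  · simp [h1]

theorem TwW_one (a b c : ℤ) (α β : ℝ) (h t0 N : ℕ) :
    TwW a b c α β h t0 (fun _ => 1) (fun _ => 1) N =
      ((CST a b c α β h t0 1 0 0 N : ℝ) : ℂ) := by
  unfold TwW CST
  push_cast
  refine Finset.sum_congr rfl fun t _ => ?_
  have h1 : (nearG a b c α β t).filter (fun d => Omn d ≡ 0 [MOD 1] ∧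
      Omn ((fv a b c t).natAbs / d) ≡ 0 [MOD 1]) = nearG a b c α β t := by
    apply Finset.filter_true_of_mem
    intro d _
    exact ⟨Nat.modEq_one, Nat.modEq_one⟩
  rw [h1, Finset.sum_congr rfl fun d _ => mul_one (1 : ℂ), Finset.sum_const, nsmul_eq_mul,
    mul_one]

theorem NW_le (a b c : ℤ) (α β : ℝ) (h t0 q : ℕ) (δ : ℝ) (N : ℕ) :
    ∑ t ∈ (Finset.Icc 1 N).filter (fun t => t ≡ t0 [MOD h]), (NW a b c α β q δ t).card ≤
      CST a b c α β h t0 1 0 0 N := by
  classical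
  unfold CST
  refine Finset.sum_le_sum fun t _ => Finset.card_le_card fun d hd => ?_
  unfold NW at hd
  rw [Finset.mem_filter] at hd ⊢
  exact ⟨hd.1, Nat.modEq_one, Nat.modEq_one⟩

/-- linear bound from the limit -/
theorem lin_of_lim {a b c : ℤ} {α β : ℝ} {h t0 : ℕ} {κ : ℝ}
    (hlim : Tendsto (fun N : ℕ => (CST a b c α β h t0 1 0 0 N : ℝ) / N) atTop (𝓝 κ)) :
    ∃ C : ℝ, 0 ≤ C ∧ ∀ N : ℕ, (CST a b c α β h t0 1 0 0 N : ℝ) ≤ C * N := by
  obtain ⟨C, hC⟩ := hlim.bddAbove_range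
  refine ⟨|C|, abs_nonneg C, fun N => ?_⟩
  rcases Nat.eq_zero_or_pos N with h0 | h0
  · subst h0
    unfold CST
    simp
  · have h0' : (0 : ℝ) < N := by exact_mod_cast h0
    have h1 : (CST a b c α β h t0 1 0 0 N : ℝ) / N ≤ C := hC ⟨N, rfl⟩
    rw [div_le_iff₀ h0'] at h1
    exact h1.trans (mul_le_mul_of_nonneg_right (le_abs_self C) h0'.le)

/-- a nonnegative quantity at most `C N` -/
theorem bdd_of_le {F : ℕ → ℝ} {C : ℝ} (hC : 0 ≤ C) (h0 : ∀ N, 0 ≤ F N)
    (h : ∀ N : ℕ, F N ≤ C * N) : Bdd (fun N : ℕ => F N / N) := by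
  refine ⟨C, fun N => ?_⟩
  rw [abs_of_nonneg (div_nonneg (h0 N) (Nat.cast_nonneg N))]
  rcases Nat.eq_zero_or_pos N with hN | hN
  · subst hN; simpa using hC
  · have hN' : (0 : ℝ) < N := by exact_mod_cast hN
    rw [div_le_iff₀ hN']
    exact h N

end T64

open T64 in
/-- (T3) the count -/
theorem stFinW_64 (hTw : StTwB) : StFinW := by
  intro a b c ha hD q hq δ hδ0 hδ1 h hh t0 α β hα hαβ κ hκ hlim k hk r s M
  obtain ⟨hZ, hB⟩ := hTw a b c ha hD q hq δ hδ0 hδ1 h hh t0 α β hα hαβ M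
  obtain ⟨C, hC0, hC⟩ := lin_of_lim hlim
  set T : ℕ → Finset ℕ := fun N => (Finset.Icc 1 N).filter (fun t => t ≡ t0 [MOD h]) with hT
  set tot : ℕ → ℕ := fun N => ∑ t ∈ T N, (NW a b c α β q δ t).card with htot
  have htotC : ∀ N : ℕ, (tot N : ℝ) ≤ C * N := fun N =>
    le_trans (by exact_mod_cast NW_le a b c α β h t0 q δ N) (hC N)
  have hle : ∀ r s N : ℕ, CW a b c α β h t0 q δ k r s N ≤ tot N := by
    intro r s N
    rw [CW_eq]
    exact Finset.sum_le_sum fun t _ => Finset.card_filter_le _ _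
  have hbC : ∀ r s : ℕ, Bdd (fun N : ℕ => (CW a b c α β h t0 q δ k r s N : ℝ) / N) := by
    intro r s
    refine bdd_of_le hC0 (fun N => Nat.cast_nonneg _) fun N => ?_
    exact le_trans (by exact_mod_cast hle r s N) (htotC N)
  have hbT : Bdd (fun N : ℕ => (tot N : ℝ) / N) :=
    bdd_of_le hC0 (fun N => Nat.cast_nonneg _) htotC
  have hbS : Bdd (fun N : ℕ => (CST a b c α β h t0 1 0 0 N : ℝ) / N) :=
    bdd_of_le hC0 (fun N => Nat.cast_nonneg _) hC
  -- the total
  have hT0 : M.E (fun N : ℕ => |(tot N : ℝ) / N - rho q δ ^ 2 * κ|) = 0 := by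
    have b1 : Bdd (fun N : ℕ => |(tot N : ℝ) / N - rho q δ ^ 2 *
        ((CST a b c α β h t0 1 0 0 N : ℝ) / N)|) := (hbT.sub (hbS.smul _)).abs
    have b2 : Bdd (fun N : ℕ => |(CST a b c α β h t0 1 0 0 N : ℝ) / N - κ|) :=
      (hbS.sub (Bdd.const κ)).abs
    have e1 : M.E (fun N : ℕ => |(tot N : ℝ) / N - rho q δ ^ 2 *
        ((CST a b c α β h t0 1 0 0 N : ℝ) / N)|) = 0 := by
      refine Eq.trans ?_ hB
      congr 1
      funext N
      rw [TwW_bb, TwW_one]
      have e2 : ((((∑ t ∈ (Finset.Icc 1 N).filter (fun t => t ≡ t0 [MOD h]),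
          (NW a b c α β q δ t).card : ℕ) : ℝ) : ℂ) - (rho q δ : ℂ) ^ 2 *
          ((CST a b c α β h t0 1 0 0 N : ℝ) : ℂ)) =
          (((tot N : ℝ) - rho q δ ^ 2 * (CST a b c α β h t0 1 0 0 N : ℝ) : ℝ) : ℂ) := by
        simp only [htot, hT]
        push_cast
        ring
      rw [e2, Complex.norm_real, Real.norm_eq_abs, mul_div_assoc', ← sub_div, abs_div,
        Nat.abs_cast]
    have e3 : M.E (fun N : ℕ => |(CST a b c α β h t0 1 0 0 N : ℝ) / N - κ|) = 0 := by
      apply M.null _ b2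
      have h1 := (hlim.sub_const κ).abs
      simpa using h1
    refine le_antisymm ?_ (M.nonneg _ (hbT.sub (Bdd.const _)).abs fun N => abs_nonneg _)
    calc M.E (fun N : ℕ => |(tot N : ℝ) / N - rho q δ ^ 2 * κ|) ≤
        M.E (fun N : ℕ => |(tot N : ℝ) / N - rho q δ ^ 2 *
          ((CST a b c α β h t0 1 0 0 N : ℝ) / N)| + rho q δ ^ 2 *
          |(CST a b c α β h t0 1 0 0 N : ℝ) / N - κ|) := by
          refine M.mono (hbT.sub (Bdd.const _)).abs (b1.add (b2.smul _)) fun N => ?_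
          have e4 : (tot N : ℝ) / N - rho q δ ^ 2 * κ = ((tot N : ℝ) / N - rho q δ ^ 2 *
              ((CST a b c α β h t0 1 0 0 N : ℝ) / N)) + rho q δ ^ 2 *
              ((CST a b c α β h t0 1 0 0 N : ℝ) / N - κ) := by ring
          rw [e4]
          refine (abs_add_le _ _).trans (add_le_add le_rfl ?_)
          rw [abs_mul, abs_of_nonneg (sq_nonneg (rho q δ))]
      _ = 0 := by
          rw [M.add _ _ b1 (b2.smul _), M.smul _ _ b2, e1, e3, mul_zero, add_zero]
  -- the shares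
  have hsh := shareM M (range k ×ˢ range k)
    (fun p N => (CW a b c α β h t0 q δ k p.1 p.2 N : ℝ)) (fun p _ => hbC p.1 p.2)
    (fun p _ p' _ => by
      have h1 := TopJ90.inv2 M k hk T (NW a b c α β q δ) (fun _ d => Omn d)
        (fun t d => Omn ((fv a b c t).natAbs / d)) ⟨C, htotC⟩ (fun z1 z2 h1 h2 h3 => by
          have hn2 : ‖z2‖ = 1 := Complex.norm_eq_one_of_pow_eq_one h2 hk.ne'
          refine Eq.trans ?_ (hZ z1 z2 k hk h1 h2 h3)
          congr 1
          funext N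
          rw [TwW_eq ha, norm_mul, norm_pow, hn2, one_pow, one_mul]) p.1 p.2 p'.1 p'.2
      refine Eq.trans ?_ h1
      congr 1
      funext N
      rw [CW_eq, CW_eq])
    (κ := rho q δ ^ 2 * κ) (by
      refine Eq.trans ?_ hT0
      congr 1
      funext N
      have h1 := NW_sum a b c α β h t0 q δ hk N
      have h2 : (∑ p ∈ range k ×ˢ range k, (CW a b c α β h t0 q δ k p.1 p.2 N : ℝ)) =
          (tot N : ℝ) := by
        rw [htot]
        beta_reduce
        rw [← h1]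
        push_cast
        rfl
      rw [h2]) (r % k, s % k) (by
      rw [Finset.mem_product, Finset.mem_range, Finset.mem_range]
      exact ⟨Nat.mod_lt _ hk, Nat.mod_lt _ hk⟩)
  have hcard : ((range k ×ˢ range k).card : ℝ) = (k : ℝ) ^ 2 := by
    rw [Finset.card_product, Finset.card_range]
    push_cast
    ring
  rw [hcard] at hsh
  refine Eq.trans ?_ hsh
  congr 1
  funext N
  have h3 : CW a b c α β h t0 q δ k r s N = CW a b c α β h t0 q δ k (r % k) (s % k) N := by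
    rw [CW_eq, CW_eq]
    refine Finset.sum_congr rfl fun t _ => ?_
    congr 1
    apply Finset.filter_congr
    intro d _
    unfold Nat.ModEq
    rw [Nat.mod_mod, Nat.mod_mod]
  rw [h3]

end Pool.Agent.Lib.MP_a17b09_nt.PQ
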