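import Pool.Agent.Lib.MP_a17b09_nt.PQ.T3_64

/-!
Project PQ, T2: the twisted sums with the two windows vanish in mean, from the rows M10, N2, N3, F4,
F5, F6, E2, E4, T1 and the count `StMainS` (for the boundedness).
-/

set_option autoImplicit false

open Filter Topology Finset

namespace Pool.Agent.Lib.MP_a17b09_nt.PQ

open CH CH.PE MRSG MRS

namespace T20

theorem b1_one : B1 (fun _ => 1) := fun _ => by
  rw [norm_one]

theorem b1_bb (q : ℕ) (δ : ℝ) : B1 (bb q δ) := fun n => by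
  unfold bb
  split_ifs
  · rw [norm_one]
  · rw [norm_zero]
    exact zero_le_one

theorem b1_wz1 {z : ℂ} (hz : ‖z‖ = 1) (q : ℕ) (δ : ℝ) : B1 (wz1 z q δ) := fun n => by
  unfold wz1
  rw [norm_mul, norm_pow, hz, one_pow, one_mul]
  exact b1_bb q δ n

theorem b1_wr {q : ℕ} {δ : ℝ} (h0 : 0 < rho q δ) (h1 : rho q δ ≤ 1) : B1 (wr q δ) := fun n => by
  unfold wr bb
  split_ifs
  · have e : (1 : ℂ) - (rho q δ : ℂ) = ((1 - rho q δ : ℝ) : ℂ) := by
      push_cast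
      ring
    rw [e, Complex.norm_real, Real.norm_eq_abs, abs_le]
    constructor <;> linarith
  · rw [zero_sub, norm_neg, Complex.norm_real, Real.norm_eq_abs, abs_of_pos h0]
    exact h1

theorem wz1_one (q : ℕ) (δ : ℝ) : wz1 1 q δ = bb q δ := by
  funext n
  unfold wz1
  rw [one_pow, one_mul]

theorem fin_wz1 {z : ℂ} {k : ℕ} (hk : 0 < k) (hz : z ^ k = 1) (q : ℕ) (δ : ℝ) :
    (Set.range (wz1 z q δ)).Finite := by
  have hf : (insert (0 : ℂ) ((fun j : ℕ => z ^ j) '' Set.Iio k)).Finite :=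
    ((Set.finite_Iio k).image _).insert 0
  refine hf.subset ?_
  rintro x ⟨n, rfl⟩
  unfold wz1 bb
  split_ifs
  · refine Set.mem_insert_of_mem _ ⟨Omn n % k, Nat.mod_lt _ hk, ?_⟩
    have e : z ^ Omn n = z ^ (Omn n % k) := by
      conv_lhs => rw [← Nat.div_add_mod (Omn n) k]
      rw [pow_add, pow_mul, hz, one_pow, one_mul]
    show z ^ (Omn n % k) = z ^ Omn n * 1
    rw [mul_one, e]
  · rw [mul_zero]
    exact Set.mem_insert _ _

theorem fin_wr (q : ℕ) (δ : ℝ) : (Set.range (wr q δ)).Finite := by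
  have hf : ({1 - (rho q δ : ℂ), 0 - (rho q δ : ℂ)} : Set ℂ).Finite := Set.toFinite _
  refine hf.subset ?_
  rintro x ⟨n, rfl⟩
  unfold wr bb
  split_ifs
  · exact Or.inl rfl
  · exact Or.inr rfl

theorem fin_one : (Set.range (fun _ : ℕ => (1 : ℂ))).Finite := by
  refine (Set.finite_singleton (1 : ℂ)).subset ?_
  rintro x ⟨n, rfl⟩
  rfl

/-- the twisted sum is at most the number of pairs -/
theorem TwW_le (a b c : ℤ) (α β : ℝ) (h t0 : ℕ) {w1 w2 : ℕ → ℂ} (h1 : B1 w1) (h2 : B1 w2)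
    (N : ℕ) : ‖TwW a b c α β h t0 w1 w2 N‖ ≤ (CST a b c α β h t0 1 0 0 N : ℝ) := by
  unfold TwW CST
  push_cast
  refine (norm_sum_le _ _).trans (Finset.sum_le_sum fun t _ => ?_)
  have e1 : (nearG a b c α β t).filter (fun d => Omn d ≡ 0 [MOD 1] ∧
      Omn ((fv a b c t).natAbs / d) ≡ 0 [MOD 1]) = nearG a b c α β t := by
    apply Finset.filter_true_of_mem
    intro d _
    exact ⟨Nat.modEq_one, Nat.modEq_one⟩
  rw [e1]
  refine (norm_sum_le _ _).trans ?_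
  calc ∑ d ∈ nearG a b c α β t, ‖w1 d * w2 (a.natAbs * ((fv a b c t).natAbs / d))‖
      ≤ ∑ _d ∈ nearG a b c α β t, (1 : ℝ) := by
        refine Finset.sum_le_sum fun d _ => ?_
        rw [norm_mul]
        have a1 := h1 d
        have a2 := h2 (a.natAbs * ((fv a b c t).natAbs / d))
        calc ‖w1 d‖ * ‖w2 (a.natAbs * ((fv a b c t).natAbs / d))‖ ≤ 1 * 1 :=
              mul_le_mul a1 a2 (norm_nonneg _) zero_le_one
          _ = 1 := one_mul 1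
    _ = ((nearG a b c α β t).card : ℝ) := by
        rw [Finset.sum_const, nsmul_eq_mul, mul_one]

/-- `b ⊗ b - ρ² = (b - ρ) ⊗ b + ρ (1 ⊗ (b - ρ))` -/
theorem split (a b c : ℤ) (α β : ℝ) (h t0 q : ℕ) (δ : ℝ) (N : ℕ) :
    TwW a b c α β h t0 (bb q δ) (bb q δ) N - (rho q δ : ℂ) ^ 2 *
      TwW a b c α β h t0 (fun _ => 1) (fun _ => 1) N =
    TwW a b c α β h t0 (wr q δ) (bb q δ) N + (rho q δ : ℂ) *
      TwW a b c α β h t0 (fun _ => 1) (wr q δ) N := by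
  unfold TwW
  rw [Finset.mul_sum, Finset.mul_sum, ← Finset.sum_sub_distrib, ← Finset.sum_add_distrib]
  refine Finset.sum_congr rfl fun t _ => ?_
  rw [Finset.mul_sum, Finset.mul_sum, ← Finset.sum_sub_distrib, ← Finset.sum_add_distrib]
  refine Finset.sum_congr rfl fun d _ => ?_
  unfold wr
  ring

/-- the twisted sums of two weights, one of them with small mean squares -/
theorem tw (hEs : StEsW) (hAm : StAmW) (hTw : StTwW) {a b c : ℤ} (ha : 0 < a)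
    (hD : b ^ 2 - 4 * a * c < 0) {z1 z2 : ℂ} (hz1 : ‖z1‖ = 1) (hz2 : ‖z2‖ = 1) {w1 w2 : ℕ → ℂ}
    (h1 : B1 w1) (h2 : B1 w2) (f1 : (Set.range w1).Finite) (f2 : (Set.range w2).Finite)
    (hd1 : ∀ (ι : Type) [Fintype ι] (S : System ι), (S.d : ℤ) = 4 * a * c - b ^ 2 → DilW S z1 w1)
    (hd2 : ∀ (ι : Type) [Fintype ι] (S : System ι), (S.d : ℤ) = 4 * a * c - b ^ 2 → DilW S z2 w2)
    (hM : (∀ Q : Form, Q.Pos → Q.D = 4 * a * c - b ^ 2 → ∀ K : ℕ, 0 < K → MrsQw Q w1 K) ∨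
      (∀ Q : Form, Q.Pos → Q.D = 4 * a * c - b ^ 2 → ∀ K : ℕ, 0 < K → MrsQw Q w2 K))
    {h : ℕ} (hh : 0 < h) (t0 : ℕ) {α β : ℝ} (hα : 0 < α) (hαβ : α < β) (M : LMean) :
    M.E (fun N : ℕ => ‖TwW a b c α β h t0 w1 w2 N‖ / N) = 0 := by
  refine hTw a b c ha hD w1 w2 h1 h2 M ?_ h hh t0 α β hα hαβ
  intro ι _ S hSd K hK om hom
  refine hAm ι S z1 z2 w1 w2 hz1 hz2 h1 h2 f1 f2 (hd1 ι S hSd) (hd2 ι S hSd) ?_ K hK om hom M
  refine hEs ι S w1 w2 h1 h2 ?_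
  rcases hM with hM | hM
  · exact Or.inl fun i K hK => hM (S.Q i) (S.pos i) (by rw [S.disc i, hSd]) K hK
  · exact Or.inr fun i K hK => hM (S.Q i) (S.pos i) (by rw [S.disc i, hSd]) K hK

end T20

open T20 in
/-- (T2) -/
theorem stTwB_20 (hMrs : ∀ d : ℕ, 0 < d → StMrsW d) (hApx : ∀ d : ℕ, 0 < d → StApx d)
    (hDil : StDilN) (hFrR : ∀ d : ℕ, 0 < d → StFrR d) (hFrZ : ∀ d : ℕ, 0 < d → StFrZ d)
    (hEs : StEsW) (hAm : StAmW) (hTw : StTwW) (hRho : StRho) (hMain : StMainS) : StTwB := by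
  intro a b c ha hD q hq δ hδ0 hδ1 h hh t0 α β hα hαβ M
  -- the discriminant
  obtain ⟨d, hd⟩ : ∃ d : ℕ, 4 * a * c - b ^ 2 = (d : ℤ) :=
    ⟨_, (Int.toNat_of_nonneg (by linarith)).symm⟩
  have hd0 : 0 < d := by
    have : (0 : ℤ) < d := by rw [← hd]; linarith
    exact_mod_cast this
  have hqd : q = 4 * d := by
    rw [hd] at hq
    exact_mod_cast hq
  have hq0 : 0 < q := by omega
  have hSq : ∀ (ι : Type) [Fintype ι] (S : System ι), (S.d : ℤ) = 4 * a * c - b ^ 2 →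
      4 * S.d = q := by
    intro ι _ S hS
    rw [hd] at hS
    have : S.d = d := by exact_mod_cast hS
    rw [this, hqd]
  obtain ⟨hρ0, hρ1⟩ := hRho q hq0 δ hδ0 hδ1
  obtain ⟨hA1, hA2⟩ := hApx d hd0 δ hδ0 hδ1
  rw [← hqd] at hA1 hA2
  have hFR : Fr0 d (wr q δ) := by
    rw [hqd]
    exact hFrR d hd0 δ hδ0 hδ1
  -- mean squares
  have hMz : ∀ (z : ℂ) (k : ℕ), 0 < k → z ^ k = 1 → z ≠ 1 →
      ∀ Q : Form, Q.Pos → Q.D = 4 * a * c - b ^ 2 → ∀ K : ℕ, 0 < K → MrsQw Q (wz1 z q δ) K := by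
    intro z k hk hz hz1 Q hQ hQD K hK
    have hzn : ‖z‖ = 1 := Complex.norm_eq_one_of_pow_eq_one hz hk.ne'
    have hFZ : Fr0 d (wz1 z q δ) := by
      rw [hqd]
      exact hFrZ d hd0 δ hδ0 hδ1 z k hk hz hz1
    exact hMrs d hd0 z hzn (1 / 4) (by norm_num) (wz1 z q δ) (b1_wz1 hzn q δ) (hA1 z hzn) hFZ Q hQ
      (by rw [hQD, hd]) K hK
  have hMr : ∀ Q : Form, Q.Pos → Q.D = 4 * a * c - b ^ 2 → ∀ K : ℕ, 0 < K →
      MrsQw Q (wr q δ) K := by
    intro Q hQ hQD K hK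
    exact hMrs d hd0 1 norm_one (1 / 4) (by norm_num) (wr q δ) (b1_wr hρ0 hρ1) hA2 hFR Q hQ
      (by rw [hQD, hd]) K hK
  -- dilations
  have hDz : ∀ z : ℂ, ‖z‖ = 1 → ∀ (ι : Type) [Fintype ι] (S : System ι),
      (S.d : ℤ) = 4 * a * c - b ^ 2 → DilW S z (wz1 z q δ) := by
    intro z hz ι _ S hS
    have h1 := (hDil ι S δ hδ0 hδ1).1 z hz
    rwa [hSq ι S hS] at h1
  have hDr : ∀ (ι : Type) [Fintype ι] (S : System ι),
      (S.d : ℤ) = 4 * a * c - b ^ 2 → DilW S 1 (wr q δ) := by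
    intro ι _ S hS
    have h1 := (hDil ι S δ hδ0 hδ1).2.1
    rwa [hSq ι S hS] at h1
  have hDb : ∀ (ι : Type) [Fintype ι] (S : System ι),
      (S.d : ℤ) = 4 * a * c - b ^ 2 → DilW S 1 (bb q δ) := by
    intro ι _ S hS
    have h1 := hDz 1 norm_one ι S hS
    rwa [wz1_one] at h1
  refine ⟨?_, ?_⟩
  · intro z1 z2 k hk h1 h2 h12
    have hn1 : ‖z1‖ = 1 := Complex.norm_eq_one_of_pow_eq_one h1 hk.ne'
    have hn2 : ‖z2‖ = 1 := Complex.norm_eq_one_of_pow_eq_one h2 hk.ne'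
    refine tw hEs hAm hTw ha hD hn1 hn2 (b1_wz1 hn1 q δ) (b1_wz1 hn2 q δ) (fin_wz1 hk h1 q δ)
      (fin_wz1 hk h2 q δ) (hDz z1 hn1) (hDz z2 hn2) ?_ hh t0 hα hαβ M
    rcases h12 with h12 | h12
    · exact Or.inl (hMz z1 k hk h1 h12)
    · exact Or.inr (hMz z2 k hk h2 h12)
  · have e1 : M.E (fun N : ℕ => ‖TwW a b c α β h t0 (wr q δ) (bb q δ) N‖ / N) = 0 :=
      tw hEs hAm hTw ha hD norm_one norm_one (b1_wr hρ0 hρ1) (b1_bb q δ) (fin_wr q δ)
        (by rw [← wz1_one]; exact fin_wz1 one_pos (one_pow 1) q δ) hDr hDb (Or.inl hMr) hh t0 hα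
        hαβ M
    have e2 : M.E (fun N : ℕ => ‖TwW a b c α β h t0 (fun _ => 1) (wr q δ) N‖ / N) = 0 :=
      tw hEs hAm hTw ha hD norm_one norm_one b1_one (b1_wr hρ0 hρ1) fin_one (fin_wr q δ)
        (fun ι _ S _ => (hDil ι S δ hδ0 hδ1).2.2) hDr (Or.inr hMr) hh t0 hα hαβ M
    obtain ⟨κ, -, hlim⟩ := hMain a b c ha hD h hh t0 α β hα hαβ
    obtain ⟨C, hC0, hC⟩ := T64.lin_of_lim hlim
    have b1 : Bdd (fun N : ℕ => ‖TwW a b c α β h t0 (wr q δ) (bb q δ) N‖ / N) :=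
      T64.bdd_of_le hC0 (fun N => norm_nonneg _) fun N =>
        (TwW_le a b c α β h t0 (b1_wr hρ0 hρ1) (b1_bb q δ) N).trans (hC N)
    have b2 : Bdd (fun N : ℕ => ‖TwW a b c α β h t0 (fun _ => 1) (wr q δ) N‖ / N) :=
      T64.bdd_of_le hC0 (fun N => norm_nonneg _) fun N =>
        (TwW_le a b c α β h t0 b1_one (b1_wr hρ0 hρ1) N).trans (hC N)
    have hle : ∀ N : ℕ, ‖TwW a b c α β h t0 (bb q δ) (bb q δ) N - (rho q δ : ℂ) ^ 2 *
        TwW a b c α β h t0 (fun _ => 1) (fun _ => 1) N‖ / N ≤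
        ‖TwW a b c α β h t0 (wr q δ) (bb q δ) N‖ / N + rho q δ *
          (‖TwW a b c α β h t0 (fun _ => 1) (wr q δ) N‖ / N) := by
      intro N
      rw [split, mul_div_assoc', ← add_div]
      refine div_le_div_of_nonneg_right ((norm_add_le _ _).trans ?_) (Nat.cast_nonneg N)
      rw [norm_mul, Complex.norm_real, Real.norm_eq_abs, abs_of_pos hρ0]
    have b3 : Bdd (fun N : ℕ => ‖TwW a b c α β h t0 (bb q δ) (bb q δ) N - (rho q δ : ℂ) ^ 2 *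
        TwW a b c α β h t0 (fun _ => 1) (fun _ => 1) N‖ / N) := by
      obtain ⟨B, hB⟩ := b1.add (b2.smul (rho q δ))
      refine ⟨B, fun N => ?_⟩
      rw [abs_of_nonneg (by positivity)]
      exact (hle N).trans ((le_abs_self _).trans (hB N))
    apply le_antisymm
    · refine (LMean.mono M b3 (b1.add (b2.smul (rho q δ))) hle).trans ?_
      rw [M.add _ _ b1 (b2.smul (rho q δ)), M.smul _ _ b2, e1, e2, mul_zero, add_zero]
    · exact M.nonneg _ b3 fun N => by positivity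

end Pool.Agent.Lib.MP_a17b09_nt.PQ
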