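import Pool.Agent.Lib.MP_a17b09_nt.PQH.XH7_98

/-!
Project PX, X7 (helper64, fork of PQ/T2_20 and PQH/XH7_98): the twisted sums with the windows `X`,
`Y` vanish in mean, negative discriminant.
-/

set_option autoImplicit false

open Filter Topology Finset

namespace Pool.Agent.Lib.MP_a17b09_nt.PQ

open CH CH.PE MRSG MRS
open PQH.XH98 (b1_bX b1_wzX b1_wrX wzX_one fin_wzX fin_wrX splitX)

/-- the weight one -/
theorem dil_one64 {ι : Type} [Fintype ι] (S : System ι) : DilW S 1 (fun _ => 1) := by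
  classical
  intro p _ _ ε hε
  refine ⟨0, fun n _ i => ?_⟩
  have e : ((S.Q i).pball n).filter (fun v => (fun _ : ℕ => (1 : ℂ))
      (p * ((S.Q i).q v).natAbs) ≠ 1 * (fun _ : ℕ => (1 : ℂ)) ((S.Q i).q v).natAbs) = ∅ := by
    apply Finset.filter_false_of_mem
    intro v _
    simp
  rw [e, Finset.card_empty]
  push_cast
  positivity

open T20 in
/-- (X7) -/
theorem stTwBX_64 (hMrs : ∀ d : ℕ, 0 < d → StMrsW d) (hApx : ∀ d : ℕ, 0 < d → StApxX d)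
    (hDil : StDilNX) (hFrR : ∀ d : ℕ, 0 < d → StFrRX d) (hFrZ : ∀ d : ℕ, 0 < d → StFrZX d)
    (hEs : StEsW) (hAm : StAmW) (hTw : StTwW) (hRho : StRhoX) (hMain : StMainS) : StTwBX := by
  intro a b c ha hD q hq X Y hX hY h hh t0 α β hα hαβ M
  -- the discriminant
  obtain ⟨d, hd⟩ : ∃ d : ℕ, 4 * a * c - b ^ 2 = (d : ℤ) :=
    ⟨_, (Int.toNat_of_nonneg (by linarith)).symm⟩
  have hd0 : 0 < d := by
    have : (0 : ℤ) < d := by rw [← hd]; linarith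
    exact_mod_cast this
  have hqd : q = 4 * d := by
    rw [hd] at hq
    exact_mod_cast hq
  have hq3 : 3 ≤ q := by omega
  have hSq : ∀ (ι : Type) [Fintype ι] (S : System ι), (S.d : ℤ) = 4 * a * c - b ^ 2 →
      4 * S.d = q := by
    intro ι _ S hS
    rw [hd] at hS
    have : S.d = d := by exact_mod_cast hS
    rw [this, hqd]
  have hρ : ∀ Z : Finset (ℝ × ℝ), GoodX Z → 0 < rhoX q Z ∧ rhoX q Z ≤ 1 := fun Z hZ =>
    hRho q hq3 Z hZ
  -- mean squares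
  have hMz : ∀ Z : Finset (ℝ × ℝ), GoodX Z → ∀ (z : ℂ) (k : ℕ), 0 < k → z ^ k = 1 → z ≠ 1 →
      ∀ Q : Form, Q.Pos → Q.D = 4 * a * c - b ^ 2 → ∀ K : ℕ, 0 < K → MrsQw Q (wzX z q Z) K := by
    intro Z hZ z k hk hz hz1 Q hQ hQD K hK
    have hzn : ‖z‖ = 1 := Complex.norm_eq_one_of_pow_eq_one hz hk.ne'
    obtain ⟨c0, hc0, hA1, -⟩ := hApx d hd0 Z hZ
    rw [← hqd] at hA1
    have hFZ : Fr0 d (wzX z q Z) := by
      rw [hqd]
      exact hFrZ d hd0 Z hZ z k hk hz hz1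
    exact hMrs d hd0 z hzn c0 hc0 (wzX z q Z) (b1_wzX hzn q Z) (hA1 z hzn) hFZ Q hQ
      (by rw [hQD, hd]) K hK
  have hMr : ∀ Z : Finset (ℝ × ℝ), GoodX Z → ∀ Q : Form, Q.Pos → Q.D = 4 * a * c - b ^ 2 →
      ∀ K : ℕ, 0 < K → MrsQw Q (wrX q Z) K := by
    intro Z hZ Q hQ hQD K hK
    obtain ⟨c0, hc0, -, hA2⟩ := hApx d hd0 Z hZ
    rw [← hqd] at hA2
    have hFR : Fr0 d (wrX q Z) := by
      rw [hqd]
      exact hFrR d hd0 Z hZ
    exact hMrs d hd0 1 norm_one c0 hc0 (wrX q Z) (b1_wrX (hρ Z hZ).1 (hρ Z hZ).2) hA2 hFR Q hQ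
      (by rw [hQD, hd]) K hK
  -- dilations
  have hDz : ∀ Z : Finset (ℝ × ℝ), GoodX Z → ∀ z : ℂ, ‖z‖ = 1 →
      ∀ (ι : Type) [Fintype ι] (S : System ι),
      (S.d : ℤ) = 4 * a * c - b ^ 2 → DilW S z (wzX z q Z) := by
    intro Z hZ z hz ι _ S hS
    have h1 := (hDil ι S Z hZ).1 z hz
    rwa [hSq ι S hS] at h1
  have hDr : ∀ Z : Finset (ℝ × ℝ), GoodX Z → ∀ (ι : Type) [Fintype ι] (S : System ι),
      (S.d : ℤ) = 4 * a * c - b ^ 2 → DilW S 1 (wrX q Z) := by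
    intro Z hZ ι _ S hS
    have h1 := (hDil ι S Z hZ).2
    rwa [hSq ι S hS] at h1
  have hDb : ∀ Z : Finset (ℝ × ℝ), GoodX Z → ∀ (ι : Type) [Fintype ι] (S : System ι),
      (S.d : ℤ) = 4 * a * c - b ^ 2 → DilW S 1 (bX q Z) := by
    intro Z hZ ι _ S hS
    have h1 := hDz Z hZ 1 norm_one ι S hS
    rwa [wzX_one] at h1
  refine ⟨?_, ?_⟩
  · intro z1 z2 k hk h1 h2 h12
    have hn1 : ‖z1‖ = 1 := Complex.norm_eq_one_of_pow_eq_one h1 hk.ne'
    have hn2 : ‖z2‖ = 1 := Complex.norm_eq_one_of_pow_eq_one h2 hk.ne'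
    refine tw hEs hAm hTw ha hD hn1 hn2 (b1_wzX hn1 q X) (b1_wzX hn2 q Y) (fin_wzX hk h1 q X)
      (fin_wzX hk h2 q Y) (hDz X hX z1 hn1) (hDz Y hY z2 hn2) ?_ hh t0 hα hαβ M
    rcases h12 with h12 | h12
    · exact Or.inl (hMz X hX z1 k hk h1 h12)
    · exact Or.inr (hMz Y hY z2 k hk h2 h12)
  · obtain ⟨hX0, hX1⟩ := hρ X hX
    obtain ⟨hY0, hY1⟩ := hρ Y hY
    have e1 : M.E (fun N : ℕ => ‖TwW a b c α β h t0 (wrX q X) (bX q Y) N‖ / N) = 0 :=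
      tw hEs hAm hTw ha hD norm_one norm_one (b1_wrX hX0 hX1) (b1_bX q Y) (fin_wrX q X)
        (by rw [← wzX_one]; exact fin_wzX one_pos (one_pow 1) q Y) (hDr X hX) (hDb Y hY)
        (Or.inl (hMr X hX)) hh t0 hα hαβ M
    have e2 : M.E (fun N : ℕ => ‖TwW a b c α β h t0 (fun _ => 1) (wrX q Y) N‖ / N) = 0 :=
      tw hEs hAm hTw ha hD norm_one norm_one b1_one (b1_wrX hY0 hY1) fin_one (fin_wrX q Y)
        (fun ι _ S _ => dil_one64 S) (hDr Y hY) (Or.inr (hMr Y hY)) hh t0 hα hαβ M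
    obtain ⟨κ, -, hlim⟩ := hMain a b c ha hD h hh t0 α β hα hαβ
    obtain ⟨C, hC0, hC⟩ := T64.lin_of_lim hlim
    have b1 : Bdd (fun N : ℕ => ‖TwW a b c α β h t0 (wrX q X) (bX q Y) N‖ / N) :=
      T64.bdd_of_le hC0 (fun N => norm_nonneg _) fun N =>
        (TwW_le a b c α β h t0 (b1_wrX hX0 hX1) (b1_bX q Y) N).trans (hC N)
    have b2 : Bdd (fun N : ℕ => ‖TwW a b c α β h t0 (fun _ => 1) (wrX q Y) N‖ / N) :=
      T64.bdd_of_le hC0 (fun N => norm_nonneg _) fun N =>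
        (TwW_le a b c α β h t0 b1_one (b1_wrX hY0 hY1) N).trans (hC N)
    have hle : ∀ N : ℕ, ‖TwW a b c α β h t0 (bX q X) (bX q Y) N -
        (rhoX q X * rhoX q Y : ℂ) *
        TwW a b c α β h t0 (fun _ => 1) (fun _ => 1) N‖ / N ≤
        ‖TwW a b c α β h t0 (wrX q X) (bX q Y) N‖ / N + rhoX q X *
          (‖TwW a b c α β h t0 (fun _ => 1) (wrX q Y) N‖ / N) := by
      intro N
      rw [splitX, mul_div_assoc', ← add_div]
      refine div_le_div_of_nonneg_right ((norm_add_le _ _).trans ?_) (Nat.cast_nonneg N)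
      rw [norm_mul, Complex.norm_real, Real.norm_eq_abs, abs_of_pos hX0]
    have b3 : Bdd (fun N : ℕ => ‖TwW a b c α β h t0 (bX q X) (bX q Y) N -
        (rhoX q X * rhoX q Y : ℂ) *
        TwW a b c α β h t0 (fun _ => 1) (fun _ => 1) N‖ / N) := by
      obtain ⟨B, hB⟩ := b1.add (b2.smul (rhoX q X))
      refine ⟨B, fun N => ?_⟩
      rw [abs_of_nonneg (by positivity)]
      exact (hle N).trans ((le_abs_self _).trans (hB N))
    apply le_antisymm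
    · refine (LMean.mono M b3 (b1.add (b2.smul (rhoX q X))) hle).trans ?_
      rw [M.add _ _ b1 (b2.smul (rhoX q X)), M.smul _ _ b2, e1, e2, mul_zero, add_zero]
    · exact M.nonneg _ b3 fun N => by positivity

end Pool.Agent.Lib.MP_a17b09_nt.PQ
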