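import Pool.Agent.Lib.MP_a17b09_nt.PQ.Stmts79
import Pool.Agent.Lib.MP_a17b09_nt.CH.TopM98
import Pool.Agent.Lib.MP_a17b09_nt.CH.TopS64

/-!
Project PQ (MP_a17b09_nt), row E4: Theorem A for two weights with finitely many values.
-/

set_option autoImplicit false

open Filter Topology Finset

namespace Pool.Agent.Lib.MP_a17b09_nt.PQ

open CH

namespace AmW98

open CH.TopA

/-- the class function of a residue class -/
noncomputable def GcW (w : ℕ → ℂ) (Q : Form) (K : ℕ) (a v : V) : ℂ :=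
  if ((v.1 % (K : ℤ), v.2 % (K : ℤ)) : V) = a then gw w Q v else 0

theorem GcW_norm {w : ℕ → ℂ} (hw : B1 w) (Q : Form) (K : ℕ) (a v : V) :
    ‖GcW w Q K a v‖ ≤ 1 := by
  unfold GcW gw
  split_ifs
  · exact hw _
  · simp

theorem kerW_eq {ι : Type} {S : System ι} {K : ℕ} (hK : 0 < K) {om : ι → V → V → ℂ}
    (hom : Wt S K om) (w1 w2 : ℕ → ℂ) (i : ι) (v v' : V) :
    kerW S w1 w2 om i v v' = ∑ s ∈ RR K ×ˢ RR K, om i s.1 s.2 *
      (GcW w1 (S.Q i) K s.1 v * GcW w2 (S.Q i) K s.2 v') := by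
  rw [Finset.sum_eq_single (((v.1 % (K : ℤ), v.2 % (K : ℤ)) : V),
    ((v'.1 % (K : ℤ), v'.2 % (K : ℤ)) : V))]
  · unfold kerW GcW
    rw [if_pos rfl, if_pos rfl, om_mod hom i v v']
    ring
  · intro b _ hb
    by_cases h1 : ((v.1 % (K : ℤ), v.2 % (K : ℤ)) : V) = b.1
    · by_cases h2 : ((v'.1 % (K : ℤ), v'.2 % (K : ℤ)) : V) = b.2
      · exfalso
        apply hb
        rw [h1, h2]
      · unfold GcW
        rw [if_neg h2]; simp
    · unfold GcW
      rw [if_neg h1]; simp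
  · intro h
    exfalso
    apply h
    rw [Finset.mem_product]
    exact ⟨mod_mem K hK v, mod_mem K hK v'⟩

/-- labels: residues modulo `K` and the values of the two weights -/
def labW (Q : Form) (K : ℕ) (w1 w2 : ℕ → ℂ) (v : V) :
    ZMod K × ZMod K × (Set.range w1) × (Set.range w2) :=
  ((v.1 : ZMod K), (v.2 : ZMod K), ⟨w1 (Q.q v).natAbs, Set.mem_range_self _⟩,
    ⟨w2 (Q.q v).natAbs, Set.mem_range_self _⟩)

/-- the kernel as a function of the labels -/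
noncomputable def ulabW (om : V → V → ℂ) (K : ℕ) (w1 w2 : ℕ → ℂ)
    (a b : ZMod K × ZMod K × (Set.range w1) × (Set.range w2)) : ℂ :=
  om ((a.1.val : ℤ), (a.2.1.val : ℤ)) ((b.1.val : ℤ), (b.2.1.val : ℤ)) *
    ((a.2.2.1 : ℂ) * (b.2.2.2 : ℂ))

theorem kerW_lab {ι : Type} {S : System ι} {K : ℕ} (hK : 0 < K) {om : ι → V → V → ℂ}
    (hom : Wt S K om) (w1 w2 : ℕ → ℂ) (i : ι) (v v' : V) :
    kerW S w1 w2 om i v v' =
      ulabW (om i) K w1 w2 (labW (S.Q i) K w1 w2 v) (labW (S.Q i) K w1 w2 v') := by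
  have : NeZero K := ⟨hK.ne'⟩
  have e1 : ∀ t : ℤ, (((t : ZMod K).val : ℕ) : ℤ) = t % K := fun t => ZMod.val_intCast t
  unfold kerW ulabW labW gw
  simp only [e1]
  rw [om_mod hom i v v']
  ring

end AmW98

open AmW98

open TopA TopM in
/-- Theorem A for one system and two weights with finitely many values -/
theorem amW_98 (hC0 : StC0) (hDil : StDilsW) (hB : StBs) (hD : StD)
    (hPri : StPri) (hTel : StTel) (hMd : StMd) : StAmW := by
  intro ι _ S z1 z2 w1 w2 hz1 hz2 hb1 hb2 hf1 hf2 hd1 hd2 hE K hK om hom M δ h hδ hh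
  classical
  obtain ⟨c, hc0, hc⟩ := om_bdd hK hom
  have hker : ∀ i v v', ‖kerW S w1 w2 om i v v'‖ ≤ c := by
    intro i v v'
    unfold kerW
    rw [norm_mul, norm_mul]
    have g1 := hb1 ((S.Q i).q v).natAbs
    have g2 := hb2 ((S.Q i).q v').natAbs
    have g3 := hc i v v'
    unfold gw
    calc ‖om i v v'‖ * ‖w1 ((S.Q i).q v).natAbs‖ * ‖w2 ((S.Q i).q v').natAbs‖ ≤ c * 1 * 1 := by
          gcongr
      _ = c := by ring
  have hcb : ∀ (i : ι) (j : ℤ) (U : V → V → ℂ) (c' : ℝ), (∀ v v', ‖U v v'‖ ≤ c') →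
      CBdd (fun n : ℕ => Dk (S.Q i) h U j n) := by
    intro i j U c' hU
    obtain ⟨C, hC, _⟩ := hC0 (S.Q i) (S.pos i) δ h hδ hh
    exact ⟨C * c', fun n => hC j n U c' hU⟩
  have hcbk : ∀ (i : ι) (j : ℤ), CBdd (fun n : ℕ => Dk (S.Q i) h (kerW S w1 w2 om i) j n) :=
    fun i j => hcb i j _ c (hker i)
  set FF : ℝ → ℂ := fun x => ∑ i, Dk (S.Q i) h (kerW S w1 w2 om i) 1 x with hFF
  obtain ⟨CF, hCF⟩ := svc_sum (fun i x => Dk (S.Q i) h (kerW S w1 w2 om i) 1 x)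
    (fun i => svc_Dk hC0 (S.pos i) hδ hh (hker i) 1)
  have hFb : CBdd (fun n : ℕ => FF n) := ⟨CF, fun n => hCF.1 n⟩
  apply hTel M FF CF hCF
  set J : ℕ → ℂ := fun n => ∫ u in (1 : ℝ)..2, FF ((n : ℝ) / u) with hJ
  have hint : ∀ g : ℝ → ℂ, (∀ x, ‖g x‖ ≤ CF) → ‖∫ u in (1 : ℝ)..2, g u‖ ≤ CF := by
    intro g hg
    have h1 := intervalIntegral.norm_integral_le_of_norm_le_const (a := (1 : ℝ)) (b := 2)
      (f := g) (C := CF) (fun u _ => hg u)
    norm_num at h1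
    exact h1
  have hJb : CBdd J := ⟨CF, fun n => hint _ fun u => hCF.1 _⟩
  rcases isEmpty_or_nonempty ι with hemp | hne
  · have h0 : ∀ x, FF x = 0 := by
      intro x
      rw [hFF]
      simp
    have h1 : (fun n : ℕ => ‖∫ u in (1 : ℝ)..2, FF ((n : ℝ) / u)‖) = fun _ => 0 := by
      funext n
      simp [h0]
    rw [h1, M.const]
  have hd : 0 < S.d := by
    obtain ⟨i⟩ := hne
    have h1 := (S.pos i).2
    rw [S.disc i] at h1
    exact_mod_cast h1
  set N : ℝ := ((Fintype.card ι : ℕ) : ℝ) with hN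
  have hN0 : 0 ≤ N := by rw [hN]; positivity
  have hmain : ∀ ε : ℝ, 0 < ε → M.E (fun n => ‖J n‖) ≤ (2 + 3 * N) * ε := by
    intro ε hε
    set r : ℝ := ((RR K ×ˢ RR K).card : ℝ) with hr
    set ε1 : ℝ := ε / (c * r + 1) with hε1
    have hr0 : 0 ≤ r := by rw [hr]; positivity
    have hcr : 0 ≤ c * r := mul_nonneg hc0 hr0
    have hε1p : 0 < ε1 := by rw [hε1]; positivity
    have hDi : ∀ i, ∃ w : ℕ, ∀ K : ℕ, 0 < K → (∀ l : ℕ, l.Prime → l ≤ w → l ∣ K) →
        ∃ e1 : ℕ, ∀ e : ℕ, e1 ≤ e → ∃ n1 : ℕ, ∀ n : ℕ, n1 ≤ n → ∀ G G' : V → ℂ,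
          (∀ v, ‖G v‖ ≤ 1) → (∀ v, ‖G' v‖ ≤ 1) →
          ‖(1 / ((QQ K e).card : ℂ)) * ∑ p ∈ QQ K e,
              Dk (S.Q i) h (fun v v' => G v * G' v') (p : ℤ) n
            - (1 / (2 : ℂ) ^ e) * ∑ k ∈ NN K e, (K : ℂ) *
              Dk (S.Q i) h (fun v v' => G v * G' v') (k : ℤ) n‖ ≤ ε1 :=
      fun i => hD (S.Q i) (S.pos i) δ h hδ hh ε1 hε1p
    choose w hw using hDi
    set W : ℕ := ∑ i, w i with hW
    set K1 : ℕ := K * (4 * S.d) * (W + 1).factorial with hK1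
    have hK1p : 0 < K1 := by rw [hK1]; positivity
    have hKK1 : K ∣ K1 := ⟨4 * S.d * (W + 1).factorial, by rw [hK1]; ring⟩
    have h4K1 : 4 * S.d ∣ K1 := ⟨K * (W + 1).factorial, by rw [hK1]; ring⟩
    have hl : ∀ i, ∀ l : ℕ, l.Prime → l ≤ w i → l ∣ K1 := by
      intro i l hlp hlw
      have h1 : w i ≤ W :=
        Finset.single_le_sum (f := w) (fun _ _ => Nat.zero_le _) (mem_univ i)
      have h2 : l ∣ (W + 1).factorial := Nat.dvd_factorial hlp.pos (by omega)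
      exact h2.trans (dvd_mul_left _ _)
    have hDi2 : ∀ i, ∃ e1 : ℕ, ∀ e : ℕ, e1 ≤ e → ∃ n1 : ℕ, ∀ n : ℕ, n1 ≤ n → ∀ G G' : V → ℂ,
          (∀ v, ‖G v‖ ≤ 1) → (∀ v, ‖G' v‖ ≤ 1) →
          ‖(1 / ((QQ K1 e).card : ℂ)) * ∑ p ∈ QQ K1 e,
              Dk (S.Q i) h (fun v v' => G v * G' v') (p : ℤ) n
            - (1 / (2 : ℂ) ^ e) * ∑ k ∈ NN K1 e, (K1 : ℂ) *
              Dk (S.Q i) h (fun v v' => G v * G' v') (k : ℤ) n‖ ≤ ε1 :=
      fun i => hw i K1 hK1p (hl i)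
    choose E1 hE1 using hDi2
    -- Theorem E
    have hE' := hE M K1 hK1p h4K1 om (wt_mono hom hKK1) δ h hδ hh
    obtain ⟨e2, he2⟩ := eventually_atTop.1 (hE'.eventually (eventually_le_nhds hε))
    -- dilation
    obtain ⟨Cd, hCd⟩ := hDil ι S z1 z2 w1 w2 hz1 hz2 hb1 hb2 hd1 hd2 K hK om hom δ h hδ hh
    -- lower bound for the number of primes
    obtain ⟨cq, e3, hcq, he3, hcard⟩ :=
      Pool.Agent.MP_a17b09_nt.OM.Dec.card_QQ_lower K1 hK1p
    have hpow : Tendsto (fun e : ℕ => Cd * ((1 : ℝ) / 2) ^ e) atTop (𝓝 (Cd * 0)) :=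
      (tendsto_pow_atTop_nhds_zero_of_lt_one (by norm_num) (by norm_num)).const_mul Cd
    rw [mul_zero] at hpow
    obtain ⟨e4, he4⟩ := eventually_atTop.1 (hpow.eventually (eventually_le_nhds hε))
    -- averages over primes
    obtain ⟨e5, he5⟩ := hPri K1 hK1p CF ε hε
    -- Theorem B
    have : NeZero K := ⟨hK.ne'⟩
    let _ : Fintype (Set.range w1) := hf1.fintype
    let _ : Fintype (Set.range w2) := hf2.fintype
    obtain ⟨e, hee, hBe⟩ := hB M ι S.Q S.pos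
      (ZMod K × ZMod K × (Set.range w1) × (Set.range w2))
      (fun i => labW (S.Q i) K w1 w2) (fun i => ulabW (om i) K w1 w2) K1 hK1p
      (fun p i => Im (S.M p i))
      (fun p hp hp1 i => isLat hp (S.det p hp (hp1.of_dvd h4K1) i)) δ h hδ hh ε hε
      (∑ i, E1 i + e2 + e3 + e4 + e5)
    have hkeri : ∀ i, (fun v v' =>
        ulabW (om i) K w1 w2 (labW (S.Q i) K w1 w2 v) (labW (S.Q i) K w1 w2 v')) =
        kerW S w1 w2 om i := by
      intro i
      funext v v'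
      exact (kerW_lab hK hom w1 w2 i v v').symm
    simp only [hkeri] at hBe
    have hE1e : ∀ i, E1 i ≤ e := by
      intro i
      have h1 : E1 i ≤ ∑ i, E1 i :=
        Finset.single_le_sum (f := E1) (fun _ _ => Nat.zero_le _) (mem_univ i)
      omega
    set P : Finset ℕ := QQ K1 e with hP
    have hPcard : (0 : ℝ) < (P.card : ℝ) := by
      have h1 := hcard e (by omega)
      refine lt_of_lt_of_le ?_ h1
      have : (0 : ℝ) < e := by
        have : 0 < e := by omega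
        exact_mod_cast this
      positivity
    have hPcardC : ((P.card : ℂ)) ≠ 0 := by
      have : (P.card : ℝ) ≠ 0 := hPcard.ne'
      exact_mod_cast this
    have hPmem : ∀ p ∈ P, (2 ^ e < p ∧ p ≤ 2 ^ (e + 1)) ∧ p.Prime ∧ p ≡ 1 [MOD K1] := by
      intro p hp
      rw [hP] at hp
      unfold QQ at hp
      rwa [Finset.mem_filter, Finset.mem_Ioc] at hp
    -- the functions
    set X : ι → ℕ → ℕ → ℝ := fun i p n =>
      ‖(p : ℂ) * Dk (S.Q i) h (res (Im (S.M p i)) (kerW S w1 w2 om i)) (p : ℤ) n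
        - Dk (S.Q i) h (kerW S w1 w2 om i) (p : ℤ) n‖ with hX
    have hXb : ∀ i p, Bdd (X i p) := fun i p => bdd_norm
      (((hcb i p _ c (res_le hc0 (hker i))).smul _).sub (hcbk i p))
    set Z : ℕ → ℝ := fun n => ‖∑ i, (1 / (2 : ℂ) ^ e) * ∑ j ∈ NN K1 e,
      (K1 : ℂ) * Dk (S.Q i) h (kerW S w1 w2 om i) (j : ℤ) n‖ with hZ
    have hZb : Bdd Z := bdd_norm (CBdd.sum _ _ fun i _ => CBdd.smul _
      (CBdd.sum _ (fun (j : ℕ) (n : ℕ) =>
        (K1 : ℂ) * Dk (S.Q i) h (kerW S w1 w2 om i) (j : ℤ) n) fun j _ => (hcbk i (j : ℤ)).smul _))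
    have hZe : M.E Z ≤ ε := he2 e (by omega)
    -- Theorem D for the kernels
    have hDk : ∀ i, ∀ᶠ n : ℕ in atTop, ‖(1 / (P.card : ℂ)) * (∑ p ∈ P,
        Dk (S.Q i) h (kerW S w1 w2 om i) (p : ℤ) n) -
        (1 / (2 : ℂ) ^ e) * ∑ j ∈ NN K1 e, (K1 : ℂ) *
          Dk (S.Q i) h (kerW S w1 w2 om i) (j : ℤ) n‖ ≤ ε := by
      intro i
      have h2 : c * r * ε1 ≤ ε := by
        rw [hε1]
        rw [show c * r * (ε / (c * r + 1)) = ε * (c * r / (c * r + 1)) by ring]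
        have : c * r / (c * r + 1) ≤ 1 := by
          rw [div_le_one (by positivity)]; linarith
        nlinarith
      obtain ⟨n1, hn1⟩ := hE1 i e (hE1e i)
      filter_upwards [eventually_ge_atTop n1] with n hn
      refine le_trans ?_ h2
      have e2 : ∀ j : ℤ, Dk (S.Q i) h (kerW S w1 w2 om i) j n =
          ∑ s ∈ RR K ×ˢ RR K, om i s.1 s.2 * Dk (S.Q i) h
            (fun v v' => GcW w1 (S.Q i) K s.1 v * GcW w2 (S.Q i) K s.2 v') j n := by
        intro j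
        rw [← Dk_sum]
        congr 1
        funext v v'
        exact kerW_eq hK hom w1 w2 i v v'
      have e3 : (1 / (P.card : ℂ)) * (∑ p ∈ P, Dk (S.Q i) h (kerW S w1 w2 om i) (p : ℤ) n) -
          (1 / (2 : ℂ) ^ e) * ∑ j ∈ NN K1 e,
            (K1 : ℂ) * Dk (S.Q i) h (kerW S w1 w2 om i) (j : ℤ) n =
          ∑ s ∈ RR K ×ˢ RR K, om i s.1 s.2 * ((1 / (P.card : ℂ)) * ∑ p ∈ P,
            Dk (S.Q i) h (fun v v' => GcW w1 (S.Q i) K s.1 v * GcW w2 (S.Q i) K s.2 v')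
              (p : ℤ) n -
            (1 / (2 : ℂ) ^ e) * ∑ j ∈ NN K1 e, (K1 : ℂ) * Dk (S.Q i) h
              (fun v v' => GcW w1 (S.Q i) K s.1 v * GcW w2 (S.Q i) K s.2 v') (j : ℤ) n) := by
        simp only [e2, mul_sub, Finset.sum_sub_distrib]
        congr 1
        · rw [Finset.sum_comm, Finset.mul_sum]
          refine Finset.sum_congr rfl fun s _ => ?_
          rw [← Finset.mul_sum]; ring
        · simp only [Finset.mul_sum]
          rw [Finset.sum_comm]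
          refine Finset.sum_congr rfl fun s _ => Finset.sum_congr rfl fun j _ => ?_
          ring
      rw [e3]
      refine (norm_sum_le _ _).trans ?_
      calc ∑ s ∈ RR K ×ˢ RR K, _ ≤ ∑ _s ∈ RR K ×ˢ RR K, c * ε1 := by
            refine Finset.sum_le_sum fun s _ => ?_
            rw [norm_mul]
            exact mul_le_mul (hc i _ _) (hn1 n hn _ _ (fun v => GcW_norm hb1 _ _ _ v)
              (fun v => GcW_norm hb2 _ _ _ v)) (norm_nonneg _) hc0
        _ = c * r * ε1 := by rw [Finset.sum_const, nsmul_eq_mul, ← hr]; ring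
    -- dilation
    have hDl : ∀ p ∈ P, ∀ᶠ n : ℕ in atTop, ∀ i,
        ‖(p : ℂ) * Dk (S.Q i) h (res (Im (S.M p i)) (kerW S w1 w2 om i)) (p : ℤ) n
          - z1 * z2 * Dk (S.Q (S.s p i)) h (kerW S w1 w2 om (S.s p i)) 1 ((n : ℝ) / p)‖ ≤ ε := by
      intro p hp
      obtain ⟨⟨hp1, _⟩, hp2, hp3⟩ := hPmem p hp
      obtain ⟨n0, hn0⟩ := hCd p hp2 (hp3.of_dvd h4K1) (hp3.of_dvd hKK1)
      filter_upwards [eventually_ge_atTop n0] with n hn
      intro i
      refine (hn0 n hn i).trans ?_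
      have h5 := he4 e (by omega)
      have hpp : (0 : ℝ) < p := by exact_mod_cast hp2.pos
      have hCd0 : 0 ≤ Cd := by
        have h6 := (norm_nonneg _).trans (hn0 n hn i)
        by_contra hneg
        push Not at hneg
        have := div_neg_of_neg_of_pos hneg hpp
        linarith
      refine le_trans ?_ h5
      rw [div_eq_mul_one_div, one_div_pow]
      apply mul_le_mul_of_nonneg_left _ hCd0
      apply one_div_le_one_div_of_le (by positivity)
      exact_mod_cast hp1.le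
    have hζn : ‖z1 * z2‖ = 1 := by rw [norm_mul, hz1, hz2, one_mul]
    -- the pointwise inequality
    set R : ℕ → ℝ := fun n => (2 * N + 1) * ε +
      ((1 / (P.card : ℝ)) * ∑ p ∈ P, ∑ i, X i p n + Z n) with hR
    have hpt : ∀ᶠ n : ℕ in atTop,
        ‖∫ u in (1 : ℝ)..2, FF (((n : ℝ) / ((2 ^ e : ℕ) : ℝ)) / u)‖ ≤ R n := by
      have h1 : ∀ᶠ n : ℕ in atTop, ∀ i, ‖(1 / (P.card : ℂ)) * (∑ p ∈ P,
          Dk (S.Q i) h (kerW S w1 w2 om i) (p : ℤ) n) -
          (1 / (2 : ℂ) ^ e) * ∑ j ∈ NN K1 e, (K1 : ℂ) *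
            Dk (S.Q i) h (kerW S w1 w2 om i) (j : ℤ) n‖ ≤ ε := eventually_all.2 hDk
      have h2 := (Finset.eventually_all P).2 hDl
      filter_upwards [h1, h2, eventually_ge_atTop (2 ^ (e + 1))] with n hn1 hn2 hn3
      have h3 := he5 e (by omega) FF hCF n hn3
      have h3' : ‖∫ u in (1 : ℝ)..2, FF (((n : ℝ) / ((2 ^ e : ℕ) : ℝ)) / u)‖ ≤
          ε + ‖(1 / (P.card : ℂ)) * ∑ p ∈ P, FF ((n : ℝ) / p)‖ := by
        have e1 : (((2 ^ e : ℕ) : ℝ)) = (2 : ℝ) ^ e := by push_cast; rfl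
        rw [e1]
        have h4 := norm_sub_norm_le (∫ u in (1 : ℝ)..2, FF (((n : ℝ) / 2 ^ e) / u))
          ((1 / ((QQ K1 e).card : ℂ)) * ∑ p ∈ QQ K1 e, FF ((n : ℝ) / p))
        rw [norm_sub_rev] at h3
        rw [← hP] at h3 h4
        linarith
      refine h3'.trans ?_
      have e5 : ‖(1 / (P.card : ℂ)) * ∑ p ∈ P, FF ((n : ℝ) / p)‖ =
          ‖(1 / (P.card : ℂ)) * ∑ p ∈ P, ∑ i, z1 * z2 *
            Dk (S.Q (S.s p i)) h (kerW S w1 w2 om (S.s p i)) 1 ((n : ℝ) / p)‖ := by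
        have e6 : ∀ p ∈ P, ∑ i, z1 * z2 *
            Dk (S.Q (S.s p i)) h (kerW S w1 w2 om (S.s p i)) 1 ((n : ℝ) / p) =
            z1 * z2 * FF ((n : ℝ) / p) := by
          intro p _
          rw [← Finset.mul_sum]
          exact congrArg (fun x => z1 * z2 * x) (Equiv.sum_comp (S.s p)
            (fun i => Dk (S.Q i) h (kerW S w1 w2 om i) 1 ((n : ℝ) / p)))
        rw [Finset.sum_congr rfl e6, ← Finset.mul_sum, mul_left_comm, norm_mul (z1 * z2), hζn,
          one_mul]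
      rw [e5]
      have e7 : (1 / (P.card : ℂ)) * ∑ p ∈ P, ∑ i, z1 * z2 *
            Dk (S.Q (S.s p i)) h (kerW S w1 w2 om (S.s p i)) 1 ((n : ℝ) / p) =
          (1 / (P.card : ℂ)) * (∑ p ∈ P, ∑ i,
            (((p : ℂ) * Dk (S.Q i) h (res (Im (S.M p i)) (kerW S w1 w2 om i)) (p : ℤ) n
              - Dk (S.Q i) h (kerW S w1 w2 om i) (p : ℤ) n) -
            ((p : ℂ) * Dk (S.Q i) h (res (Im (S.M p i)) (kerW S w1 w2 om i)) (p : ℤ) n
              - z1 * z2 *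
                Dk (S.Q (S.s p i)) h (kerW S w1 w2 om (S.s p i)) 1 ((n : ℝ) / p)))) +
          ((∑ i, ((1 / (P.card : ℂ)) * (∑ p ∈ P,
            Dk (S.Q i) h (kerW S w1 w2 om i) (p : ℤ) n) -
            (1 / (2 : ℂ) ^ e) * ∑ j ∈ NN K1 e, (K1 : ℂ) *
              Dk (S.Q i) h (kerW S w1 w2 om i) (j : ℤ) n)) +
          ∑ i, (1 / (2 : ℂ) ^ e) * ∑ j ∈ NN K1 e, (K1 : ℂ) *
              Dk (S.Q i) h (kerW S w1 w2 om i) (j : ℤ) n) := by
        have f1 : ∀ p ∈ P, ∑ i, (((p : ℂ) * Dk (S.Q i) h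
              (res (Im (S.M p i)) (kerW S w1 w2 om i)) (p : ℤ) n
              - Dk (S.Q i) h (kerW S w1 w2 om i) (p : ℤ) n) -
            ((p : ℂ) * Dk (S.Q i) h (res (Im (S.M p i)) (kerW S w1 w2 om i)) (p : ℤ) n
              - z1 * z2 *
                Dk (S.Q (S.s p i)) h (kerW S w1 w2 om (S.s p i)) 1 ((n : ℝ) / p))) =
            (∑ i, z1 * z2 *
              Dk (S.Q (S.s p i)) h (kerW S w1 w2 om (S.s p i)) 1 ((n : ℝ) / p)) -
            ∑ i, Dk (S.Q i) h (kerW S w1 w2 om i) (p : ℤ) n := by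
          intro p _
          rw [← Finset.sum_sub_distrib]
          exact Finset.sum_congr rfl fun i _ => by ring
        rw [Finset.sum_congr rfl f1, Finset.sum_sub_distrib, Finset.sum_sub_distrib,
          ← Finset.mul_sum]
        have f2 : ∑ p ∈ P, ∑ i, Dk (S.Q i) h (kerW S w1 w2 om i) (p : ℤ) n =
            ∑ i, ∑ p ∈ P, Dk (S.Q i) h (kerW S w1 w2 om i) (p : ℤ) n := Finset.sum_comm
        rw [f2]
        ring
      rw [e7]
      have g1 : ‖(1 / (P.card : ℂ)) * (∑ p ∈ P, ∑ i,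
            (((p : ℂ) * Dk (S.Q i) h (res (Im (S.M p i)) (kerW S w1 w2 om i)) (p : ℤ) n
              - Dk (S.Q i) h (kerW S w1 w2 om i) (p : ℤ) n) -
            ((p : ℂ) * Dk (S.Q i) h (res (Im (S.M p i)) (kerW S w1 w2 om i)) (p : ℤ) n
              - z1 * z2 *
                Dk (S.Q (S.s p i)) h (kerW S w1 w2 om (S.s p i)) 1 ((n : ℝ) / p))))‖ ≤
          (1 / (P.card : ℝ)) * (∑ p ∈ P, ∑ i, X i p n) + N * ε := by
        rw [norm_mul, norm_div, norm_one, Complex.norm_natCast]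
        have g2 : ‖∑ p ∈ P, ∑ i,
            (((p : ℂ) * Dk (S.Q i) h (res (Im (S.M p i)) (kerW S w1 w2 om i)) (p : ℤ) n
              - Dk (S.Q i) h (kerW S w1 w2 om i) (p : ℤ) n) -
            ((p : ℂ) * Dk (S.Q i) h (res (Im (S.M p i)) (kerW S w1 w2 om i)) (p : ℤ) n
              - z1 * z2 *
                Dk (S.Q (S.s p i)) h (kerW S w1 w2 om (S.s p i)) 1 ((n : ℝ) / p)))‖ ≤
            (∑ p ∈ P, ∑ i, X i p n) + P.card * (N * ε) := by
          refine (norm_sum_le _ _).trans ?_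
          calc ∑ p ∈ P, _ ≤ ∑ p ∈ P, ∑ i, (X i p n + ε) := by
                refine Finset.sum_le_sum fun p hp => (norm_sum_le _ _).trans
                  (Finset.sum_le_sum fun i _ => (norm_sub_le _ _).trans ?_)
                exact add_le_add le_rfl (hn2 p hp i)
            _ = (∑ p ∈ P, ∑ i, X i p n) + P.card * (N * ε) := by
                simp only [Finset.sum_add_distrib, Finset.sum_const, nsmul_eq_mul,
                  Finset.card_univ]
                rw [← hN]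
        calc (1 / (P.card : ℝ)) * _ ≤ (1 / (P.card : ℝ)) *
              ((∑ p ∈ P, ∑ i, X i p n) + P.card * (N * ε)) :=
              mul_le_mul_of_nonneg_left g2 (by positivity)
          _ = (1 / (P.card : ℝ)) * (∑ p ∈ P, ∑ i, X i p n) + N * ε := by
              rw [mul_add, ← mul_assoc (1 / (P.card : ℝ)) (P.card : ℝ),
                one_div_mul_cancel hPcard.ne', one_mul]
      have g3 : ‖∑ i, ((1 / (P.card : ℂ)) * (∑ p ∈ P,
            Dk (S.Q i) h (kerW S w1 w2 om i) (p : ℤ) n) -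
            (1 / (2 : ℂ) ^ e) * ∑ j ∈ NN K1 e, (K1 : ℂ) *
              Dk (S.Q i) h (kerW S w1 w2 om i) (j : ℤ) n)‖ ≤ N * ε := by
        refine (norm_sum_le _ _).trans ((Finset.sum_le_sum fun i _ => hn1 i).trans ?_)
        rw [Finset.sum_const, nsmul_eq_mul, Finset.card_univ]
      have g4 := norm_add_le ((1 / (P.card : ℂ)) * (∑ p ∈ P, ∑ i,
            (((p : ℂ) * Dk (S.Q i) h (res (Im (S.M p i)) (kerW S w1 w2 om i)) (p : ℤ) n
              - Dk (S.Q i) h (kerW S w1 w2 om i) (p : ℤ) n) -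
            ((p : ℂ) * Dk (S.Q i) h (res (Im (S.M p i)) (kerW S w1 w2 om i)) (p : ℤ) n
              - z1 * z2 *
                Dk (S.Q (S.s p i)) h (kerW S w1 w2 om (S.s p i)) 1 ((n : ℝ) / p)))))
          ((∑ i, ((1 / (P.card : ℂ)) * (∑ p ∈ P,
            Dk (S.Q i) h (kerW S w1 w2 om i) (p : ℤ) n) -
            (1 / (2 : ℂ) ^ e) * ∑ j ∈ NN K1 e, (K1 : ℂ) *
              Dk (S.Q i) h (kerW S w1 w2 om i) (j : ℤ) n)) +
          ∑ i, (1 / (2 : ℂ) ^ e) * ∑ j ∈ NN K1 e, (K1 : ℂ) *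
              Dk (S.Q i) h (kerW S w1 w2 om i) (j : ℤ) n)
      have g5 := norm_add_le (∑ i, ((1 / (P.card : ℂ)) * (∑ p ∈ P,
            Dk (S.Q i) h (kerW S w1 w2 om i) (p : ℤ) n) -
            (1 / (2 : ℂ) ^ e) * ∑ j ∈ NN K1 e, (K1 : ℂ) *
              Dk (S.Q i) h (kerW S w1 w2 om i) (j : ℤ) n))
          (∑ i, (1 / (2 : ℂ) ^ e) * ∑ j ∈ NN K1 e, (K1 : ℂ) *
              Dk (S.Q i) h (kerW S w1 w2 om i) (j : ℤ) n)
      have g6 : ‖∑ i, (1 / (2 : ℂ) ^ e) * ∑ j ∈ NN K1 e, (K1 : ℂ) *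
              Dk (S.Q i) h (kerW S w1 w2 om i) (j : ℤ) n‖ = Z n := rfl
      rw [g6] at g5
      rw [hR]
      simp only
      linarith
    -- the mean of the right side
    have hXs : Bdd (fun n => ∑ p ∈ P, ∑ i, X i p n) :=
      Bdd.sum _ _ fun p _ => Bdd.sum _ _ fun i _ => hXb i p
    have hRb : Bdd R := (Bdd.const _).add ((hXs.smul _).add hZb)
    have hRE : M.E R ≤ (2 + 3 * N) * ε := by
      have e1 : M.E R = (2 * N + 1) * ε + ((1 / (P.card : ℝ)) * (∑ p ∈ P, ∑ i, M.E (X i p)) +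
          M.E Z) := by
        rw [hR, M.add _ _ (Bdd.const _) ((hXs.smul _).add hZb), M.const,
          M.add _ _ (hXs.smul _) hZb, M.smul _ _ hXs]
        congr 3
        rw [M.sum P _ fun p _ => Bdd.sum _ _ fun i _ => hXb i p]
        refine Finset.sum_congr rfl fun p _ => ?_
        rw [M.sum _ _ fun i _ => hXb i p]
      rw [e1]
      have e2 : (1 / (P.card : ℝ)) * (∑ p ∈ P, ∑ i, M.E (X i p)) ≤ N * ε := by
        rw [Finset.sum_comm]
        calc (1 / (P.card : ℝ)) * (∑ i, ∑ p ∈ P, M.E (X i p)) ≤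
              (1 / (P.card : ℝ)) * (∑ _i : ι, ε * (P.card : ℝ)) := by
              apply mul_le_mul_of_nonneg_left _ (by positivity)
              exact Finset.sum_le_sum fun i _ => hBe i
          _ = N * ε := by
              rw [Finset.sum_const, nsmul_eq_mul, Finset.card_univ, ← hN,
                mul_comm (1 / (P.card : ℝ)), mul_assoc N, mul_assoc ε,
                mul_one_div_cancel hPcard.ne', mul_one]
      linarith
    have hJe : M.E (fun n : ℕ => ‖∫ u in (1 : ℝ)..2, FF (((n : ℝ) / ((2 ^ e : ℕ) : ℝ)) / u)‖) =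
        M.E (fun n => ‖J n‖) := (hMd M FF CF hCF (2 ^ e) (by positivity)).2
    rw [← hJe]
    refine le_trans (mono_ev M (bdd_norm ⟨CF, fun n => hint _ fun u => hCF.1 _⟩) hRb hpt) hRE
  have hz : M.E (fun n => ‖J n‖) ≤ 0 := by
    apply le_of_forall_pos_le_add
    intro ε hε
    have h1 := hmain (ε / (2 + 3 * N)) (by positivity)
    rw [mul_div_cancel₀ _ (by positivity : (2 + 3 * N) ≠ 0)] at h1
    linarith
  exact le_antisymm hz (M.nonneg _ (bdd_norm hJb) fun n => norm_nonneg _)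

/-- (E4) from `StDilsW` -/
theorem stAmW_98 (hDil : StDilsW) : StAmW :=
  amW_98 F64.stC0_all hDil F64.stBs_all F64.stD_all stPri_40 stTel_18 stMd_18

end Pool.Agent.Lib.MP_a17b09_nt.PQ
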