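import Pool.Agent.Lib.MP_a17b09_nt.PQ.Stmts79
import Pool.Agent.Lib.MP_a17b09_nt.MRS.LevAbs38

/-!
PQ, row M4 (helper38): the levels, uniform in the weight.  `lev_absW` is `MRS.LevAbs.lev_abs` with all
constants chosen before the family `Mf` and windows below a small power of `N`.
-/

set_option autoImplicit false
set_option linter.unusedVariables false

open Filter Topology Finset

namespace Pool.Agent.Lib.MP_a17b09_nt.PQ

open CH CH.PE MRSG MRS MRS.LevAbs

namespace LevW38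

theorem aux1 (L k X Y Z : ℝ) (h3 : L ≤ 1 / k * X) (h5 : 0 ≤ X)
    (h6 : 0 ≤ 1 / k * (Y + Z)) : L + Y + Z ≤ (1 + 1 / k) * (X + Y + Z) := by
  have h7 : (1 + 1 / k) * (X + Y + Z) = 1 / k * X + 1 / k * (Y + Z) + X + Y + Z := by ring
  rw [h7]
  linarith

open Classical in
/-- **abstract level theorem**, uniform in the family -/
theorem lev_absW (hSch : StSchW) {ι : Type} (Sj : ℕ → Finset ι)
    (Qf : ℕ → ℕ → ι → ℂ) (Lf : ℝ → ℝ → ℝ) (r κ c0 : ℝ) (hr : 0 < r) (hκ : 0 < κ) (hc0 : 0 < c0)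
    (CD ND C1 : ℝ) (hCD : 0 < CD) (hND : 1 ≤ ND) (hC1 : 1 ≤ C1)
    (hMom1 : ∃ C : ℝ, 1 ≤ C ∧ ∀ (h u l J : ℕ), 0 < h → 3 * h ≤ u →
      (J : ℝ) ≤ Real.exp (l * (u / h)) →
      ∑ w ∈ Sj J, ‖Qf h u w ^ l‖ ^ 2 ≤ C ^ (l + 1) * (l.factorial : ℝ) ^ 2)
    (hMer : ∃ C : ℝ, 0 < C ∧ ∀ a b : ℝ, 2 ≤ a → a ≤ b →
      κ * Real.log (Real.log b / Real.log a) - C ≤ Lf a b) :
    ∀ ε c : ℝ, 0 < ε → 0 < c → ∃ H0 : ℝ, 1 ≤ H0 ∧ ∀ H : ℝ, H0 ≤ H → ∃ N0 : ℝ, ∀ N : ℝ, N0 ≤ N →
      ∀ Mf : ℝ → ι → ℂ,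
      (∀ (h u0 u1 : ℕ), 0 < h → 3 * h ≤ u0 → u0 < u1 →
        ND ≤ N → (h : ℝ) ≤ N ^ (1 / 8 : ℝ) → Real.exp (u1 / h) ≤ N ^ (1 / 8 : ℝ) →
        Real.exp (u1 / h) ≤ N ^ c0 →
        1 ≤ Lf (Real.exp (u0 / h)) (Real.exp (u1 / h)) → ∀ J : ℕ, (J : ℝ) ≤ N →
        ∑ w ∈ Sj J, ‖Mf N w - (1 / (Lf (Real.exp (u0 / h)) (Real.exp (u1 / h)) : ℂ)) *
          ∑ u ∈ Finset.Ico u0 u1, Qf h u w * Mf (N * Real.exp (-(u / h))) w‖ ^ 2 ≤
        CD * (1 / Lf (Real.exp (u0 / h)) (Real.exp (u1 / h)) + 1 / h + h / u0)) →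
      (∀ (h u l J : ℕ) (N : ℝ), 0 < h → 3 * h ≤ u → 1 ≤ r * N →
        (J : ℝ) ≤ Real.exp (l * (u / h)) * (r * N) →
        ∑ w ∈ Sj J, ‖Qf h u w ^ l * Mf N w‖ ^ 2 ≤ C1 ^ (l + 1) * (l.factorial : ℝ) ^ 2) →
      ∃ U ⊆ Sj ⌊N / H⌋₊, (U.card : ℝ) ≤ N ^ c ∧
        ∑ w ∈ Sj ⌊N / H⌋₊ \ U, ‖Mf N w‖ ^ 2 ≤ ε := by
  intro ε c hε hc
  obtain ⟨CM, hCM, hMer'⟩ := hMer
  obtain ⟨CU, hCU, hMom1'⟩ := hMom1
  obtain ⟨m, hm⟩ := exists_nat_ge (1 / c0 + 1)
  have hm1 : (1 : ℝ) ≤ m := by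
    have : 0 < 1 / c0 := by positivity
    linarith
  have hmp : 0 < m := by exact_mod_cast (zero_lt_one.trans_le hm1)
  have hmc : (1 : ℝ) / (8 * m) ≤ c0 := by
    rw [div_le_iff₀ (by positivity)]
    have h1 : 1 / c0 ≤ m := by linarith
    rw [div_le_iff₀ hc0] at h1
    nlinarith
  have hm8 : (1 : ℝ) / (8 * m) ≤ 1 / 8 := by
    apply one_div_le_one_div_of_le (by norm_num)
    linarith
  set C : ℝ := 2 * CD * (1 + 1 / κ) + (1 + CM) / κ + 2 * C1 + CU with hC
  have hC1' : 2 * C1 ≤ C := by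
    have : 0 ≤ 2 * CD * (1 + 1 / κ) := by positivity
    have : 0 ≤ (1 + CM) / κ := by positivity
    rw [hC]; linarith
  have hCU' : CU ≤ C := by
    have : 0 ≤ 2 * CD * (1 + 1 / κ) := by positivity
    have : 0 ≤ (1 + CM) / κ := by positivity
    rw [hC]; linarith
  have hCκ : (1 + CM) / κ ≤ C := by
    have : 0 ≤ 2 * CD * (1 + 1 / κ) := by positivity
    rw [hC]; linarith
  have hCD' : 2 * CD * (1 + 1 / κ) ≤ C := by
    have : 0 ≤ (1 + CM) / κ := by positivity
    rw [hC]; linarith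
  have hC1C : C1 ≤ C := by linarith
  have hε' : 0 < ε / 4 := by positivity
  obtain ⟨H0, hH0, hS⟩ := hSch m hmp C r (ε / 4) c (by linarith) hr hε' hc
  set ε' : ℝ := ε / 4 with hε'def
  refine ⟨H0, hH0, fun H hH => ?_⟩
  obtain ⟨N0, hN0, hS'⟩ := hS H hH
  refine ⟨max N0 (max ND ((1 / r) ^ 8)), fun N hN Mf hDec' hMom' => ?_⟩
  have hNN0 : N0 ≤ N := (le_max_left _ _).trans hN
  have hNND : ND ≤ N := ((le_max_left _ _).trans (le_max_right _ _)).trans hN
  have hNr : (1 / r) ^ 8 ≤ N := ((le_max_right _ _).trans (le_max_right _ _)).trans hN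
  have hN1 : 1 ≤ N := hN0.trans hNN0
  obtain ⟨n, h, u0, u1, α, hα, hlv', he0, hsum, hl0, hl1, hlU⟩ := hS' N hNN0
  have hpw8 : N ^ (1 / (8 * m) : ℝ) ≤ N ^ (1 / 8 : ℝ) := Real.rpow_le_rpow_of_exponent_le hN1 hm8
  have hpwc : N ^ (1 / (8 * m) : ℝ) ≤ N ^ c0 := Real.rpow_le_rpow_of_exponent_le hN1 hmc
  have hlv : ∀ i ≤ n, 0 < h i ∧ 3 * h i ≤ u0 i ∧ u0 i < u1 i ∧ (h i : ℝ) ≤ N ^ (1 / 8 : ℝ) ∧
      Real.exp (u1 i / h i) ≤ N ^ (1 / 8 : ℝ) ∧ C + 1 ≤ Real.log (u1 i / u0 i) := fun i hi =>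
    ⟨(hlv' i hi).1, (hlv' i hi).2.1, (hlv' i hi).2.2.1, (hlv' i hi).2.2.2.1.trans hpw8,
      (hlv' i hi).2.2.2.2.1.trans hpw8, (hlv' i hi).2.2.2.2.2⟩
  have hexc : ∀ i ≤ n, Real.exp (u1 i / h i) ≤ N ^ c0 := fun i hi =>
    (hlv' i hi).2.2.2.2.1.trans hpwc
  have hH1 : 1 ≤ H := hH0.trans hH
  have hHp : 0 < H := by linarith
  set J : ℕ := ⌊N / H⌋₊ with hJ
  have hJle : (J : ℝ) ≤ N / H := Nat.floor_le (by positivity)
  have hJN : (J : ℝ) ≤ N := hJle.trans (div_le_self (by linarith) hH1)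
  have hrH : 1 ≤ r * H := (Real.one_le_exp (by positivity)).trans he0
  have hJr : (J : ℝ) ≤ r * N := by
    refine hJle.trans ?_
    rw [div_le_iff₀ hHp]
    calc N = N * 1 := (mul_one N).symm
      _ ≤ N * (r * H) := mul_le_mul_of_nonneg_left hrH (zero_le_one.trans hN1)
      _ = r * N * H := by ring
  -- the windows are short compared to `N`
  set t : ℝ := N ^ (1 / 8 : ℝ) with ht
  have ht8 : t ^ 8 = N := by
    rw [ht, ← Real.rpow_natCast, ← Real.rpow_mul (by linarith)]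
    norm_num
  have ht1 : 1 ≤ t := Real.one_le_rpow hN1 (by norm_num)
  have htr : 1 / r ≤ t := by
    by_contra hcon
    push Not at hcon
    have h3 : t ^ 8 < (1 / r) ^ 8 := pow_lt_pow_left₀ hcon (by linarith) (by norm_num)
    rw [ht8] at h3
    linarith
  have hexp : ∀ i ≤ n, ∀ u ∈ Finset.Ico (u0 i) (u1 i),
      1 ≤ r * (N * Real.exp (-(u / h i))) := by
    intro i hi u hu
    have hh : (0 : ℝ) < h i := by exact_mod_cast (hlv i hi).1
    have h3 : Real.exp (u / h i) ≤ t := by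
      refine le_trans (Real.exp_le_exp.2 ?_) (hlv i hi).2.2.2.2.1
      exact div_le_div_of_nonneg_right (by exact_mod_cast (Finset.mem_Ico.1 hu).2.le) hh.le
    have h4 : 1 ≤ r * t := by
      rw [div_le_iff₀ hr] at htr
      linarith
    have h5 : (0 : ℝ) < Real.exp (u / h i) := Real.exp_pos _
    rw [Real.exp_neg]
    have h6 : 1 ≤ r * N * (Real.exp (u / h i))⁻¹ := by
      rw [← div_eq_mul_inv, one_le_div h5]
      refine h3.trans ?_
      rw [← ht8]
      have h7 : (1 : ℝ) ≤ t ^ 6 := one_le_pow₀ ht1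
      calc t = 1 * t := (one_mul t).symm
        _ ≤ (r * t) * t := mul_le_mul_of_nonneg_right h4 (zero_le_one.trans ht1)
        _ = (r * t) * t * 1 := by ring
        _ ≤ (r * t) * t * t ^ 6 := by
          refine mul_le_mul_of_nonneg_left h7 (by positivity)
        _ = r * t ^ 8 := by ring
    calc 1 ≤ r * N * (Real.exp (u / h i))⁻¹ := h6
      _ = _ := by ring
  -- the set `U`
  set gd : ℕ → ι → Prop := fun i j => Gda Qf (h i) (u0 i) (u1 i) (α i) j with hgd
  have hngd : ∀ i j, ¬ gd i j → ∃ s ∈ Finset.Ico (u0 i) (u1 i),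
      Real.exp (-(α i * (s / h i))) < ‖Qf (h i) s j‖ := by
    intro i j hij
    rw [hgd] at hij
    simp only [Gda] at hij
    push Not at hij
    exact hij
  have hcard : ∀ i, ((Finset.Ico (u0 i) (u1 i)).card : ℝ) ≤ u1 i := by
    intro i
    rw [Nat.card_Ico]
    exact_mod_cast Nat.sub_le _ _
  refine ⟨(Sj J).filter (fun j => ∀ i ≤ n, ¬ gd i j), Finset.filter_subset _ _, ?_, ?_⟩
  · -- the number of elements of `U`
    have hu1 : (0 : ℝ) < u1 n := by
      have := (hlv n le_rfl).2.2.1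
      exact_mod_cast (Nat.zero_le _).trans_lt this
    have h3 := tU (Sj J) ((Sj J).filter (fun j => ∀ i ≤ n, ¬ gd i j)) (Finset.filter_subset _ _)
      (Finset.Ico (u0 n) (u1 n)) (fun s => α n * (s / h n)) (fun s j => Qf (h n) s j)
      (N ^ c / u1 n) (by positivity) (fun j hj => hngd n j ((mem_filter.1 hj).2 n le_rfl))
      (fun s hs => by
        obtain ⟨l, hl, hl'⟩ := hlU s hs
        refine ⟨l, ?_⟩
        rw [le_div_iff₀ hu1]
        refine le_trans ?_ hl'
        rw [mul_comm]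
        refine mul_le_mul_of_nonneg_left ?_ hu1.le
        refine mul_le_mul (le_of_eq ?_) ?_ (Finset.sum_nonneg fun _ _ => by positivity)
          (Real.exp_pos _).le
        · congr 1; ring
        · refine (hMom1' (h n) s l J (hlv n le_rfl).1
            ((hlv n le_rfl).2.1.trans (Finset.mem_Ico.1 hs).1) (hJN.trans hl)).trans ?_
          refine mul_le_mul_of_nonneg_right ?_ (by positivity)
          exact pow_le_pow_left₀ (by linarith) hCU' _)
    refine h3.trans ?_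
    calc ((Finset.Ico (u0 n) (u1 n)).card : ℝ) * (N ^ c / u1 n) ≤ u1 n * (N ^ c / u1 n) :=
          mul_le_mul_of_nonneg_right (hcard n) (by positivity)
      _ = N ^ c := by rw [mul_div_cancel₀ _ hu1.ne']
  · -- the sum
    have hset : Sj J \ (Sj J).filter (fun j => ∀ i ≤ n, ¬ gd i j) =
        (Sj J).filter (fun j => ∃ i ≤ n, gd i j) := by
      ext j
      rw [Finset.mem_sdiff, mem_filter, mem_filter]
      constructor
      · rintro ⟨h3, h4⟩
        refine ⟨h3, ?_⟩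
        by_contra hcon
        push Not at hcon
        exact h4 ⟨h3, hcon⟩
      · rintro ⟨h3, i, hi, h4⟩
        exact ⟨h3, fun h5 => h5.2 i hi h4⟩
    rw [hset]
    refine (cover (Sj J) gd n (fun j => ‖Mf N j‖ ^ 2) fun j => by positivity).trans ?_
    -- the error of a level
    have hLLge : ∀ i ≤ n, 1 ≤ Lf (Real.exp (u0 i / h i)) (Real.exp (u1 i / h i)) ∧
        κ * (Real.log (u1 i / u0 i) - C) ≤ Lf (Real.exp (u0 i / h i)) (Real.exp (u1 i / h i)) ∧
        1 ≤ Real.log (u1 i / u0 i) - C := by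
      intro i hi
      obtain ⟨a1, a2, a3, a4, a5, a6⟩ := hlv i hi
      have hh : (0 : ℝ) < h i := by exact_mod_cast a1
      have hu : (3 : ℝ) ≤ u0 i / h i := by
        rw [le_div_iff₀ hh]
        exact_mod_cast a2
      have hu' : (u0 i : ℝ) / h i ≤ u1 i / h i :=
        div_le_div_of_nonneg_right (by exact_mod_cast a3.le) hh.le
      have h3 := hMer' (Real.exp (u0 i / h i)) (Real.exp (u1 i / h i)) (by
        have := Real.add_one_le_exp ((u0 i : ℝ) / h i)
        linarith) (Real.exp_le_exp.2 hu')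
      rw [Real.log_exp, Real.log_exp, div_div_div_cancel_right₀ hh.ne'] at h3
      have h5 : 1 + CM ≤ κ * C := by
        rw [div_le_iff₀ hκ] at hCκ
        linarith
      have h6 : κ * (C + 1) ≤ κ * Real.log (u1 i / u0 i) := mul_le_mul_of_nonneg_left a6 hκ.le
      refine ⟨by linarith, ?_, by linarith⟩
      have : κ * (Real.log (u1 i / u0 i) - C) = κ * Real.log (u1 i / u0 i) - κ * C := by ring
      linarith
    have herr : ∀ i ≤ n, ∑ j ∈ Sj J, ‖Mf N j - (1 / (Lf (Real.exp (u0 i / h i))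
        (Real.exp (u1 i / h i)) : ℂ)) * ∑ u ∈ Finset.Ico (u0 i) (u1 i), Qf (h i) u j *
          Mf (N * Real.exp (-(u / h i))) j‖ ^ 2 ≤
        CD * (1 + 1 / κ) * (1 / (Real.log (u1 i / u0 i) - C) + 1 / h i + h i / u0 i) := by
      intro i hi
      obtain ⟨a1, a2, a3, a4, a5, a6⟩ := hlv i hi
      obtain ⟨b1, b2, b3⟩ := hLLge i hi
      refine (hDec' (h i) (u0 i) (u1 i) a1 a2 a3 hNND a4 a5 (hexc i hi) b1 J hJN).trans ?_
      rw [mul_assoc]
      refine mul_le_mul_of_nonneg_left ?_ hCD.le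
      have hp : 0 < Real.log (u1 i / u0 i) - C := by linarith
      have h3 := one_div_le_one_div_of_le (mul_pos hκ hp) b2
      have h4 : 1 / (κ * (Real.log (u1 i / u0 i) - C)) =
          1 / κ * (1 / (Real.log (u1 i / u0 i) - C)) := by
        rw [one_div_mul_one_div]
      rw [h4] at h3
      have h5 : 0 ≤ 1 / (Real.log (u1 i / u0 i) - C) := by positivity
      have h6 : 0 ≤ 1 / κ * ((1 : ℝ) / h i + h i / u0 i) := by positivity
      exact aux1 _ _ _ _ _ h3 h5 h6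
    have hecmp : ∀ i ≤ n, 2 * (CD * (1 + 1 / κ) *
        (1 / (Real.log (u1 i / u0 i) - C) + 1 / h i + h i / u0 i)) ≤
        C * (1 / (Real.log (u1 i / u0 i) - C) + 1 / h i + h i / u0 i) := by
      intro i hi
      obtain ⟨b1, b2, b3⟩ := hLLge i hi
      rw [← mul_assoc, ← mul_assoc]
      refine mul_le_mul_of_nonneg_right hCD' ?_
      have : 0 < 1 / (Real.log (u1 i / u0 i) - C) := by
        apply one_div_pos.2; linarith
      positivity
    -- level 0
    have hL0 : ∑ j ∈ (Sj J).filter (fun j => gd 0 j), ‖Mf N j‖ ^ 2 ≤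
        C * (1 / (Real.log (u1 0 / u0 0) - C) + 1 / h 0 + h 0 / u0 0) + ε' := by
      obtain ⟨a1, a2, a3, a4, a5, a6⟩ := hlv 0 (Nat.zero_le _)
      have hh : (0 : ℝ) < h 0 := by exact_mod_cast a1
      have h3 := t1 (Sj J) ((Sj J).filter (fun j => gd 0 j)) (Finset.filter_subset _ _)
        (Finset.Ico (u0 0) (u1 0)) (fun u => α 0 * (u / h 0)) (fun u j => Qf (h 0) u j)
        (fun u j => Mf (N * Real.exp (-(u / h 0))) j)
        (C1 * Real.exp (-(2 * α 0 * (u0 0 / h 0)))) (by positivity)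
        (fun j hj => (mem_filter.1 hj).2) (fun u hu => by
          have h4 := hMom' (h 0) u 0 J (N * Real.exp (-(u / h 0))) a1
            (a2.trans (Finset.mem_Ico.1 hu).1) (hexp 0 (Nat.zero_le _) u hu) (by
              have h5 : Real.exp (u / h 0) ≤ r * H := by
                refine le_trans (Real.exp_le_exp.2 ?_) he0
                exact div_le_div_of_nonneg_right
                  (by exact_mod_cast (Finset.mem_Ico.1 hu).2.le) hh.le
              rw [Nat.cast_zero, zero_mul, Real.exp_zero, one_mul, Real.exp_neg]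
              have h6 : (0 : ℝ) < Real.exp (u / h 0) := Real.exp_pos _
              rw [← mul_assoc, ← div_eq_mul_inv, le_div_iff₀ h6]
              calc (J : ℝ) * Real.exp (u / h 0) ≤ (N / H) * (r * H) :=
                    mul_le_mul hJle h5 h6.le (by positivity)
                _ = r * N := by field_simp)
          simp only [pow_zero, one_mul, zero_add, pow_one, Nat.factorial_zero, Nat.cast_one,
            one_pow, mul_one] at h4
          calc Real.exp (-(2 * (α 0 * (u / h 0)))) *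
                ∑ j ∈ Sj J, ‖Mf (N * Real.exp (-(u / h 0))) j‖ ^ 2
              ≤ Real.exp (-(2 * α 0 * (u0 0 / h 0))) * C1 := by
                refine mul_le_mul (Real.exp_le_exp.2 ?_) h4
                  (Finset.sum_nonneg fun _ _ => by positivity) (Real.exp_pos _).le
                have h7 : (u0 0 : ℝ) / h 0 ≤ u / h 0 := div_le_div_of_nonneg_right
                  (by exact_mod_cast (Finset.mem_Ico.1 hu).1) hh.le
                have h8 := mul_le_mul_of_nonneg_left h7 (hα 0)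
                linarith
            _ = _ := mul_comm _ _)
      have h4 := lvl (Sj J) ((Sj J).filter (fun j => gd 0 j)) (Finset.filter_subset _ _)
        (fun j => Mf N j) (fun j => ∑ u ∈ Finset.Ico (u0 0) (u1 0), Qf (h 0) u j *
          Mf (N * Real.exp (-(u / h 0))) j) _ _ _ (hLLge 0 (Nat.zero_le _)).1
        (herr 0 (Nat.zero_le _)) h3
      refine h4.trans ?_
      have h5 := hecmp 0 (Nat.zero_le _)
      have h6 : 2 * (((Finset.Ico (u0 0) (u1 0)).card : ℝ) ^ 2 *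
          (C1 * Real.exp (-(2 * α 0 * (u0 0 / h 0))))) ≤ ε' := by
        refine le_trans ?_ hl0
        have h7 : ((Finset.Ico (u0 0) (u1 0)).card : ℝ) ^ 2 ≤ (u1 0 : ℝ) ^ 2 :=
          pow_le_pow_left₀ (Nat.cast_nonneg _) (hcard 0) 2
        have h8 := mul_le_mul hC1' h7 (by positivity) (by linarith)
        calc 2 * (((Finset.Ico (u0 0) (u1 0)).card : ℝ) ^ 2 *
              (C1 * Real.exp (-(2 * α 0 * (u0 0 / h 0)))))
            = (2 * C1 * ((Finset.Ico (u0 0) (u1 0)).card : ℝ) ^ 2) *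
              Real.exp (-(2 * α 0 * (u0 0 / h 0))) := by ring
          _ ≤ _ := mul_le_mul_of_nonneg_right h8 (Real.exp_pos _).le
      linarith
    -- the other levels
    have hL1 : ∀ i ∈ Finset.range n, ∑ j ∈ (Sj J).filter (fun j => gd (i + 1) j ∧ ¬ gd i j),
        ‖Mf N j‖ ^ 2 ≤
        C * (1 / (Real.log (u1 (i + 1) / u0 (i + 1)) - C) + 1 / h (i + 1) +
          h (i + 1) / u0 (i + 1)) + 2 * ε' * (1 / 2) ^ (i + 1) := by
      intro i hi
      rw [mem_range] at hi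
      obtain ⟨a1, a2, a3, a4, a5, a6⟩ := hlv (i + 1) (by omega)
      obtain ⟨b1, b2, b3, b4, b5, b6⟩ := hlv i (by omega)
      have hp1 : (0 : ℝ) < u1 (i + 1) := by exact_mod_cast (Nat.zero_le _).trans_lt a3
      have hp2 : (0 : ℝ) < u1 i := by exact_mod_cast (Nat.zero_le _).trans_lt b3
      have hp3 : (0 : ℝ) < (u1 (i + 1) : ℝ) ^ 2 * u1 i := by positivity
      have h3 := tI (Sj J) ((Sj J).filter (fun j => gd (i + 1) j ∧ ¬ gd i j))
        (Finset.filter_subset _ _) (Finset.Ico (u0 (i + 1)) (u1 (i + 1)))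
        (Finset.Ico (u0 i) (u1 i)) (fun u => α (i + 1) * (u / h (i + 1)))
        (fun s => α i * (s / h i)) (fun u j => Qf (h (i + 1)) u j) (fun s j => Qf (h i) s j)
        (fun u j => Mf (N * Real.exp (-(u / h (i + 1)))) j)
        (ε' * (1 / 2) ^ (i + 1) / ((u1 (i + 1) : ℝ) ^ 2 * u1 i)) (by positivity)
        (fun j hj => (mem_filter.1 hj).2.1) (fun j hj => hngd i j (mem_filter.1 hj).2.2)
        (fun u hu s hs => by
          obtain ⟨l, hl, hl'⟩ := hl1 i hi u hu s hs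
          refine ⟨l, ?_⟩
          have h4 := hMom' (h i) s l J (N * Real.exp (-(u / h (i + 1)))) b1
            (b2.trans (Finset.mem_Ico.1 hs).1) (hexp (i + 1) (by omega) u hu) (by
              refine hJr.trans ?_
              have h5 : 1 ≤ Real.exp (l * (s / h i)) * Real.exp (-(u / h (i + 1))) := by
                rw [← Real.exp_add]
                exact Real.one_le_exp (by linarith)
              calc r * N = r * N * 1 := by ring
                _ ≤ r * N * (Real.exp (l * (s / h i)) * Real.exp (-(u / h (i + 1)))) :=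
                  mul_le_mul_of_nonneg_left h5 (by positivity)
                _ = _ := by ring)
          rw [le_div_iff₀ hp3]
          refine le_trans ?_ hl'
          rw [mul_comm]
          refine mul_le_mul_of_nonneg_left ?_ hp3.le
          refine mul_le_mul (le_of_eq ?_) ?_ (Finset.sum_nonneg fun _ _ => by positivity)
            (Real.exp_pos _).le
          · congr 1; ring
          · refine h4.trans ?_
            refine mul_le_mul_of_nonneg_right ?_ (by positivity)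
            exact pow_le_pow_left₀ (by linarith) hC1C _)
      have h4 := lvl (Sj J) ((Sj J).filter (fun j => gd (i + 1) j ∧ ¬ gd i j))
        (Finset.filter_subset _ _)
        (fun j => Mf N j) (fun j => ∑ u ∈ Finset.Ico (u0 (i + 1)) (u1 (i + 1)),
          Qf (h (i + 1)) u j * Mf (N * Real.exp (-(u / h (i + 1)))) j) _ _ _
        (hLLge (i + 1) (by omega)).1 (herr (i + 1) (by omega)) h3
      refine h4.trans ?_
      have h5 := hecmp (i + 1) (by omega)
      have h6 : ((Finset.Ico (u0 (i + 1)) (u1 (i + 1))).card : ℝ) ^ 2 *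
          (Finset.Ico (u0 i) (u1 i)).card * (ε' * (1 / 2) ^ (i + 1) /
            ((u1 (i + 1) : ℝ) ^ 2 * u1 i)) ≤ ε' * (1 / 2) ^ (i + 1) := by
        rw [mul_div_assoc', div_le_iff₀ hp3]
        have h7 : ((Finset.Ico (u0 (i + 1)) (u1 (i + 1))).card : ℝ) ^ 2 *
            (Finset.Ico (u0 i) (u1 i)).card ≤ (u1 (i + 1) : ℝ) ^ 2 * u1 i :=
          mul_le_mul (pow_le_pow_left₀ (Nat.cast_nonneg _) (hcard _) 2) (hcard _)
            (Nat.cast_nonneg _) (by positivity)
        calc _ ≤ (u1 (i + 1) : ℝ) ^ 2 * u1 i * (ε' * (1 / 2) ^ (i + 1)) :=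
              mul_le_mul_of_nonneg_right h7 (by positivity)
          _ = _ := by ring
      linarith
    have hgeo : ∑ i ∈ Finset.range n, ((1 : ℝ) / 2) ^ (i + 1) ≤ 1 := by
      have h3 : ∀ m : ℕ, ∑ i ∈ Finset.range m, ((1 : ℝ) / 2) ^ (i + 1) = 1 - (1 / 2) ^ m := by
        intro m
        induction m with
        | zero => simp
        | succ m ih => rw [Finset.sum_range_succ, ih, pow_succ]; ring
      rw [h3]
      have : (0 : ℝ) < (1 / 2) ^ n := by positivity
      linarith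
    have h7 := Finset.sum_le_sum hL1
    rw [Finset.sum_add_distrib] at h7
    rw [Finset.sum_range_succ'] at hsum
    have h8 : ∑ i ∈ Finset.range n, 2 * ε' * ((1 : ℝ) / 2) ^ (i + 1) ≤ 2 * ε' := by
      rw [← Finset.mul_sum]
      have : 0 ≤ 2 * ε' := by positivity
      exact mul_le_of_le_one_right this hgeo
    linarith

end LevW38

theorem wy_mono {z : ℂ} {y y' : ℝ} {w : ℕ → ℂ} (h : Wy z y w) (hy : y' ≤ y) : Wy z y' w :=
  ⟨h.le, fun p n hp hpy hn => h.mul p n hp (hpy.trans hy) hn⟩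

theorem stLevW_38 (hSch : StSchW) {d K : ℕ} [NeZero K] (hDec : StDecW d K) (hMom : StMomW d K)
    (hMom1 : StMom1G d K) (hMer : StMerG d K) : StLevW d K := by
  intro z hz c0 hc0 r1 r2 h1 h2 ε c hε hc
  obtain ⟨κ, C, hκ, hC, hM⟩ := hMer
  obtain ⟨CD, ND, hCD, hND, hD⟩ := hDec z hz r1 r2 h1 h2
  obtain ⟨C1, hC1, hMo⟩ := hMom z hz r1 r2 h1 h2
  obtain ⟨H0, hH0, hh⟩ := LevW38.lev_absW hSch (SJ d K) (fun h u w => Qsg z h u w) (LLg d K) r1 κ
    c0 h1 hκ hc0 CD ND C1 hCD hND hC1 (hMom1 z hz) ⟨C, hC, hM⟩ ε c hε hc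
  refine ⟨H0, hH0, fun H hH => ?_⟩
  obtain ⟨N0, h3⟩ := hh H hH
  refine ⟨N0, fun N hN w hw => ?_⟩
  obtain ⟨U, hU1, hU2, hU3⟩ := h3 N hN (fun N f => Mpw w r1 r2 N f)
    (fun h u0 u1 a1 a2 a3 a4 a5 a6 a7 a8 J a9 =>
      hD h u0 u1 N a1 a2 a3 a4 a5 a6 a8 J a9 w (wy_mono hw a7))
    (fun h u l J N b1 b2 b3 b4 => hMo h u l J N b1 b2 b3 b4 w hw.le)
  refine ⟨U, hU1, hU2, le_trans (le_of_eq ?_) hU3⟩
  refine Finset.sum_congr ?_ fun _ _ => rfl
  ext w
  simp only [Finset.mem_sdiff]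

end Pool.Agent.Lib.MP_a17b09_nt.PQ
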