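import Pool.Agent.Lib.MP_a17b09_nt.PQ.T2_20
import Pool.Agent.Lib.MP_a17b09_nt.PQ.T4_64
import Pool.Agent.Lib.MP_a17b09_nt.PQ.E2_20
import Pool.Agent.Lib.MP_a17b09_nt.PQ.E3_28
import Pool.Agent.Lib.MP_a17b09_nt.PQ.AmW98
import Pool.Agent.Lib.MP_a17b09_nt.PQ.TwW98
import Pool.Agent.Lib.MP_a17b09_nt.PQ.M1_22
import Pool.Agent.Lib.MP_a17b09_nt.PQ.M2_21
import Pool.Agent.Lib.MP_a17b09_nt.PQ.M3_21
import Pool.Agent.Lib.MP_a17b09_nt.PQ.M3b_11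
import Pool.Agent.Lib.MP_a17b09_nt.PQ.M4_38
import Pool.Agent.Lib.MP_a17b09_nt.PQ.M5_12
import Pool.Agent.Lib.MP_a17b09_nt.PQ.M6_39
import Pool.Agent.Lib.MP_a17b09_nt.PQ.M8_12
import Pool.Agent.Lib.MP_a17b09_nt.PQ.M9_79
import Pool.Agent.Lib.MP_a17b09_nt.PQ.M10_90
import Pool.Agent.Lib.MP_a17b09_nt.PQ.N1_22
import Pool.Agent.Lib.MP_a17b09_nt.PQ.N2_12
import Pool.Agent.Lib.MP_a17b09_nt.PQ.N3_11
import Pool.Agent.Lib.MP_a17b09_nt.PQ.F6_11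
import Pool.Agent.Lib.MP_a17b09_nt.MRSG.LsG29
import Pool.Agent.Lib.MP_a17b09_nt.MRSG.MomG16
import Pool.Agent.Lib.MP_a17b09_nt.MRSG.MerG7
import Pool.Agent.Lib.MP_a17b09_nt.MRSG.WinF40
import Pool.Agent.Lib.MP_a17b09_nt.MRSG.HmuG96

/-!
Project PQ: assembly of all rows on `main` (helper20); the rows M7, F4, F5 are hypotheses.
-/

set_option autoImplicit false

open Filter Topology Finset

namespace Pool.Agent.Lib.MP_a17b09_nt.PQ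

open CH CH.PE MRSG MRS

/-- M1 - M6 -/
theorem stLevW_all20 {d : ℕ} (hd : 0 < d) (K : ℕ) [NeZero K] : StLevW d K :=
  stLevW_38 stSchW_11 Dec21.stDecW_21 (stMomW_21 (stLsG_29 d K)) (stMom1G_16 (stLsG_29 d K))
    (stMerG_7 d K hd)

theorem stUallW_all20 (d K : ℕ) [NeZero K] : StUallW d K :=
  stUallW_39 d K (stTkhW_12 d K) (stDjG_40 d K)

theorem stNull_all20 (d : ℕ) : StNull d := stNull_22 d

theorem stApx_all20 (d : ℕ) : StApx d := stApx_12 d (stNull_22 d) stRho_11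

theorem stDilN_all20 : StDilN := stDilN_11 fun d => stNull_22 d

theorem stAmW_all20 : StAmW := stAmW_98 stDilsW_all28

/-- M10 from M7 -/
theorem stMrsW_all20 (hUp : ∀ (d K : ℕ) [NeZero K], 0 < d → StUpW d K) {d : ℕ} (hd : 0 < d) :
    StMrsW d :=
  stMrsW_90 (stSmall_79 d (fun K _ => stCoreW_12 d K (stLevW_all20 hd K) (hUp d K hd))
    (fun K _ => stLspG_29 d K)) (fun K _ => stParW_22)

/-- T2 from M7, F4, F5 -/
theorem stTwB_all20 (hUp : ∀ (d K : ℕ) [NeZero K], 0 < d → StUpW d K)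
    (hFrR : ∀ d : ℕ, 0 < d → StFrR d) (hFrZ : ∀ d : ℕ, 0 < d → StFrZ d) : StTwB :=
  stTwB_20 (fun _ hd => stMrsW_all20 hUp hd) (fun d _ => stApx_all20 d) stDilN_all20 hFrR hFrZ
    stEsW_all20 stAmW_all20 stTwW_98 stRho_11 F64.stMainS_all

/-- T4a from M7, F4, F5 -/
theorem stEndA_all20 (hUp : ∀ (d K : ℕ) [NeZero K], 0 < d → StUpW d K)
    (hFrR : ∀ d : ℕ, 0 < d → StFrR d) (hFrZ : ∀ d : ℕ, 0 < d → StFrZ d) : StEndA :=
  stEndA_64 (stFinW_64 (stTwB_all20 hUp hFrR hFrZ)) F64.stMainS_all stMeanU_70 stMean_70 stRho_11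

/-- T4b from M7, F4, F5 -/
theorem stEndB_all20 (hUp : ∀ (d K : ℕ) [NeZero K], 0 < d → StUpW d K)
    (hFrR : ∀ d : ℕ, 0 < d → StFrR d) (hFrZ : ∀ d : ℕ, 0 < d → StFrZ d) : StEndB :=
  stEndB_64 (stEndA_all20 hUp hFrR hFrZ)

end Pool.Agent.Lib.MP_a17b09_nt.PQ
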