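import Pool.Agent.Lib.MP_a17b09_nt.PQ.M1_22
import Pool.Agent.Lib.MP_a17b09_nt.PQ.M2_21
import Pool.Agent.Lib.MP_a17b09_nt.PQ.M3_21
import Pool.Agent.Lib.MP_a17b09_nt.PQ.M3b_11
import Pool.Agent.Lib.MP_a17b09_nt.PQ.M4_38
import Pool.Agent.Lib.MP_a17b09_nt.PQ.M5_12
import Pool.Agent.Lib.MP_a17b09_nt.PQ.M6_39
import Pool.Agent.Lib.MP_a17b09_nt.PQ.M7_9
import Pool.Agent.Lib.MP_a17b09_nt.PQ.M8_12
import Pool.Agent.Lib.MP_a17b09_nt.PQ.M9_79
import Pool.Agent.Lib.MP_a17b09_nt.PQ.M10_90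
import Pool.Agent.Lib.MP_a17b09_nt.PQ.N1_22
import Pool.Agent.Lib.MP_a17b09_nt.PQ.E2_20
import Pool.Agent.Lib.MP_a17b09_nt.PQ.E3_28
import Pool.Agent.Lib.MP_a17b09_nt.PQ.AmW98
import Pool.Agent.Lib.MP_a17b09_nt.PQ.TwW98
import Pool.Agent.Lib.MP_a17b09_nt.PQ.X2_11
import Pool.Agent.Lib.MP_a17b09_nt.PQ.X3_11
import Pool.Agent.Lib.MP_a17b09_nt.PQ.X4_7
import Pool.Agent.Lib.MP_a17b09_nt.PQ.X56c_42
import Pool.Agent.Lib.MP_a17b09_nt.PQ.X7_64
import Pool.Agent.Lib.MP_a17b09_nt.PQ.X9_64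
import Pool.Agent.Lib.MP_a17b09_nt.MRSG.All29
import Pool.Agent.Lib.MP_a17b09_nt.CH.TopS64

/-!
Project PX, negative discriminant: assembly, no hypotheses (helper64).
-/

set_option autoImplicit false

open Filter Topology

namespace Pool.Agent.Lib.MP_a17b09_nt.PQ

open CH CH.PE MRSG MRS

namespace Z64

theorem small (d : ℕ) (hd : 0 < d) : StSmall d :=
  stSmall_79 d
    (fun K _ => stCoreW_12 d K
      (stLevW_38 stSchW_11 Dec21.stDecW_21 (stMomW_21 (stLsG_29 d K)) (stMom1G_16 (stLsG_29 d K))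
        (stMerG_7 d K hd))
      (stUpW_9 d K (stUallW_39 d K (stTkhW_12 d K) (stDjG_40 d K)) (stHmuG_96 d K) stParW_22))
    (fun K _ => stLspG_29 d K)

theorem mrs (d : ℕ) (hd : 0 < d) : StMrsW d := stMrsW_90 (small d hd) (fun _ _ => stParW_22)

theorem twBX : StTwBX :=
  stTwBX_64 mrs (fun d _ => stApxX_11 d (stNull_22 d) stRhoX_11) (stDilNX_7 stNull_22)
    (fun d _ => stFrRX_all42 d) (fun d _ => stFrZX_42 d (fun K _ => stPw0G_all d K) (stNull_22 d))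
    stEsW_all20 (stAmW_98 stDilsW_all28) stTwW_98 stRhoX_11 F64.stMainS_all

end Z64

/-- (X9) the pairs, negative discriminant, no hypotheses -/
theorem stEndX_all64 : StEndX :=
  stEndX_64 (stFinX_64 Z64.twBX) F64.stMainS_all stMeanU_70 stMean_70 stRhoX_11

end Pool.Agent.Lib.MP_a17b09_nt.PQ
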