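import Pool.Agent.Lib.MP_a17b09_nt.PQ.Stmts79
import Pool.Agent.Lib.MP_a17b09_nt.MRS.LatG84

/-!
PQ, row F2 (helper22): the number of primitive vectors in a class modulo `K` and an elliptic shell;
the constant depends only on the discriminant and on `K`.
-/

set_option autoImplicit false

open Filter Topology Finset

namespace Pool.Agent.Lib.MP_a17b09_nt.PQ

open CH CH.PE MRSG MRS

namespace Cla22

/-- `Q (v + w) ≤ (1 + ε) Q v + (1 + 1 / ε) Q w` -/
theorem tri {Q : Form} (hQ : Q.Pos) (v w : V) {ε : ℝ} (hε : 0 < ε) :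
    ((Q.q (v + w) : ℤ) : ℝ) ≤ (1 + ε) * (Q.q v : ℝ) + (1 + 1 / ε) * (Q.q w : ℝ) := by
  have h1 := Q.q_add v w
  have h2 := Q.key v w
  have hv : (0 : ℝ) ≤ (Q.q v : ℝ) := by exact_mod_cast hQ.q_nonneg v
  have hw : (0 : ℝ) ≤ (Q.q w : ℝ) := by exact_mod_cast hQ.q_nonneg w
  have hD : (0 : ℝ) < (Q.D : ℝ) := by exact_mod_cast hQ.2
  have h3 : ((Q.q (v + w) : ℤ) : ℝ) = Q.q v + Q.B v w + Q.q w := by exact_mod_cast h1
  have h4 : 4 * (Q.q v : ℝ) * Q.q w = (Q.B v w : ℝ) ^ 2 + Q.D * (wd v w : ℝ) ^ 2 := by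
    exact_mod_cast h2
  set x : ℝ := ε * (Q.q v : ℝ) + 1 / ε * (Q.q w : ℝ) with hx
  have hx0 : 0 ≤ x := by positivity
  have h5 : (Q.B v w : ℝ) ^ 2 ≤ x ^ 2 := by
    have h6 : x ^ 2 - 4 * ((Q.q v : ℝ) * Q.q w) = (ε * (Q.q v : ℝ) - 1 / ε * (Q.q w : ℝ)) ^ 2 := by
      rw [hx]
      field_simp
      ring
    nlinarith [sq_nonneg (ε * (Q.q v : ℝ) - 1 / ε * (Q.q w : ℝ)),
      mul_nonneg hD.le (sq_nonneg (wd v w : ℝ))]
  have h7 : (Q.B v w : ℝ) ≤ x := (abs_le_of_sq_le_sq' h5 hx0).2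
  rw [h3]
  linarith

/-- vectors of the ball in a class -/
noncomputable def Bc (Q : Form) (K : ℕ) (α : ZMod K × ZMod K) (n : ℕ) : Finset V :=
  (Q.ball n).filter (fun v => cl K v = α)

theorem cl_eq {K : ℕ} {v a : V} (h : cl K v = cl K a) : ∃ w : V, v = a + ((K : ℤ) * w.1, (K : ℤ) * w.2) := by
  unfold cl at h
  rw [Prod.mk.injEq] at h
  have h1 := (ZMod.intCast_eq_intCast_iff_dvd_sub a.1 v.1 K).1 h.1.symm
  have h2 := (ZMod.intCast_eq_intCast_iff_dvd_sub a.2 v.2 K).1 h.2.symm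
  obtain ⟨x, hx⟩ := h1
  obtain ⟨y, hy⟩ := h2
  refine ⟨(x, y), Prod.ext ?_ ?_⟩
  · simp only [Prod.fst_add]
    linarith
  · simp only [Prod.snd_add]
    linarith

theorem q_mul (Q : Form) (K : ℤ) (w : V) : Q.q (K * w.1, K * w.2) = K ^ 2 * Q.q w := by
  unfold Form.q
  ring

/-- upper bound -/
theorem up {Q : Form} (hQ : Q.Pos) {K : ℕ} (hK : 0 < K) (a : V) {n : ℕ} (hn : 0 < n) :
    (Bc Q K (cl K a) n).card ≤
      (Q.ball ⌊((n : ℝ) + (1 + 2 * (Q.q a : ℝ)) * √(n : ℝ)) / (K : ℝ) ^ 2⌋₊).card := by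
  classical
  have hn1 : (1 : ℝ) ≤ n := by exact_mod_cast hn
  have hs : 0 < √(n : ℝ) := Real.sqrt_pos.2 (by linarith)
  have hs1 : 1 ≤ √(n : ℝ) := Real.one_le_sqrt.2 hn1
  have hss : √(n : ℝ) * √(n : ℝ) = n := Real.mul_self_sqrt (by linarith)
  have hK' : (0 : ℝ) < K := by exact_mod_cast hK
  have ha : (0 : ℝ) ≤ (Q.q a : ℝ) := by exact_mod_cast hQ.q_nonneg a
  refine (Finset.card_le_card (t := (Q.ball ⌊((n : ℝ) + (1 + 2 * (Q.q a : ℝ)) * √(n : ℝ)) /
    (K : ℝ) ^ 2⌋₊).image (fun w => a + ((K : ℤ) * w.1, (K : ℤ) * w.2))) ?_).trans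
    Finset.card_image_le
  intro v hv
  unfold Bc at hv
  rw [Finset.mem_filter, Form.mem_ball hQ] at hv
  obtain ⟨w, hw⟩ := cl_eq hv.2
  rw [Finset.mem_image]
  refine ⟨w, ?_, hw.symm⟩
  rw [Form.mem_ball hQ]
  have h1 := tri hQ v (-a) (ε := 1 / √(n : ℝ)) (by positivity)
  have h2 : v + (-a) = ((K : ℤ) * w.1, (K : ℤ) * w.2) := by rw [hw]; abel
  have h3 : Q.q (-a) = Q.q a := by
    unfold Form.q
    simp only [Prod.fst_neg, Prod.snd_neg]
    ring
  rw [h2, q_mul, h3] at h1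
  have h4 : ((Q.q v : ℤ) : ℝ) ≤ n := by exact_mod_cast hv.1
  have h5 : (1 : ℝ) / (1 / √(n : ℝ)) = √(n : ℝ) := by field_simp
  rw [h5] at h1
  have h6 : (1 + 1 / √(n : ℝ)) * (Q.q v : ℝ) ≤ (1 + 1 / √(n : ℝ)) * n :=
    mul_le_mul_of_nonneg_left h4 (by positivity)
  have h7 : (1 + 1 / √(n : ℝ)) * (n : ℝ) = n + √(n : ℝ) := by
    have h8 : 1 / √(n : ℝ) * (n : ℝ) = √(n : ℝ) := by
      nth_rewrite 2 [← hss]
      field_simp
    linear_combination h8
  have h8 : (K : ℝ) ^ 2 * (Q.q w : ℝ) ≤ n + (1 + 2 * (Q.q a : ℝ)) * √(n : ℝ) := by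
    push_cast at h1
    nlinarith
  have h9 : ((Q.q w : ℤ) : ℝ) ≤ ((n : ℝ) + (1 + 2 * (Q.q a : ℝ)) * √(n : ℝ)) / (K : ℝ) ^ 2 := by
    rw [le_div_iff₀ (by positivity)]
    linarith
  obtain ⟨m, hm⟩ := Int.eq_ofNat_of_zero_le (hQ.q_nonneg w)
  rw [hm] at h9 ⊢
  exact_mod_cast Nat.le_floor (by exact_mod_cast h9)

/-- lower bound -/
theorem lo {Q : Form} (hQ : Q.Pos) {K : ℕ} (hK : 0 < K) (a : V) {n : ℕ} (hn : 0 < n)
    (hn2 : 0 ≤ (n : ℝ) - (1 + 2 * (Q.q a : ℝ)) * √(n : ℝ)) :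
    (Q.ball ⌊((n : ℝ) - (1 + 2 * (Q.q a : ℝ)) * √(n : ℝ)) / (K : ℝ) ^ 2⌋₊).card ≤
      (Bc Q K (cl K a) n).card := by
  classical
  have hn1 : (1 : ℝ) ≤ n := by exact_mod_cast hn
  have hs : 0 < √(n : ℝ) := Real.sqrt_pos.2 (by linarith)
  have hs1 : 1 ≤ √(n : ℝ) := Real.one_le_sqrt.2 hn1
  have hss : √(n : ℝ) * √(n : ℝ) = n := Real.mul_self_sqrt (by linarith)
  have hK' : (0 : ℝ) < K := by exact_mod_cast hK
  have hKz : (K : ℤ) ≠ 0 := by exact_mod_cast hK.ne'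
  have ha : (0 : ℝ) ≤ (Q.q a : ℝ) := by exact_mod_cast hQ.q_nonneg a
  apply Finset.card_le_card_of_injOn (fun w => a + ((K : ℤ) * w.1, (K : ℤ) * w.2))
  · intro w hw
    rw [Finset.mem_coe, Form.mem_ball hQ] at hw
    rw [Finset.mem_coe]
    unfold Bc
    rw [Finset.mem_filter, Form.mem_ball hQ]
    constructor
    · obtain ⟨m, hm⟩ := Int.eq_ofNat_of_zero_le (hQ.q_nonneg w)
      have h9 : ((Q.q w : ℤ) : ℝ) ≤ ((n : ℝ) - (1 + 2 * (Q.q a : ℝ)) * √(n : ℝ)) / (K : ℝ) ^ 2 := by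
        rw [hm] at hw ⊢
        have h1 : m ≤ ⌊((n : ℝ) - (1 + 2 * (Q.q a : ℝ)) * √(n : ℝ)) / (K : ℝ) ^ 2⌋₊ := by
          exact_mod_cast hw
        have h2 := (Nat.cast_le (α := ℝ)).2 h1
        push_cast
        exact h2.trans (Nat.floor_le (by positivity))
      rw [le_div_iff₀ (by positivity)] at h9
      have h1 := tri hQ ((K : ℤ) * w.1, (K : ℤ) * w.2) a (ε := 1 / √(n : ℝ)) (by positivity)
      rw [q_mul] at h1
      have h5 : (1 : ℝ) / (1 / √(n : ℝ)) = √(n : ℝ) := by field_simp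
      rw [h5] at h1
      push_cast at h1
      have h6 : (1 + 1 / √(n : ℝ)) * ((K : ℝ) ^ 2 * (Q.q w : ℝ)) ≤
          (1 + 1 / √(n : ℝ)) * ((n : ℝ) - (1 + 2 * (Q.q a : ℝ)) * √(n : ℝ)) :=
        mul_le_mul_of_nonneg_left (by linarith) (by positivity)
      have h7 : (1 + 1 / √(n : ℝ)) * ((n : ℝ) - (1 + 2 * (Q.q a : ℝ)) * √(n : ℝ)) =
          n + √(n : ℝ) - (1 + 2 * (Q.q a : ℝ)) * √(n : ℝ) - (1 + 2 * (Q.q a : ℝ)) := by
        have h8 : 1 / √(n : ℝ) * (n : ℝ) = √(n : ℝ) := by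
          nth_rewrite 2 [← hss]
          field_simp
        have h8' : 1 / √(n : ℝ) * √(n : ℝ) = 1 := by field_simp
        linear_combination h8 - (1 + 2 * (Q.q a : ℝ)) * h8'
      have h10 : ((Q.q (((K : ℤ) * w.1, (K : ℤ) * w.2) + a) : ℤ) : ℝ) ≤ n := by
        nlinarith
      have h11 : a + ((K : ℤ) * w.1, (K : ℤ) * w.2) = ((K : ℤ) * w.1, (K : ℤ) * w.2) + a := add_comm _ _
      simp only
      rw [h11]
      exact_mod_cast h10
    · unfold cl
      simp only [Prod.fst_add, Prod.snd_add]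
      push_cast
      simp
  · intro w _ w' _ h
    simp only at h
    have h1 := add_left_cancel h
    rw [Prod.mk.injEq] at h1
    exact Prod.ext (mul_left_cancel₀ hKz h1.1) (mul_left_cancel₀ hKz h1.2)

/-- the ball -/
theorem ball_tendsto {Q : Form} (hQ : Q.Pos) : Tendsto (fun n : ℕ => ((Q.ball n).card : ℝ) / n)
    atTop (𝓝 (LatG84.kap Q)) := by
  obtain ⟨C, hC0, hC⟩ := LatG84.lat Q hQ
  rw [tendsto_iff_norm_sub_tendsto_zero]
  have h1 : Tendsto (fun n : ℕ => C * (2 / √(n : ℝ))) atTop (𝓝 0) := by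
    have h2 : Tendsto (fun n : ℕ => √(n : ℝ)) atTop atTop :=
      Real.tendsto_sqrt_atTop.comp tendsto_natCast_atTop_atTop
    have h3 := (h2.const_div_atTop 2).const_mul C
    rwa [mul_zero] at h3
  refine squeeze_zero' (Eventually.of_forall fun n => norm_nonneg _) ?_ h1
  filter_upwards [eventually_ge_atTop 1] with n hn
  have hn1 : (1 : ℝ) ≤ n := by exact_mod_cast hn
  have hs : 0 < √(n : ℝ) := Real.sqrt_pos.2 (by linarith)
  have hs1 : 1 ≤ √(n : ℝ) := Real.one_le_sqrt.2 hn1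
  have hss : √(n : ℝ) * √(n : ℝ) = n := Real.mul_self_sqrt (by linarith)
  have h2 : ((Q.ball n).card : ℝ) / n - LatG84.kap Q =
      (((Q.ball n).card : ℝ) - LatG84.kap Q * n) / n := by
    field_simp
  rw [h2, norm_div, Real.norm_eq_abs, Real.norm_of_nonneg (by linarith), div_le_iff₀ (by linarith)]
  refine (hC n).trans ?_
  have h3 : C * (2 / √(n : ℝ)) * n = C * (2 * √(n : ℝ)) := by
    nth_rewrite 2 [← hss]
    field_simp
  rw [h3]
  exact mul_le_mul_of_nonneg_left (by linarith) hC0.le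

/-- the ball with a real radius function -/
theorem ball_comp {Q : Form} (hQ : Q.Pos) (f : ℕ → ℝ) (c : ℝ) (hc : 0 < c)
    (hf : Tendsto (fun n : ℕ => f n / n) atTop (𝓝 c)) :
    Tendsto (fun n : ℕ => ((Q.ball ⌊f n⌋₊).card : ℝ) / n) atTop (𝓝 (LatG84.kap Q * c)) := by
  have hf' : Tendsto f atTop atTop := by
    have h1 : Tendsto (fun n : ℕ => f n / n * (n : ℝ)) atTop atTop :=
      hf.pos_mul_atTop hc tendsto_natCast_atTop_atTop
    refine h1.congr' ?_
    filter_upwards [eventually_ge_atTop 1] with n hn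
    have : (n : ℝ) ≠ 0 := by
      have : 0 < n := hn
      positivity
    field_simp
  have h1 : Tendsto (fun n : ℕ => ⌊f n⌋₊) atTop atTop := tendsto_nat_floor_atTop.comp hf'
  have h2 : Tendsto (fun n : ℕ => (⌊f n⌋₊ : ℝ) / f n) atTop (𝓝 1) :=
    (tendsto_nat_floor_div_atTop (R := ℝ)).comp hf'
  have h3 := ((ball_tendsto hQ).comp h1).mul (h2.mul hf)
  rw [one_mul] at h3
  refine h3.congr' ?_
  filter_upwards [h1.eventually_ge_atTop 1, hf'.eventually_gt_atTop 0] with n hn hn'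
  simp only [Function.comp]
  have : (⌊f n⌋₊ : ℝ) ≠ 0 := by
    have : 0 < ⌊f n⌋₊ := hn
    positivity
  field_simp

theorem sqrt_div_tendsto (c : ℝ) : Tendsto (fun n : ℕ => c * √(n : ℝ) / n) atTop (𝓝 0) := by
  have h2 : Tendsto (fun n : ℕ => √(n : ℝ)) atTop atTop :=
    Real.tendsto_sqrt_atTop.comp tendsto_natCast_atTop_atTop
  have h3 := h2.const_div_atTop c
  refine h3.congr' ?_
  filter_upwards [eventually_ge_atTop 1] with n hn
  have hn1 : (1 : ℝ) ≤ n := by exact_mod_cast hn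
  have hs : 0 < √(n : ℝ) := Real.sqrt_pos.2 (by linarith)
  have hss : √(n : ℝ) * √(n : ℝ) = n := Real.mul_self_sqrt (by linarith)
  rw [div_eq_div_iff hs.ne' (by linarith)]
  linear_combination (-c) * hss

/-- one class -/
theorem cls_tendsto {Q : Form} (hQ : Q.Pos) {K : ℕ} (hK : 0 < K) (α : ZMod K × ZMod K) :
    Tendsto (fun n : ℕ => ((Bc Q K α n).card : ℝ) / n) atTop
      (𝓝 (LatG84.kap Q / (K : ℝ) ^ 2)) := by
  have : NeZero K := ⟨hK.ne'⟩
  have hK' : (0 : ℝ) < K := by exact_mod_cast hK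
  set a : V := rz α with ha
  have hcl : cl K a = α := by
    rw [ha]
    unfold rz cl
    simp
  rw [← hcl]
  set C : ℝ := 1 + 2 * (Q.q a : ℝ) with hC
  have hC1 : 1 ≤ C := by
    have : (0 : ℝ) ≤ (Q.q a : ℝ) := by exact_mod_cast hQ.q_nonneg a
    linarith
  have h1 : Tendsto (fun n : ℕ => ((n : ℝ) + C * √(n : ℝ)) / (K : ℝ) ^ 2 / n) atTop
      (𝓝 (1 / (K : ℝ) ^ 2)) := by
    have h2 := ((sqrt_div_tendsto C).const_add 1).div_const ((K : ℝ) ^ 2)
    rw [add_zero] at h2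
    refine h2.congr' ?_
    filter_upwards [eventually_ge_atTop 1] with n hn
    have hn1 : (1 : ℝ) ≤ n := by exact_mod_cast hn
    field_simp
  have h2 : Tendsto (fun n : ℕ => ((n : ℝ) - C * √(n : ℝ)) / (K : ℝ) ^ 2 / n) atTop
      (𝓝 (1 / (K : ℝ) ^ 2)) := by
    have h2 := ((sqrt_div_tendsto C).const_sub 1).div_const ((K : ℝ) ^ 2)
    rw [sub_zero] at h2
    refine h2.congr' ?_
    filter_upwards [eventually_ge_atTop 1] with n hn
    have hn1 : (1 : ℝ) ≤ n := by exact_mod_cast hn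
    field_simp
  have h3 := ball_comp hQ _ _ (by positivity) h1
  have h4 := ball_comp hQ _ _ (by positivity) h2
  rw [mul_one_div] at h3 h4
  have h5 : ∀ᶠ n : ℕ in atTop, C ^ 2 ≤ (n : ℝ) :=
    tendsto_natCast_atTop_atTop.eventually_ge_atTop (C ^ 2)
  refine tendsto_of_tendsto_of_tendsto_of_le_of_le' h4 h3 ?_ ?_
  · filter_upwards [eventually_ge_atTop 1, h5] with n hn hn2
    have hn1 : (1 : ℝ) ≤ n := by exact_mod_cast hn
    have hs : C ≤ √(n : ℝ) := Real.le_sqrt_of_sq_le hn2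
    have hss : √(n : ℝ) * √(n : ℝ) = n := Real.mul_self_sqrt (by linarith)
    have h6 : 0 ≤ (n : ℝ) - C * √(n : ℝ) := by nlinarith [Real.sqrt_nonneg (n : ℝ)]
    exact div_le_div_of_nonneg_right ((Nat.cast_le (α := ℝ)).2 (lo hQ hK a hn h6)) (by linarith)
  · filter_upwards [eventually_ge_atTop 1] with n hn
    have hn1 : (1 : ℝ) ≤ n := by exact_mod_cast hn
    exact div_le_div_of_nonneg_right ((Nat.cast_le (α := ℝ)).2 (up hQ hK a hn)) (by linarith)

/-- nonzero vectors: linear bound -/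
theorem ball_bd {Q : Form} (hQ : Q.Pos) : ∃ C : ℝ, 0 < C ∧ ∀ n : ℕ,
    (((Q.ball n).filter (fun v => v ≠ 0)).card : ℝ) ≤ C * n := by
  obtain ⟨C, hC0, hC⟩ := LatG84.lat Q hQ
  have hk := LatG84.kap_pos hQ
  refine ⟨LatG84.kap Q + 2 * C, by positivity, fun n => ?_⟩
  rcases Nat.eq_zero_or_pos n with h0 | h0
  · subst h0
    have : (Q.ball 0).filter (fun v => v ≠ 0) = ∅ := by
      rw [Finset.filter_eq_empty_iff]
      intro v hv h
      rw [Form.mem_ball hQ] at hv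
      have := hQ.q_pos h
      push_cast at hv
      omega
    rw [this]
    simp
  · have hn1 : (1 : ℝ) ≤ n := by exact_mod_cast h0
    have h1 := (abs_le.1 (hC n)).2
    have h2 : (((Q.ball n).filter (fun v => v ≠ 0)).card : ℝ) ≤ ((Q.ball n).card : ℝ) := by
      exact_mod_cast Finset.card_filter_le _ _
    have h3 : √(n : ℝ) ≤ n := by
      rw [Real.sqrt_le_left (by linarith)]
      nlinarith
    nlinarith

/-- nonzero vectors of the ball in a class -/
noncomputable def Nz (Q : Form) (K : ℕ) (α : ZMod K × ZMod K) (n : ℕ) : Finset V :=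
  (Q.ball n).filter (fun v => v ≠ 0 ∧ cl K v = α)

theorem Nz_tendsto {Q : Form} (hQ : Q.Pos) {K : ℕ} (hK : 0 < K) (α : ZMod K × ZMod K) :
    Tendsto (fun n : ℕ => ((Nz Q K α n).card : ℝ) / n) atTop
      (𝓝 (LatG84.kap Q / (K : ℝ) ^ 2)) := by
  classical
  have h1 := cls_tendsto hQ hK α
  have h2 : Tendsto (fun n : ℕ => ((Bc Q K α n).card : ℝ) / n - 1 / (n : ℝ)) atTop
      (𝓝 (LatG84.kap Q / (K : ℝ) ^ 2)) := by
    have h3 := h1.sub (tendsto_const_div_atTop_nhds_zero_nat (1 : ℝ))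
    rwa [sub_zero] at h3
  refine tendsto_of_tendsto_of_tendsto_of_le_of_le' h2 h1 ?_ ?_
  · filter_upwards with n
    have h3 : (Bc Q K α n).card ≤ (Nz Q K α n).card + 1 := by
      have h4 : Bc Q K α n ⊆ insert 0 (Nz Q K α n) := by
        intro v hv
        unfold Bc at hv
        rw [Finset.mem_filter] at hv
        rw [Finset.mem_insert]
        unfold Nz
        rw [Finset.mem_filter]
        by_cases h : v = 0
        · exact Or.inl h
        · exact Or.inr ⟨hv.1, h, hv.2⟩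
      exact (Finset.card_le_card h4).trans (Finset.card_insert_le _ _)
    have h4 : ((Bc Q K α n).card : ℝ) ≤ ((Nz Q K α n).card : ℝ) + 1 := by exact_mod_cast h3
    rw [← sub_div]
    exact div_le_div_of_nonneg_right (by linarith) (Nat.cast_nonneg n)
  · filter_upwards with n
    refine div_le_div_of_nonneg_right ?_ (Nat.cast_nonneg n)
    have h4 : Nz Q K α n ⊆ Bc Q K α n := by
      intro v hv
      unfold Nz at hv
      unfold Bc
      rw [Finset.mem_filter] at hv ⊢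
      exact ⟨hv.1, hv.2.2⟩
    exact_mod_cast Finset.card_le_card h4

/-- nonzero multiples of `D` in a class -/
noncomputable def Nd (Q : Form) (K : ℕ) (α : ZMod K × ZMod K) (D n : ℕ) : Finset V :=
  (Q.ball n).filter (fun v => v ≠ 0 ∧ cl K v = α ∧ (D : ℤ) ∣ v.1 ∧ (D : ℤ) ∣ v.2)

/-- multiples of `D` -/
theorem Nd_card {Q : Form} (hQ : Q.Pos) {K : ℕ} (hK : 0 < K) (α : ZMod K × ZMod K)
    {D : ℕ} (hD : 0 < D) (hc : Nat.Coprime D K) (n : ℕ) :
    (Nd Q K α D n).card = (Nz Q K (sc ((D : ZMod K)⁻¹) α) (n / D ^ 2)).card := by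
  have hDz : (D : ℤ) ≠ 0 := by exact_mod_cast hD.ne'
  have hu : IsUnit (D : ZMod K) := (ZMod.isUnit_iff_coprime D K).2 hc
  symm
  apply Finset.card_nbij (fun w => ((D : ℤ) * w.1, (D : ℤ) * w.2))
  · intro w hw
    rw [Finset.mem_coe] at hw ⊢
    unfold Nz at hw
    unfold Nd
    rw [Finset.mem_filter, Form.mem_ball hQ] at hw ⊢
    obtain ⟨h1, h2, h3⟩ := hw
    refine ⟨?_, ?_, ?_, dvd_mul_right _ _, dvd_mul_right _ _⟩
    · rw [q_mul]
      obtain ⟨m, hm⟩ := Int.eq_ofNat_of_zero_le (hQ.q_nonneg w)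
      rw [hm] at h1 ⊢
      norm_cast at h1 ⊢
      rw [Nat.le_div_iff_mul_le (by positivity)] at h1
      linarith
    · intro h
      apply h2
      rw [Prod.mk_eq_zero] at h
      exact Prod.ext ((mul_eq_zero.1 h.1).resolve_left hDz) ((mul_eq_zero.1 h.2).resolve_left hDz)
    · have h4 : cl K ((D : ℤ) * w.1, (D : ℤ) * w.2) = sc (D : ZMod K) (cl K w) := by
        unfold cl sc
        push_cast
        rfl
      rw [h4, h3, sc_sc, ZMod.mul_inv_of_unit _ hu, sc_one]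
  · intro w _ w' _ h
    simp only [Prod.mk.injEq] at h
    exact Prod.ext (mul_left_cancel₀ hDz h.1) (mul_left_cancel₀ hDz h.2)
  · intro v hv
    rw [Finset.mem_coe] at hv
    unfold Nd at hv
    rw [Finset.mem_filter, Form.mem_ball hQ] at hv
    obtain ⟨h1, h2, h3, ⟨x, hx⟩, ⟨y, hy⟩⟩ := hv
    refine ⟨(x, y), ?_, Prod.ext hx.symm hy.symm⟩
    rw [Finset.mem_coe]
    unfold Nz
    rw [Finset.mem_filter, Form.mem_ball hQ]
    have hv : v = ((D : ℤ) * (x, y).1, (D : ℤ) * (x, y).2) := Prod.ext hx hy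
    refine ⟨?_, ?_, ?_⟩
    · rw [hv, q_mul] at h1
      obtain ⟨m, hm⟩ := Int.eq_ofNat_of_zero_le (hQ.q_nonneg (x, y))
      rw [hm] at h1 ⊢
      norm_cast at h1 ⊢
      rw [Nat.le_div_iff_mul_le (by positivity)]
      linarith
    · intro h
      apply h2
      rw [Prod.mk_eq_zero] at h
      rw [hv, h.1, h.2]
      simp
    · have h4 : cl K v = sc (D : ZMod K) (cl K (x, y)) := by
        rw [hv]
        unfold cl sc
        push_cast
        rfl
      rw [← h3, h4, sc_sc, ZMod.inv_mul_of_unit _ hu, sc_one]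

/-- the multiples of `D` in a primitive class: none if `D` has a common factor with `K` -/
theorem Nd_empty {Q : Form} {K : ℕ} {α : ZMod K × ZMod K} (hα : ∃ v : V, Prim v ∧ cl K v = α)
    {D : ℕ} (hc : ¬ Nat.Coprime D K) (n : ℕ) : Nd Q K α D n = ∅ := by
  obtain ⟨u, hu, hu2⟩ := hα
  obtain ⟨p, hp, hpD, hpK⟩ := Nat.Prime.not_coprime_iff_dvd.1 hc
  unfold Nd
  rw [Finset.filter_eq_empty_iff]
  rintro v - ⟨-, h3, h4, h5⟩
  rw [← hu2] at h3
  unfold cl at h3
  rw [Prod.mk.injEq] at h3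
  have h1 := (ZMod.intCast_eq_intCast_iff_dvd_sub v.1 u.1 K).1 h3.1
  have h2 := (ZMod.intCast_eq_intCast_iff_dvd_sub v.2 u.2 K).1 h3.2
  have hpK' : (p : ℤ) ∣ K := by exact_mod_cast hpK
  have hpD' : (p : ℤ) ∣ D := by exact_mod_cast hpD
  have h6 : (p : ℤ) ∣ u.1 := (dvd_sub_left (hpD'.trans h4)).1 (hpK'.trans h1)
  have h7 : (p : ℤ) ∣ u.2 := (dvd_sub_left (hpD'.trans h5)).1 (hpK'.trans h2)
  have h8 : (p : ℤ) ∣ (Int.gcd u.1 u.2 : ℤ) := Int.dvd_coe_gcd h6 h7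
  rw [hu] at h8
  have h9 : p ∣ 1 := by exact_mod_cast h8
  exact hp.one_lt.ne' (Nat.dvd_one.1 h9)

theorem Nd_bd {Q : Form} (hQ : Q.Pos) {C : ℝ} (hC0 : 0 < C) (hC : ∀ n : ℕ,
    (((Q.ball n).filter (fun v => v ≠ 0)).card : ℝ) ≤ C * n) {K : ℕ} (hK : 0 < K)
    {α : ZMod K × ZMod K} (hα : ∃ v : V, Prim v ∧ cl K v = α) {D : ℕ} (hD : 0 < D) (n : ℕ) :
    ((Nd Q K α D n).card : ℝ) ≤ C * n * (1 / (D : ℝ) ^ 2) := by
  have hD' : (0 : ℝ) < D := by exact_mod_cast hD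
  by_cases hc : Nat.Coprime D K
  · rw [Nd_card hQ hK α hD hc n]
    have h1 : ((Nz Q K (sc ((D : ZMod K)⁻¹) α) (n / D ^ 2)).card : ℝ) ≤
        (((Q.ball (n / D ^ 2)).filter (fun v => v ≠ 0)).card : ℝ) := by
      have h2 : Nz Q K (sc ((D : ZMod K)⁻¹) α) (n / D ^ 2) ⊆
          (Q.ball (n / D ^ 2)).filter (fun v => v ≠ 0) := by
        intro v hv
        unfold Nz at hv
        rw [Finset.mem_filter] at hv ⊢
        exact ⟨hv.1, hv.2.1⟩
      exact_mod_cast Finset.card_le_card h2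
    have h3 : ((n / D ^ 2 : ℕ) : ℝ) ≤ n / (D : ℝ) ^ 2 := by
      have := Nat.cast_div_le (α := ℝ) (m := n) (n := D ^ 2)
      push_cast at this
      exact this
    calc _ ≤ C * ((n / D ^ 2 : ℕ) : ℝ) := h1.trans (hC _)
      _ ≤ C * (n / (D : ℝ) ^ 2) := mul_le_mul_of_nonneg_left h3 hC0.le
      _ = _ := by ring
  · rw [Nd_empty hα hc n]
    simp only [Finset.card_empty, Nat.cast_zero]
    positivity

theorem div_sq_tendsto {D : ℕ} (hD : 0 < D) :
    Tendsto (fun n : ℕ => ((n / D ^ 2 : ℕ) : ℝ) / n) atTop (𝓝 (1 / (D : ℝ) ^ 2)) ∧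
    Tendsto (fun n : ℕ => n / D ^ 2) atTop atTop := by
  have hD' : (0 : ℝ) < D := by exact_mod_cast hD
  have h1 : Tendsto (fun n : ℕ => n / D ^ 2) atTop atTop :=
    Nat.tendsto_div_const_atTop (by positivity)
  refine ⟨?_, h1⟩
  have h2 : Tendsto (fun n : ℕ => (1 / (D : ℝ) ^ 2) - 1 / (n : ℝ)) atTop
      (𝓝 (1 / (D : ℝ) ^ 2)) := by
    have h3 := (tendsto_const_nhds (x := 1 / (D : ℝ) ^ 2)).sub
      (tendsto_const_div_atTop_nhds_zero_nat (1 : ℝ))
    rwa [sub_zero] at h3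
  refine tendsto_of_tendsto_of_tendsto_of_le_of_le' h2 tendsto_const_nhds ?_ ?_
  · filter_upwards [eventually_ge_atTop 1] with n hn
    have hn1 : (1 : ℝ) ≤ n := by exact_mod_cast hn
    have h4 : (n : ℝ) < ((n / D ^ 2 : ℕ) : ℝ) * (D : ℝ) ^ 2 + (D : ℝ) ^ 2 := by
      have h5 := Nat.lt_div_mul_add (a := n) (b := D ^ 2) (by positivity)
      exact_mod_cast h5
    rw [sub_le_iff_le_add, ← add_div, div_le_div_iff₀ (by positivity) (by linarith)]
    nlinarith
  · filter_upwards [eventually_ge_atTop 1] with n hn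
    have hn1 : (1 : ℝ) ≤ n := by exact_mod_cast hn
    have := Nat.cast_div_le (α := ℝ) (m := n) (n := D ^ 2)
    push_cast at this
    rw [div_le_div_iff₀ (by linarith) (by positivity)]
    rw [le_div_iff₀ (by positivity)] at this
    linarith

/-- the term of the Moebius sum -/
theorem Nd_tendsto {Q : Form} (hQ : Q.Pos) {K : ℕ} (hK : 0 < K) {α : ZMod K × ZMod K}
    (hα : ∃ v : V, Prim v ∧ cl K v = α) {D : ℕ} (hD : 0 < D) :
    Tendsto (fun n : ℕ => ((Nd Q K α D n).card : ℝ) / n) atTop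
      (𝓝 (if Nat.Coprime D K then LatG84.kap Q / (K : ℝ) ^ 2 * (1 / (D : ℝ) ^ 2) else 0)) := by
  by_cases hc : Nat.Coprime D K
  · rw [if_pos hc]
    obtain ⟨h1, h2⟩ := div_sq_tendsto hD
    have h3 := ((Nz_tendsto hQ hK (sc ((D : ZMod K)⁻¹) α)).comp h2).mul h1
    refine h3.congr' ?_
    filter_upwards [h2.eventually_ge_atTop 1] with n hn
    simp only [Function.comp]
    rw [Nd_card hQ hK α hD hc n]
    have : ((n / D ^ 2 : ℕ) : ℝ) ≠ 0 := by
      have : 0 < n / D ^ 2 := hn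
      positivity
    field_simp
  · rw [if_neg hc]
    simp only [Nd_empty hα hc]
    simp

/-- the primitive vectors of the ball in a class -/
noncomputable def Pc (Q : Form) (K : ℕ) (α : ZMod K × ZMod K) (n : ℕ) : Finset V :=
  (Q.ball n).filter (fun v => Prim v ∧ cl K v = α)

/-- the Moebius factor -/
noncomputable def mf (K D : ℕ) : ℝ :=
  if Nat.Coprime D K then (ArithmeticFunction.moebius D : ℝ) * (1 / (D : ℝ) ^ 2) else 0

theorem abs_mu (D : ℕ) : |(ArithmeticFunction.moebius D : ℝ)| ≤ 1 := by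
  have h := ArithmeticFunction.abs_moebius_le_one (n := D)
  exact_mod_cast h

/-- Moebius inversion -/
theorem Pc_card {Q : Form} (hQ : Q.Pos) (K : ℕ) (α : ZMod K × ZMod K) (n : ℕ) :
    ((Pc Q K α n).card : ℝ) = ∑' D : ℕ, (ArithmeticFunction.moebius D : ℝ) *
      ((if D = 0 then 0 else (Nd Q K α D n).card : ℕ) : ℝ) := by
  classical
  have hsmall : ∀ D : ℕ, n < D → Nd Q K α D n = ∅ := by
    intro D hD
    unfold Nd
    rw [Finset.filter_eq_empty_iff]
    rintro v hv ⟨h0, -, ⟨x, hx⟩, ⟨y, hy⟩⟩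
    rw [Form.mem_ball hQ] at hv
    have hv2 : v = ((D : ℤ) * (x, y).1, (D : ℤ) * (x, y).2) := Prod.ext hx hy
    have hne : ((x, y) : V) ≠ 0 := by
      intro h
      apply h0
      rw [Prod.mk_eq_zero] at h
      rw [hv2, h.1, h.2]
      simp
    have h1 := hQ.q_pos hne
    rw [hv2, q_mul] at hv
    have hD' : (n : ℤ) < D := by exact_mod_cast hD
    have hn0 : (0 : ℤ) ≤ n := Int.natCast_nonneg n
    nlinarith [mul_nonneg (sq_nonneg (D : ℤ)) (sub_nonneg.2 h1)]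
  have h0 : ∀ D ∉ Finset.range (n + 1), (ArithmeticFunction.moebius D : ℝ) *
      ((if D = 0 then 0 else (Nd Q K α D n).card : ℕ) : ℝ) = 0 := by
    intro D hD
    rw [Finset.mem_range, not_lt] at hD
    rw [hsmall D (by omega)]
    simp
  rw [tsum_eq_sum h0]
  have h1 : ∀ D ∈ Finset.range (n + 1), (ArithmeticFunction.moebius D : ℝ) *
      ((if D = 0 then 0 else (Nd Q K α D n).card : ℕ) : ℝ) =
      ∑ v ∈ Nz Q K α n, if D ∣ Int.gcd v.1 v.2 then (ArithmeticFunction.moebius D : ℝ) else 0 := by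
    intro D _
    by_cases hD : D = 0
    · subst hD
      simp
    · rw [if_neg hD, ← Finset.sum_filter, Finset.sum_const, nsmul_eq_mul, mul_comm]
      congr 3
      unfold Nd Nz
      rw [Finset.filter_filter]
      refine Finset.filter_congr fun v _ => ?_
      have h2 : D ∣ Int.gcd v.1 v.2 ↔ ((D : ℤ) ∣ v.1 ∧ (D : ℤ) ∣ v.2) := by
        rw [← Int.natCast_dvd_natCast]
        constructor
        · intro h
          exact ⟨h.trans (Int.gcd_dvd_left ..), h.trans (Int.gcd_dvd_right ..)⟩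
        · rintro ⟨e1, e2⟩
          exact Int.dvd_coe_gcd e1 e2
      rw [h2]
      tauto
  rw [Finset.sum_congr rfl h1, Finset.sum_comm]
  have h2 : ∀ v ∈ Nz Q K α n, ∑ D ∈ Finset.range (n + 1),
      (if D ∣ Int.gcd v.1 v.2 then (ArithmeticFunction.moebius D : ℝ) else 0) =
      if Prim v then 1 else 0 := by
    intro v hv
    have hv' := hv
    unfold Nz at hv'
    rw [Finset.mem_filter] at hv'
    have hg : 0 < Int.gcd v.1 v.2 := by
      rw [Int.gcd_pos_iff]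
      by_contra h
      push Not at h
      exact hv'.2.1 (Prod.ext h.1 h.2)
    have h3 : (Finset.range (n + 1)).filter (fun D => D ∣ Int.gcd v.1 v.2) =
        (Int.gcd v.1 v.2).divisors := by
      ext D
      rw [Finset.mem_filter, Finset.mem_range, Nat.mem_divisors]
      constructor
      · rintro ⟨-, h⟩
        exact ⟨h, hg.ne'⟩
      · rintro ⟨h, -⟩
        refine ⟨?_, h⟩
        by_contra hlt
        have h4 := hsmall D (by omega)
        have h5 : v ∈ Nd Q K α D n := by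
          unfold Nd
          rw [Finset.mem_filter]
          have h6 : (D : ℤ) ∣ (Int.gcd v.1 v.2 : ℤ) := by exact_mod_cast h
          exact ⟨hv'.1, hv'.2.1, hv'.2.2, h6.trans (Int.gcd_dvd_left ..),
            h6.trans (Int.gcd_dvd_right ..)⟩
        rw [h4] at h5
        simp at h5
    have h5 : ∑ d ∈ (Int.gcd v.1 v.2).divisors, ArithmeticFunction.moebius d =
        if Int.gcd v.1 v.2 = 1 then 1 else 0 := by
      rw [← ArithmeticFunction.coe_mul_zeta_apply, ArithmeticFunction.moebius_mul_coe_zeta,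
        ArithmeticFunction.one_apply]
    rw [← Finset.sum_filter, h3, ← Int.cast_sum, h5]
    unfold Prim
    split_ifs <;> simp
  rw [Finset.sum_congr rfl h2, ← Finset.sum_filter, Finset.sum_const, nsmul_eq_mul, mul_one]
  congr 2
  unfold Pc Nz
  rw [Finset.filter_filter]
  refine Finset.filter_congr fun v _ => ?_
  constructor
  · rintro ⟨e1, e2⟩
    refine ⟨⟨?_, e2⟩, e1⟩
    intro h
    rw [h] at e1
    unfold Prim at e1
    simp at e1
  · rintro ⟨⟨-, e2⟩, e1⟩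
    exact ⟨e1, e2⟩

theorem summable_inv : Summable (fun D : ℕ => 1 / (D : ℝ) ^ 2) :=
  Real.summable_one_div_nat_pow.2 (by norm_num)

theorem Pc_tendsto {Q : Form} (hQ : Q.Pos) {K : ℕ} (hK : 0 < K) {α : ZMod K × ZMod K}
    (hα : ∃ v : V, Prim v ∧ cl K v = α) :
    Tendsto (fun n : ℕ => ((Pc Q K α n).card : ℝ) / n) atTop
      (𝓝 (LatG84.kap Q / (K : ℝ) ^ 2 * ∑' D : ℕ, mf K D)) := by
  obtain ⟨C, hC0, hC⟩ := ball_bd hQ
  have h1 : ∀ n : ℕ, ((Pc Q K α n).card : ℝ) / n =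
      ∑' D : ℕ, (ArithmeticFunction.moebius D : ℝ) *
      ((if D = 0 then 0 else (Nd Q K α D n).card : ℕ) : ℝ) / n := by
    intro n
    rw [Pc_card hQ K α n, tsum_div_const]
  simp only [h1]
  rw [← tsum_mul_left]
  refine tendsto_tsum_of_dominated_convergence (bound := fun D : ℕ => C * (1 / (D : ℝ) ^ 2))
    (summable_inv.mul_left C) ?_ ?_
  · intro D
    rcases Nat.eq_zero_or_pos D with hD | hD
    · subst hD
      simp [mf]
    · simp only [hD.ne', if_false]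
      have h2 := (Nd_tendsto hQ hK hα hD).const_mul (ArithmeticFunction.moebius D : ℝ)
      have h3 : (ArithmeticFunction.moebius D : ℝ) * (if Nat.Coprime D K then
          LatG84.kap Q / (K : ℝ) ^ 2 * (1 / (D : ℝ) ^ 2) else 0) =
          LatG84.kap Q / (K : ℝ) ^ 2 * mf K D := by
        unfold mf
        split_ifs
        · ring
        · ring
      rw [h3] at h2
      refine h2.congr fun n => ?_
      ring
  · filter_upwards [eventually_ge_atTop 1] with n hn D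
    have hn1 : (1 : ℝ) ≤ n := by exact_mod_cast hn
    rcases Nat.eq_zero_or_pos D with hD | hD
    · subst hD
      simp
    · simp only [hD.ne', if_false]
      rw [Real.norm_eq_abs, abs_div, abs_mul, Nat.abs_cast, Nat.abs_cast,
        div_le_iff₀ (by linarith)]
      have h2 := Nd_bd hQ hC0 hC hK hα hD n
      calc _ ≤ 1 * ((Nd Q K α D n).card : ℝ) :=
            mul_le_mul_of_nonneg_right (abs_mu D) (Nat.cast_nonneg _)
        _ ≤ _ := by rw [one_mul]; linarith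

theorem mf_abs (K D : ℕ) : |mf K D| ≤ 1 / (D : ℝ) ^ 2 := by
  unfold mf
  have h0 : (0 : ℝ) ≤ 1 / (D : ℝ) ^ 2 := by positivity
  split_ifs
  · rw [abs_mul, abs_of_nonneg h0]
    exact mul_le_of_le_one_left h0 (abs_mu D)
  · rw [abs_zero]
    exact h0

theorem mf_pos (K : ℕ) : 0 < ∑' D : ℕ, mf K D := by
  have h1 : Summable (fun D : ℕ => mf K D) :=
    Summable.of_norm_bounded summable_inv fun D => by
      rw [Real.norm_eq_abs]
      exact mf_abs K D
  have h2 : HasSum (fun D : ℕ => mf K D + 1 / (D : ℝ) ^ 2)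
      ((∑' D : ℕ, mf K D) + Real.pi ^ 2 / 6) := h1.hasSum.add hasSum_zeta_two
  have h3 : mf K 1 + 1 / ((1 : ℕ) : ℝ) ^ 2 ≤ (∑' D : ℕ, mf K D) + Real.pi ^ 2 / 6 := by
    refine le_hasSum h2 1 fun D _ => ?_
    have h4 := (abs_le.1 (mf_abs K D)).1
    linarith
  have h4 : mf K 1 = 1 := by
    unfold mf
    simp
  rw [h4] at h3
  have h5 : Real.pi < 3.15 := Real.pi_lt_d2
  have h6 : 0 < Real.pi := Real.pi_pos
  norm_num at h3
  nlinarith

theorem shell_card {d : ℕ} (i : Cl d) {K : ℕ} (α : ZMod K × ZMod K) {a b : ℝ} (ha : 0 ≤ a)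
    (hab : a ≤ b) : (((Shg i a b).filter (fun v => Prim v ∧ cl K v = α)).card : ℝ) =
      ((Pc (rep i) K α ⌊b⌋₊).card : ℝ) - ((Pc (rep i) K α ⌊a⌋₊).card : ℝ) := by
  classical
  have h1 : Pc (rep i) K α ⌊a⌋₊ ⊆ Pc (rep i) K α ⌊b⌋₊ := by
    intro v hv
    unfold Pc at hv ⊢
    rw [Finset.mem_filter, Form.mem_ball (rep_pos i)] at hv ⊢
    refine ⟨hv.1.trans ?_, hv.2⟩
    exact_mod_cast Nat.floor_mono hab
  have h2 : (Shg i a b).filter (fun v => Prim v ∧ cl K v = α) =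
      Pc (rep i) K α ⌊b⌋₊ \ Pc (rep i) K α ⌊a⌋₊ := by
    ext v
    unfold Pc Shg
    simp only [Finset.mem_filter, Finset.mem_sdiff, Form.mem_ball (rep_pos i)]
    obtain ⟨m, hm⟩ := Int.eq_ofNat_of_zero_le ((rep_pos i).q_nonneg v)
    have h3 : a < (((rep i).q v : ℤ) : ℝ) ↔ ¬ (rep i).q v ≤ (⌊a⌋₊ : ℤ) := by
      rw [hm]
      push_cast
      rw [not_le, Nat.cast_lt, Nat.floor_lt ha]
    constructor
    · rintro ⟨⟨e1, e2, e3⟩, e4, e5⟩
      exact ⟨⟨e1, e4, e5⟩, fun h => h3.1 e3 h.1⟩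
    · rintro ⟨⟨e1, e4, e5⟩, e6⟩
      have e7 : v ≠ 0 := by
        intro h
        rw [h] at e4
        unfold Prim at e4
        simp at e4
      exact ⟨⟨e1, e7, h3.2 fun h => e6 ⟨h, e4, e5⟩⟩, e4, e5⟩
  rw [h2, Finset.card_sdiff_of_subset h1, Nat.cast_sub (Finset.card_le_card h1)]

theorem radius {Q : Form} (hQ : Q.Pos) {K : ℕ} (α : ZMod K × ZMod K) {κ : ℝ}
    (h : Tendsto (fun n : ℕ => ((Pc Q K α n).card : ℝ) / n) atTop (𝓝 κ)) {r : ℝ} (hr : 0 ≤ r) :
    Tendsto (fun N : ℝ => ((Pc Q K α ⌊r * N⌋₊).card : ℝ) / N) atTop (𝓝 (κ * r)) := by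
  rcases hr.eq_or_lt with h0 | h0
  · subst h0
    have h1 : Pc Q K α 0 = ∅ := by
      unfold Pc
      rw [Finset.filter_eq_empty_iff]
      rintro v hv ⟨hp, -⟩
      rw [Form.mem_ball hQ] at hv
      have hne : v ≠ 0 := by
        intro h
        rw [h] at hp
        unfold Prim at hp
        simp at hp
      have := hQ.q_pos hne
      push_cast at hv
      omega
    simp [h1]
  · have h1 : Tendsto (fun N : ℝ => r * N) atTop atTop := tendsto_id.const_mul_atTop h0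
    have h2 : Tendsto (fun N : ℝ => ⌊r * N⌋₊) atTop atTop := tendsto_nat_floor_atTop.comp h1
    have h3 : Tendsto (fun N : ℝ => (⌊r * N⌋₊ : ℝ) / N) atTop (𝓝 r) :=
      tendsto_nat_floor_mul_div_atTop hr
    have h4 := (h.comp h2).mul h3
    refine h4.congr' ?_
    filter_upwards [h2.eventually_ge_atTop 1, eventually_gt_atTop 0] with N hN hN0
    simp only [Function.comp]
    have : (⌊r * N⌋₊ : ℝ) ≠ 0 := by
      have : 0 < ⌊r * N⌋₊ := hN
      positivity
    field_simp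

/-- **row F2** -/
theorem stCla (d : ℕ) (hd : 0 < d) : StCla d := by
  classical
  intro K hK
  have hK' : (0 : ℝ) < K := by exact_mod_cast hK
  have hd' : (0 : ℝ) < d := by exact_mod_cast hd
  have hm := mf_pos K
  have hsd : 0 < √(d : ℝ) := Real.sqrt_pos.2 hd'
  have hpi := Real.pi_pos
  refine ⟨2 * Real.pi / √(d : ℝ) / (K : ℝ) ^ 2 * ∑' D : ℕ, mf K D, by positivity, ?_⟩
  intro i α hα r1 r2 hr1 hr
  have hkap : LatG84.kap (rep i) = 2 * Real.pi / √(d : ℝ) := by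
    unfold LatG84.kap
    rw [rep_D]
    norm_cast
  have h1 := Pc_tendsto (rep_pos i) hK hα
  rw [hkap] at h1
  have h2 := (radius (rep_pos i) α h1 (hr1.trans hr.le)).sub (radius (rep_pos i) α h1 hr1)
  rw [← mul_sub] at h2
  refine h2.congr' ?_
  filter_upwards [eventually_gt_atTop 0] with N hN
  have h3 := shell_card i α (a := r1 * N) (b := r2 * N) (by positivity)
    (mul_le_mul_of_nonneg_right hr.le hN.le)
  rw [← sub_div, ← h3]

end Cla22

end Pool.Agent.Lib.MP_a17b09_nt.PQ
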