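import Pool.Agent.Lib.MP_a17b09_nt.PQ.Freq12
import Pool.Agent.Lib.MP_a17b09_nt.PQ.N2_12

/-! PQ (MP_a17b09_nt), row F5: frequency `0` for `z ^ Ω b`, `z ≠ 1`.  helper12. -/

set_option autoImplicit false

open Filter Topology Finset

namespace Pool.Agent.Lib.MP_a17b09_nt.PQ.F5x12

open CH CH.PE MRSG Freq12 N2x12

/-- large primes `1 mod 4 d` are in use -/
theorem spl_large {d K p : ℕ} (hd : 0 < d) (hK : 0 < K) (hp : p.Prime) (h4 : p ≡ 1 [MOD 4 * d])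
    (hKp : K < p) : Spl d K p := by
  have h1 : Adm d 1 (p, true) := adm_of_one true hp hd one_pos h4 Nat.modEq_one
  obtain ⟨-, h2, h3⟩ := h1
  refine ⟨hp, fun h => ?_, h3⟩
  rcases hp.dvd_mul.1 h with h5 | h5
  · exact h2 (by rw [mul_one]; exact h5)
  · exact absurd (Nat.le_of_dvd hK h5) (by omega)

/-- the window -/
noncomputable def Wn (d : ℕ) (δ N : ℝ) : Finset ℕ :=
  (Finset.range (⌊N ^ (1 - δ / 2)⌋₊ + 1)).filter
    (fun p => p.Prime ∧ p ≡ 1 [MOD 4 * d] ∧ N ^ (1 - δ) < p)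

theorem mem_Wn {d : ℕ} {δ N : ℝ} (hN : 0 ≤ N) {p : ℕ} : p ∈ Wn d δ N ↔ p.Prime ∧
    p ≡ 1 [MOD 4 * d] ∧ N ^ (1 - δ) < p ∧ (p : ℝ) ≤ N ^ (1 - δ / 2) := by
  unfold Wn
  rw [mem_filter, mem_range, Nat.lt_succ_iff, Nat.le_floor_iff (Real.rpow_nonneg hN _)]
  tauto

theorem winN_iff {d : ℕ} {δ N : ℝ} (hN : 0 ≤ N) {n : ℤ} :
    WinN (4 * d) δ N n.natAbs ↔ ∃ p ∈ Wn d δ N, (p : ℤ) ∣ n := by
  constructor
  · rintro ⟨p, hp, hq, hd, h1, h2⟩
    exact ⟨p, (mem_Wn hN).2 ⟨hp, hq, h1, h2⟩, Int.natCast_dvd.2 hd⟩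
  · rintro ⟨p, hp, hd⟩
    obtain ⟨h0, hq, h1, h2⟩ := (mem_Wn hN).1 hp
    exact ⟨p, h0, hq, Int.natCast_dvd.1 hd, h1, h2⟩

/-- the conditions on the window hold for large `N` -/
theorem win_cond (d : ℕ) (δ : ℝ) (h0 : 0 < δ) (hδ : δ < 1 / 2) (X0 r2 : ℝ) (K : ℕ) :
    ∀ᶠ N : ℝ in atTop, ∀ p ∈ Wn d δ N, K < p ∧ X0 * p ≤ N ∧
      ∀ p' ∈ Wn d δ N, r2 * N < (p : ℝ) * p' := by
  have e1 : ∀ᶠ N : ℝ in atTop, (K : ℝ) ≤ N ^ (1 - δ) :=
    (tendsto_rpow_atTop (show 0 < 1 - δ by linarith)).eventually (eventually_ge_atTop _)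
  have e2 : ∀ᶠ N : ℝ in atTop, |X0| ≤ N ^ (δ / 2) :=
    (tendsto_rpow_atTop (show 0 < δ / 2 by linarith)).eventually (eventually_ge_atTop _)
  have e3 : ∀ᶠ N : ℝ in atTop, |r2| ≤ N ^ (1 - 2 * δ) :=
    (tendsto_rpow_atTop (show 0 < 1 - 2 * δ by linarith)).eventually (eventually_ge_atTop _)
  filter_upwards [e1, e2, e3, eventually_gt_atTop 0] with N k1 k2 k3 hN p hp
  obtain ⟨hp1, hp2, hp3, hp4⟩ := (mem_Wn hN.le).1 hp
  refine ⟨?_, ?_, fun p' hp' => ?_⟩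
  · exact_mod_cast k1.trans_lt hp3
  · calc X0 * p ≤ |X0| * p := mul_le_mul_of_nonneg_right (le_abs_self _) (Nat.cast_nonneg _)
      _ ≤ N ^ (δ / 2) * N ^ (1 - δ / 2) :=
          mul_le_mul k2 hp4 (Nat.cast_nonneg _) (Real.rpow_nonneg hN.le _)
      _ = N := by
          rw [← Real.rpow_add hN]
          ring_nf
          exact Real.rpow_one N
  · obtain ⟨-, -, hq3, -⟩ := (mem_Wn hN.le).1 hp'
    have hA : 0 < N ^ (1 - δ) := Real.rpow_pos_of_pos hN _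
    calc r2 * N ≤ N ^ (1 - 2 * δ) * N :=
          mul_le_mul_of_nonneg_right ((le_abs_self _).trans k3) hN.le
      _ = N ^ (1 - δ) * N ^ (1 - δ) := by
          nth_rewrite 2 [← Real.rpow_one N]
          rw [← Real.rpow_add hN, ← Real.rpow_add hN]
          ring_nf
      _ < (p : ℝ) * p' := mul_lt_mul'' hp3 hq3 hA.le hA.le

open Classical in
/-- changing the weight on the exceptional vectors -/
theorem mpw_diff {d K : ℕ} [NeZero K] {q : ℕ} {δ N r1 r2 e : ℝ} (hN : 0 < N) {w w' : ℕ → ℂ}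
    (h1 : ∀ n, bb q δ n = bN q δ N n → w n = w' n) (h2 : ∀ n, ‖w n - w' n‖ ≤ 2)
    (hE : ∀ i : Cl d, ((((Shg i (r1 * N) (r2 * N)).filter Prim).filter
      (fun v => bb q δ ((rep i).q v).natAbs ≠ bN q δ N ((rep i).q v).natAbs)).card : ℝ) ≤ e * N)
    (f : Fq d K) : ‖Mpw w r1 r2 N f - Mpw w' r1 r2 N f‖ ≤ 2 * Fintype.card (Cl d) * e := by
  unfold Mpw
  rw [← mul_sub, ← sum_sub_distrib, norm_mul, norm_div, norm_one, Complex.norm_real,
    Real.norm_of_nonneg hN.le]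
  have h3 : ∀ i : Cl d, ‖∑ v ∈ (Shg i (r1 * N) (r2 * N)).filter Prim, gw w (rep i) v * ch f i v -
      ∑ v ∈ (Shg i (r1 * N) (r2 * N)).filter Prim, gw w' (rep i) v * ch f i v‖ ≤ 2 * (e * N) := by
    intro i
    rw [← sum_sub_distrib]
    refine (norm_sum_le _ _).trans ?_
    have h4 : ∀ v ∈ (Shg i (r1 * N) (r2 * N)).filter Prim,
        ‖gw w (rep i) v * ch f i v - gw w' (rep i) v * ch f i v‖ ≤
        if bb q δ ((rep i).q v).natAbs ≠ bN q δ N ((rep i).q v).natAbs then 2 else 0 := by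
      intro v hv
      have hv0 : v ≠ 0 := (mem_Shg.1 (mem_filter.1 hv).1).1
      unfold gw
      split_ifs with h
      · rw [← sub_mul, norm_mul]
        calc _ ≤ (2 : ℝ) * 1 := mul_le_mul (h2 _) (norm_ch_le f i hv0) (norm_nonneg _)
              (by norm_num)
          _ = 2 := by norm_num
      · rw [h1 _ (not_not.1 h), sub_self, norm_zero]
    refine (sum_le_sum h4).trans ?_
    rw [← sum_filter, sum_const, nsmul_eq_mul, mul_comm]
    exact mul_le_mul_of_nonneg_left (hE i) (by norm_num)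
  calc 1 / N * ‖∑ i, (∑ v ∈ (Shg i (r1 * N) (r2 * N)).filter Prim, gw w (rep i) v * ch f i v -
      ∑ v ∈ (Shg i (r1 * N) (r2 * N)).filter Prim, gw w' (rep i) v * ch f i v)‖
      ≤ 1 / N * ∑ _i : Cl d, 2 * (e * N) := by
        refine mul_le_mul_of_nonneg_left ?_ (by positivity)
        exact (norm_sum_le _ _).trans (sum_le_sum fun i _ => h3 i)
    _ = 2 * Fintype.card (Cl d) * e := by
        rw [sum_const, card_univ, nsmul_eq_mul]
        field_simp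

end Pool.Agent.Lib.MP_a17b09_nt.PQ.F5x12

namespace Pool.Agent.Lib.MP_a17b09_nt.PQ

open CH CH.PE MRSG Freq12 N2x12 F5x12

/-- row F5 -/
theorem stFrZ_12 (d : ℕ) (hP : ∀ (K : ℕ) [NeZero K], StPw0G d K) (hS : StWinS) (hN : StNull d) :
    StFrZ d := by
  classical
  intro δ h0 hδ z k hk hzk hz1 K hKn r1 r2 hr1 hr12 e
  have hz : ‖z‖ = 1 := Complex.norm_eq_one_of_pow_eq_one hzk hk.ne'
  have hK : 0 < K := Nat.pos_of_ne_zero (NeZero.ne K)
  have hd : 0 < d := by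
    have h1 : mm d K 0 ≠ 0 := fun h => (h ▸ e).elim0
    have h2 := mm_le (d := d) (K := K) 0
    have h3 : 0 < Fintype.card (Cl d) := by
      by_contra h4
      have h5 : Fintype.card (Cl d) = 0 := by omega
      rw [h5] at h2
      omega
    obtain ⟨i⟩ := Fintype.card_pos_iff.1 h3
    have h4 := (rep_pos i).2
    rw [rep_D] at h4
    exact_mod_cast h4
  rw [Metric.tendsto_atTop]
  intro ε hε
  set B : ℝ := 2 * (1 / (Nat.totient (4 * d) : ℝ) * Real.log ((1 - δ / 2) / (1 - δ)) + 1) with hB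
  have hlim := hS (4 * d) (by omega) δ h0 hδ
  have hBd : ∀ᶠ N : ℝ in atTop, ∑ p ∈ Wn d δ N, 2 / (p : ℝ) ≤ B := by
    have h1 := hlim.eventually (gt_mem_nhds (lt_add_one _))
    filter_upwards [h1] with N h2
    have h3 : ∑ p ∈ Wn d δ N, 2 / (p : ℝ) = 2 * ∑ p ∈ Wn d δ N, 1 / (p : ℝ) := by
      rw [mul_sum]
      exact sum_congr rfl fun p _ => by ring
    rw [h3, hB]
    unfold Wn
    linarith
  have hB0 : 0 ≤ B := by
    obtain ⟨N, hN⟩ := hBd.exists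
    exact (sum_nonneg fun p _ => by positivity).trans hN
  set e1 : ℝ := ε / (4 * (Fintype.card (Cl d) + 1)) with he1
  have he10 : 0 < e1 := by positivity
  obtain ⟨N1, hN1, H1⟩ := exc d hN h0 hδ r1 r2 hr1 hr12 e1 he10
  obtain ⟨X0, hX0, H2⟩ := freq_ne (hP K) z k hk hzk hz1 r1 r2 hr1.le hr12 (⟨0, e⟩ : Fq d K) rfl
    (ε / (4 * (B + 1))) (by positivity)
  obtain ⟨N2, hN2⟩ := eventually_atTop.1 (hBd.and (win_cond d δ h0 hδ X0 r2 K))
  refine ⟨max N1 N2, fun N hNN => ?_⟩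
  have hNa : N1 ≤ N := (le_max_left _ _).trans hNN
  have hN1' : 1 ≤ N := hN1.trans hNa
  have hN0 : 0 < N := by linarith
  obtain ⟨hb, hc⟩ := hN2 N ((le_max_right _ _).trans hNN)
  have k1 := mpw_diff (K := K) (w := wz1 z (4 * d) δ)
    (w' := fun n => z ^ Omn n * bN (4 * d) δ N n) hN0
    (fun n h => by unfold wz1; rw [h])
    (fun n => by
      have h3 : ‖wz1 z (4 * d) δ n‖ ≤ 1 := by
        unfold wz1 bb
        rw [norm_mul, norm_pow, hz, one_pow, one_mul]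
        split_ifs <;> simp
      have h4 := (wy_z (q := 4 * d) hz hδ hN1').le n
      calc _ ≤ ‖wz1 z (4 * d) δ n‖ + ‖z ^ Omn n * bN (4 * d) δ N n‖ := norm_sub_le _ _
        _ ≤ 2 := by linarith)
    (H1 N hNa) (⟨0, e⟩ : Fq d K)
  have k2 : Mpw (fun n => z ^ Omn n * bN (4 * d) δ N n) r1 r2 N (⟨0, e⟩ : Fq d K) =
      Mpa (fun i v => if ∃ p ∈ Wn d δ N, (p : ℤ) ∣ (rep i).q v then gz z (rep i) v else 0)
        r1 r2 N (⟨0, e⟩ : Fq d K) := by
    unfold Mpw Mpa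
    congr 1
    refine sum_congr rfl fun i _ => sum_congr rfl fun v _ => ?_
    congr 1
    unfold gw gz bN
    simp only [winN_iff hN0.le]
    split_ifs <;> simp [Omn]
  have k3 := H2 N (Wn d δ N)
    (fun p hp => spl_large hd hK ((mem_Wn hN0.le).1 hp).1 ((mem_Wn hN0.le).1 hp).2.1 (hc p hp).1)
    (fun p hp => (hc p hp).2.1) (fun p hp => (hc p hp).2.2)
  rw [← k2] at k3
  rw [dist_zero_right]
  have k4 : 2 * Fintype.card (Cl d) * e1 ≤ ε / 2 := by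
    rw [he1]
    have h5 : (0 : ℝ) ≤ Fintype.card (Cl d) := Nat.cast_nonneg _
    rw [mul_div_assoc', div_le_div_iff₀ (by positivity) (by norm_num)]
    nlinarith
  have k5 : ε / (4 * (B + 1)) * ∑ p ∈ Wn d δ N, 2 / (p : ℝ) ≤ ε / 4 := by
    calc _ ≤ ε / (4 * (B + 1)) * (B + 1) :=
          mul_le_mul_of_nonneg_left (by linarith) (by positivity)
      _ = ε / 4 := by field_simp
  calc ‖Mpw (wz1 z (4 * d) δ) r1 r2 N (⟨0, e⟩ : Fq d K)‖
      ≤ ‖Mpw (wz1 z (4 * d) δ) r1 r2 N (⟨0, e⟩ : Fq d K) -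
        Mpw (fun n => z ^ Omn n * bN (4 * d) δ N n) r1 r2 N (⟨0, e⟩ : Fq d K)‖ +
        ‖Mpw (fun n => z ^ Omn n * bN (4 * d) δ N n) r1 r2 N (⟨0, e⟩ : Fq d K)‖ := by
        have := norm_add_le (Mpw (wz1 z (4 * d) δ) r1 r2 N (⟨0, e⟩ : Fq d K) -
          Mpw (fun n => z ^ Omn n * bN (4 * d) δ N n) r1 r2 N (⟨0, e⟩ : Fq d K))
          (Mpw (fun n => z ^ Omn n * bN (4 * d) δ N n) r1 r2 N (⟨0, e⟩ : Fq d K))
        rwa [sub_add_cancel] at this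
    _ < ε := by linarith

end Pool.Agent.Lib.MP_a17b09_nt.PQ
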