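import Pool.Agent.Lib.MP_a17b09_nt.PQ.Stmts79

/-!
Project PQ, (F6): the density is positive and at most one (helper11).
-/

set_option autoImplicit false

namespace Pool.Agent.Lib.MP_a17b09_nt.PQ

theorem stRho_11 : StRho := by
  intro q hq δ h0 h1
  unfold rho
  have hφ : 1 ≤ Nat.totient q := Nat.totient_pos.2 hq
  have hφr : (1 : ℝ) ≤ (Nat.totient q : ℝ) := by exact_mod_cast hφ
  have hd : 0 < 1 - δ := by linarith
  have hr1 : 1 < (1 - δ / 2) / (1 - δ) := by
    rw [lt_div_iff₀ hd]; linarith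
  have hr2 : (1 - δ / 2) / (1 - δ) ≤ 3 / 2 := by
    rw [div_le_iff₀ hd]; linarith
  have hl1 : 0 < Real.log ((1 - δ / 2) / (1 - δ)) := Real.log_pos hr1
  have hl2 : Real.log ((1 - δ / 2) / (1 - δ)) ≤ 1 / 2 := by
    have := Real.log_le_sub_one_of_pos (zero_lt_one.trans hr1)
    linarith
  refine ⟨by positivity, ?_⟩
  have h2 : 2 / (Nat.totient q : ℝ) ≤ 2 := by
    rw [div_le_iff₀ (by linarith)]; linarith
  nlinarith

end Pool.Agent.Lib.MP_a17b09_nt.PQ
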