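import Pool.Agent.Lib.MP_a17b09_nt.PQ.T4_64

/-!
Project PQ: the text of the hand-in LargePrimePairs (helper64), from the conclusions of `StEndA` and
`StEndB` for one polynomial (any sign of the discriminant).
-/

set_option autoImplicit false

open Filter Topology

namespace Pool.Agent.Lib.MP_a17b09_nt.PQ

open Pool.Agent.Lib.MP_a17b09_nt.CH (LogNull pairCount fv Omn)

/-- the conclusion of `StEndA` for one polynomial -/
def PairsA (a b c : ℤ) (q h t₀ : ℕ) (α β : ℝ) : Prop :=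
  ∃ κ : ℝ, 0 < κ ∧ Tendsto (fun N : ℕ => (pairCount a b c h t₀ α β (fun _ _ => True) N : ℝ) / N)
    atTop (𝓝 κ) ∧ ∀ δ : ℝ, 0 < δ → δ < 1 / 2 → ∀ k : ℕ, 0 < k → ∀ r s : ℕ,
    (∀ ε : ℝ, 0 < ε → LogNull {N | ε < |(pairCount a b c h t₀ α β (fun t d => Win q δ d ∧
      Win q δ (a.natAbs * ((fv a b c t).natAbs / d)) ∧ Omn d ≡ r [MOD k] ∧
      Omn ((fv a b c t).natAbs / d) ≡ s [MOD k]) N : ℝ) / N - rho q δ ^ 2 * κ / k ^ 2|}) ∧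
    ∃ η : ℝ, 0 < η ∧ ∀ᶠ N : ℕ in atTop, η * N ≤ pairCount a b c h t₀ α β (fun t d => Win q δ d ∧
      Win q δ (a.natAbs * ((fv a b c t).natAbs / d)) ∧ Omn d ≡ r [MOD k] ∧
      Omn ((fv a b c t).natAbs / d) ≡ s [MOD k]) N

open Classical in
/-- the conclusion of `StEndB` for one polynomial -/
def ArgsB (a b c : ℤ) (h t₀ : ℕ) : Prop :=
  ∀ δ : ℝ, 0 < δ → ∀ k : ℕ, 0 < k → ∀ r : ℕ, ∀ ε : ℝ, 0 < ε → ∀ᶠ N : ℕ in atTop,
  (N : ℝ) / Real.log N ^ (Real.log 2 + ε) ≤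
    (((Finset.Icc 1 N).filter (fun t : ℕ => t ≡ t₀ [MOD h] ∧ MPQ a b c δ k r t)).card : ℝ)

theorem pairsA_of (hA : StEndA) (a b c : ℤ) (ha : 0 < a) (hD : b ^ 2 - 4 * a * c < 0) (q : ℕ)
    (hq : (q : ℤ) = 4 * |b ^ 2 - 4 * a * c|) (h t₀ : ℕ) (hh : 0 < h) (α β : ℝ) (hα : 0 < α)
    (hαβ : α < β) : PairsA a b c q h t₀ α β :=
  hA a b c ha hD q (by rw [hq, abs_of_neg hD]; ring) h t₀ hh α β hα hαβ

theorem argsB_of (hB : StEndB) (a b c : ℤ) (ha : 0 < a) (hD : b ^ 2 - 4 * a * c < 0) (h t₀ : ℕ)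
    (hh : 0 < h) : ArgsB a b c h t₀ :=
  hB a b c ha hD h t₀ hh

/-- The text of the hand-in. -/
theorem finPQ (a b c : ℤ) (q h t₀ : ℕ) (α β : ℝ) (hA : PairsA a b c q h t₀ α β)
    (hB : ArgsB a b c h t₀) :
    (∃ κ : ℝ, 0 < κ ∧
      Tendsto (fun N : ℕ => (pairCount a b c h t₀ α β (fun _ _ => True) N : ℝ) / N) atTop
        (𝓝 κ) ∧
      ∀ δ : ℝ, 0 < δ → δ < 1 / 2 → ∀ k : ℕ, 0 < k → ∀ r s : ℕ,
        (∀ ε : ℝ, 0 < ε → LogNull {N : ℕ | ε * N <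
          |(pairCount a b c h t₀ α β (fun t d => Win q δ d ∧
            Win q δ (a.natAbs * ((a * (t : ℤ) ^ 2 + b * t + c).natAbs / d)) ∧
            ArithmeticFunction.cardFactors d ≡ r [MOD k] ∧
            ArithmeticFunction.cardFactors ((a * (t : ℤ) ^ 2 + b * t + c).natAbs / d) ≡ s
              [MOD k]) N : ℝ) - rho q δ ^ 2 * κ / k ^ 2 * N|}) ∧
        ∃ c' : ℝ, 0 < c' ∧ ∀ᶠ N : ℕ in atTop, c' * N ≤
          (pairCount a b c h t₀ α β (fun t d => Win q δ d ∧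
            Win q δ (a.natAbs * ((a * (t : ℤ) ^ 2 + b * t + c).natAbs / d)) ∧
            ArithmeticFunction.cardFactors d ≡ r [MOD k] ∧
            ArithmeticFunction.cardFactors ((a * (t : ℤ) ^ 2 + b * t + c).natAbs / d) ≡ s
              [MOD k]) N : ℝ)) ∧
    ∀ δ : ℝ, 0 < δ → ∀ k : ℕ, 0 < k → ∀ r : ℕ, ∀ ε : ℝ, 0 < ε → ∀ᶠ N : ℕ in atTop,
      (N : ℝ) / Real.log N ^ (Real.log 2 + ε) ≤
        (Set.ncard {t : ℕ | 1 ≤ t ∧ t ≤ N ∧ t ≡ t₀ [MOD h] ∧ ∃ m p p' : ℕ, p.Prime ∧ p'.Prime ∧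
          (t : ℝ) ^ (1 - δ) < p ∧ (t : ℝ) ^ (1 - δ) < p' ∧ (m : ℝ) ≤ (t : ℝ) ^ (2 * δ) ∧
          a * (t : ℤ) ^ 2 + b * t + c = m * p * p' ∧
          ArithmeticFunction.cardFactors (m * p * p') ≡ r [MOD k]} : ℝ) := by
  classical
  obtain ⟨κ, hκ, h1, hJ⟩ := hA
  have key : ∀ (F : ℕ → ℕ) (x ε : ℝ), F 0 = 0 →
      LogNull {N : ℕ | ε < |(F N : ℝ) / N - x|} →
      LogNull {N : ℕ | ε * N < |(F N : ℝ) - x * N|} := by
    intro F x ε h0 hF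
    refine Lib.MP_a17b09_nt.CH.EndS.LogNull.mono hF fun N hN => ?_
    simp only [Set.mem_ofPred_eq] at hN ⊢
    rcases Nat.eq_zero_or_pos N with hN0 | hN0
    · subst hN0
      simp [h0] at hN
    · have hNp : (0 : ℝ) < N := by exact_mod_cast hN0
      have e3 : (F N : ℝ) / N - x = ((F N : ℝ) - x * N) / N := by
        field_simp
      rw [e3, abs_div, Nat.abs_cast, lt_div_iff₀ hNp]
      exact hN
  have z0 : ∀ P : ℕ → ℕ → Prop, pairCount a b c h t₀ α β P 0 = 0 := by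
    intro P
    unfold pairCount
    simp
  refine ⟨⟨κ, hκ, h1, fun δ hδ0 hδ1 k hk r s => ⟨fun ε hε => ?_, ?_⟩⟩,
    fun δ hδ k hk r ε hε => ?_⟩
  · exact key (fun N => pairCount a b c h t₀ α β (fun t d => Win q δ d ∧
      Win q δ (a.natAbs * ((fv a b c t).natAbs / d)) ∧ Omn d ≡ r [MOD k] ∧
      Omn ((fv a b c t).natAbs / d) ≡ s [MOD k]) N) _ ε (z0 _) ((hJ δ hδ0 hδ1 k hk r s).1 ε hε)
  · exact (hJ δ hδ0 hδ1 k hk r s).2
  · filter_upwards [hB δ hδ k hk r ε hε] with N hN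
    refine hN.trans (le_of_eq ?_)
    rw [← Set.ncard_coe_finset]
    congr 2
    ext t
    simp only [Finset.coe_filter, Finset.mem_Icc, Set.mem_ofPred_eq]
    exact ⟨fun h => ⟨h.1.1, h.1.2, h.2.1, h.2.2⟩, fun h => ⟨⟨h.1, h.2.1⟩, h.2.2.1, h.2.2.2⟩⟩

end Pool.Agent.Lib.MP_a17b09_nt.PQ
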