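import Pool.Agent.Lib.MP_a17b09_nt.MRSG.Pw0G29
import Pool.Agent.Lib.MP_a17b09_nt.MRSG.ShiftG12

/-!
PQ (MP_a17b09_nt), frequency `0`: the vectors with a value divisible by a prime of a window `W` of
large split primes.  helper12.
-/

set_option autoImplicit false

open Filter Topology Finset

namespace Pool.Agent.Lib.MP_a17b09_nt.PQ.Freq12

open CH CH.PE MRSG MRSG.ExpG12 MRSG.ShiftG12

variable {d K : ℕ} [NeZero K]

/-- shell sum over the primitive vectors, arbitrary coefficients -/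
noncomputable def Mpa (a : Cl d → V → ℂ) (r1 r2 N : ℝ) (w : Fq d K) : ℂ :=
  (1 / (N : ℂ)) * ∑ i, ∑ v ∈ (Shg i (r1 * N) (r2 * N)).filter Prim, a i v * ch w i v

omit [NeZero K] in
theorem rg_neg (p : ℕ) (b : Bool) : rg d (p, !b) = -rg d (p, b) := by
  unfold rg
  cases b <;> simp

omit [NeZero K] in
open Classical in
/-- the vectors of the window are in exactly one of the images -/
theorem one_img {W : Finset ℕ} (hW : ∀ p ∈ W, Spl d K p) {b : ℝ}
    (hb : ∀ p ∈ W, ∀ p' ∈ W, b < (p : ℝ) * p') (i : Cl d) {v : V} (hv0 : v ≠ 0)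
    (hv : ((rep i).q v : ℝ) ≤ b) :
    (if ∃ p ∈ W, (p : ℤ) ∣ (rep i).q v then (1 : ℂ) else 0) =
      ∑ P ∈ W ×ˢ (univ : Finset Bool), if Im (Mg d P i) v then (1 : ℂ) else 0 := by
  have hq := (rep_pos i).q_pos hv0
  have hdvd : ∀ p ∈ W, ∀ b : Bool, Im (Mg d (p, b) i) v → (p : ℤ) ∣ (rep i).q v := by
    intro p hp b h
    have h1 : Adm d K (p, b) := hW p hp
    rw [im_iff h1 i v] at h
    exact (adm_dvd_iff h1 i).2 (Or.inl h)
  have hlt : ∀ p ∈ W, ∀ p' ∈ W, (rep i).q v < (p : ℤ) * p' := by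
    intro p hp p' hp'
    have := hv.trans_lt (hb p hp p' hp')
    exact_mod_cast this
  rw [sum_product]
  by_cases hex : ∃ p ∈ W, (p : ℤ) ∣ (rep i).q v
  · rw [if_pos hex]
    obtain ⟨p, hp, hpd⟩ := hex
    have hpp := (hW p hp).1
    have huniq : ∀ p' ∈ W, p' ≠ p → ∑ y : Bool, (if Im (Mg d (p', y) i) v then (1 : ℂ) else 0) = 0 := by
      intro p' hp' hne
      refine sum_eq_zero fun y _ => if_neg fun h => ?_
      have h1 := hdvd p' hp' y h
      have hc : IsCoprime (p : ℤ) (p' : ℤ) :=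
        Nat.isCoprime_iff_coprime.2 ((Nat.coprime_primes hpp (hW p' hp').1).2 (Ne.symm hne))
      have h2 := Int.le_of_dvd hq (hc.mul_dvd hpd h1)
      have h3 := hlt p hp p' hp'
      omega
    rw [sum_eq_single_of_mem p hp huniq, Fintype.sum_bool]
    have h1 : Adm d K (p, true) := hW p hp
    have h1' : Adm d K (p, false) := hW p hp
    have e1 := im_iff h1 i v
    have e2 := im_iff h1' i v
    have hr : rg d (p, false) = -rg d (p, true) := rg_neg p true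
    rw [hr] at e2
    simp only at e1 e2
    have hor := (adm_dvd_iff h1 i).1 hpd
    simp only at hor
    have hnb : ¬ (Eig (p : ℤ) (rg d (p, true)) (rep i) v ∧
        Eig (p : ℤ) (-rg d (p, true)) (rep i) v) := by
      intro h
      have h2 := (eig_both (Nat.prime_iff_prime_int.1 hpp) (rel_g h1 i).1).1 h
      obtain ⟨⟨x, hx⟩, ⟨y, hy⟩⟩ := h2
      have h3 : v = (p : ℤ) • ((x, y) : V) := by
        apply Prod.ext
        · simp [hx]
        · simp [hy]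
      have h4 : (rep i).q v = (p : ℤ) ^ 2 * (rep i).q (x, y) := by
        rw [h3, Form.q_smul]
      have h5 : (p : ℤ) * p ∣ (rep i).q v := ⟨(rep i).q (x, y), by rw [h4]; ring⟩
      have h6 := Int.le_of_dvd hq h5
      have h7 := hlt p hp p hp
      omega
    rcases hor with h | h
    · have h2 : ¬ Im (Mg d (p, false) i) v := fun h3 => hnb ⟨h, e2.1 h3⟩
      rw [if_pos (e1.2 h), if_neg h2]
      norm_num
    · have h2 : ¬ Im (Mg d (p, true) i) v := fun h3 => hnb ⟨e1.1 h3, h⟩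
      rw [if_neg h2, if_pos (e2.2 h)]
      norm_num
  · rw [if_neg hex]
    symm
    refine sum_eq_zero fun p hp => sum_eq_zero fun y _ => if_neg fun h => hex ⟨p, hp, hdvd p hp y h⟩

open Classical in
/-- **the window identity** -/
theorem win_id {W : Finset ℕ} (hW : ∀ p ∈ W, Spl d K p) (r1 r2 N : ℝ)
    (hb : ∀ p ∈ W, ∀ p' ∈ W, r2 * N < (p : ℝ) * p') (w : Fq d K) (z : ℂ) (a a' : Cl d → V → ℂ)
    (ha : ∀ P ∈ W ×ˢ (univ : Finset Bool), ∀ i, ∀ u : V, u ≠ 0 →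
      a i ((Mg d P i).app u) = z * a' (sg d P i) u) :
    Mpa (fun i v => if ∃ p ∈ W, (p : ℤ) ∣ (rep i).q v then a i v else 0) r1 r2 N w =
      ∑ P ∈ W ×ˢ (univ : Finset Bool), z * cw P w / (P.1 : ℂ) * Mpa a' r1 r2 (N / P.1) w := by
  have hadm : ∀ P ∈ W ×ˢ (univ : Finset Bool), Adm d K P := fun P hP =>
    hW P.1 (mem_product.1 hP).1
  have e1 : ∀ i : Cl d, ∑ v ∈ (Shg i (r1 * N) (r2 * N)).filter Prim,
      (if ∃ p ∈ W, (p : ℤ) ∣ (rep i).q v then a i v else 0) * ch w i v =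
      ∑ P ∈ W ×ˢ (univ : Finset Bool), ∑ u ∈ (Shg (sg d P i) (r1 * N / P.1) (r2 * N / P.1)).filter
        Prim, z * cw P w * (a' (sg d P i) u * ch w (sg d P i) u) := by
    intro i
    have e2 : ∀ v ∈ (Shg i (r1 * N) (r2 * N)).filter Prim,
        (if ∃ p ∈ W, (p : ℤ) ∣ (rep i).q v then a i v else 0) * ch w i v =
        ∑ P ∈ W ×ˢ (univ : Finset Bool), if Im (Mg d P i) v then a i v * ch w i v else 0 := by
      intro v hv
      have hv1 := mem_Shg.1 (mem_filter.1 hv).1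
      have h1 := one_img hW hb i hv1.1 hv1.2.2
      have h2 : (if ∃ p ∈ W, (p : ℤ) ∣ (rep i).q v then a i v else 0) =
          (if ∃ p ∈ W, (p : ℤ) ∣ (rep i).q v then (1 : ℂ) else 0) * a i v := by
        split_ifs <;> simp
      rw [h2, h1, mul_assoc, sum_mul]
      refine sum_congr rfl fun P _ => ?_
      split_ifs <;> simp
    rw [sum_congr rfl e2, sum_comm]
    refine sum_congr rfl fun P hP => ?_
    have hA := hadm P hP
    have hp0 : (0 : ℝ) < P.1 := by exact_mod_cast hA.1.pos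
    rw [sum_filter, sum_filter]
    have e3 : ∑ v ∈ Shg i (r1 * N) (r2 * N),
        (if Prim v then if Im (Mg d P i) v then a i v * ch w i v else 0 else 0) =
        ∑ v ∈ (Shg i (r1 * N) (r2 * N)).filter (fun v => Im (Mg d P i) v),
          (if Prim v then a i v * ch w i v else 0) := by
      rw [sum_filter]
      refine sum_congr rfl fun v _ => ?_
      split_ifs <;> simp
    rw [e3, sum_im hA i]
    refine sum_congr rfl fun u hu => ?_
    have hu1 := mem_Shg.1 hu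
    have hne : ¬ Eig P.1 (-rg d P) (rep (sg d P i)) u := by
      intro h
      have h2 : (P.1 : ℤ) ∣ (rep (sg d P i)).q u := (adm_dvd_iff hA (sg d P i)).2 (Or.inr h)
      have hq := (rep_pos (sg d P i)).q_pos hu1.1
      have h3 := Int.le_of_dvd hq h2
      have h4 : (P.1 : ℝ) ≤ r2 * N / P.1 := by
        refine le_trans ?_ hu1.2.2
        exact_mod_cast h3
      rw [le_div_iff₀ hp0] at h4
      have h5 := hb P.1 (mem_product.1 hP).1 P.1 (mem_product.1 hP).1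
      linarith
    have hpr : Prim ((Mg d P i).app u) ↔ Prim u := by
      rw [prim_app_iff hA i]
      exact ⟨fun h => h.1, fun h => ⟨h, hne⟩⟩
    by_cases hpu : Prim u
    · rw [if_pos (hpr.2 hpu), if_pos hpu, ha P hP i u hu1.1, ch_M hA w i hu1.1]
      ring
    · rw [if_neg (fun h => hpu (hpr.1 h)), if_neg hpu]
  unfold Mpa
  rw [sum_congr rfl fun i _ => e1 i, sum_comm, mul_sum]
  refine sum_congr rfl fun P hP => ?_
  have hA := hadm P hP
  have hp0 : (P.1 : ℂ) ≠ 0 := by exact_mod_cast hA.1.ne_zero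
  have e4 : ∑ i, ∑ u ∈ (Shg (sg d P i) (r1 * N / P.1) (r2 * N / P.1)).filter Prim,
      z * cw P w * (a' (sg d P i) u * ch w (sg d P i) u) = z * cw P w *
      ∑ i, ∑ u ∈ (Shg i (r1 * N / P.1) (r2 * N / P.1)).filter Prim, a' i u * ch w i u := by
    rw [← Equiv.sum_comp (sg d P) (fun i => ∑ u ∈ (Shg i (r1 * N / P.1) (r2 * N / P.1)).filter
      Prim, a' i u * ch w i u), mul_sum]
    refine sum_congr rfl fun i _ => ?_
    rw [mul_sum]
  rw [e4, ← mul_div_assoc, ← mul_div_assoc]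
  push_cast
  by_cases hN : (N : ℂ) = 0
  · rw [hN]; simp
  · field_simp

open Classical in
/-- **frequency `0`, `z ≠ 1`** -/
theorem freq_ne (hP : StPw0G d K) (z : ℂ) (k : ℕ) (hk : 0 < k) (hzk : z ^ k = 1) (hz1 : z ≠ 1)
    (r1 r2 : ℝ) (hr1 : 0 ≤ r1) (hr12 : r1 < r2) (w : Fq d K) (hw : w.1 = 0) (ε : ℝ) (hε : 0 < ε) :
    ∃ X0 : ℝ, 1 ≤ X0 ∧ ∀ N : ℝ, ∀ W : Finset ℕ, (∀ p ∈ W, Spl d K p) →
    (∀ p ∈ W, X0 * p ≤ N) → (∀ p ∈ W, ∀ p' ∈ W, r2 * N < (p : ℝ) * p') →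
    ‖Mpa (fun i v => if ∃ p ∈ W, (p : ℤ) ∣ (rep i).q v then gz z (rep i) v else 0) r1 r2 N w‖ ≤
      ε * ∑ p ∈ W, 2 / (p : ℝ) := by
  have hz : ‖z‖ = 1 := Complex.norm_eq_one_of_pow_eq_one hzk hk.ne'
  obtain ⟨X0, hX0⟩ := eventually_atTop.1
    ((tendsto_zero_iff_norm_tendsto_zero.1 (hP z k hk hzk hz1 r1 r2 hr1 hr12 w hw)).eventually
      (gt_mem_nhds hε))
  refine ⟨max X0 1, le_max_right _ _, fun N W hW hX hb => ?_⟩
  rw [win_id hW r1 r2 N hb w z (fun i v => gz z (rep i) v) (fun i v => gz z (rep i) v)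
    (fun P hP i u hu => gz_app (show Adm d K P from hW P.1 (mem_product.1 hP).1) z i hu)]
  refine (norm_sum_le _ _).trans ?_
  rw [sum_product, mul_sum]
  refine sum_le_sum fun p hp => ?_
  have hp0 : (0 : ℝ) < p := by exact_mod_cast (hW p hp).1.pos
  have key : ∀ b : Bool, ‖z * cw (p, b) w / (((p, b) : ℕ × Bool).1 : ℂ) *
      Mpa (fun i v => gz z (rep i) v) r1 r2 (N / ((p, b) : ℕ × Bool).1) w‖ ≤ ε * (1 / (p : ℝ)) := by
    intro b
    have hA : Adm d K (p, b) := hW p hp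
    have h1 : max X0 1 ≤ N / p := by
      rw [le_div_iff₀ hp0]
      exact hX p hp
    have h2 := (hX0 (N / p) ((le_max_left _ _).trans h1)).le
    have h3 : Mpa (fun i v => gz z (rep i) v) r1 r2 (N / p) w = Mpg z r1 r2 (N / p) w := rfl
    simp only
    rw [norm_mul, norm_div, norm_mul, hz, norm_cw hA, Complex.norm_natCast, h3]
    calc 1 * 1 / (p : ℝ) * ‖Mpg z r1 r2 (N / p) w‖ ≤ 1 * 1 / (p : ℝ) * ε :=
          mul_le_mul_of_nonneg_left h2 (by positivity)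
      _ = ε * (1 / (p : ℝ)) := by ring
  rw [Fintype.sum_bool]
  calc _ ≤ ε * (1 / (p : ℝ)) + ε * (1 / (p : ℝ)) := add_le_add (key true) (key false)
    _ = ε * (2 / (p : ℝ)) := by ring

/-! ### `z = 1` -/

/-- the sum of the components -/
noncomputable def Sd (D : ℕ) (k : Fin (mm d K 0)) : ℂ :=
  ∑ ia : Cl d × (ZMod K × ZMod K),
    (starRingEnd ℂ) ((bv d K 0 k : Hs d K) (ia.1, sc (D : ZMod K) ia.2))

theorem Sd_inv (D : ℕ) (k : Fin (mm d K 0)) {P : ℕ × Bool} (h : Adm d K P) :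
    cw P (⟨0, k⟩ : Fq d K) * Sd D k = Sd D k := by
  have h1 := (bv_spec h 0 k).2
  have h2 : ∀ ia : Cl d × (ZMod K × ZMod K), (bv d K 0 k : Hs d K)
      ((jE h ia).1, sc (D : ZMod K) (jE h ia).2) =
      cw P (⟨0, k⟩ : Fq d K) * (bv d K 0 k : Hs d K) (ia.1, sc (D : ZMod K) ia.2) := by
    rintro ⟨i, α⟩
    have h3 : Ug d K P 0 (bv d K 0 k : Hs d K) (i, sc (D : ZMod K) α) =
        cw P (⟨0, k⟩ : Fq d K) * (bv d K 0 k : Hs d K) (i, sc (D : ZMod K) α) := by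
      rw [h1]; rfl
    rw [Ug_apply, zpow_zero, one_mul, ai_sc] at h3
    exact h3
  have h3 : Sd D k = (starRingEnd ℂ) (cw P (⟨0, k⟩ : Fq d K)) * Sd D k := by
    conv_lhs => unfold Sd
    rw [← Equiv.sum_comp (jE h) (fun ia => (starRingEnd ℂ)
      ((bv d K 0 k : Hs d K) (ia.1, sc (D : ZMod K) ia.2)))]
    unfold Sd
    rw [mul_sum]
    refine sum_congr rfl fun ia _ => ?_
    rw [h2 ia, map_mul]
  have hcc : cw P (⟨0, k⟩ : Fq d K) * (starRingEnd ℂ) (cw P (⟨0, k⟩ : Fq d K)) = 1 := by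
    rw [Complex.mul_conj, Complex.normSq_eq_norm_sq, norm_cw h]
    norm_num
  calc cw P (⟨0, k⟩ : Fq d K) * Sd D k = cw P (⟨0, k⟩ : Fq d K) *
        ((starRingEnd ℂ) (cw P (⟨0, k⟩ : Fq d K)) * Sd D k) := by rw [← h3]
    _ = Sd D k := by rw [← mul_assoc, hcc, one_mul]

omit [NeZero K] in
theorem cl_add (v t : V) : cl K (v + t) = cl K v + cl K t := by
  unfold cl
  apply Prod.ext <;> simp

/-- sums of functions of the class modulo `K` over a shell -/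
theorem per_sum {Q : Form} (hQ : Q.Pos) : ∃ τ : ℝ, 0 ≤ τ ∧ ∀ (a b : ℝ), 0 ≤ a → a ≤ b →
    ∀ G : ZMod K × ZMod K → ℂ, (∀ α, ‖G α‖ ≤ 1) →
    ‖∑ v ∈ shQ Q a b, G (cl K v) - ((shQ Q a b).card : ℂ) / (K : ℂ) ^ 2 * ∑ α, G α‖ ≤
      400 * ((τ + 1) * (√b + τ + 1)) + 2 := by
  set rp : ZMod K × ZMod K → V := fun α => ((α.1.val : ℤ), (α.2.val : ℤ)) with hrp
  have hcl : ∀ α, cl K (rp α) = α := by
    intro α
    unfold cl
    rw [hrp]
    apply Prod.ext
    · simp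
    · simp
  set τ : ℝ := ∑ α, ‖tq Q (rp α)‖ with hτ
  have hτ0 : 0 ≤ τ := sum_nonneg fun _ _ => norm_nonneg _
  refine ⟨τ, hτ0, fun a b ha hab G hG => ?_⟩
  set D : ℝ := 400 * ((τ + 1) * (√b + τ + 1)) + 2 with hD
  set S : ℂ := ∑ v ∈ shQ Q a b, G (cl K v) with hS
  have h1 : ∀ α, ‖∑ v ∈ shQ Q a b, G (cl K (v + rp α)) - S‖ ≤ D := by
    intro α
    have h2 : ‖tq Q (rp α)‖ ≤ τ :=
      single_le_sum (f := fun α => ‖tq Q (rp α)‖) (fun _ _ => norm_nonneg _) (mem_univ α)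
    exact shift hQ a b ha hab τ hτ0 (rp α) h2 (fun v => G (cl K v)) (fun v => hG _)
  have h2 : ∑ α, ∑ v ∈ shQ Q a b, G (cl K (v + rp α)) =
      ((shQ Q a b).card : ℂ) * ∑ α, G α := by
    rw [sum_comm]
    have h3 : ∀ v ∈ shQ Q a b, ∑ α, G (cl K (v + rp α)) = ∑ α, G α := by
      intro v _
      rw [← Equiv.sum_comp (Equiv.addLeft (cl K v)) G]
      refine sum_congr rfl fun α _ => ?_
      rw [cl_add, hcl]
      rfl
    rw [sum_congr rfl h3, sum_const, nsmul_eq_mul]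
  have hK : (0 : ℝ) < K := by exact_mod_cast Nat.pos_of_ne_zero (NeZero.ne K)
  have hKC : (K : ℂ) ≠ 0 := by exact_mod_cast hK.ne'
  have hc : Fintype.card (ZMod K × ZMod K) = K * K := by
    rw [Fintype.card_prod, ZMod.card]
  have h4 : (K : ℂ) ^ 2 * (S - ((shQ Q a b).card : ℂ) / (K : ℂ) ^ 2 * ∑ α, G α) =
      -∑ α, (∑ v ∈ shQ Q a b, G (cl K (v + rp α)) - S) := by
    rw [sum_sub_distrib, h2, sum_const, card_univ, hc, nsmul_eq_mul]
    push_cast
    field_simp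
    ring
  have h5 : (K : ℝ) ^ 2 * ‖S - ((shQ Q a b).card : ℂ) / (K : ℂ) ^ 2 * ∑ α, G α‖ ≤
      (K : ℝ) ^ 2 * D := by
    have h6 : ‖(K : ℂ) ^ 2 * (S - ((shQ Q a b).card : ℂ) / (K : ℂ) ^ 2 * ∑ α, G α)‖ ≤
        (K : ℝ) ^ 2 * D := by
      rw [h4, norm_neg]
      refine (norm_sum_le _ _).trans ((sum_le_sum fun α _ => h1 α).trans (le_of_eq ?_))
      rw [sum_const, card_univ, hc, nsmul_eq_mul]
      push_cast
      ring
    rwa [norm_mul, norm_pow, Complex.norm_natCast] at h6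
  exact le_of_mul_le_mul_left h5 (by positivity)

/-- the number of vectors of a shell -/
theorem card_shell {Q : Form} (hQ : Q.Pos) (a b : ℝ) (ha : 0 ≤ a) (hab : a ≤ b) :
    |((shQ Q a b).card : ℝ) - MRS.LatG84.kap Q * (b - a)| ≤ 42 * (√b + 1) := by
  have hb0 : 0 ≤ b := ha.trans hab
  have hk := MRS.LatU84.kap_le Q hQ
  have hk0 := MRS.LatG84.kap_pos hQ
  have h1 := MRS.LatU84.latU Q hQ ⌊a⌋₊
  have h2 := MRS.LatU84.latU Q hQ ⌊b⌋₊
  have hfa := Nat.floor_le ha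
  have hfb := Nat.floor_le hb0
  have hfa' := Nat.lt_floor_add_one a
  have hfb' := Nat.lt_floor_add_one b
  have hmem : ∀ (x : ℝ), 0 ≤ x → ∀ v : V, v ∈ Q.ball ⌊x⌋₊ ↔ (Q.q v : ℝ) ≤ x := by
    intro x hx v
    rw [Form.mem_ball hQ, Int.natCast_floor_eq_floor hx]
    exact Int.le_floor
  have hsub : Q.ball ⌊a⌋₊ ⊆ Q.ball ⌊b⌋₊ := by
    intro v hv
    rw [hmem a ha] at hv
    rw [hmem b hb0]
    exact hv.trans hab
  have e : shQ Q a b = Q.ball ⌊b⌋₊ \ Q.ball ⌊a⌋₊ := by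
    ext v
    rw [mem_shQ hQ, Finset.mem_sdiff, hmem a ha, hmem b hb0, not_le]
    constructor
    · rintro ⟨-, h3, h4⟩
      exact ⟨h4, h3⟩
    · rintro ⟨h4, h3⟩
      refine ⟨?_, h3, h4⟩
      rintro rfl
      have : (Q.q (0 : V) : ℝ) = 0 := by
        unfold Form.q
        simp
      rw [this] at h3
      linarith
  have hcard : ((shQ Q a b).card : ℝ) = (Q.ball ⌊b⌋₊).card - (Q.ball ⌊a⌋₊).card := by
    rw [e, card_sdiff_of_subset hsub, Nat.cast_sub (card_le_card hsub)]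
  have hsa : √((⌊a⌋₊ : ℕ) : ℝ) ≤ √b := Real.sqrt_le_sqrt (hfa.trans hab)
  have hsb : √((⌊b⌋₊ : ℕ) : ℝ) ≤ √b := Real.sqrt_le_sqrt hfb
  have hs := Real.sqrt_nonneg b
  rw [abs_le] at h1 h2 ⊢
  rw [hcard]
  have h3 : |MRS.LatG84.kap Q * (((⌊b⌋₊ : ℕ) : ℝ) - b) - MRS.LatG84.kap Q *
      (((⌊a⌋₊ : ℕ) : ℝ) - a)| ≤ 4 := by
    rw [← mul_sub, abs_mul, abs_of_pos hk0]
    have : |((⌊b⌋₊ : ℕ) : ℝ) - b - (((⌊a⌋₊ : ℕ) : ℝ) - a)| ≤ 1 := by
      rw [abs_le]; constructor <;> linarith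
    calc _ ≤ 4 * (1 : ℝ) := mul_le_mul hk this (abs_nonneg _) (by norm_num)
      _ = 4 := by norm_num
  rw [abs_le] at h3
  constructor
  · nlinarith [h1.1, h1.2, h2.1, h2.2, h3.1, h3.2]
  · nlinarith [h1.1, h1.2, h2.1, h2.2, h3.1, h3.2]

end Pool.Agent.Lib.MP_a17b09_nt.PQ.Freq12
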