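import Pool.Agent.Lib.MP_a17b09_nt.PQ.Stmts79
import Pool.Agent.Lib.MP_a17b09_nt.MRSG.Up70

/-!
PQ, M7 (StUpW): from all vectors to the primitive vectors on a small set of nonzero frequencies,
uniform in the weight.
-/

set_option autoImplicit false

open Filter Topology Finset

namespace Pool.Agent.Lib.MP_a17b09_nt.PQ

open CH CH.PE MRSG MRS

namespace UpW39

open UpG70

variable {d K : ℕ}

/-- the weight of the multiples of `D` -/
def wD (D : ℕ) (w : ℕ → ℂ) (n : ℕ) : ℂ := w (D ^ 2 * n)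

theorem gw_smul (w : ℕ → ℂ) (i : Cl d) (D : ℕ) (v : V) :
    gw w (rep i) ((D : ℤ) • v) = gw (wD D w) (rep i) v := by
  unfold gw wD
  have h2 : ((rep i).q ((D : ℤ) • v)).natAbs = D ^ 2 * ((rep i).q v).natAbs := by
    rw [Form.q_smul, Int.natAbs_mul, Int.natAbs_pow, Int.natAbs_natCast]
  rw [h2]

theorem Wy.wD {z : ℂ} {y y' : ℝ} {w : ℕ → ℂ} (h : Wy z y w) {D : ℕ} (hD : 0 < D) (hy : y' ≤ y) :
    Wy z y' (wD D w) where
  le n := h.le _
  mul p n hp hpy hn := by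
    show w (D ^ 2 * (p * n)) = z * w (D ^ 2 * n)
    rw [← h.mul p (D ^ 2 * n) hp (hpy.trans hy) (by positivity)]
    congr 1
    ring

/-- sums over sets of bounded size -/
theorem sum_pieces {ι : Type*} [DecidableEq ι] (f : ι → ℝ) (M : ℕ) (ε : ℝ) (hε : 0 ≤ ε) :
    ∀ (m : ℕ) (U : Finset ι), U.card ≤ m * M → (∀ V ⊆ U, V.card ≤ M → ∑ x ∈ V, f x ≤ ε) →
      ∑ x ∈ U, f x ≤ m * ε := by
  intro m
  induction m with
  | zero =>
    intro U hU _
    rw [zero_mul, Nat.le_zero, Finset.card_eq_zero] at hU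
    rw [hU, Finset.sum_empty]
    simp
  | succ m ih =>
    intro U hU hV
    rcases Nat.le_total U.card M with h | h
    · have h1 := hV U (Finset.Subset.refl U) h
      refine h1.trans ?_
      push_cast
      have : 0 ≤ (m : ℝ) * ε := by positivity
      linarith
    · obtain ⟨W, hW, hWc⟩ := Finset.exists_subset_card_eq h
      have h1 : (U \ W).card ≤ m * M := by
        rw [Finset.card_sdiff_of_subset hW, hWc]
        have : (m + 1) * M = m * M + M := by ring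
        omega
      have h2 := ih (U \ W) h1 fun V hVU hc => hV V (hVU.trans Finset.sdiff_subset) hc
      have h3 := hV W hW hWc.le
      rw [← Finset.sum_sdiff hW]
      push_cast
      linarith

section

variable [NeZero K]

/-- the coordinates of the vector of the primitive sums -/
theorem vp_le (wt : ℕ → ℂ) (r1 r2 N : ℝ) (j : ℤ) (hN : 0 < N) (E : ℕ)
    (hE : r2 * N ≤ E) (ia : Cl d × (ZMod K × ZMod K)) :
    ‖VPw d K wt r1 r2 N j ia‖ ≤ ∑ D ∈ Finset.Icc 1 E, (1 / (D : ℝ) ^ 2) *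
      ∑ ib, ‖VAw d K (wD D wt) r1 r2 (N / (D : ℝ) ^ 2) j ib‖ := by
  classical
  obtain ⟨i, α⟩ := ia
  have h0 : VPw d K wt r1 r2 N j (i, α) = ∑ v ∈ (Shg i (r1 * N) (r2 * N)).filter Prim,
      if cl K v = α then (1 / (N : ℂ)) * gw wt (rep i) v * uu (rep i) v ^ j else 0 := by
    unfold VPw
    rw [vec_apply, Finset.sum_filter]
  rw [h0, prim_sum i _ _ E hE]
  refine (norm_sum_le _ _).trans (Finset.sum_le_sum fun D hD => ?_)
  have hd1 : 0 < D := (Finset.mem_Icc.1 hD).1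
  have hd0 : (0 : ℝ) < D := by exact_mod_cast hd1
  have h1 : ‖(ArithmeticFunction.moebius D : ℂ)‖ ≤ 1 := by
    rcases ArithmeticFunction.moebius_eq_or D with h | h | h
    · rw [h]; simp
    · rw [h]; simp
    · rw [h]; simp
  rw [norm_mul]
  refine (mul_le_of_le_one_left (norm_nonneg _) h1).trans ?_
  have hN0 : (N : ℂ) ≠ 0 := by exact_mod_cast hN.ne'
  have hdc : (D : ℂ) ≠ 0 := by exact_mod_cast hd1.ne'
  -- the sum by the classes
  have h2 : ∀ w ∈ Shg i (r1 * N / (D : ℝ) ^ 2) (r2 * N / (D : ℝ) ^ 2),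
      (if cl K ((D : ℤ) • w) = α then
        (1 / (N : ℂ)) * gw wt (rep i) ((D : ℤ) • w) * uu (rep i) ((D : ℤ) • w) ^ j else 0) =
      (1 / (D : ℂ) ^ 2) *
        ∑ β : ZMod K × ZMod K, if sc (D : ZMod K) β = α then
        (if cl K w = β then (1 / ((N / (D : ℝ) ^ 2 : ℝ) : ℂ)) * gw (wD D wt) (rep i) w *
          uu (rep i) w ^ j else 0) else 0 := by
    intro w _
    rw [Finset.sum_eq_single (cl K w)]
    · rw [if_pos rfl, cl_smul', gw_smul, uu_smul _ (by exact_mod_cast hd1)]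
      push_cast
      split_ifs
      · field_simp
      · rw [mul_zero]
    · intro β _ hβ
      rw [if_neg (Ne.symm hβ)]
      split_ifs <;> rfl
    · intro h
      exact absurd (Finset.mem_univ _) h
  rw [Finset.sum_congr rfl h2, ← Finset.mul_sum, norm_mul, norm_div, norm_one, norm_pow,
    Complex.norm_natCast]
  refine mul_le_mul_of_nonneg_left ?_ (by positivity)
  rw [Finset.sum_comm]
  have h3 : ∀ β : ZMod K × ZMod K,
      ‖∑ w ∈ Shg i (r1 * N / (D : ℝ) ^ 2) (r2 * N / (D : ℝ) ^ 2),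
        (if sc (D : ZMod K) β = α then
        (if cl K w = β then (1 / ((N / (D : ℝ) ^ 2 : ℝ) : ℂ)) * gw (wD D wt) (rep i) w *
          uu (rep i) w ^ j else 0) else 0)‖ ≤
      ‖VAw d K (wD D wt) r1 r2 (N / (D : ℝ) ^ 2) j (i, β)‖ := by
    intro β
    by_cases h : sc (D : ZMod K) β = α
    · refine le_of_eq ?_
      congr 1
      unfold VAw
      rw [vec_apply, Finset.sum_filter, mul_div_assoc, mul_div_assoc]
      refine Finset.sum_congr rfl fun w _ => ?_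
      rw [if_pos h]
    · rw [Finset.sum_eq_zero]
      · rw [norm_zero]
        exact norm_nonneg _
      · intro w _
        rw [if_neg h]
  refine (norm_sum_le _ _).trans ((Finset.sum_le_sum fun β _ => h3 β).trans ?_)
  rw [Fintype.sum_prod_type (fun ib : Cl d × (ZMod K × ZMod K) =>
    ‖VAw d K (wD D wt) r1 r2 (N / (D : ℝ) ^ 2) j ib‖)]
  exact Finset.single_le_sum
    (f := fun i => ∑ β, ‖VAw d K (wD D wt) r1 r2 (N / (D : ℝ) ^ 2) j (i, β)‖)
    (fun _ _ => Finset.sum_nonneg fun _ _ => norm_nonneg _) (Finset.mem_univ i)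

end

theorem ma_le [NeZero K] {wt : ℕ → ℂ} (hw : B1 wt) (r1 r2 N : ℝ) (w : Fq d K) (hN : 0 < N)
    (hr : 0 ≤ r2) : ‖Maw wt r1 r2 N w‖ ≤ CT d * r2 := by
  unfold Maw
  rw [norm_mul, norm_div, norm_one, Complex.norm_real, Real.norm_eq_abs, abs_of_pos hN]
  have h1 : ‖∑ i, ∑ v ∈ Shg i (r1 * N) (r2 * N), gw wt (rep i) v * ch w i v‖ ≤
      CT d * (r2 * N) := by
    refine (norm_sum_le _ _).trans ?_
    unfold CT
    rw [Finset.sum_mul]
    refine Finset.sum_le_sum fun i _ => ?_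
    refine (norm_sum_le _ _).trans ?_
    refine (Finset.sum_le_sum (g := fun _ => (1 : ℝ)) fun v hv => ?_).trans ?_
    · rw [norm_mul]
      exact mul_le_one₀ (hw _) (norm_nonneg _) (norm_ch_le w i (mem_Shg.1 hv).1)
    · rw [Finset.sum_const, nsmul_eq_mul, mul_one]
      exact card_Shg i (by positivity)
  calc 1 / N * ‖∑ i, ∑ v ∈ Shg i (r1 * N) (r2 * N), gw wt (rep i) v * ch w i v‖ ≤
        1 / N * (CT d * (r2 * N)) := mul_le_mul_of_nonneg_left h1 (by positivity)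
    _ = CT d * r2 := by field_simp

/-- one frequency -/
theorem one_freq [NeZero K] (wt : ℕ → ℂ) (r1 r2 N : ℝ) (j : ℤ) (hN : 0 < N) (E : ℕ)
    (hE : r2 * N ≤ E) : ∑ ia, ‖VPw d K wt r1 r2 N j ia‖ ^ 2 ≤
      2 * nI d K ^ 2 * ∑ D ∈ Finset.Icc 1 E, (1 / (D : ℝ) ^ 2) *
        ∑ ib, ‖VAw d K (wD D wt) r1 r2 (N / (D : ℝ) ^ 2) j ib‖ ^ 2 := by
  set A : ℕ → ℝ := fun D => ∑ ib, ‖VAw d K (wD D wt) r1 r2 (N / (D : ℝ) ^ 2) j ib‖ ^ 2 with hA
  have hA0 : ∀ D, 0 ≤ A D := fun D => Finset.sum_nonneg fun _ _ => by positivity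
  have hn0 := nI_pos d K
  have h1 : ∀ ia, ‖VPw d K wt r1 r2 N j ia‖ ^ 2 ≤
      2 * nI d K * ∑ D ∈ Finset.Icc 1 E, (1 / (D : ℝ) ^ 2) * A D := by
    intro ia
    have h2 := MRS.Exc70.cs (Finset.Icc 1 E) (fun D : ℕ => 1 / (D : ℝ) ^ 2)
      (fun D : ℕ => ∑ ib, ‖VAw d K (wD D wt) r1 r2 (N / (D : ℝ) ^ 2) j ib‖) (fun D _ => by positivity)
    have h3 : ∀ D : ℕ, (∑ ib, ‖VAw d K (wD D wt) r1 r2 (N / (D : ℝ) ^ 2) j ib‖) ^ 2 ≤
        nI d K * A D := by
      intro D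
      have h4 := sq_sum_le_card_mul_sum_sq
        (s := (Finset.univ : Finset (Cl d × (ZMod K × ZMod K))))
        (f := fun ib => ‖VAw d K (wD D wt) r1 r2 (N / (D : ℝ) ^ 2) j ib‖)
      refine h4.trans (mul_le_mul_of_nonneg_right ?_ (hA0 D))
      unfold nI
      rw [Finset.card_univ]
      linarith
    calc ‖VPw d K wt r1 r2 N j ia‖ ^ 2 ≤ (∑ D ∈ Finset.Icc 1 E, (1 / (D : ℝ) ^ 2) *
          ∑ ib, ‖VAw d K (wD D wt) r1 r2 (N / (D : ℝ) ^ 2) j ib‖) ^ 2 :=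
          pow_le_pow_left₀ (norm_nonneg _) (UpW39.vp_le wt r1 r2 N j hN E hE ia) 2
      _ ≤ (∑ D ∈ Finset.Icc 1 E, 1 / (D : ℝ) ^ 2) * ∑ D ∈ Finset.Icc 1 E, (1 / (D : ℝ) ^ 2) *
          (∑ ib, ‖VAw d K (wD D wt) r1 r2 (N / (D : ℝ) ^ 2) j ib‖) ^ 2 := h2
      _ ≤ 2 * ∑ D ∈ Finset.Icc 1 E, (1 / (D : ℝ) ^ 2) * (nI d K * A D) := by
          refine mul_le_mul (total E) ?_ (Finset.sum_nonneg fun _ _ => by positivity)
            (by norm_num)
          exact Finset.sum_le_sum fun D _ => mul_le_mul_of_nonneg_left (h3 D) (by positivity)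
      _ = _ := by
          rw [mul_assoc, Finset.mul_sum]
          rw [Finset.mul_sum, Finset.mul_sum]
          refine Finset.sum_congr rfl fun D _ => by ring
  have hS0 : 0 ≤ ∑ D ∈ Finset.Icc 1 E, (1 / (D : ℝ) ^ 2) * A D :=
    Finset.sum_nonneg fun D _ => mul_nonneg (by positivity) (hA0 D)
  calc ∑ ia, ‖VPw d K wt r1 r2 N j ia‖ ^ 2 ≤
        ∑ ia : Cl d × (ZMod K × ZMod K), 2 * nI d K * ∑ D ∈ Finset.Icc 1 E,
          (1 / (D : ℝ) ^ 2) * A D := Finset.sum_le_sum fun ia _ => h1 ia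
    _ = (Fintype.card (Cl d × (ZMod K × ZMod K)) : ℝ) * (2 * nI d K * ∑ D ∈ Finset.Icc 1 E,
          (1 / (D : ℝ) ^ 2) * A D) := by
        rw [Finset.sum_const, nsmul_eq_mul, Finset.card_univ]
    _ ≤ nI d K * (2 * nI d K * ∑ D ∈ Finset.Icc 1 E, (1 / (D : ℝ) ^ 2) * A D) := by
        refine mul_le_mul_of_nonneg_right ?_ (by positivity)
        unfold nI
        linarith
    _ = _ := by ring

end UpW39

open UpG70 UpW39 in
/-- (M7) -/
theorem stUpW_39 (d K : ℕ) [NeZero K] (hPar : StParW d K) (hU : StUallW d K)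
    (hH : StHmuG d K) : StUpW d K := by
  classical
  intro z hz c0 hc0' r1 r2 hr1 hr2
  have hr20 : 0 < r2 := lt_of_le_of_lt hr1 hr2
  obtain ⟨ch', C, N1, hch, hC, hN1, hHm⟩ := hH r1 r2 hr1 hr2
  obtain ⟨c, hc0, hcc, hUa⟩ := hU z hz (min c0 (min (ch' / 4) (1 / 16 : ℝ)))
    (by positivity) r1 r2 hr1 hr2
  have hcc0 : c ≤ c0 := hcc.trans (min_le_left _ _)
  have hc2 : 2 * c ≤ ch' / 2 := by
    have := hcc.trans ((min_le_right _ _).trans (min_le_left _ _))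
    linarith
  have hc3 : 2 * c ≤ 1 / 8 := by
    have := hcc.trans ((min_le_right _ _).trans (min_le_right _ _))
    linarith
  refine ⟨c, hc0, hcc0, fun ε0 hε0 => ?_⟩
  have hn1 := nI_pos d K
  set n := nI d K with hn
  -- work with `ε`
  set ε := ε0 / n ^ 2 with hεd
  have hε : 0 < ε := by positivity
  obtain ⟨D0, hD0⟩ := exists_nat_gt (16 * C / ε)
  have hD00 : (0 : ℝ) < D0 := lt_trans (by positivity) hD0
  have hD0n : 0 < D0 := by exact_mod_cast hD00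
  have hCD : C / D0 ≤ ε / 16 := by
    rw [div_lt_iff₀ hε] at hD0
    rw [div_le_iff₀ hD00]
    linarith
  have hD01 : (1 : ℝ) ≤ D0 := by exact_mod_cast hD0n
  obtain ⟨m, hm⟩ : ∃ m : ℕ, m = ⌈2 * n * (D0 : ℝ) ^ 2⌉₊ := ⟨_, rfl⟩
  have hmge : 2 * n * (D0 : ℝ) ^ 2 ≤ m := hm ▸ Nat.le_ceil _
  have hm0 : (0 : ℝ) < m := lt_of_lt_of_le (by positivity) hmge
  obtain ⟨N2, hN2⟩ := hUa (ε / 16 / m) (by positivity)
  set T := (CT d * r2) ^ 2 with hT
  have hT0 : 0 ≤ T := by positivity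
  have hev : ∀ᶠ N : ℝ in atTop, max N1 N2 ≤ N ^ (1 / 2 : ℝ) ∧ (D0 : ℝ) ≤ N ^ (1 / 4 : ℝ) ∧
      1 ≤ N ∧ 2 * T * 16 / ε ≤ N ^ (1 / 8 : ℝ) ∧ n ≤ N ^ c := by
    have t1 := (tendsto_rpow_atTop (show (0 : ℝ) < 1 / 2 by norm_num)).eventually_ge_atTop
      (max N1 N2)
    have t2 := (tendsto_rpow_atTop (show (0 : ℝ) < 1 / 4 by norm_num)).eventually_ge_atTop
      (D0 : ℝ)
    have t3 := (tendsto_rpow_atTop (show (0 : ℝ) < 1 / 8 by norm_num)).eventually_ge_atTop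
      (2 * T * 16 / ε)
    have t4 := (tendsto_rpow_atTop hc0).eventually_ge_atTop n
    filter_upwards [t1, t2, t3, t4, eventually_ge_atTop (1 : ℝ)] with N a1 a2 a3 a4 a5
    exact ⟨a1, a2, a5, a3, a4⟩
  obtain ⟨N0, hN0⟩ := eventually_atTop.1 hev
  refine ⟨N0, fun N hN wt hwt U0 hU0c h00 hU0j => ?_⟩
  obtain ⟨g1, g2, g3, g4, g5⟩ := hN0 N hN
  have hNp : 0 < N := by linarith
  -- full fibres
  set J : Finset ℤ := U0.image Sigma.fst with hJ
  set U : Finset (Fq d K) := J.sigma (fun _ => Finset.univ) with hUd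
  have hUsub : U0 ⊆ U := by
    intro w hw
    rw [hUd, Finset.mem_sigma]
    exact ⟨Finset.mem_image_of_mem _ hw, Finset.mem_univ _⟩
  have hUfst : ∀ w ∈ U, ∃ w' ∈ U0, w'.1 = w.1 := by
    intro w hw
    rw [hUd, Finset.mem_sigma] at hw
    exact Finset.mem_image.1 hw.1
  have h0 : ∀ w ∈ U, w.1 ≠ 0 := by
    intro w hw
    obtain ⟨w', h1, h2⟩ := hUfst w hw
    rw [← h2]
    exact h00 w' h1
  have hUj : ∀ w ∈ U, |(w.1 : ℝ)| ≤ N := by
    intro w hw
    obtain ⟨w', h1, h2⟩ := hUfst w hw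
    rw [← h2]
    exact hU0j w' h1
  have hUcn : (U.card : ℝ) ≤ N ^ c * n := by
    have h1 : U.card ≤ J.card * Fintype.card (Cl d × (ZMod K × ZMod K)) := by
      rw [hUd, Finset.card_sigma]
      refine (Finset.sum_le_card_nsmul J _ (Fintype.card (Cl d × (ZMod K × ZMod K)))
        fun j _ => ?_).trans (le_of_eq (smul_eq_mul _ _))
      rw [Finset.card_univ, Fintype.card_fin]
      have := mm_le (d := d) (K := K) j
      rw [Fintype.card_prod, Fintype.card_prod, ZMod.card]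
      exact this
    have h2 : J.card ≤ U0.card := Finset.card_image_le
    have h3 : (U.card : ℝ) ≤ U0.card * n := by
      have h4 : U.card ≤ U0.card * Fintype.card (Cl d × (ZMod K × ZMod K)) :=
        h1.trans (Nat.mul_le_mul_right _ h2)
      have h5 : (U.card : ℝ) ≤ U0.card * (Fintype.card (Cl d × (ZMod K × ZMod K)) : ℝ) := by
        exact_mod_cast h4
      refine h5.trans (mul_le_mul_of_nonneg_left ?_ (by positivity))
      rw [hn]
      unfold nI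
      linarith
    exact h3.trans (mul_le_mul_of_nonneg_right hU0c (by positivity))
  have hUc : (U.card : ℝ) ≤ N ^ (2 * c) := by
    calc (U.card : ℝ) ≤ N ^ c * n := hUcn
      _ ≤ N ^ c * N ^ c := mul_le_mul_of_nonneg_left g5 (by positivity)
      _ = N ^ (2 * c) := by
          rw [← Real.rpow_add hNp]
          congr 1
          ring
  set E := ⌊N ^ (1 / 4 : ℝ)⌋₊ with hE
  have hE1 : (E : ℝ) ≤ N ^ (1 / 4 : ℝ) := Nat.floor_le (by positivity)
  have h14 : 1 ≤ N ^ (1 / 4 : ℝ) := Real.one_le_rpow g3 (by norm_num)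
  have hE2 : N ^ (1 / 4 : ℝ) / 2 ≤ E := by
    have h1 : N ^ (1 / 4 : ℝ) < E + 1 := Nat.lt_floor_add_one _
    have h2 : (1 : ℝ) ≤ E := by
      have : 1 ≤ E := Nat.le_floor (by exact_mod_cast h14)
      exact_mod_cast this
    linarith
  have hE0 : (0 : ℝ) < E := lt_of_lt_of_le (by positivity) hE2
  have hEn : 0 < E := by exact_mod_cast hE0
  -- small `D`
  have hsq : N ^ (1 / 4 : ℝ) * N ^ (1 / 4 : ℝ) = N ^ (1 / 2 : ℝ) := by
    rw [← Real.rpow_add hNp]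
    norm_num
  have hsq2 : N ^ (1 / 2 : ℝ) * N ^ (1 / 2 : ℝ) = N := by
    rw [← Real.rpow_add hNp]
    norm_num
  have hsmall : ∀ D : ℕ, 1 ≤ D → D ≤ E → N ^ (1 / 2 : ℝ) ≤ N / (D : ℝ) ^ 2 := by
    intro D hd1 hd2
    have hd0 : (0 : ℝ) < D := by exact_mod_cast hd1
    have h1 : (D : ℝ) ≤ N ^ (1 / 4 : ℝ) := le_trans (by exact_mod_cast hd2) hE1
    rw [le_div_iff₀ (by positivity)]
    calc N ^ (1 / 2 : ℝ) * (D : ℝ) ^ 2 ≤ N ^ (1 / 2 : ℝ) * N ^ (1 / 2 : ℝ) := by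
          refine mul_le_mul_of_nonneg_left ?_ (by positivity)
          rw [sq, ← hsq]
          exact mul_le_mul h1 h1 hd0.le (by positivity)
      _ = N := hsq2
  have h12 : 1 ≤ N ^ (1 / 2 : ℝ) := Real.one_le_rpow g3 (by norm_num)
  have hpow : ∀ x : ℝ, N ^ (1 / 2 : ℝ) ≤ x → ∀ e : ℝ, 0 < e → 2 * c ≤ e / 2 →
      (U.card : ℝ) ≤ x ^ e := by
    intro x hx e he hce
    calc (U.card : ℝ) ≤ N ^ (2 * c) := hUc
      _ ≤ N ^ (e / 2) := Real.rpow_le_rpow_of_exponent_le g3 hce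
      _ = (N ^ (1 / 2 : ℝ)) ^ e := by
          rw [← Real.rpow_mul hNp.le]
          congr 1
          ring
      _ ≤ x ^ e := Real.rpow_le_rpow (by positivity) hx he.le
  set S : ℕ → ℝ := fun D => ∑ w ∈ U, ‖Maw (wD D wt) r1 r2 (N / (D : ℝ) ^ 2) w‖ ^ 2 with hS
  have hS0 : ∀ D, 0 ≤ S D := fun D => Finset.sum_nonneg fun _ _ => by positivity
  -- the three ranges
  have hS1 : ∀ D : ℕ, 1 ≤ D → D ≤ D0 → S D ≤ ε / 16 := by
    intro D hd1 hd2
    have hd0 : (0 : ℝ) < D := by exact_mod_cast hd1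
    have hd1r : (1 : ℝ) ≤ D := by exact_mod_cast hd1
    have hdE : D ≤ E := hd2.trans (Nat.le_floor g2)
    have h1 := hsmall D hd1 hdE
    obtain ⟨x, hx⟩ : ∃ x : ℝ, x = N / (D : ℝ) ^ 2 := ⟨_, rfl⟩
    rw [← hx] at h1
    have hx1 : 1 ≤ x := h12.trans h1
    have hx0 : 0 < x := by linarith
    have hxN : x ≤ N := by
      rw [hx]
      exact div_le_self hNp.le (one_le_pow₀ hd1r)
    have hxc : 1 ≤ x ^ c := Real.one_le_rpow hx1 hc0.le
    obtain ⟨M, hM⟩ : ∃ M : ℕ, M = ⌊x ^ c⌋₊ := ⟨_, rfl⟩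
    have hM1 : (M : ℝ) ≤ x ^ c := hM ▸ Nat.floor_le (by positivity)
    have hM2 : x ^ c ≤ 2 * M := by
      have h2 : x ^ c < M + 1 := hM ▸ Nat.lt_floor_add_one _
      have h3 : (1 : ℝ) ≤ M := by
        have : 1 ≤ M := hM ▸ Nat.le_floor (by exact_mod_cast hxc)
        exact_mod_cast this
      linarith
    have hNc : N ^ c ≤ (D0 : ℝ) ^ 2 * x ^ c := by
      have h2 : N = (D : ℝ) ^ 2 * x := by
        rw [hx]
        field_simp
      have h3 : N ^ c = ((D : ℝ) ^ 2) ^ c * x ^ c := by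
        conv_lhs => rw [h2]
        exact Real.mul_rpow (by positivity) hx0.le
      have h4 : ((D : ℝ) ^ 2) ^ c ≤ (D : ℝ) ^ 2 := by
        calc ((D : ℝ) ^ 2) ^ c ≤ ((D : ℝ) ^ 2) ^ (1 : ℝ) :=
              Real.rpow_le_rpow_of_exponent_le (one_le_pow₀ hd1r) (by linarith)
          _ = (D : ℝ) ^ 2 := Real.rpow_one _
      have h5 : (D : ℝ) ^ 2 ≤ (D0 : ℝ) ^ 2 :=
        pow_le_pow_left₀ hd0.le (by exact_mod_cast hd2) 2
      rw [h3]
      exact mul_le_mul_of_nonneg_right (h4.trans h5) (by positivity)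
    have hcard : U.card ≤ m * M := by
      have h2 : (U.card : ℝ) ≤ m * M := by
        calc (U.card : ℝ) ≤ N ^ c * n := hUcn
          _ ≤ ((D0 : ℝ) ^ 2 * (2 * M)) * n := by
              refine mul_le_mul_of_nonneg_right (hNc.trans ?_) (by positivity)
              exact mul_le_mul_of_nonneg_left hM2 (by positivity)
          _ = (2 * n * (D0 : ℝ) ^ 2) * M := by ring
          _ ≤ m * M := mul_le_mul_of_nonneg_right hmge (by positivity)
      exact_mod_cast h2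
    have h6 := sum_pieces (fun w => ‖Maw (wD D wt) r1 r2 x w‖ ^ 2) M (ε / 16 / m)
      (by positivity) m U hcard (fun V hVU hVc => by
        refine hN2 x (((le_max_right _ _).trans g1).trans h1) (wD D wt)
          (Wy.wD hwt hd1 (Real.rpow_le_rpow hx0.le hxN hc0.le)) V
          (le_trans (by exact_mod_cast hVc) hM1) (fun f hf => h0 f (hVU hf)) (fun f hf => ?_)
        refine (hUj f (hVU hf)).trans ?_
        calc N = N ^ (1 / 2 : ℝ) * N ^ (1 / 2 : ℝ) := hsq2.symm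
          _ ≤ x * x := mul_le_mul h1 h1 (by positivity) hx0.le
          _ = x ^ 2 := by ring)
    rw [hS]
    simp only []
    rw [← hx]
    refine h6.trans (le_of_eq ?_)
    field_simp
  have hS2 : ∀ D : ℕ, 1 ≤ D → D ≤ E → S D ≤ C := by
    intro D hd1 hdE
    have h1 := hsmall D hd1 hdE
    have h2 : 1 ≤ N / (D : ℝ) ^ 2 := h12.trans h1
    exact hHm _ (((le_max_left _ _).trans g1).trans h1) U (hpow _ h1 ch' hch hc2)
      (fun j hj => by
        refine (hUj j hj).trans ?_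
        calc N = N ^ (1 / 2 : ℝ) * N ^ (1 / 2 : ℝ) := hsq2.symm
          _ ≤ (N / (D : ℝ) ^ 2) * (N / (D : ℝ) ^ 2) := mul_le_mul h1 h1 (by positivity)
              (by positivity)
          _ = (N / (D : ℝ) ^ 2) ^ 2 := by ring
          _ ≤ (N / (D : ℝ) ^ 2) ^ 4 := pow_le_pow_right₀ h2 (by norm_num))
      (fun i v => gw (wD D wt) (rep i) v) (fun i v => hwt.le _)
  have hS3 : ∀ D : ℕ, 1 ≤ D → S D ≤ N ^ (1 / 8 : ℝ) * T := by
    intro D hd1
    have hd0 : (0 : ℝ) < D := by exact_mod_cast hd1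
    calc S D ≤ ∑ w ∈ U, T := Finset.sum_le_sum fun w _ =>
          pow_le_pow_left₀ (norm_nonneg _)
            (UpW39.ma_le (fun n => hwt.le _) r1 r2 _ w (by positivity) hr20.le) 2
      _ = (U.card : ℝ) * T := by
          rw [Finset.sum_const, nsmul_eq_mul]
      _ ≤ N ^ (1 / 8 : ℝ) * T := by
          refine mul_le_mul_of_nonneg_right ?_ hT0
          exact hUc.trans (Real.rpow_le_rpow_of_exponent_le g3 hc3)
  -- the sum
  set Dm := ⌈r2 * N⌉₊ with hDd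
  have hDle : r2 * N ≤ Dm := Nat.le_ceil _
  have hterm : ∀ D ∈ Finset.Icc 1 Dm, (1 / (D : ℝ) ^ 2) * S D ≤ (1 / (D : ℝ) ^ 2) * (ε / 16) +
      (if D0 < D then 1 / (D : ℝ) ^ 2 else 0) * C +
      (if E < D then 1 / (D : ℝ) ^ 2 else 0) * (N ^ (1 / 8 : ℝ) * T) := by
    intro D hd
    have hd1 := (Finset.mem_Icc.1 hd).1
    have hd0 : (0 : ℝ) < D := by exact_mod_cast hd1
    have p1 : 0 ≤ (1 / (D : ℝ) ^ 2) * (ε / 16) := by positivity
    have p2 : 0 ≤ (if D0 < D then 1 / (D : ℝ) ^ 2 else 0) * C := by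
      split_ifs
      · positivity
      · rw [zero_mul]
    have p3 : 0 ≤ (if E < D then 1 / (D : ℝ) ^ 2 else 0) * (N ^ (1 / 8 : ℝ) * T) := by
      split_ifs
      · positivity
      · rw [zero_mul]
    rcases Nat.lt_or_ge D0 D with h1 | h1
    · rcases Nat.lt_or_ge E D with h2 | h2
      · rw [if_pos h2] at p3 ⊢
        have := mul_le_mul_of_nonneg_left (hS3 D hd1) (show 0 ≤ 1 / (D : ℝ) ^ 2 by positivity)
        linarith
      · rw [if_pos h1] at p2 ⊢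
        have := mul_le_mul_of_nonneg_left (hS2 D hd1 h2) (show 0 ≤ 1 / (D : ℝ) ^ 2 by positivity)
        linarith
    · have := mul_le_mul_of_nonneg_left (hS1 D hd1 h1) (show 0 ≤ 1 / (D : ℝ) ^ 2 by positivity)
      linarith
  have hsum : ∑ D ∈ Finset.Icc 1 Dm, (1 / (D : ℝ) ^ 2) * S D ≤ ε / 2 := by
    refine (Finset.sum_le_sum hterm).trans ?_
    rw [Finset.sum_add_distrib, Finset.sum_add_distrib, ← Finset.sum_mul, ← Finset.sum_mul,
      ← Finset.sum_mul]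
    have q1 := mul_le_mul_of_nonneg_right (total Dm) (show 0 ≤ ε / 16 by positivity)
    have q2 : (∑ D ∈ Finset.Icc 1 Dm, if D0 < D then 1 / (D : ℝ) ^ 2 else 0) * C ≤ ε / 16 := by
      have := mul_le_mul_of_nonneg_right (tail D0 Dm hD0n) hC.le
      refine this.trans (le_trans (le_of_eq ?_) hCD)
      ring
    have q3 : (∑ D ∈ Finset.Icc 1 Dm, if E < D then 1 / (D : ℝ) ^ 2 else 0) *
        (N ^ (1 / 8 : ℝ) * T) ≤ ε / 16 := by
      have := mul_le_mul_of_nonneg_right (tail E Dm hEn)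
        (show 0 ≤ N ^ (1 / 8 : ℝ) * T by positivity)
      refine this.trans ?_
      have h1 : (1 : ℝ) / E ≤ 2 / N ^ (1 / 4 : ℝ) := by
        rw [div_le_div_iff₀ hE0 (by positivity)]
        linarith
      have h2 : N ^ (1 / 8 : ℝ) * N ^ (1 / 8 : ℝ) = N ^ (1 / 4 : ℝ) := by
        rw [← Real.rpow_add hNp]
        norm_num
      have h3 : (0 : ℝ) < N ^ (1 / 8 : ℝ) := by positivity
      calc 1 / (E : ℝ) * (N ^ (1 / 8 : ℝ) * T) ≤
            2 / N ^ (1 / 4 : ℝ) * (N ^ (1 / 8 : ℝ) * T) :=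
            mul_le_mul_of_nonneg_right h1 (by positivity)
        _ = 2 * T / N ^ (1 / 8 : ℝ) := by
            rw [← h2]
            field_simp
        _ ≤ ε / 16 := by
            rw [div_le_div_iff₀ h3 (by norm_num)]
            rw [div_le_iff₀ hε] at g4
            linarith
    linarith
  -- all together
  have e1 : ∀ (F : Fq d K → ℝ), ∑ w ∈ U, F w = ∑ j ∈ J, ∑ k, F ⟨j, k⟩ := by
    intro F
    rw [hUd, Finset.sum_sigma]
  have e2 : ∀ D : ℕ, S D = ∑ j ∈ J, ∑ ib, ‖VAw d K (wD D wt) r1 r2 (N / (D : ℝ) ^ 2) j ib‖ ^ 2 := by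
    intro D
    rw [hS]
    simp only []
    rw [e1]
    exact Finset.sum_congr rfl fun j _ => (hPar (wD D wt) r1 r2 (N / (D : ℝ) ^ 2) j).2.2.1
  calc ∑ w ∈ U0, ‖Mpw wt r1 r2 N w‖ ^ 2 ≤ ∑ w ∈ U, ‖Mpw wt r1 r2 N w‖ ^ 2 :=
        Finset.sum_le_sum_of_subset_of_nonneg hUsub fun _ _ _ => by positivity
    _ = ∑ j ∈ J, ∑ ia, ‖VPw d K wt r1 r2 N j ia‖ ^ 2 := by
        rw [e1]
        exact Finset.sum_congr rfl fun j _ => (hPar wt r1 r2 N j).2.2.2
    _ ≤ ∑ j ∈ J, 2 * n ^ 2 * ∑ D ∈ Finset.Icc 1 Dm, (1 / (D : ℝ) ^ 2) *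
        ∑ ib, ‖VAw d K (wD D wt) r1 r2 (N / (D : ℝ) ^ 2) j ib‖ ^ 2 :=
        Finset.sum_le_sum fun j _ => UpW39.one_freq wt r1 r2 N j hNp Dm hDle
    _ = 2 * n ^ 2 * ∑ D ∈ Finset.Icc 1 Dm, (1 / (D : ℝ) ^ 2) * S D := by
        rw [← Finset.mul_sum, Finset.sum_comm]
        congr 1
        refine Finset.sum_congr rfl fun D _ => ?_
        rw [e2, Finset.mul_sum]
    _ ≤ 2 * n ^ 2 * (ε / 2) := mul_le_mul_of_nonneg_left hsum (by positivity)
    _ = ε0 := by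
        rw [hεd]
        field_simp

end Pool.Agent.Lib.MP_a17b09_nt.PQ
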