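import Pool.Agent.Lib.MP_a17b09_nt.PQ.StmtsX79

/-!
Project PX, module X10, first part (helper96): the choice of the windows for given exponents.
-/

set_option autoImplicit false

open Filter Topology Finset

namespace Pool.Agent.Lib.MP_a17b09_nt.PQ

namespace WC96

theorem ev_small (c : ℝ) {y : ℝ} (hy : 0 < y) : ∀ᶠ η : ℝ in 𝓝[>] (0 : ℝ), c * η < y := by
  have h : Tendsto (fun η : ℝ => c * η) (𝓝[>] (0 : ℝ)) (𝓝 0) := by
    have h1 : Tendsto (fun η : ℝ => c * η) (𝓝 (0 : ℝ)) (𝓝 (c * 0)) :=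
      tendsto_id.const_mul c
    rw [mul_zero] at h1
    exact h1.mono_left nhdsWithin_le_nhds
  exact h.eventually_lt_const hy

end WC96

/-- windows just below the given exponents -/
theorem win96 {m : ℕ} (x : Fin m → ℝ) (hx : ∀ i, 0 < x i) (hs : ∑ i, x i = 1) {δ : ℝ}
    (hδ : 0 < δ) : ∃ I : Fin m → ℝ × ℝ, Function.Injective I ∧ GoodX (Finset.univ.image I) ∧
      (∀ i, x i - δ < (I i).1 ∧ (I i).2 < x i) ∧ 1 - δ < ∑ i, (I i).1 := by
  classical
  have hm : 0 < m := by
    rcases Nat.eq_zero_or_pos m with rfl | h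
    · simp at hs
    · exact h
  -- the conditions on `η`
  have e1 : ∀ᶠ η : ℝ in 𝓝[>] (0 : ℝ), ∀ i j : Fin m, x i < x j →
      (2 * (m : ℝ)) * η < x j - x i := by
    rw [eventually_all]
    intro i
    rw [eventually_all]
    intro j
    by_cases h : x i < x j
    · filter_upwards [WC96.ev_small (2 * (m : ℝ)) (sub_pos.2 h)] with η hη _
      exact hη
    · exact Eventually.of_forall fun η h' => absurd h' h
  have e2 : ∀ᶠ η : ℝ in 𝓝[>] (0 : ℝ), ∀ i : Fin m,
      (2 * (m : ℝ) * m + 2 * m) * η < x i := by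
    rw [eventually_all]
    intro i
    exact WC96.ev_small _ (hx i)
  have e3 := WC96.ev_small (2 * (m : ℝ) * m + 2 * m) hδ
  have e4 : ∀ᶠ η : ℝ in 𝓝[>] (0 : ℝ), 0 < η := eventually_mem_nhdsWithin
  obtain ⟨η, h1, h2, h3, h0⟩ := (e1.and (e2.and (e3.and e4))).exists
  have hm1 : (1 : ℝ) ≤ m := by exact_mod_cast hm
  have hmη : 0 < (m : ℝ) * η := by positivity
  have hmm : (m : ℝ) * η ≤ m * m * η := by nlinarith
  -- the windows
  set I : Fin m → ℝ × ℝ := fun i =>
    (x i - (2 * (i : ℝ) + 2) * η, x i - (2 * (i : ℝ) + 1) * η) with hI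
  have hi : ∀ i : Fin m, 0 ≤ ((i : ℕ) : ℝ) ∧ ((i : ℕ) : ℝ) + 1 ≤ m := fun i =>
    ⟨Nat.cast_nonneg _, by exact_mod_cast i.2⟩
  have hlen : ∀ i, (I i).1 < (I i).2 := fun i => by
    simp only [hI]
    nlinarith
  have hlow : ∀ i, x i - 2 * m * η ≤ (I i).1 := fun i => by
    simp only [hI]
    have := (hi i).2
    nlinarith [mul_le_mul_of_nonneg_right this h0.le]
  have hup : ∀ i, (I i).2 ≤ x i - η := fun i => by
    simp only [hI]
    have := (hi i).1
    nlinarith [mul_nonneg this h0.le]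
  -- disjointness
  have hdis0 : ∀ i j : Fin m, i ≠ j → x i ≤ x j → (I i).2 ≤ (I j).1 ∨ (I j).2 ≤ (I i).1 := by
    intro i j hij hxx
    rcases hxx.lt_or_eq with hlt | heq
    · left
      have := h1 i j hlt
      have h5 := hlow j
      have h6 := hup i
      nlinarith
    · simp only [hI, heq]
      have hne : (i : ℕ) ≠ (j : ℕ) := fun h => hij (Fin.ext h)
      rcases Nat.lt_or_gt_of_ne hne with h | h
      · right
        have h5 : ((i : ℕ) : ℝ) + 1 ≤ (j : ℕ) := by exact_mod_cast h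
        nlinarith [mul_le_mul_of_nonneg_right h5 h0.le]
      · left
        have h5 : ((j : ℕ) : ℝ) + 1 ≤ (i : ℕ) := by exact_mod_cast h
        nlinarith [mul_le_mul_of_nonneg_right h5 h0.le]
  have hdis : ∀ i j : Fin m, i ≠ j → (I i).2 ≤ (I j).1 ∨ (I j).2 ≤ (I i).1 := by
    intro i j hij
    rcases le_total (x i) (x j) with h | h
    · exact hdis0 i j hij h
    · exact (hdis0 j i hij.symm h).symm
  have hinj : Function.Injective I := by
    intro i j hij
    by_contra hne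
    have h5 := hdis i j hne
    rw [← hij, or_self] at h5
    exact absurd (hlen i) (not_lt.2 h5)
  have hsum1 : ∑ i, (I i).1 = 1 - ∑ i : Fin m, (2 * (i : ℝ) + 2) * η := by
    simp only [hI]
    rw [Finset.sum_sub_distrib, hs]
  have hsum2 : ∑ i, (I i).2 = 1 - ∑ i : Fin m, (2 * (i : ℝ) + 1) * η := by
    simp only [hI]
    rw [Finset.sum_sub_distrib, hs]
  have hS1 : ∑ i : Fin m, (2 * (i : ℝ) + 2) * η ≤ 2 * m * m * η := by
    calc ∑ i : Fin m, (2 * (i : ℝ) + 2) * η ≤ ∑ _i : Fin m, (2 * (m : ℝ)) * η := by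
          refine Finset.sum_le_sum fun i _ => ?_
          apply mul_le_mul_of_nonneg_right _ h0.le
          have := (hi i).2
          linarith
      _ = 2 * m * m * η := by
          rw [Finset.sum_const, Finset.card_univ, Fintype.card_fin, nsmul_eq_mul]
          ring
  have hS2 : 0 < ∑ i : Fin m, (2 * (i : ℝ) + 1) * η := by
    refine Finset.sum_pos (fun i _ => ?_) ⟨⟨0, hm⟩, Finset.mem_univ _⟩
    have := (hi i).1
    positivity
  have himg : ∀ f : ℝ × ℝ → ℝ, ∑ J ∈ Finset.univ.image I, f J = ∑ i, f (I i) := fun f =>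
    Finset.sum_image fun i _ j _ h => hinj h
  refine ⟨I, hinj, ⟨?_, ?_, ?_, ?_⟩, ?_, ?_⟩
  · intro J hJ
    obtain ⟨i, -, rfl⟩ := Finset.mem_image.1 hJ
    refine ⟨?_, hlen i⟩
    have h5 := hlow i
    have h6 := h2 i
    nlinarith
  · intro J hJ K hK hne
    obtain ⟨i, -, rfl⟩ := Finset.mem_image.1 hJ
    obtain ⟨j, -, rfl⟩ := Finset.mem_image.1 hK
    exact hdis i j fun h => hne (by rw [h])
  · rw [himg, hsum2]
    linarith
  · intro J hJ
    obtain ⟨i, -, rfl⟩ := Finset.mem_image.1 hJ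
    rw [himg, hsum1]
    have h5 := hlow i
    have h6 := h2 i
    nlinarith
  · intro i
    refine ⟨?_, ?_⟩
    · have h5 := hlow i
      nlinarith
    · have h5 := hup i
      linarith
  · rw [hsum1]
    nlinarith

end Pool.Agent.Lib.MP_a17b09_nt.PQ
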